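import Pool.Agent.Lib.MP_cc5166_ag.Defs2

universe u

namespace CC5166

variable (k : Type u) [Field k] (M : ℕ)

/-- Artin-Rees for ideals, with an exponent as large as we like. -/
theorem AR.aux {R : Type u} [CommRing R] [IsNoetherianRing R] (I Q : Ideal R) (M : ℕ) :
    ∃ δ : ℕ, M ≤ δ ∧ ∀ N, δ ≤ N → Q ⊓ I ^ N = I ^ (N - δ) * (Q ⊓ I ^ δ) := by
  obtain ⟨k₀, hk₀⟩ := Ideal.exists_pow_inf_eq_pow_smul I (Q : Submodule R R)
  have key : ∀ n, k₀ ≤ n → Q ⊓ I ^ n = I ^ (n - k₀) * (Q ⊓ I ^ k₀) := by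
    intro n hn
    have h := hk₀ n hn
    simp only [smul_eq_mul, Ideal.mul_top] at h
    rw [inf_comm, h, inf_comm]
  refine ⟨max k₀ M, le_max_right _ _, fun N hN => ?_⟩
  rw [key N ((le_max_left _ _).trans hN), key (max k₀ M) (le_max_left _ _), ← mul_assoc, ← pow_add]
  congr 2
  have h1 : k₀ ≤ max k₀ M := le_max_left _ _
  omega

theorem exists_delta (hM : 3 ≤ M) : ∃ δ : ℕ, M ≤ δ ∧ ∀ N, δ ≤ N →
    Qk k M hM ⊓ TI k M ^ N = TI k M ^ (N - δ) * (Qk k M hM ⊓ TI k M ^ δ) := by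
  exact AR.aux (TI k M) (Qk k M hM) M

end CC5166
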