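import Pool.Agent.Lib.MP_cc5166_ag.Defs2

universe u

namespace CC5166

section

variable {R : Type u} [CommRing R] (J : Ideal R)

/-- the connecting homomorphism of a state functor. -/
noncomputable def SF.dd {V : Type} (G : SF R V) {v : V} {a b c : V → Fin 3} (h : Tri v a b c)
    (i : ℕ) : H J i (G.obj c) →ₗ[R] H J (i + 1) (G.obj a) :=
  H.δ J i (G.res h.le₁) (G.res h.le₂) (G.inj h) (G.exact h) (G.surj h)

lemma SF.dd_nat {V : Type} {G G' : SF R V} (β : NT G G') {v : V} {a b c : V → Fin 3}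
    (h : Tri v a b c) (i : ℕ) (z : H J i (G.obj c)) :
    G'.dd J h i (H.map J i (β.app c) z) = H.map J (i + 1) (β.app a) (G.dd J h i z) := by
  refine H.δ_naturality J _ _ _ _ _ i _ _ _ _ _ (β.app a) (β.app b) (β.app c) ?_ ?_ z
  · exact LinearMap.ext fun x => (β.nat h.le₁ x).symm
  · exact LinearMap.ext fun x => (β.nat h.le₂ x).symm

lemma SF.dd_bijective {V : Type} (G : SF R V) {v : V} {a b c : V → Fin 3} (h : Tri v a b c)
    (hb : ∀ l, Subsingleton (H J l (G.obj b))) (i : ℕ) : Function.Bijective (G.dd J h i) := by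
  constructor
  · rw [injective_iff_map_eq_zero]
    intro z hz
    obtain ⟨w, rfl⟩ := (H.exact_map_δ J _ _ (G.inj h) (G.exact h) (G.surj h) i z).mp hz
    have := hb i
    rw [Subsingleton.elim w 0, map_zero]
  · intro z
    have := hb (i + 1)
    exact (H.exact_δ_map J _ _ (G.inj h) (G.exact h) (G.surj h) i z).mp (Subsingleton.elim _ _)

variable {n : ℕ}

/-- the state with the first `m` variables in state `0` and the others in state `2`. -/
def cq (n m : ℕ) : Fin n → Fin 3 := fun j => if j.1 < m then 0 else 2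

/-- the state `cq` with the variable `m` in state `1`. -/
def cq1 (n m : ℕ) : Fin n → Fin 3 := fun j => if j.1 < m then 0 else if j.1 = m then 1 else 2

lemma tri_cq {m : ℕ} (h : m < n) : Tri (⟨m, h⟩ : Fin n) (cq n (m + 1)) (cq1 n m) (cq n m) where
  ha := by simp [cq]
  hb := by simp [cq1]
  hc := by simp [cq]
  hab := by
    intro w hw
    have hw' : w.1 ≠ m := fun h1 => hw (Fin.ext h1)
    simp only [cq, cq1]
    by_cases h1 : w.1 < m
    · rw [if_pos h1, if_pos (by omega)]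
    · rw [if_neg h1, if_neg (by omega), if_neg hw']
  hbc := by
    intro w hw
    have hw' : w.1 ≠ m := fun h1 => hw (Fin.ext h1)
    simp only [cq, cq1]
    by_cases h1 : w.1 < m
    · rw [if_pos h1, if_pos h1]
    · rw [if_neg h1, if_neg h1, if_neg hw']

/-- changing the states of `q` from `2` to `0` one by one. -/
noncomputable def conv (E : SF R (Fin n)) (i : ℕ) : (m : ℕ) → m ≤ n →
    (H J i (E.obj (cq n 0)) →ₗ[R] H J (i + m) (E.obj (cq n m)))
  | 0, _ => LinearMap.id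
  | m + 1, h => (E.dd J (tri_cq h) (i + m)).comp (conv E i m (Nat.le_of_succ_le h))

lemma conv_nat {E E' : SF R (Fin n)} (β : NT E E') (i : ℕ) : ∀ (m : ℕ) (h : m ≤ n)
    (z : H J i (E.obj (cq n 0))), conv J E' i m h (H.map J i (β.app _) z) =
      H.map J (i + m) (β.app _) (conv J E i m h z)
  | 0, _, z => rfl
  | m + 1, h, z => by
    change E'.dd J (tri_cq h) (i + m) (conv J E' i m _ (H.map J i (β.app _) z)) =
      H.map J (i + m + 1) (β.app _) (E.dd J (tri_cq h) (i + m) (conv J E i m _ z))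
    rw [conv_nat β i m (Nat.le_of_succ_le h) z, SF.dd_nat]

/-- acyclicity at the states with a `1`. -/
def Acy (E : SF R (Fin n)) : Prop :=
  ∀ (σ : Fin n → Fin 3) (j : Fin n), σ j = 1 → ∀ l : ℕ, Subsingleton (H J l (E.obj σ))

lemma conv_bijective {E : SF R (Fin n)} (hE : Acy J E) (i : ℕ) : ∀ (m : ℕ) (h : m ≤ n),
    Function.Bijective (conv J E i m h)
  | 0, _ => Function.bijective_id
  | m + 1, h => by
    have h1 := conv_bijective hE i m (Nat.le_of_succ_le h)
    have h2 := SF.dd_bijective J E (tri_cq h)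
      (hE _ (⟨m, h⟩ : Fin n) (tri_cq h).hb) (i + m)
    exact h2.comp h1

/-- vanishing of low degrees. -/
lemma conv_low {E : SF R (Fin n)} (hE : Acy J E) : ∀ (m : ℕ) (_ : m ≤ n) (l : ℕ), l < m →
    Subsingleton (H J l (E.obj (cq n m)))
  | 0, _, l, hl => absurd hl (Nat.not_lt_zero l)
  | m + 1, h, 0, _ => by
    have h1 := hE _ (⟨m, h⟩ : Fin n) (tri_cq h).hb 0
    have h2 := H.map_injective₀ J _ _ (E.inj (tri_cq h)) (E.exact (tri_cq h)) (E.surj (tri_cq h))
    exact ⟨fun x y => h2 (Subsingleton.elim _ _)⟩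
  | m + 1, h, l + 1, hl => by
    have h1 := conv_low hE m (Nat.le_of_succ_le h) l (by omega)
    have h2 := SF.dd_bijective J E (tri_cq h) (hE _ (⟨m, h⟩ : Fin n) (tri_cq h).hb) l
    refine ⟨fun x y => ?_⟩
    obtain ⟨x, rfl⟩ := h2.2 x
    obtain ⟨y, rfl⟩ := h2.2 y
    rw [Subsingleton.elim x y]

/-- states of a block. -/
def mks (a b : Fin 3) (s : Fin n → Fin 3) : Bl n → Fin 3
  | .y i => if i = 0 then a else b
  | .q j => s j

lemma mks_mono {a b a' b' : Fin 3} {s s' : Fin n → Fin 3} (ha : a ≤ a') (hb : b ≤ b')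
    (hs : s ≤ s') : mks a b s ≤ mks a' b' s' := by
  intro v
  cases v with
  | y i =>
    simp only [mks]
    split_ifs
    · exact ha
    · exact hb
  | q j => exact hs j

lemma tri_mks_q (a b : Fin 3) {j : Fin n} {s s1 s2 : Fin n → Fin 3} (h : Tri j s s1 s2) :
    Tri (.q j : Bl n) (mks a b s) (mks a b s1) (mks a b s2) where
  ha := h.ha
  hb := h.hb
  hc := h.hc
  hab := by
    intro w hw
    cases w with
    | y i => rfl
    | q j' => exact h.hab j' fun h1 => hw (by rw [h1])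
  hbc := by
    intro w hw
    cases w with
    | y i => rfl
    | q j' => exact h.hbc j' fun h1 => hw (by rw [h1])

lemma tri_mks_y0 (b : Fin 3) (s : Fin n → Fin 3) :
    Tri (.y 0 : Bl n) (mks 0 b s) (mks 1 b s) (mks 2 b s) where
  ha := rfl
  hb := rfl
  hc := rfl
  hab := by
    intro w hw
    cases w with
    | y i =>
      have : i ≠ 0 := fun h1 => hw (by rw [h1])
      simp only [mks, if_neg this]
    | q j' => rfl
  hbc := by
    intro w hw
    cases w with
    | y i =>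
      have : i ≠ 0 := fun h1 => hw (by rw [h1])
      simp only [mks, if_neg this]
    | q j' => rfl

lemma tri_mks_y1 (a : Fin 3) (s : Fin n → Fin 3) :
    Tri (.y 1 : Bl n) (mks a 0 s) (mks a 1 s) (mks a 2 s) where
  ha := rfl
  hb := rfl
  hc := rfl
  hab := by
    intro w hw
    cases w with
    | y i =>
      have : i = 0 := by
        by_contra h1
        exact hw (by rw [Fin.eq_one_of_ne_zero i h1])
      simp only [mks, if_pos this]
    | q j' => rfl
  hbc := by
    intro w hw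
    cases w with
    | y i =>
      have : i = 0 := by
        by_contra h1
        exact hw (by rw [Fin.eq_one_of_ne_zero i h1])
      simp only [mks, if_pos this]
    | q j' => rfl

/-- fixing the states of `y`. -/
noncomputable def SF.slice (G : SF R (Bl n)) (a b : Fin 3) : SF R (Fin n) where
  obj s := G.obj (mks a b s)
  acg _ := G.acg _
  mod _ := G.mod _
  res h := G.res (mks_mono le_rfl le_rfl h)
  res_self _ x := G.res_self _ x
  res_res _ _ x := G.res_res _ _ x
  inj h := G.inj (tri_mks_q a b h)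
  exact h := G.exact (tri_mks_q a b h)
  surj h := G.surj (tri_mks_q a b h)

/-- fixing the states of `y` in a natural transformation. -/
noncomputable def NT.slice {G G' : SF R (Bl n)} (α : NT G G') (a b : Fin 3) :
    NT (G.slice a b) (G'.slice a b) where
  app _ := α.app _
  nat _ x := α.nat _ x

/-- changing the states of `y`. -/
noncomputable def SF.sliceNT (G : SF R (Bl n)) {a b a' b' : Fin 3} (ha : a ≤ a') (hb : b ≤ b') :
    NT (G.slice a b) (G.slice a' b') where
  app _ := G.res (mks_mono ha hb le_rfl)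
  nat _ x := (G.res_res _ _ x).trans (G.res_res _ _ x).symm

/-- two surjections with the same kernel. -/
lemma exists_iso_of_surj {U A B U' A' B' : Type u} [AddCommGroup U] [Module R U]
    [AddCommGroup A] [Module R A] [AddCommGroup B] [Module R B] [AddCommGroup U'] [Module R U']
    [AddCommGroup A'] [Module R A'] [AddCommGroup B'] [Module R B']
    (f : U →ₗ[R] A) (g : U →ₗ[R] B) (f' : U' →ₗ[R] A') (g' : U' →ₗ[R] B')
    (hf : Function.Surjective f) (hg : Function.Surjective g)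
    (hf' : Function.Surjective f') (hg' : Function.Surjective g')
    (h : ∀ u, f u = 0 ↔ g u = 0) (h' : ∀ u, f' u = 0 ↔ g' u = 0)
    (αU : U →ₗ[R] U') (αA : A →ₗ[R] A') (αB : B →ₗ[R] B')
    (hA : ∀ u, f' (αU u) = αA (f u)) (hB : ∀ u, g' (αU u) = αB (g u)) :
    ∃ (e : A ≃ₗ[R] B) (e' : A' ≃ₗ[R] B'), ∀ z, αB (e z) = e' (αA z) := by
  have key : ∀ {U A B : Type u} [AddCommGroup U] [Module R U] [AddCommGroup A] [Module R A]
      [AddCommGroup B] [Module R B] (f : U →ₗ[R] A) (g : U →ₗ[R] B),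
      Function.Surjective f → Function.Surjective g → (∀ u, f u = 0 ↔ g u = 0) →
      ∃ e : A ≃ₗ[R] B, ∀ u, e (f u) = g u := by
    intro U A B _ _ _ _ _ _ f g hf hg h
    have hk : LinearMap.ker f = LinearMap.ker g := by
      ext u
      exact h u
    refine ⟨(LinearMap.quotKerEquivOfSurjective f hf).symm.trans
      ((Submodule.quotEquivOfEq _ _ hk).trans (LinearMap.quotKerEquivOfSurjective g hg)), ?_⟩
    intro u
    have h1 : (LinearMap.quotKerEquivOfSurjective f hf).symm (f u) =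
        Submodule.Quotient.mk u := by
      rw [LinearEquiv.symm_apply_eq]
      rfl
    rw [LinearEquiv.trans_apply, h1]
    rfl
  obtain ⟨e, he⟩ := key f g hf hg h
  obtain ⟨e', he'⟩ := key f' g' hf' hg' h'
  refine ⟨e, e', fun z => ?_⟩
  obtain ⟨u, rfl⟩ := hf z
  rw [he, ← hA, he', hB]

section Main

variable {c : ℕ} {G : SF R (Bl n)} (hG : Good J c G)

include hG

lemma Good.acy_slice {a b : Fin 3} (hab : a = 1 ∨ b = 1) : Acy J (G.slice a b) := by
  intro σ j hj l
  rcases hab with rfl | rfl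
  · exact hG.acy (mks 1 b σ) 0 j rfl hj l
  · exact hG.acy (mks a 1 σ) 1 j rfl hj l

lemma Good.torq' (a b : Fin 3) {l : ℕ} (hl : c < l) :
    Subsingleton (H J l (G.obj (mks a b (cq n 0)))) :=
  hG.torq _ (fun j => by simp [mks, cq]) l hl

lemma Good.tory' (s : Fin n → Fin 3) {l : ℕ} (hl : c < l) :
    Subsingleton (H J l (G.obj (mks 2 2 s))) :=
  hG.tory _ (fun i => by simp [mks]) l hl

/-- `H^j(X_{20;0}) → H^j(X_{21;0})` is bijective for `j ≥ c + 2`. -/
lemma Good.rho_bijective {j : ℕ} (hj : c + 2 ≤ j) (s : Fin n → Fin 3) :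
    Function.Bijective (H.map J j (G.res (tri_mks_y1 2 s).le₁)) := by
  obtain ⟨j, rfl⟩ : ∃ i, j = i + 1 := ⟨j - 1, by omega⟩
  have h := tri_mks_y1 (n := n) 2 s
  constructor
  · rw [injective_iff_map_eq_zero]
    intro z hz
    obtain ⟨w, rfl⟩ := (H.exact_δ_map J _ _ (G.inj h) (G.exact h) (G.surj h) j z).mp hz
    have := hG.tory' J s (l := j) (by omega)
    rw [Subsingleton.elim w 0, map_zero]
  · intro z
    have := hG.tory' J s (l := j + 1) (by omega)
    exact (H.exact_map_map J _ _ (G.inj h) (G.exact h) (G.surj h) (j + 1) z).mp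
      (Subsingleton.elim _ _)

end Main

lemma SF.map_res {V : Type} (G : SF R V) {σ τ ρ : V → Fin 3} (h : σ ≤ τ) (h' : τ ≤ ρ) (i : ℕ)
    (z : H J i (G.obj σ)) :
    H.map J i (G.res h') (H.map J i (G.res h) z) = H.map J i (G.res (h.trans h')) z := by
  rw [H.map_comp_apply]
  congr 1
  congr 1
  exact LinearMap.ext fun x => G.res_res h h' x

lemma NT.map_nat {V : Type} {G G' : SF R V} (α : NT G G') {σ τ : V → Fin 3} (h : σ ≤ τ) (i : ℕ)
    (z : H J i (G.obj σ)) :
    H.map J i (G'.res h) (H.map J i (α.app σ) z) = H.map J i (α.app τ) (H.map J i (G.res h) z) := by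
  rw [H.map_comp_apply, H.map_comp_apply]
  congr 1
  congr 1
  exact LinearMap.ext fun x => α.nat h x

section Main2

variable {c : ℕ} {G : SF R (Bl n)} (hG : Good J c G)

include hG

lemma Good.high {a b : Fin 3} (hab : a = 1 ∨ b = 1) {j : ℕ} (hj : c + n < j) :
    Subsingleton (H J j (G.obj (mks a b (cq n n)))) := by
  obtain ⟨i, rfl⟩ : ∃ i, j = i + n := ⟨j - n, by omega⟩
  have h1 := conv_bijective J (hG.acy_slice J hab) i n le_rfl
  have h2 := hG.torq' J a b (l := i) (by omega)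
  refine ⟨fun x y => ?_⟩
  obtain ⟨x, rfl⟩ := h1.2 x
  obtain ⟨y, rfl⟩ := h1.2 y
  congr 1
  exact h2.elim _ _

lemma Good.low {a b : Fin 3} (hab : a = 1 ∨ b = 1) {j : ℕ} (hj : j < n) :
    Subsingleton (H J j (G.obj (mks a b (cq n n)))) :=
  conv_low J (hG.acy_slice J hab) n le_rfl j hj

omit hG in
lemma le1020 : (mks 1 0 : (Fin n → Fin 3) → _) ≤ mks 2 0 :=
  fun s => mks_mono (by decide) le_rfl le_rfl

omit hG in
lemma le1021 (s : Fin n → Fin 3) : mks 1 0 s ≤ mks 2 1 s :=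
  mks_mono (by decide) (by decide) le_rfl

omit hG in
/-- conversion is compatible with the map `X_{10} → X_{21}`. -/
lemma conv_g (G : SF R (Bl n)) (i : ℕ) (v : H J i (G.obj (mks 1 0 (cq n 0)))) :
    conv J (G.slice 2 1) i n le_rfl (H.map J i (G.res (le1021 (cq n 0))) v) =
      H.map J (i + n) (G.res (le1021 (cq n n))) (conv J (G.slice 1 0) i n le_rfl v) :=
  conv_nat J (G.sliceNT (a := 1) (b := 0) (a' := 2) (b' := 1) (by decide) (by decide)) i n le_rfl v

/-- the zigzag map `H^c(X_{21;2}) → H^{c+n+1}(X_{00;0})`. -/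
noncomputable def psiB (hn : 2 ≤ n) :
    H J c (G.obj (mks 2 1 (cq n 0))) →ₗ[R] H J (c + n + 1) (G.obj (mks 0 0 (cq n n))) :=
  (G.dd J (tri_mks_y0 0 (cq n n)) (c + n)).comp
    ((LinearEquiv.ofBijective _
      (hG.rho_bijective J (j := c + n) (by omega) (cq n n))).symm.toLinearMap.comp
      (conv J (G.slice 2 1) c n le_rfl))

lemma psiB_eq (hn : 2 ≤ n) (u : H J c (G.obj (mks 2 1 (cq n 0))))
    (w : H J (c + n) (G.obj (mks 2 0 (cq n n))))
    (h : H.map J (c + n) (G.res (tri_mks_y1 2 (cq n n)).le₁) w =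
      conv J (G.slice 2 1) c n le_rfl u) :
    psiB J hG hn u = G.dd J (tri_mks_y0 0 (cq n n)) (c + n) w := by
  have h1 : (LinearEquiv.ofBijective _
      (hG.rho_bijective J (j := c + n) (by omega) (cq n n))).symm
      (conv J (G.slice 2 1) c n le_rfl u) = w :=
    (LinearEquiv.symm_apply_eq _).mpr h.symm
  change G.dd J (tri_mks_y0 0 (cq n n)) (c + n) ((LinearEquiv.ofBijective _
      (hG.rho_bijective J (j := c + n) (by omega) (cq n n))).symm
      (conv J (G.slice 2 1) c n le_rfl u)) = _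
  rw [h1]

lemma psiB_surjective (hn : 2 ≤ n) : Function.Surjective (psiB J hG hn) := by
  intro z
  have h := tri_mks_y0 (n := n) 0 (cq n n)
  have h1 := hG.high J (a := 1) (b := 0) (Or.inl rfl) (j := c + n + 1) (by omega)
  obtain ⟨w, rfl⟩ := (H.exact_δ_map J _ _ (G.inj h) (G.exact h) (G.surj h) (c + n) z).mp
    (h1.elim _ _)
  obtain ⟨u, hu⟩ := (conv_bijective J (hG.acy_slice J (a := 2) (b := 1) (Or.inr rfl)) c n
    le_rfl).2 (H.map J (c + n) (G.res (tri_mks_y1 2 (cq n n)).le₁) w)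
  exact ⟨u, psiB_eq J hG hn u w hu.symm⟩

lemma psiB_ker (hn : 2 ≤ n) (u : H J c (G.obj (mks 2 1 (cq n 0)))) :
    psiB J hG hn u = 0 ↔ H.map J c (G.res (tri_mks_y1 2 (cq n 0)).le₂) u = 0 := by
  obtain ⟨w, hw⟩ := (hG.rho_bijective J (j := c + n) (by omega) (cq n n)).2
    (conv J (G.slice 2 1) c n le_rfl u)
  rw [psiB_eq J hG hn u w hw]
  have hy0 := tri_mks_y0 (n := n) 0 (cq n n)
  have hy0' := tri_mks_y0 (n := n) 0 (cq n 0)
  have hy1 := tri_mks_y1 (n := n) 2 (cq n n)
  have hy1' := tri_mks_y1 (n := n) 2 (cq n 0)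
  have hc21 := conv_bijective J (hG.acy_slice J (a := 2) (b := 1) (Or.inr rfl)) c n le_rfl
  have hc10 := conv_bijective J (hG.acy_slice J (a := 1) (b := 0) (Or.inl rfl)) c n le_rfl
  constructor
  · intro h
    obtain ⟨v, rfl⟩ := (H.exact_map_δ J _ _ (G.inj hy0) (G.exact hy0) (G.surj hy0) (c + n) w).mp h
    obtain ⟨v0, rfl⟩ := hc10.2 v
    have h1 : u = H.map J c (G.res (le1021 (cq n 0))) v0 := by
      apply hc21.1
      rw [conv_g J G c v0, ← hw]
      exact G.map_res J _ _ _ _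
    have h2 : H.map J c (G.res (le1021 (cq n 0))) v0 =
        H.map J c (G.res hy1'.le₁) (H.map J c (G.res hy0'.le₂) v0) :=
      (G.map_res J _ _ _ _).symm
    rw [h1, h2]
    exact (H.exact_map_map J _ _ (G.inj hy1') (G.exact hy1') (G.surj hy1') c _).mpr ⟨_, rfl⟩
  · intro h
    obtain ⟨x, rfl⟩ := (H.exact_map_map J _ _ (G.inj hy1') (G.exact hy1') (G.surj hy1') c u).mp h
    have h3 := hG.torq' J 0 0 (l := c + 1) (by omega)
    obtain ⟨v0, rfl⟩ := (H.exact_map_δ J _ _ (G.inj hy0') (G.exact hy0') (G.surj hy0') c x).mp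
      (h3.elim _ _)
    have h4 : w = H.map J (c + n) (G.res hy0.le₂) (conv J (G.slice 1 0) c n le_rfl v0) := by
      apply (hG.rho_bijective J (j := c + n) (by omega) (cq n n)).1
      rw [hw]
      have h5 : H.map J c (G.res hy1'.le₁) (H.map J c (G.res hy0'.le₂) v0) =
        H.map J c (G.res (le1021 (cq n 0))) v0 := G.map_res J _ _ _ _
      rw [h5, conv_g J G c v0]
      exact (G.map_res J _ _ _ _).symm
    rw [h4]
    exact (H.exact_map_δ J _ _ (G.inj hy0) (G.exact hy0) (G.surj hy0) (c + n) _).mpr ⟨_, rfl⟩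

end Main2

lemma psiB_nat {c : ℕ} {G G' : SF R (Bl n)} (α : NT G G') (hG : Good J c G) (hG' : Good J c G')
    (hn : 2 ≤ n) (u : H J c (G.obj (mks 2 1 (cq n 0)))) :
    psiB J hG' hn (H.map J c (α.app _) u) = H.map J (c + n + 1) (α.app _) (psiB J hG hn u) := by
  obtain ⟨w, hw⟩ := (hG.rho_bijective J (j := c + n) (by omega) (cq n n)).2
    (conv J (G.slice 2 1) c n le_rfl u)
  rw [psiB_eq J hG hn u w hw]
  have h1 : H.map J (c + n) (G'.res (tri_mks_y1 2 (cq n n)).le₁) (H.map J (c + n) (α.app _) w) =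
      conv J (G'.slice 2 1) c n le_rfl (H.map J c (α.app _) u) := by
    rw [α.map_nat, hw]
    exact (conv_nat J (α.slice 2 1) c n le_rfl u).symm
  rw [psiB_eq J hG' hn _ _ h1]
  exact SF.dd_nat J α _ _ _

theorem block_iso_aux {c : ℕ} (hn : 2 ≤ n) {G G' : SF R (Bl n)} (α : NT G G') (hG : Good J c G)
    (hG' : Good J c G') (m : ℕ) (hm : m = c + n + 1) (σ0 σ2 : Bl n → Fin 3)
    (h0 : σ0 = mks 0 0 (cq n n)) (h2 : σ2 = mks 2 2 (cq n 0)) :
    ∃ (e : H J m (G.obj σ0) ≃ₗ[R] H J c (G.obj σ2))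
      (e' : H J m (G'.obj σ0) ≃ₗ[R] H J c (G'.obj σ2)),
      ∀ z, H.map J c (α.app σ2) (e z) = e' (H.map J m (α.app σ0) z) := by
  subst hm h0 h2
  have hy1 := tri_mks_y1 (n := n) 2 (cq n 0)
  have hs : ∀ {G : SF R (Bl n)}, Good J c G →
      Function.Surjective (H.map J c (G.res (tri_mks_y1 2 (cq n 0)).le₂)) := by
    intro G hG z
    have h3 := hG.torq' J 2 0 (l := c + 1) (by omega)
    exact (H.exact_map_δ J _ _ (G.inj hy1) (G.exact hy1) (G.surj hy1) c z).mp (h3.elim _ _)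
  exact exists_iso_of_surj (psiB J hG hn) (H.map J c (G.res (tri_mks_y1 2 (cq n 0)).le₂))
    (psiB J hG' hn) (H.map J c (G'.res (tri_mks_y1 2 (cq n 0)).le₂))
    (psiB_surjective J hG hn) (hs hG) (psiB_surjective J hG' hn) (hs hG')
    (psiB_ker J hG hn) (psiB_ker J hG' hn) (H.map J c (α.app _)) (H.map J _ (α.app _))
    (H.map J c (α.app _)) (psiB_nat J α hG hG' hn) (fun u => α.map_nat J _ c u)

lemma const0_eq : (fun _ => 0 : Bl n → Fin 3) = mks 0 0 (cq n n) := by
  funext v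
  cases v with
  | y i => simp [mks]
  | q j => simp [mks, cq]

lemma const2_eq : (fun _ => 2 : Bl n → Fin 3) = mks 2 2 (cq n 0) := by
  funext v
  cases v with
  | y i => simp [mks]
  | q j => simp [mks, cq]

lemma bst_eq : (bst 0 0 2 : Bl n → Fin 3) = mks 0 0 (cq n 0) := by
  funext v
  cases v with
  | y i => rfl
  | q j => simp [bst, mks, cq]

theorem block_iso {c : ℕ} (hn : 2 ≤ n) {G G' : SF R (Bl n)} (α : NT G G') (hG : Good J c G)
    (hG' : Good J c G') :
    ∃ (e : H J (n + 1 + c) (G.obj fun _ => 0) ≃ₗ[R] H J c (G.obj fun _ => 2))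
      (e' : H J (n + 1 + c) (G'.obj fun _ => 0) ≃ₗ[R] H J c (G'.obj fun _ => 2)),
      ∀ z, H.map J c (α.app fun _ => 2) (e z) = e' (H.map J (n + 1 + c) (α.app fun _ => 0) z) :=
  block_iso_aux J hn α hG hG' _ (by omega) _ _ const0_eq const2_eq

lemma H.subsingleton_of_subsingleton {A : Type u} [AddCommGroup A] [Module R A]
    (hA : Subsingleton A) (l : ℕ) : Subsingleton (H J l A) := by
  refine ⟨fun x y => ?_⟩
  have hid : (LinearMap.id : A →ₗ[R] A) = 0 := LinearMap.ext fun x => Subsingleton.elim _ _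
  rw [← H.map_id_apply J l x, ← H.map_id_apply J l y, hid, H.map_zero_apply, H.map_zero_apply]

/-- `H^c(X_{10;2}) → H^c(X_{21;2})` is injective. -/
lemma inj_aux {c : ℕ} {G : SF R (Bl n)}
    (hH0 : ∀ l, Subsingleton (H J l (G.obj (mks 0 0 (cq n 0)))))
    (hc : c = 0 ∨ Subsingleton (H J (c - 1) (G.obj (mks 2 2 (cq n 0)))))
    (v : H J c (G.obj (mks 1 0 (cq n 0)))) (hv : H.map J c (G.res (le1021 (cq n 0))) v = 0) :
    v = 0 := by
  have hy0' := tri_mks_y0 (n := n) 0 (cq n 0)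
  have hy1' := tri_mks_y1 (n := n) 2 (cq n 0)
  have h1 : H.map J c (G.res hy1'.le₁) (H.map J c (G.res hy0'.le₂) v) = 0 := by
    rw [← hv]
    exact G.map_res J _ _ _ _
  have h2 : H.map J c (G.res hy0'.le₂) v = 0 := by
    cases c with
    | zero =>
      have h3 := H.map_injective₀ J _ _ (G.inj hy1') (G.exact hy1') (G.surj hy1')
      apply h3
      rw [map_zero]
      exact h1
    | succ c =>
      obtain ⟨w, hw⟩ := (H.exact_δ_map J _ _ (G.inj hy1') (G.exact hy1') (G.surj hy1') c _).mp h1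
      have h3 : Subsingleton (H J c (G.obj (mks 2 2 (cq n 0)))) := by
        rcases hc with hc | hc
        · exact absurd hc (Nat.succ_ne_zero c)
        · exact hc
      rw [← hw, h3.elim w 0, map_zero]
  obtain ⟨x, hx⟩ := (H.exact_map_map J _ _ (G.inj hy0') (G.exact hy0') (G.surj hy0') c v).mp h2
  rw [← hx, (hH0 c).elim x 0, map_zero]

/-- `H^j(X_{10;0}) → H^j(X_{20;0})` is surjective for `j = c + n - 1`. -/
lemma surj_aux {c : ℕ} (hn : 2 ≤ n) {G : SF R (Bl (n + 1))} (hG : Good J c G)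
    (hH0 : ∀ l, Subsingleton (H J l (G.obj (mks 0 0 (cq (n + 1) 0)))))
    (hc : c = 0 ∨ Subsingleton (H J (c - 1) (G.obj (mks 2 2 (cq (n + 1) 0))))) (j : ℕ)
    (hj : j = c + n) (w : H J j (G.obj (mks 2 0 (cq (n + 1) (n + 1))))) :
    ∃ v, H.map J j (G.res (tri_mks_y0 0 (cq (n + 1) (n + 1))).le₂) v = w := by
  have hy0 := tri_mks_y0 (n := n + 1) 0 (cq (n + 1) (n + 1))
  have hy0' := tri_mks_y0 (n := n + 1) 0 (cq (n + 1) 0)
  have hy1' := tri_mks_y1 (n := n + 1) 2 (cq (n + 1) 0)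
  have hρ := hG.rho_bijective J (j := j) (by omega) (cq (n + 1) (n + 1))
  cases c with
  | zero =>
    have h1 := hG.low J (a := 2) (b := 1) (Or.inr rfl) (j := j) (by omega)
    refine ⟨0, ?_⟩
    apply hρ.1
    exact h1.elim _ _
  | succ c =>
    obtain rfl : j = c + (n + 1) := by omega
    have h3 : Subsingleton (H J c (G.obj (mks 2 2 (cq (n + 1) 0)))) := by
      rcases hc with hc | hc
      · exact absurd hc (Nat.succ_ne_zero c)
      · exact hc
    obtain ⟨u, hu⟩ := (conv_bijective J (hG.acy_slice J (a := 2) (b := 1) (Or.inr rfl)) c (n + 1)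
      le_rfl).2 (H.map J (c + (n + 1)) (G.res (tri_mks_y1 2 (cq (n + 1) (n + 1))).le₁) w)
    obtain ⟨x, rfl⟩ := (H.exact_map_map J _ _ (G.inj hy1') (G.exact hy1') (G.surj hy1') c u).mp
      (h3.elim _ _)
    obtain ⟨v0, rfl⟩ := (H.exact_map_δ J _ _ (G.inj hy0') (G.exact hy0') (G.surj hy0') c x).mp
      ((hH0 _).elim _ _)
    refine ⟨conv J (G.slice 1 0) c (n + 1) le_rfl v0, ?_⟩
    apply hρ.1
    rw [← hu]
    have h5 : H.map J c (G.res hy1'.le₁) (H.map J c (G.res hy0'.le₂) v0) =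
      H.map J c (G.res (le1021 (cq (n + 1) 0))) v0 := G.map_res J _ _ _ _
    rw [h5, conv_g J G c v0]
    exact G.map_res J _ _ _ _

theorem block_zero_aux {c : ℕ} (hn : 2 ≤ n) {G : SF R (Bl (n + 1))} (hG : Good J c G)
    (h0 : Subsingleton (G.obj (mks 0 0 (cq (n + 1) 0))))
    (hc : c = 0 ∨ Subsingleton (H J (c - 1) (G.obj (mks 2 2 (cq (n + 1) 0)))))
    (z : H J (c + n + 1) (G.obj (mks 0 0 (cq (n + 1) (n + 1))))) : z = 0 := by
  have hH0 : ∀ l, Subsingleton (H J l (G.obj (mks 0 0 (cq (n + 1) 0)))) :=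
    H.subsingleton_of_subsingleton J h0
  have hy0 := tri_mks_y0 (n := n + 1) 0 (cq (n + 1) (n + 1))
  have hy1 := tri_mks_y1 (n := n + 1) 2 (cq (n + 1) (n + 1))
  have h1 : H.map J (c + n + 1) (G.res hy0.le₁) z = 0 := by
    obtain ⟨v0, hv0⟩ := (conv_bijective J (hG.acy_slice J (a := 1) (b := 0) (Or.inl rfl)) c (n + 1)
      le_rfl).2 (H.map J (c + n + 1) (G.res hy0.le₁) z)
    have h2 : H.map J (c + n + 1) (G.res hy0.le₂) (H.map J (c + n + 1) (G.res hy0.le₁) z) = 0 :=
      (H.exact_map_map J _ _ (G.inj hy0) (G.exact hy0) (G.surj hy0) (c + n + 1) _).mpr ⟨z, rfl⟩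
    have h3 : H.map J (c + n + 1) (G.res (le1021 (cq (n + 1) (n + 1))))
        (H.map J (c + n + 1) (G.res hy0.le₁) z) = 0 := by
      have h4 := G.map_res J hy0.le₂ hy1.le₁ (c + n + 1)
        (H.map J (c + n + 1) (G.res hy0.le₁) z)
      rw [h2, map_zero] at h4
      exact h4.symm
    have h5 : v0 = 0 := by
      apply inj_aux J hH0 hc v0
      apply (conv_bijective J (hG.acy_slice J (a := 2) (b := 1) (Or.inr rfl)) c (n + 1)
        le_rfl).1
      refine Eq.trans ?_ (map_zero (conv J (G.slice 2 1) c (n + 1) le_rfl)).symm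
      refine (conv_g J G c v0).trans ?_
      refine Eq.trans ?_ h3
      exact congrArg _ hv0
    rw [← hv0, h5]
    exact map_zero (conv J (G.slice 1 0) c (n + 1) le_rfl)
  obtain ⟨w, rfl⟩ := (H.exact_δ_map J _ _ (G.inj hy0) (G.exact hy0) (G.surj hy0) (c + n) z).mp h1
  obtain ⟨v, rfl⟩ := surj_aux J hn hG hH0 hc (c + n) rfl w
  exact (H.exact_map_δ J _ _ (G.inj hy0) (G.exact hy0) (G.surj hy0) (c + n) _).mpr ⟨_, rfl⟩

theorem block_zero {n c : ℕ} (hn : 3 ≤ n) {G : SF R (Bl n)} (hG : Good J c G)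
    (h0 : Subsingleton (G.obj (bst 0 0 2)))
    (hc : c = 0 ∨ Subsingleton (H J (c - 1) (G.obj fun _ => 2))) :
    Subsingleton (H J (n + c) (G.obj fun _ => 0)) := by
  obtain ⟨n, rfl⟩ : ∃ i, n = i + 1 := ⟨n - 1, by omega⟩
  have h1 : ∀ (σ : Bl (n + 1) → Fin 3), σ = mks 0 0 (cq (n + 1) 0) → Subsingleton (G.obj σ) →
      Subsingleton (G.obj (mks 0 0 (cq (n + 1) 0))) := by
    rintro _ rfl h
    exact h
  have h2 : ∀ (σ : Bl (n + 1) → Fin 3), σ = mks 2 2 (cq (n + 1) 0) →
      (c = 0 ∨ Subsingleton (H J (c - 1) (G.obj σ))) →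
      (c = 0 ∨ Subsingleton (H J (c - 1) (G.obj (mks 2 2 (cq (n + 1) 0))))) := by
    rintro _ rfl h
    exact h
  have h3 : ∀ (σ : Bl (n + 1) → Fin 3), σ = mks 0 0 (cq (n + 1) (n + 1)) → ∀ m, m = c + n + 1 →
      Subsingleton (H J m (G.obj σ)) := by
    rintro _ rfl m rfl
    have h4 := block_zero_aux J (by omega) hG (h1 _ bst_eq h0) (h2 _ const2_eq hc)
    exact ⟨fun x y => by rw [h4 x, h4 y]⟩
  exact h3 _ const0_eq _ (by omega)

end

end CC5166
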