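import Mathlib

universe u

open Polynomial

namespace CC5166

private theorem caso_small {k : Type u} [Field k] {N : ℕ} {p : k[X]}
    (hp : p ∈ degreeLT k (N - 1)) (q : k[X]) (hq : N - 1 ≤ q.natDegree) (hd : q ∣ p) :
    p = 0 := by
  by_contra h0
  have h1 := Polynomial.natDegree_le_of_dvd hd h0
  rw [mem_degreeLT, ← natDegree_lt_iff_degree_lt h0] at hp
  omega

private theorem caso_up {k : Type u} [Field k] {c : ℕ} (f0 f1 f2 : k[X]) (h2 : f2 ≠ 0)
    (θ : ℕ → k[X])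
    (h : ∀ j, j + 2 ≤ c → f2 * θ (j + 2) + f1 * θ (j + 1) + f0 * θ j = 0) (m : ℕ)
    (e0 : θ m = 0) (e1 : θ (m + 1) = 0) : ∀ i, m + i + 1 ≤ c →
      θ (m + i) = 0 ∧ θ (m + i + 1) = 0 := by
  intro i
  induction i with
  | zero => intro _; exact ⟨e0, e1⟩
  | succ i ih =>
    intro hi
    obtain ⟨a, b⟩ := ih (by omega)
    refine ⟨b, ?_⟩
    have := h (m + i) (by omega)
    rw [a, b, mul_zero, mul_zero, add_zero, add_zero] at this
    have h3 := (mul_eq_zero.mp this).resolve_left h2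
    rw [show m + (i + 1) + 1 = m + i + 2 by ring]
    exact h3

private theorem caso_down {k : Type u} [Field k] {c : ℕ} (f0 f1 f2 : k[X]) (h0 : f0 ≠ 0)
    (θ : ℕ → k[X])
    (h : ∀ j, j + 2 ≤ c → f2 * θ (j + 2) + f1 * θ (j + 1) + f0 * θ j = 0) (m : ℕ)
    (hm : m + 1 ≤ c)
    (e0 : θ m = 0) (e1 : θ (m + 1) = 0) : ∀ i, i ≤ m →
      θ (m - i) = 0 ∧ θ (m - i + 1) = 0 := by
  intro i
  induction i with
  | zero => intro _; exact ⟨e0, e1⟩
  | succ i ih =>
    intro hi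
    obtain ⟨a, b⟩ := ih (by omega)
    have e : m - (i + 1) + 1 = m - i := by omega
    have e' : m - (i + 1) + 2 = m - i + 1 := by omega
    refine ⟨?_, by rw [e]; exact a⟩
    have := h (m - (i + 1)) (by omega)
    rw [e, e', a, b, mul_zero, mul_zero, zero_add, zero_add] at this
    exact (mul_eq_zero.mp this).resolve_left h0

private theorem caso_prop {k : Type u} [Field k] {c : ℕ} (f0 f1 f2 : k[X]) (h0 : f0 ≠ 0)
    (h2 : f2 ≠ 0) (θ : ℕ → k[X])
    (h : ∀ j, j + 2 ≤ c → f2 * θ (j + 2) + f1 * θ (j + 1) + f0 * θ j = 0) (m : ℕ)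
    (hm : m + 1 ≤ c)
    (e0 : θ m = 0) (e1 : θ (m + 1) = 0) : ∀ j, j ≤ c → θ j = 0 := by
  intro j hj
  rcases le_total j m with hjm | hjm
  · have := (caso_down f0 f1 f2 h0 θ h m hm e0 e1 (m - j) (by omega)).1
    rwa [show m - (m - j) = j by omega] at this
  · rcases Nat.eq_or_lt_of_le hjm with rfl | hlt
    · exact e0
    · have := (caso_up f0 f1 f2 h2 θ h m e0 e1 (j - m - 1) (by omega)).2
      rwa [show m + (j - m - 1) + 1 = j by omega] at this

private theorem caso_zero {k : Type u} [Field k] {N c : ℕ} (hN : 2 ≤ N) (hc : N + 1 ≤ c)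
    (θ : ℕ → k[X]) (hθ : ∀ j, θ j ∈ degreeLT k (N - 1))
    (h : ∀ j, j + 2 ≤ c → θ (j + 2) = -(X ^ 2 * θ j)) : ∀ j, j ≤ c → θ j = 0 := by
  have key : ∀ m j, j + 2 * m ≤ c → θ (j + 2 * m) = (-1) ^ m * X ^ (2 * m) * θ j := by
    intro m
    induction m with
    | zero => intro j _; simp
    | succ m ih =>
      intro j hj
      rw [show j + 2 * (m + 1) = j + 2 * m + 2 by ring, h _ (by omega), ih j (by omega)]
      ring
  have hx : ∀ (m j : ℕ), j + 2 * m ≤ c → N - 1 ≤ 2 * m → θ j = 0 := by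
    intro m j hj hm
    have h1 : θ (j + 2 * m) = 0 := by
      apply caso_small (hθ _) (X ^ (2 * m)) (by rw [natDegree_X_pow]; exact hm)
      rw [key m j hj]
      exact ⟨(-1) ^ m * θ j, by ring⟩
    rw [key m j hj] at h1
    have h2 : ((-1 : k[X]) ^ m * X ^ (2 * m)) ≠ 0 :=
      mul_ne_zero (pow_ne_zero _ (by simp)) (pow_ne_zero _ X_ne_zero)
    exact (mul_eq_zero.mp h1).resolve_left h2
  have t0 : θ 0 = 0 := hx (c / 2) 0 (by omega) (by omega)
  have t1 : θ 1 = 0 := hx ((c - 1) / 2) 1 (by omega) (by omega)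
  apply caso_prop (X ^ 2) 0 1 (pow_ne_zero _ X_ne_zero) one_ne_zero θ _ 0 (by omega) t0 t1
  intro j hj
  rw [h j hj]; ring

private theorem caso_sq {k : Type u} [Field k] {N c : ℕ} (hN : 2 ≤ N) (hc : N + 1 ≤ c)
    (l : k) (hl : l * l = 1)
    (θ : ℕ → k[X]) (hθ : ∀ j, θ j ∈ degreeLT k (N - 1))
    (h : ∀ j, j + 2 ≤ c → (X ^ 2 + C l) * θ (j + 2) + X * θ (j + 1) +
      (1 + C l * X ^ 2) * θ j = 0) : ∀ j, j ≤ c → θ j = 0 := by
  have hl0 : l ≠ 0 := by
    rintro rfl; simp at hl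
  have hC : C l * C l = (1 : k[X]) := by rw [← C_mul, hl, C_1]
  set g : k[X] := X ^ 2 + C l with hg
  have hgd : g.natDegree = 2 := by rw [hg]; exact natDegree_X_pow_add_C
  have hg0 : g ≠ 0 := by
    intro h0; rw [h0] at hgd; simp at hgd
  have hf0 : (1 + C l * X ^ 2 : k[X]) = C l * g := by
    rw [hg, mul_add, hC]; ring
  have hcop : IsCoprime g X := by
    refine ⟨C l, -(C l * X), ?_⟩
    rw [hg]
    linear_combination hC
  have key : ∀ m j, m ≤ j → j + m ≤ c → g ^ m ∣ θ j := by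
    intro m
    induction m with
    | zero => intro j _ _; simp
    | succ m ih =>
      intro j h1 h2
      obtain ⟨i, rfl⟩ : ∃ i, j = i + 1 := ⟨j - 1, by omega⟩
      obtain ⟨a, ha⟩ := ih i (by omega) (by omega)
      obtain ⟨b, hb⟩ := ih (i + 1) (by omega) (by omega)
      obtain ⟨d, hd⟩ := ih (i + 2) (by omega) (by omega)
      have h3 := h i (by omega)
      rw [hf0, ha, hb, hd] at h3
      have h4 : g ^ m * (g * (d + C l * a) + X * b) = 0 := by
        linear_combination h3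
      have h5 := (mul_eq_zero.mp h4).resolve_left (pow_ne_zero _ hg0)
      have h6 : g ∣ X * b := ⟨-(d + C l * a), by linear_combination h5⟩
      obtain ⟨e, he⟩ := hcop.dvd_of_dvd_mul_left h6
      rw [hb, he]
      exact ⟨e, by ring⟩
  have hz : ∀ j, N / 2 ≤ j → j + N / 2 ≤ c → θ j = 0 := by
    intro j h1 h2
    apply caso_small (hθ j) (g ^ (N / 2)) _ (key _ j h1 h2)
    rw [natDegree_pow, hgd]; omega
  apply caso_prop (1 + C l * X ^ 2) X g _ hg0 θ h (N / 2) (by omega)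
    (hz _ (by omega) (by omega)) (hz _ (by omega) (by omega))
  rw [hf0]
  exact mul_ne_zero (C_ne_zero.mpr hl0) hg0

private theorem caso_gcd {E : Type u} [EuclideanDomain E] [GCDMonoid E] (a b : E)
    (hb : b ≠ 0) : ∃ d P R : E, a = d * P ∧ b = d * R ∧ IsCoprime P R := by
  have h0 : gcd a b ≠ 0 := by
    intro h
    exact hb ((gcd_eq_zero_iff a b).mp h).2
  refine ⟨gcd a b, a / gcd a b, b / gcd a b, ?_, ?_, isCoprime_div_gcd_div_gcd hb⟩
  · exact (EuclideanDomain.mul_div_cancel' h0 (gcd_dvd_left a b)).symm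
  · exact (EuclideanDomain.mul_div_cancel' h0 (gcd_dvd_right a b)).symm

private theorem caso_W {k : Type u} [Field k] {N c : ℕ} (hN : 2 ≤ N) (hc : N + 1 ≤ c)
    (f0 f2 : k[X]) (hgd : f2.natDegree = 2) (hcop : IsCoprime f2 f0)
    (θ : ℕ → k[X]) (hlt : ∀ j, (θ j).natDegree < N - 1)
    (h : ∀ j, j + 2 ≤ c → f2 * θ (j + 2) + X * θ (j + 1) + f0 * θ j = 0) :
    ∀ n, n + 2 ≤ c → θ n * θ (n + 2) = θ (n + 1) ^ 2 := by
  have hg0 : f2 ≠ 0 := by
    intro h0; rw [h0] at hgd; simp at hgd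
  have hW : ∀ j, j + 3 ≤ c → f2 * (θ (j + 1) * θ (j + 3) - θ (j + 2) ^ 2) =
      f0 * (θ j * θ (j + 2) - θ (j + 1) ^ 2) := by
    intro j hj
    have a := h j (by omega)
    have b := h (j + 1) (by omega)
    rw [show j + 1 + 2 = j + 3 by ring, show j + 1 + 1 = j + 2 by ring] at b
    linear_combination θ (j + 1) * b - θ (j + 2) * a
  have hWn : ∀ n, n + 2 ≤ c → f2 ^ n * (θ n * θ (n + 2) - θ (n + 1) ^ 2) =
      f0 ^ n * (θ 0 * θ 2 - θ 1 ^ 2) := by
    intro n
    induction n with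
    | zero => intro _; simp
    | succ n ih =>
      intro hn
      have a := ih (by omega)
      have b := hW n (by omega)
      rw [show n + 1 + 2 = n + 3 by ring, show n + 1 + 1 = n + 2 by ring]
      linear_combination f2 ^ n * b + f0 * a
  have hW0 : θ 0 * θ 2 - θ 1 ^ 2 = 0 := by
    have h1 : f2 ^ (c - 2) ∣ f0 ^ (c - 2) * (θ 0 * θ 2 - θ 1 ^ 2) := by
      rw [← hWn (c - 2) (by omega)]; exact Dvd.intro _ rfl
    have h2 : f2 ^ (c - 2) ∣ (θ 0 * θ 2 - θ 1 ^ 2) := by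
      have h3 : IsCoprime (f2 ^ (c - 2)) (f0 ^ (c - 2)) := hcop.pow
      exact h3.dvd_of_dvd_mul_left h1
    by_contra h0
    have h3 := natDegree_le_of_dvd h2 h0
    rw [natDegree_pow, hgd] at h3
    have h4 : (θ 0 * θ 2 - θ 1 ^ 2).natDegree ≤ 2 * (N - 2) := by
      refine (natDegree_sub_le _ _).trans (max_le ?_ ?_)
      · apply natDegree_mul_le.trans
        have := hlt 0
        have := hlt 2
        omega
      · apply natDegree_pow_le.trans
        have := hlt 1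
        omega
    omega
  intro n hn
  have a := hWn n hn
  rw [hW0, mul_zero] at a
  exact sub_eq_zero.mp ((mul_eq_zero.mp a).resolve_left (pow_ne_zero _ hg0))

private theorem caso_geo {k : Type u} [Field k] {N c : ℕ} (hc : N + 1 ≤ c)
    (θ : ℕ → k[X]) (hlt : ∀ j, (θ j).natDegree < N - 1)
    (hWz : ∀ n, n + 2 ≤ c → θ n * θ (n + 2) = θ (n + 1) ^ 2)
    (t0 : θ 0 ≠ 0) (t1 : θ 1 ≠ 0) : ∃ (d : k[X]) (p r : k), θ 0 = d * C p ∧ θ 1 = d * C r ∧
      d ≠ 0 ∧ p ≠ 0 ∧ r ≠ 0 := by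
  have hgeo : ∀ n, n + 1 ≤ c → θ n ≠ 0 ∧ θ (n + 1) ≠ 0 ∧ θ (n + 1) * θ 0 = θ n * θ 1 := by
    intro n
    induction n with
    | zero => intro _; exact ⟨t0, t1, mul_comm _ _⟩
    | succ n ih =>
      intro hn
      obtain ⟨a, b, e⟩ := ih (by omega)
      have w := hWz n (by omega)
      have hne : θ (n + 1 + 1) ≠ 0 := by
        intro h0
        rw [show n + 1 + 1 = n + 2 by ring] at h0
        rw [h0, mul_zero] at w
        exact (pow_ne_zero 2 b) w.symm
      refine ⟨b, hne, ?_⟩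
      have : θ n * (θ (n + 1 + 1) * θ 0 - θ (n + 1) * θ 1) = 0 := by
        rw [show n + 1 + 1 = n + 2 by ring]
        linear_combination θ 0 * w + θ (n + 1) * e
      exact sub_eq_zero.mp ((mul_eq_zero.mp this).resolve_left a)
  have hthc : θ c ≠ 0 := by
    have := (hgeo (c - 1) (by omega)).2.1
    rwa [show c - 1 + 1 = c by omega] at this
  obtain ⟨d, P, R, hP, hR, hPR⟩ : ∃ d P R : k[X], θ 0 = d * P ∧ θ 1 = d * R ∧
      IsCoprime P R := by
    classical
    exact @caso_gcd k[X] _ (EuclideanDomain.gcdMonoid k[X]) (θ 0) (θ 1) t1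
  have hd0 : d ≠ 0 := by rintro rfl; rw [zero_mul] at hP; exact t0 hP
  have hP0 : P ≠ 0 := by rintro rfl; rw [mul_zero] at hP; exact t0 hP
  have hR0 : R ≠ 0 := by rintro rfl; rw [mul_zero] at hR; exact t1 hR
  have hgeo2 : ∀ n, n ≤ c → θ n * P ^ n = θ 0 * R ^ n := by
    intro n
    induction n with
    | zero => intro _; rw [pow_zero, pow_zero]
    | succ n ih =>
      intro hn
      have a := ih (by omega)
      obtain ⟨_, _, e⟩ := hgeo n (by omega)
      have e' : θ (n + 1) * P = θ n * R := by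
        apply mul_left_cancel₀ hd0
        rw [hP, hR] at e
        linear_combination e
      rw [pow_succ, pow_succ]
      linear_combination P ^ n * e' + R * a
  have hfin := hgeo2 c le_rfl
  have hPc : P ^ c ∣ θ 0 := by
    have h1 : P ^ c ∣ θ 0 * R ^ c := by rw [← hfin]; exact Dvd.intro_left _ rfl
    have h3 : IsCoprime (P ^ c) (R ^ c) := hPR.pow
    exact h3.dvd_of_dvd_mul_right h1
  have hRc : R ^ c ∣ θ c := by
    have h1 : R ^ c ∣ θ c * P ^ c := by rw [hfin]; exact Dvd.intro_left _ rfl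
    have h3 : IsCoprime (R ^ c) (P ^ c) := hPR.symm.pow
    exact h3.dvd_of_dvd_mul_right h1
  have hPd : P.natDegree = 0 := by
    have := natDegree_le_of_dvd hPc t0
    rw [natDegree_pow] at this
    have h1 := hlt 0
    by_contra h2
    have h3 : c * 1 ≤ c * P.natDegree := Nat.mul_le_mul_left _ (Nat.one_le_iff_ne_zero.mpr h2)
    omega
  have hRd : R.natDegree = 0 := by
    have := natDegree_le_of_dvd hRc hthc
    rw [natDegree_pow] at this
    have h1 := hlt c
    by_contra h2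
    have h3 : c * 1 ≤ c * R.natDegree := Nat.mul_le_mul_left _ (Nat.one_le_iff_ne_zero.mpr h2)
    omega
  obtain ⟨p, hp⟩ := natDegree_eq_zero.mp hPd
  obtain ⟨r, hr⟩ := natDegree_eq_zero.mp hRd
  refine ⟨d, p, r, by rw [hP, hp], by rw [hR, hr], hd0, ?_, ?_⟩
  · intro h0; apply hP0; rw [← hp, h0, C_0]
  · intro h0; apply hR0; rw [← hr, h0, C_0]

private theorem caso_fin {k : Type u} [Field k] (l p r : k) (hp0 : p ≠ 0) (hr0 : r ≠ 0)
    (hq2 : (1 + C l * X ^ 2) * C p ^ 2 + X * (C p * C r) + (X ^ 2 + C l) * C r ^ 2 =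
      (0 : k[X])) : False := by
  have hexp : (1 + C l * X ^ 2) * C p ^ 2 + X * (C p * C r) + (X ^ 2 + C l) * C r ^ 2 =
      C (p ^ 2 + l * r ^ 2) + C (p * r) * X + C (l * p ^ 2 + r ^ 2) * X ^ 2 := by
    simp only [C_add, C_mul, C_pow]; ring
  rw [hexp] at hq2
  have hc1 := congrArg (fun q : k[X] => q.coeff 1) hq2
  simp only [coeff_add, coeff_C_mul, coeff_X_one, coeff_X_pow, coeff_zero] at hc1
  rw [coeff_C_of_ne_zero one_ne_zero] at hc1
  simp at hc1
  tauto

private theorem caso_ns {k : Type u} [Field k] {N c : ℕ} (hN : 2 ≤ N) (hc : N + 1 ≤ c)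
    (l : k) (hl : l * l ≠ 1)
    (θ : ℕ → k[X]) (hθ : ∀ j, θ j ∈ degreeLT k (N - 1))
    (h : ∀ j, j + 2 ≤ c → (X ^ 2 + C l) * θ (j + 2) + X * θ (j + 1) +
      (1 + C l * X ^ 2) * θ j = 0) : ∀ j, j ≤ c → θ j = 0 := by
  have hu : (1 - l * l) ≠ 0 := fun h0 => hl (sub_eq_zero.mp h0).symm
  have hgd : (X ^ 2 + C l : k[X]).natDegree = 2 := natDegree_X_pow_add_C
  have hg0 : (X ^ 2 + C l : k[X]) ≠ 0 := by
    intro h0; rw [h0] at hgd; simp at hgd
  have hf00 : (1 + C l * X ^ 2 : k[X]) ≠ 0 := by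
    intro h0
    have := congrArg (fun p : k[X] => p.coeff 0) h0
    simp at this
  have hcop : IsCoprime (X ^ 2 + C l : k[X]) (1 + C l * X ^ 2) := by
    have hCu : C (1 - l * l) * C ((1 - l * l)⁻¹) = (1 : k[X]) := by
      rw [← C_mul, mul_inv_cancel₀ hu, C_1]
    have hCl : (C (1 - l * l) : k[X]) = 1 - C l * C l := by simp
    refine ⟨-(C ((1 - l * l)⁻¹) * C l), C ((1 - l * l)⁻¹), ?_⟩
    rw [hCl] at hCu
    linear_combination hCu
  have hlt : ∀ j, (θ j).natDegree < N - 1 := by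
    intro j
    by_cases h0 : θ j = 0
    · rw [h0, natDegree_zero]; omega
    · rw [natDegree_lt_iff_degree_lt h0]; exact mem_degreeLT.mp (hθ j)
  have hWz := caso_W hN hc _ _ hgd hcop θ hlt h
  by_cases t0 : θ 0 = 0
  · have h1 := hWz 0 (by omega)
    rw [t0, zero_mul] at h1
    have t1 : θ 1 = 0 := (pow_eq_zero_iff two_ne_zero).mp h1.symm
    exact caso_prop _ X _ hf00 hg0 θ h 0 (by omega) t0 t1
  exfalso
  have hq : (1 + C l * X ^ 2) * θ 0 ^ 2 + X * (θ 0 * θ 1) + (X ^ 2 + C l) * θ 1 ^ 2 = 0 := by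
    have a := h 0 (by omega)
    have b := hWz 0 (by omega)
    simp only [zero_add] at a b
    linear_combination θ 0 * a - (X ^ 2 + C l) * b
  have t1 : θ 1 ≠ 0 := by
    intro h1
    rw [h1] at hq
    have : (1 + C l * X ^ 2) * θ 0 ^ 2 = 0 := by linear_combination hq
    exact (mul_ne_zero hf00 (pow_ne_zero _ t0)) this
  obtain ⟨d, p, r, hP, hR, hd0, hp0, hr0⟩ := caso_geo hc θ hlt hWz t0 t1
  apply caso_fin l p r hp0 hr0
  apply mul_left_cancel₀ (pow_ne_zero 2 hd0)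
  rw [hP, hR] at hq
  linear_combination hq

theorem caso {k : Type u} [Field k] {N c : ℕ} (hc : N + 1 ≤ c) (y0 y1 : k)
    (hy : y0 ≠ 0 ∨ y1 ≠ 0) (θ : ℕ → k[X]) (hθ : ∀ j, θ j ∈ degreeLT k (N - 1))
    (h : ∀ j, j + 2 ≤ c → (C y0 * X ^ 2 + C y1) * θ (j + 2) + C y0 * X * θ (j + 1) +
      (C y0 + C y1 * X ^ 2) * θ j = 0) : ∀ j, j ≤ c → θ j = 0 := by
  rcases Nat.lt_or_ge N 2 with hN | hN
  · intro j _
    have h1 := hθ j
    rw [show N - 1 = 0 by omega, mem_degreeLT] at h1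
    by_contra h0
    rw [← natDegree_lt_iff_degree_lt h0] at h1
    omega
  by_cases hy0 : y0 = 0
  · have hy1 : y1 ≠ 0 := by
      rcases hy with h1 | h1
      · exact absurd hy0 h1
      · exact h1
    apply caso_zero hN hc θ hθ
    intro j hj
    have a := h j hj
    rw [hy0] at a
    have b : C y1 * (θ (j + 2) + X ^ 2 * θ j) = 0 := by
      rw [C_0] at a
      linear_combination a
    have e := (mul_eq_zero.mp b).resolve_left (C_ne_zero.mpr hy1)
    linear_combination e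
  · have hn : ∀ j, j + 2 ≤ c → (X ^ 2 + C (y1 / y0)) * θ (j + 2) + X * θ (j + 1) +
      (1 + C (y1 / y0) * X ^ 2) * θ j = 0 := by
      intro j hj
      have a := h j hj
      have e : (C y1 : k[X]) = C y0 * C (y1 / y0) := by
        rw [← C_mul, mul_div_cancel₀ y1 hy0]
      apply mul_left_cancel₀ (C_ne_zero.mpr hy0)
      rw [e] at a
      linear_combination a
    by_cases hl : (y1 / y0) * (y1 / y0) = 1
    · exact caso_sq hN hc _ hl θ hθ hn
    · exact caso_ns hN hc _ hl θ hθ hn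

end CC5166
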