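import Pool.Agent.Lib.MP_cc5166_ag.LCZero

universe u

namespace CC5166

section

variable {R : Type u} [CommRing R] (J : Ideal R)
variable {A B C : Type u} [AddCommGroup A] [Module R A] [AddCommGroup B] [Module R B]
  [AddCommGroup C] [Module R C]

theorem H.subsingleton_of_retract (s : A →ₗ[R] B) (r : B →ₗ[R] A) (h : r ∘ₗ s = LinearMap.id)
    (i : ℕ) (hB : Subsingleton (H J i B)) : Subsingleton (H J i A) := by
  refine subsingleton_of_forall_eq 0 fun z => ?_
  have h1 : H.map J i r (H.map J i s z) = z := by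
    rw [H.map_comp_apply, h, H.map_id_apply]
  rw [← h1, Subsingleton.elim (H.map J i s z) 0, _root_.map_zero]

/-- multiplication by an element of `P` as an `R`-linear map. -/
def LCAcy_mul {P : Type u} [CommRing P] (φ : R →+* P) [Module P A]
    (hφ : ∀ (r : R) (x : A), r • x = φ r • x) (p : P) : A →ₗ[R] A where
  toFun x := p • x
  map_add' := smul_add p
  map_smul' := by
    intro r x
    rw [RingHom.id_apply, hφ r x, hφ r (p • x), smul_smul, smul_smul, mul_comm]

theorem LCAcy_pow_bij {P : Type u} [CommRing P] [Module P A] (f : P)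
    (hb : Function.Bijective fun x : A => f • x) (n : ℕ) :
    Function.Bijective fun x : A => f ^ n • x := by
  induction n with
  | zero =>
    have : (fun x : A => f ^ 0 • x) = id := by
      funext x
      rw [pow_zero, one_smul, id]
    rw [this]
    exact Function.bijective_id
  | succ n ih =>
    have : (fun x : A => f ^ (n + 1) • x) = (fun x : A => f ^ n • x) ∘ fun x : A => f • x := by
      funext x
      rw [Function.comp, smul_smul, pow_succ]
    rw [this]
    exact ih.comp hb

theorem H.acyclic {P : Type u} [CommRing P] (φ : R →+* P) [Module P A]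
    (hφ : ∀ (r : R) (x : A), r • x = φ r • x) (f : P) (hf : f ∈ (J.map φ).radical)
    (hb : Function.Bijective fun x : A => f • x) (i : ℕ) : Subsingleton (H J i A) := by
  refine subsingleton_of_forall_eq 0 fun z => ?_
  obtain ⟨t, ht⟩ := H.torsion J i z
  obtain ⟨m, hm⟩ := hf
  have key : ∀ p ∈ (J ^ t).map φ, H.map J i (LCAcy_mul φ hφ p) z = 0 := by
    intro p hp
    refine Submodule.span_induction (p := fun p _ => H.map J i (LCAcy_mul φ hφ p) z = 0)
      ?_ ?_ ?_ ?_ hp
    · rintro _ ⟨a, ha, rfl⟩
      have h1 : LCAcy_mul (A := A) φ hφ (φ a) = a • LinearMap.id := by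
        ext x
        exact (hφ a x).symm
      rw [h1, H.map_smul_apply, H.map_id_apply]
      exact ht a ha
    · have h1 : LCAcy_mul (A := A) φ hφ 0 = 0 := by
        ext x
        exact zero_smul P x
      rw [h1, H.map_zero_apply]
    · intro x y _ _ hx hy
      have h1 : LCAcy_mul (A := A) φ hφ (x + y) = LCAcy_mul φ hφ x + LCAcy_mul φ hφ y := by
        ext a
        exact add_smul x y a
      rw [h1, H.map_add_apply, hx, hy, add_zero]
    · intro a x _ hx
      have h1 : LCAcy_mul (A := A) φ hφ (a • x) = LCAcy_mul φ hφ a ∘ₗ LCAcy_mul φ hφ x := by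
        ext b
        exact (smul_smul a x b).symm
      rw [h1, ← H.map_comp_apply, hx, _root_.map_zero]
  have hmem : f ^ (m * t) ∈ (J ^ t).map φ := by
    rw [Ideal.map_pow, pow_mul]
    exact Ideal.pow_mem_pow hm t
  have h0 := key _ hmem
  obtain ⟨e, he⟩ : ∃ e : A ≃ₗ[R] A, (e : A →ₗ[R] A) = LCAcy_mul (A := A) φ hφ (f ^ (m * t)) :=
    ⟨LinearEquiv.ofBijective (LCAcy_mul (A := A) φ hφ (f ^ (m * t)))
      (LCAcy_pow_bij f hb (m * t)), rfl⟩
  have h1 : H.map J i (e.symm : A →ₗ[R] A) (H.map J i (e : A →ₗ[R] A) z) = z := by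
    rw [H.map_comp_apply, e.symm_comp, H.map_id_apply]
  rw [← h1, he, h0, _root_.map_zero]

end

end CC5166
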