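import Pool.Agent.Lib.MP_cc5166_ag.Defs2
import Pool.Agent.Lib.MP_cc5166_ag.LCAcy

universe u

namespace CC5166

namespace ConcAcyX

lemma prime_aux {P : Type*} [CommRing P] (p : Ideal P) (hp : p.IsPrime) {n : ℕ} (a : Fin 2 → P)
    (c : Fin n → P)
    (h : ∀ j : Fin (n + 1), (if h : j.1 < n then a 0 * c ⟨j.1, h⟩ else 0) +
      (if h : 1 ≤ j.1 then a 1 * c ⟨j.1 - 1, by omega⟩ else 0) ∈ p) (i : Fin 2) (j : Fin n) :
    a i * c j ∈ p := by
  by_cases h0 : a 0 ∈ p
  · have h1 : a 1 * c j ∈ p := by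
      have h2 := h ⟨j.1 + 1, by omega⟩
      have h3 : (if h : j.1 + 1 < n then a 0 * c ⟨j.1 + 1, h⟩ else 0) ∈ p := by
        split_ifs with h4
        · exact p.mul_mem_right _ h0
        · exact p.zero_mem
      have h5 := (p.add_mem_iff_right h3).1 h2
      rw [dif_pos (by simp)] at h5
      exact h5
    fin_cases i
    · exact p.mul_mem_right _ h0
    · exact h1
  · have key : ∀ l : ℕ, ∀ hl : l < n, c ⟨l, hl⟩ ∈ p := by
      intro l
      induction l with
      | zero =>
        intro hl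
        have h2 := h ⟨0, by omega⟩
        rw [dif_pos hl, dif_neg (by simp), add_zero] at h2
        exact (hp.mem_or_mem h2).resolve_left h0
      | succ l ih =>
        intro hl
        have h2 := h ⟨l + 1, by omega⟩
        rw [dif_pos hl, dif_pos (by simp)] at h2
        have h3 : a 1 * c ⟨l + 1 - 1, by omega⟩ ∈ p :=
          p.mul_mem_left _ (ih (by omega))
        have h4 := (p.add_mem_iff_left h3).1 h2
        exact (hp.mem_or_mem h4).resolve_left h0
    exact p.mul_mem_left _ (key j.1 j.2)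

variable {k : Type u} [Field k] {M : ℕ}

lemma phi_mem (x : Ix M) :
    (phi k M).toRingHom (MvPolynomial.X x) ∈ (mm k M).map (phi k M).toRingHom :=
  Ideal.mem_map_of_mem _ (Ideal.subset_span ⟨x, rfl⟩)

lemma Ypoly_mem (j : Fin (M + 1)) : Ypoly k M j ∈ (mm k M).map (phi k M).toRingHom := by
  have h := phi_mem (k := k) (.Y j : Ix M)
  have h2 : (phi k M).toRingHom (MvPolynomial.X (.Y j)) = Ypoly k M j := by
    change phi k M (MvPolynomial.X (.Y j)) = _
    rw [phi, MvPolynomial.aeval_X]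
  rwa [h2] at h

lemma Zpoly_mem (j : Fin 4) : Zpoly k M j ∈ (mm k M).map (phi k M).toRingHom := by
  have h := phi_mem (k := k) (.Z j : Ix M)
  have h2 : (phi k M).toRingHom (MvPolynomial.X (.Z j)) = Zpoly k M j := by
    change phi k M (MvPolynomial.X (.Z j)) = _
    rw [phi, MvPolynomial.aeval_X]
  rwa [h2] at h

lemma rad_Y (i : Fin 2) (j : Fin M) :
    (vx (.y i) * vx (.q j) : PP k M) ∈ ((mm k M).map (phi k M).toRingHom).radical := by
  rw [Ideal.radical_eq_sInf, Ideal.mem_sInf]
  rintro p ⟨hp, hpp⟩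
  exact prime_aux p hpp (fun i => (vx (.y i) : PP k M)) (fun j => vx (.q j))
    (fun j => hp (Ypoly_mem j)) i j

lemma rad_Z (i : Fin 2) (j : Fin 3) :
    (vx (.ze i) * vx (.p j) : PP k M) ∈ ((mm k M).map (phi k M).toRingHom).radical := by
  rw [Ideal.radical_eq_sInf, Ideal.mem_sInf]
  rintro p ⟨hp, hpp⟩
  exact prime_aux p hpp (fun i => (vx (.ze i) : PP k M)) (fun j => vx (.p j))
    (fun j => hp (Zpoly_mem j)) i j

lemma inSt_shift {σ : Vr M → Fin 3} {v w : Vr M} (hv : σ v = 1) (hw : σ w = 1) {e : Vr M → ℤ}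
    (he : InSt σ e) (s : ℤ) : InSt σ (e + s • toZ (Finsupp.single v 1 + Finsupp.single w 1)) := by
  classical
  intro u
  by_cases h1 : u = v
  · subst h1
    rw [hv]
    exact ⟨fun h0 => absurd h0 (by decide), fun h0 => absurd h0 (by decide)⟩
  by_cases h2 : u = w
  · subst h2
    rw [hw]
    exact ⟨fun h0 => absurd h0 (by decide), fun h0 => absurd h0 (by decide)⟩
  have h4 : toZ (Finsupp.single v 1 + Finsupp.single w 1 : Vr M →₀ ℕ) u = 0 := by
    simp [toZ, Finsupp.single_eq_of_ne h1, Finsupp.single_eq_of_ne h2]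
  rw [Pi.add_apply, Pi.smul_apply, h4, smul_zero, add_zero]
  exact he u

lemma act_bij {σ : Vr M → Fin 3} {v w : Vr M} (hv : σ v = 1) (hw : σ w = 1) :
    Function.Bijective fun x : X k σ => (vx v * vx w : PP k M) • x := by
  have h0 : (fun x : X k σ => (vx v * vx w : PP k M) • x) =
      fun x => act k σ (Finsupp.single v 1 + Finsupp.single w 1) x := by
    funext x
    exact vx_mul_smul v w x
  rw [h0]
  set μ : Vr M →₀ ℕ := Finsupp.single v 1 + Finsupp.single w 1 with hμ
  have hp : ∀ e, InSt σ e → InSt σ (e + toZ μ) := by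
    intro e he
    have := inSt_shift hv hw he 1
    rwa [one_smul] at this
  have hm : ∀ e, InSt σ e → InSt σ (e - toZ μ) := by
    intro e he
    have := inSt_shift hv hw he (-1)
    rwa [neg_one_smul, ← sub_eq_add_neg] at this
  have h1 : (tmap k σ σ (fun e => e - toZ μ)).comp (act k σ μ) = LinearMap.id := by
    refine X.hom_ext fun e c he => ?_
    rw [LinearMap.comp_apply, act_bv he, tmap_bv (hp e he), add_sub_cancel_right]
    rfl
  have h2 : (act k σ μ).comp (tmap k σ σ (fun e => e - toZ μ)) = LinearMap.id := by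
    refine X.hom_ext fun e c he => ?_
    rw [LinearMap.comp_apply, tmap_bv he, act_bv (hm e he), sub_add_cancel]
    rfl
  refine Function.bijective_iff_has_inverse.2 ⟨tmap k σ σ (fun e => e - toZ μ), ?_, ?_⟩
  · intro x
    exact LinearMap.congr_fun h1 x
  · intro x
    exact LinearMap.congr_fun h2 x

lemma upClosed_ne (d : ℤ × ℤ × ℤ) : UpClosed (fun e : Vr M → ℤ => deg3 e ≠ d) := by
  constructor
  · intro e i j h
    have h1 : wt (.y i : Vr M) + wt (.q j : Vr M) = 0 := by simp [wt]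
    rw [deg3_add, toZ_add, deg3_add, deg3_single, deg3_single, h1, add_zero]
    exact h
  · intro e i j h
    have h1 : wt (.ze i : Vr M) + wt (.p j : Vr M) = 0 := by simp [wt]
    rw [deg3_add, toZ_add, deg3_add, deg3_single, deg3_single, h1, add_zero]
    exact h

open Classical in
lemma filter_smul (d : ℤ × ℤ × ℤ) (σ : Vr M → Fin 3) (r : RR k M) (x : X k σ) :
    (Finsupp.filter (fun e : Ex σ => deg3 e.1 = d) (phi k M r • x : X k σ) : X k σ) =
      phi k M r • (Finsupp.filter (fun e : Ex σ => deg3 e.1 = d) x : X k σ) := by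
  set y : X k σ := Finsupp.filter (fun e : Ex σ => deg3 e.1 = d) x with hy
  set z : X k σ := Finsupp.filter (fun e : Ex σ => ¬ deg3 e.1 = d) x with hz
  have hyz : x = y + z := (Finsupp.filter_add_filter_not x _).symm
  have h1 : InDeg d y := by
    intro e he
    by_contra h1
    exact he (Finsupp.filter_apply_neg _ _ h1)
  have h2 : SuppOn (fun e : Vr M → ℤ => deg3 e ≠ d) z := by
    intro e he h1
    exact he (Finsupp.filter_apply_neg _ _ (not_not.2 h1))
  have h3 : InDeg d (phi k M r • y) := by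
    have := inDeg_psmul h1 (homD_phi r)
    rwa [add_zero] at this
  have h4 : SuppOn (fun e : Vr M → ℤ => deg3 e ≠ d) (phi k M r • z) :=
    suppOn_phi_smul (upClosed_ne d) h2 r
  have h5 : (phi k M r • x : X k σ) = phi k M r • y + phi k M r • z := by
    rw [← smul_add, ← hyz]
  rw [h5]
  refine Finsupp.ext fun e => ?_
  by_cases h6 : deg3 e.1 = d
  · rw [Finsupp.filter_apply_pos (fun e : Ex σ => deg3 e.1 = d) _ h6, Finsupp.add_apply]
    have h7 : (phi k M r • z : X k σ) e = 0 := by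
      by_contra h8
      exact h4 e h8 h6
    rw [h7, add_zero]
  · rw [Finsupp.filter_apply_neg (fun e : Ex σ => deg3 e.1 = d) _ h6]
    by_contra h8
    exact h6 (h3 e (fun h9 => h8 h9.symm))

open Classical in
/-- the projection onto the piece of degree `d`. -/
noncomputable def proj (d : ℤ × ℤ × ℤ) (σ : Vr M → Fin 3) : X k σ →ₗ[RR k M] Pc k d σ where
  toFun x := ⟨(Finsupp.filter (fun e : Ex σ => deg3 e.1 = d) x : X k σ), by
    intro e he
    by_contra h1
    exact he (Finsupp.filter_apply_neg _ _ h1)⟩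
  map_add' x y := Subtype.ext Finsupp.filter_add
  map_smul' r x := Subtype.ext (filter_smul d σ r x)

/-- the inclusion of the piece of degree `d`. -/
noncomputable def incl (d : ℤ × ℤ × ℤ) (σ : Vr M → Fin 3) : Pc k d σ →ₗ[RR k M] X k σ :=
  (piece k d σ).subtype

lemma proj_incl (d : ℤ × ℤ × ℤ) (σ : Vr M → Fin 3) :
    proj (k := k) d σ ∘ₗ incl d σ = LinearMap.id := by
  refine LinearMap.ext fun x => Subtype.ext ?_
  refine Finsupp.ext fun e => ?_
  change (Finsupp.filter (fun e : Ex σ => deg3 e.1 = d) x.1 : X k σ) e = x.1 e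
  by_cases h : deg3 e.1 = d
  · exact Finsupp.filter_apply_pos (fun e : Ex σ => deg3 e.1 = d) _ h
  · rw [Finsupp.filter_apply_neg (fun e : Ex σ => deg3 e.1 = d) _ h]
    by_contra h1
    exact h (x.2 e (fun h2 => h1 h2.symm))

variable (k M)

lemma acy (d : ℤ × ℤ × ℤ) (σ : Vr M → Fin 3) (v w : Vr M) (hv : σ v = 1) (hw : σ w = 1)
    (hr : (vx v * vx w : PP k M) ∈ ((mm k M).map (phi k M).toRingHom).radical) (l : ℕ) :
    Subsingleton (H (mm k M) l (Pc k d σ)) := by
  refine H.subsingleton_of_retract (mm k M) (incl d σ) (proj d σ) (proj_incl d σ) l ?_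
  exact H.acyclic (mm k M) (phi k M).toRingHom (fun r x => RR_smul σ r x) (vx v * vx w) hr
    (act_bij hv hw) l

end ConcAcyX

variable (k : Type u) [Field k] (M : ℕ)

theorem lc_acyY (d : ℤ × ℤ × ℤ) (σ : Vr M → Fin 3) (i : Fin 2) (j : Fin M) (hi : σ (.y i) = 1)
    (hj : σ (.q j) = 1) (l : ℕ) : Subsingleton (H (mm k M) l (Pc k d σ)) :=
  ConcAcyX.acy k M d σ (.y i) (.q j) hi hj (ConcAcyX.rad_Y i j) l

theorem lc_acyZ (d : ℤ × ℤ × ℤ) (σ : Vr M → Fin 3) (i : Fin 2) (j : Fin 3) (hi : σ (.ze i) = 1)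
    (hj : σ (.p j) = 1) (l : ℕ) : Subsingleton (H (mm k M) l (Pc k d σ)) :=
  ConcAcyX.acy k M d σ (.ze i) (.p j) hi hj (ConcAcyX.rad_Z i j) l

end CC5166
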