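import Pool.Agent.Lib.MP_cc5166_ag.LCTor
import Pool.Agent.Lib.MP_cc5166_ag.LCAcy

/-!
Vanishing of local cohomology above the number of generators which are not locally nilpotent
(module LCDim).
-/

universe u

namespace CC5166

section

variable {R : Type u} [CommRing R] (J : Ideal R)
variable {A B C : Type u} [AddCommGroup A] [Module R A] [AddCommGroup B] [Module R B]
  [AddCommGroup C] [Module R C]

/-- the case where all generators are locally nilpotent. -/
lemma isTor_of_span [IsNoetherianRing R] (N : Set R) (hJ : J = Ideal.span N)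
    (hN : ∀ a ∈ N, ∀ x : A, ∃ n : ℕ, a ^ n • x = 0) : IsTor J A := by
  intro x
  set I : Ideal R := LinearMap.ker (LinearMap.toSpanSingleton R A x) with hI
  have h1 : J ≤ I.radical := by
    rw [hJ, Ideal.span_le]
    intro a ha
    obtain ⟨n, hn⟩ := hN a ha x
    exact ⟨n, by rw [hI, LinearMap.mem_ker, LinearMap.toSpanSingleton_apply]; exact hn⟩
  obtain ⟨t, ht⟩ := Ideal.exists_pow_le_of_le_radical_of_fg h1 (IsNoetherian.noetherian J)
  refine ⟨t, fun a ha => ?_⟩
  have h2 := ht ha
  rwa [hI, LinearMap.mem_ker, LinearMap.toSpanSingleton_apply] at h2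

theorem H.subsingleton_of_span [IsNoetherianRing R] (s : Finset R) (N : Set R)
    (hJ : J = Ideal.span (↑s ∪ N)) (hN : ∀ a ∈ N, ∀ x : A, ∃ n : ℕ, a ^ n • x = 0) (i : ℕ)
    (hi : s.card < i) : Subsingleton (H J i A) := by
  classical
  induction s using Finset.induction_on generalizing A N i with
  | empty =>
    obtain ⟨i, rfl⟩ : ∃ j, i = j + 1 := ⟨i - 1, by omega⟩
    rw [Finset.coe_empty, Set.empty_union] at hJ
    exact H.subsingleton_of_isTor J (isTor_of_span J N hJ hN) i
  | insert a s has ih =>
    rw [Finset.card_insert_of_notMem has] at hi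
    obtain ⟨i, rfl⟩ : ∃ j, i = j + 1 := ⟨i - 1, by omega⟩
    have hJ' : J = Ideal.span (↑s ∪ insert a N) := by
      rw [hJ, Finset.coe_insert, Set.insert_union, Set.union_insert]
    have haJ : a ∈ J := by
      rw [hJ]
      exact Ideal.subset_span (Or.inl (Finset.mem_coe.mpr (Finset.mem_insert_self a s)))
    let S : Submonoid R := Submonoid.powers a
    let L : Type u := LocalizedModule S A
    let l : A →ₗ[R] L := LocalizedModule.mkLinearMap S A
    have hloc : IsLocalizedModule S l := localizedModuleIsLocalizedModule S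
    have hbij : ∀ n : ℕ, Function.Bijective fun b : L => a ^ n • b := by
      intro n
      have h1 := (Module.End.isUnit_iff _).1 (IsLocalizedModule.map_units l (⟨a ^ n, n, rfl⟩ : S))
      exact h1
    have hinj : ∀ (n : ℕ) (b : L), a ^ n • b = 0 → b = 0 := by
      intro n b hb
      apply (hbij n).1
      simp only [smul_zero]
      exact hb
    have hsurj : ∀ b : L, ∃ (n : ℕ) (x : A), a ^ n • b = l x := by
      intro b
      obtain ⟨⟨x, ⟨_, n, rfl⟩⟩, hx⟩ := IsLocalizedModule.surj S l b
      exact ⟨n, x, hx⟩
    have hzero : ∀ x : A, l x = 0 → ∃ n : ℕ, a ^ n • x = 0 := by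
      intro x hx
      obtain ⟨⟨_, n, rfl⟩, hn⟩ := (IsLocalizedModule.eq_zero_iff S l).mp hx
      exact ⟨n, hn⟩
    -- the localisation is acyclic
    have hL : ∀ j : ℕ, Subsingleton (H J j L) := by
      intro j
      refine H.acyclic J (RingHom.id R) (fun r x => rfl) a ?_ ?_ j
      · rw [Ideal.map_id]
        exact Ideal.le_radical haJ
      · have := hbij 1
        simpa only [pow_one] using this
    -- the kernel
    have hK : ∀ j : ℕ, s.card < j → Subsingleton (H J j (LinearMap.ker l)) := by
      intro j hj
      refine ih (insert a N) hJ' ?_ j hj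
      rintro c hc ⟨x, hx⟩
      rcases Set.mem_insert_iff.mp hc with rfl | hc
      · obtain ⟨n, hn⟩ := hzero x hx
        exact ⟨n, Subtype.ext hn⟩
      · obtain ⟨n, hn⟩ := hN c hc x
        exact ⟨n, Subtype.ext hn⟩
    -- the cokernel
    have hC : ∀ j : ℕ, s.card < j → Subsingleton (H J j (L ⧸ LinearMap.range l)) := by
      intro j hj
      refine ih (insert a N) hJ' ?_ j hj
      intro c hc x
      obtain ⟨b, rfl⟩ := Submodule.mkQ_surjective _ x
      obtain ⟨n, m, hm⟩ := hsurj b
      rcases Set.mem_insert_iff.mp hc with rfl | hc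
      · refine ⟨n, ?_⟩
        rw [← _root_.map_smul, hm]
        exact (Submodule.Quotient.mk_eq_zero _).mpr ⟨m, rfl⟩
      · obtain ⟨p, hp⟩ := hN c hc m
        refine ⟨p, ?_⟩
        rw [← _root_.map_smul]
        have h1 : c ^ p • b = 0 := by
          apply hinj n
          rw [smul_comm, hm, ← _root_.map_smul, hp, _root_.map_zero]
        rw [h1, _root_.map_zero]
    have hA1 : Subsingleton (H J (i + 1) (LinearMap.range l)) := by
      refine subsingleton_of_forall_eq 0 fun z => ?_
      obtain ⟨w, rfl⟩ := (H.exact_δ_map J (LinearMap.range l).subtype (LinearMap.range l).mkQ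
        (LinearMap.range l).injective_subtype (LinearMap.exact_subtype_mkQ _)
        (LinearMap.range l).mkQ_surjective i z).mp
          (@Subsingleton.elim _ (hL (i + 1)) _ _)
      rw [@Subsingleton.elim _ (hC i (by omega)) w 0, _root_.map_zero]
    refine subsingleton_of_forall_eq 0 fun z => ?_
    have hex : Function.Exact (LinearMap.ker l).subtype l.rangeRestrict := by
      rw [LinearMap.exact_iff, LinearMap.ker_rangeRestrict, Submodule.range_subtype]
    obtain ⟨w, rfl⟩ := (H.exact_map_map J (LinearMap.ker l).subtype l.rangeRestrict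
      (LinearMap.ker l).injective_subtype hex l.surjective_rangeRestrict (i + 1) z).mp
        (Subsingleton.elim _ _)
    rw [@Subsingleton.elim _ (hK (i + 1) (by omega)) w 0, _root_.map_zero]

end

end CC5166
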