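import Pool.Agent.Lib.MP_cc5166_ag.Defs2
import Pool.Agent.Lib.MP_cc5166_ag.LCDim

universe u

namespace CC5166

section Aux

variable {k : Type u} [Field k] {M : ℕ}

private lemma nil_of_measure {σ : Vr M → Fin 3} (f : PP k M) (m : (Vr M → ℤ) → ℤ)
    (hm : ∀ e, InSt σ e → 0 ≤ m e)
    (hf : ∀ (n : ℤ) (x : X k σ), SuppOn (fun e => m e < n + 1) x →
      SuppOn (fun e => m e < n) (f • x)) (x : X k σ) : ∃ n : ℕ, f ^ n • x = 0 := by
  have key : ∀ (n : ℕ) (x : X k σ), SuppOn (fun e => m e < n) x → f ^ n • x = 0 := by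
    intro n
    induction n with
    | zero =>
      intro x hx
      have hx0 : x = 0 := by
        refine Finsupp.ext fun e => ?_
        by_contra he
        have h1 := hx e he
        have h2 := hm e.1 e.2
        simp only [Nat.cast_zero] at h1
        omega
      rw [hx0, smul_zero]
    | succ n ih =>
      intro x hx
      rw [pow_succ, mul_smul]
      apply ih
      apply hf
      intro e he
      have h1 := hx e he
      push_cast at h1
      exact h1
  obtain ⟨n, hn⟩ : ∃ n : ℕ, ∀ e ∈ x.support, m e.1 < n := by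
    refine ⟨∑ e ∈ x.support, (m e.1).toNat + 1, fun e he => ?_⟩
    have h1 : (m e.1).toNat ≤ ∑ e ∈ x.support, (m e.1).toNat :=
      Finset.single_le_sum (f := fun e : Ex σ => (m e.1).toNat) (fun _ _ => Nat.zero_le _) he
    have h2 : m e.1 ≤ ((m e.1).toNat : ℤ) := Int.self_le_toNat _
    have h3 : ((m e.1).toNat : ℤ) ≤ ((∑ e ∈ x.support, (m e.1).toNat : ℕ) : ℤ) := by
      exact_mod_cast h1
    rw [Nat.cast_add, Nat.cast_one]
    omega
  exact ⟨n, key n x fun e he => hn e (Finsupp.mem_support_iff.mpr he)⟩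

private lemma toZ_yq (i : Fin 2) (l : Fin M) (e : Vr M → ℤ) :
    (∑ j, (e + toZ (Finsupp.single (Vr.y i : Vr M) 1 + Finsupp.single (Vr.q l) 1) :
      Vr M → ℤ) (Vr.q j)) =
      (∑ j, e (Vr.q j)) + 1 := by
  classical
  simp [toZ, Finset.sum_add_distrib, Finsupp.single_apply]

private lemma toZ_yq' (i : Fin 2) (l : Fin M) (e : Vr M → ℤ) :
    (e + toZ (Finsupp.single (Vr.y i : Vr M) 1 + Finsupp.single (Vr.q l) 1) : Vr M → ℤ) (Vr.y 0) +
      (e + toZ (Finsupp.single (Vr.y i : Vr M) 1 + Finsupp.single (Vr.q l) 1) : Vr M → ℤ) (Vr.y 1) =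
      e (Vr.y 0) + e (Vr.y 1) + 1 := by
  classical
  fin_cases i <;> simp [toZ] <;> ring

private lemma toZ_zp (i : Fin 2) (l : Fin 3) (e : Vr M → ℤ) :
    (∑ j, (e + toZ (Finsupp.single (Vr.ze i : Vr M) 1 + Finsupp.single (Vr.p l) 1) :
      Vr M → ℤ) (Vr.p j)) =
      (∑ j, e (Vr.p j)) + 1 := by
  classical
  simp [toZ, Finset.sum_add_distrib, Finsupp.single_apply]

private lemma toZ_zp' (i : Fin 2) (l : Fin 3) (e : Vr M → ℤ) :
    (e + toZ (Finsupp.single (Vr.ze i : Vr M) 1 + Finsupp.single (Vr.p l) 1) : Vr M → ℤ) (Vr.ze 0) +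
      (e + toZ (Finsupp.single (Vr.ze i : Vr M) 1 + Finsupp.single (Vr.p l) 1) : Vr M → ℤ) (Vr.ze 1) =
      e (Vr.ze 0) + e (Vr.ze 1) + 1 := by
  classical
  fin_cases i <;> simp [toZ] <;> ring

private lemma Y_nil {σ : Vr M → Fin 3} (h : (∀ j, σ (.q j) = 2) ∨ (∀ i, σ (.y i) = 2))
    (j : Fin (M + 1)) (x : X k σ) : ∃ n : ℕ, Ypoly k M j ^ n • x = 0 := by
  rcases h with h | h
  · refine nil_of_measure _ (fun e => - ∑ j, e (.q j)) (fun e he => ?_) (fun n x hx => ?_) x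
    · have h1 : ∑ j, e (.q j) ≤ 0 := Finset.sum_nonpos fun j _ => ((he (.q j)).2 (h j)).le
      change 0 ≤ - ∑ j, e (.q j)
      omega
    · refine suppOn_Ypoly_smul hx j fun e i l _ he => ?_
      have h1 := toZ_yq i l e
      beta_reduce at he ⊢
      rw [h1]
      omega
  · refine nil_of_measure _ (fun e => - (e (.y 0) + e (.y 1))) (fun e he => ?_)
      (fun n x hx => ?_) x
    · have h1 := (he (.y 0)).2 (h 0)
      have h2 := (he (.y 1)).2 (h 1)
      change 0 ≤ - (e (.y 0) + e (.y 1))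
      omega
    · refine suppOn_Ypoly_smul hx j fun e i l _ he => ?_
      have h1 := toZ_yq' i l e
      beta_reduce at he ⊢
      rw [h1]
      omega

private lemma Z_nil {σ : Vr M → Fin 3} (h : (∀ j, σ (.p j) = 2) ∨ (∀ i, σ (.ze i) = 2))
    (j : Fin 4) (x : X k σ) : ∃ n : ℕ, Zpoly k M j ^ n • x = 0 := by
  rcases h with h | h
  · refine nil_of_measure _ (fun e => - ∑ j, e (.p j)) (fun e he => ?_) (fun n x hx => ?_) x
    · have h1 : ∑ j, e (.p j) ≤ 0 := Finset.sum_nonpos fun j _ => ((he (.p j)).2 (h j)).le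
      change 0 ≤ - ∑ j, e (.p j)
      omega
    · refine suppOn_Zpoly_smul hx j fun e i l he => ?_
      have h1 := toZ_zp i l e
      beta_reduce at he ⊢
      rw [h1]
      omega
  · refine nil_of_measure _ (fun e => - (e (.ze 0) + e (.ze 1))) (fun e he => ?_)
      (fun n x hx => ?_) x
    · have h1 := (he (.ze 0)).2 (h 0)
      have h2 := (he (.ze 1)).2 (h 1)
      change 0 ≤ - (e (.ze 0) + e (.ze 1))
      omega
    · refine suppOn_Zpoly_smul hx j fun e i l he => ?_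
      have h1 := toZ_zp' i l e
      beta_reduce at he ⊢
      rw [h1]
      omega

private lemma phi_Y (j : Fin (M + 1)) : phi k M (MvPolynomial.X (.Y j)) = Ypoly k M j := by
  rw [phi, MvPolynomial.aeval_X]

private lemma phi_Z (j : Fin 4) : phi k M (MvPolynomial.X (.Z j)) = Zpoly k M j := by
  rw [phi, MvPolynomial.aeval_X]

private lemma phi_T (t : Tx) : phi k M (MvPolynomial.X (.T t)) = 0 := by
  rw [phi, MvPolynomial.aeval_X]

private lemma phi_w (i : Fin 2) : phi k M (MvPolynomial.X (.w i)) = 0 := by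
  rw [phi, MvPolynomial.aeval_X]

private lemma Pc.pow_nil {d : ℤ × ℤ × ℤ} {σ : Vr M → Fin 3} (r : RR k M) (x : Pc k d σ)
    (h : ∃ n : ℕ, phi k M r ^ n • x.1 = 0) : ∃ n : ℕ, r ^ n • x = 0 := by
  obtain ⟨n, hn⟩ := h
  refine ⟨n, Subtype.ext ?_⟩
  rw [Pc.smul_val, map_pow, hn]
  rfl

private lemma Pc.pow_nil_zero {d : ℤ × ℤ × ℤ} {σ : Vr M → Fin 3} (r : RR k M) (x : Pc k d σ)
    (h : phi k M r = 0) : ∃ n : ℕ, r ^ n • x = 0 :=
  Pc.pow_nil r x ⟨1, by rw [h, pow_one, zero_smul]⟩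

end Aux

variable (k : Type u) [Field k] (M : ℕ)

theorem lc_torY (d : ℤ × ℤ × ℤ) (σ : Vr M → Fin 3)
    (h : (∀ j, σ (.q j) = 2) ∨ (∀ i, σ (.y i) = 2)) (l : ℕ) (hl : 4 < l) :
    Subsingleton (H (mm k M) l (Pc k d σ)) := by
  classical
  refine H.subsingleton_of_span (mm k M)
    ((Finset.univ : Finset (Fin 4)).image fun j => (MvPolynomial.X (.Z j) : RR k M))
    {r | ∃ i : Ix M, (∀ j, i ≠ .Z j) ∧ MvPolynomial.X i = r} ?_ ?_ l ?_
  · unfold mm
    congr 1
    ext r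
    constructor
    · rintro ⟨i, rfl⟩
      by_cases hi : ∃ j, i = .Z j
      · obtain ⟨j, rfl⟩ := hi
        refine Or.inl ?_
        rw [Finset.coe_image]
        exact ⟨j, by simp, rfl⟩
      · exact Or.inr ⟨i, fun j hj => hi ⟨j, hj⟩, rfl⟩
    · rintro (hr | ⟨i, _, rfl⟩)
      · rw [Finset.coe_image] at hr
        obtain ⟨j, _, rfl⟩ := hr
        exact ⟨_, rfl⟩
      · exact ⟨i, rfl⟩
  · rintro _ ⟨i, hi, rfl⟩ x
    cases i with
    | Y j => exact Pc.pow_nil _ x (by rw [phi_Y]; exact Y_nil h j x.1)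
    | Z j => exact absurd rfl (hi j)
    | T t => exact Pc.pow_nil_zero _ x (phi_T t)
    | w i => exact Pc.pow_nil_zero _ x (phi_w i)
  · refine lt_of_le_of_lt Finset.card_image_le ?_
    simpa using hl

theorem isTor_Pc (d : ℤ × ℤ × ℤ) (σ : Vr M → Fin 3)
    (h : (∀ j, σ (.q j) = 2) ∨ (∀ i, σ (.y i) = 2))
    (h' : (∀ j, σ (.p j) = 2) ∨ (∀ i, σ (.ze i) = 2)) : IsTor (mm k M) (Pc k d σ) := by
  intro x
  have hrad : mm k M ≤ Ideal.radical (LinearMap.ker
      (LinearMap.toSpanSingleton (RR k M) (Pc k d σ) x) : Ideal (RR k M)) := by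
    unfold mm
    rw [Ideal.span_le]
    rintro _ ⟨i, rfl⟩
    have key : ∃ n : ℕ, (MvPolynomial.X i : RR k M) ^ n • x = 0 := by
      cases i with
      | Y j => exact Pc.pow_nil _ x (by rw [phi_Y]; exact Y_nil h j x.1)
      | Z j => exact Pc.pow_nil _ x (by rw [phi_Z]; exact Z_nil h' j x.1)
      | T t => exact Pc.pow_nil_zero _ x (phi_T t)
      | w i => exact Pc.pow_nil_zero _ x (phi_w i)
    obtain ⟨n, hn⟩ := key
    exact ⟨n, by rw [LinearMap.mem_ker, LinearMap.toSpanSingleton_apply]; exact hn⟩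
  obtain ⟨t, ht⟩ := Ideal.exists_pow_le_of_le_radical_of_fg hrad (IsNoetherian.noetherian _)
  refine ⟨t, fun a ha => ?_⟩
  have h1 := ht ha
  rwa [LinearMap.mem_ker, LinearMap.toSpanSingleton_apply] at h1

end CC5166
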