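import Pool.Agent.Lib.MP_cc5166_ag.ConnEK

/-!
The kernel `K_N` in terms of sequences of polynomials (module Conn).
-/

universe u

set_option linter.unnecessarySeqFocus false

namespace CC5166

section

variable (k : Type u) [Field k] (M : ℕ)

lemma mem_KN_iff {N : ℕ} (x : Pc k (d1 N) (st2 M)) : x ∈ KN k M N ↔ Fpoly k M • x.1 = 0 := by
  constructor
  · intro h
    have h2 : FN k M N (st2 M) x = 0 := LinearMap.mem_ker.mp h
    exact congrArg Subtype.val h2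
  · intro h
    have h2 : FN k M N (st2 M) x = 0 := Subtype.ext h
    exact LinearMap.mem_ker.mpr h2

/-- the underlying element of the state module. -/
def KNval (N : ℕ) : KN k M N →ₗ[k] X k (st2 M) where
  toFun x := x.1.1
  map_add' _ _ := rfl
  map_smul' _ _ := rfl

open Polynomial in
/-- the sequences of polynomials belonging to an element. -/
noncomputable def thL (N : ℕ) (α : Fin M → ℕ) (γ : Fin 3 → ℕ) (b c : ℤ) (i j : ℕ) :
    X k (st2 M) →ₗ[k] k[X] :=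
  ∑ t ∈ Finset.range (N - 1), (Polynomial.monomial t) ∘ₗ (cf (st2 M) (eK α γ b c (N - 2) i j t))

variable {k M}

lemma thL_coeff (N : ℕ) (α : Fin M → ℕ) (γ : Fin 3 → ℕ) (b c : ℤ) (i j : ℕ) (x : X k (st2 M))
    (t : ℕ) : (thL k M N α γ b c i j x).coeff t = cf (st2 M) (eK α γ b c (N - 2) i j t) x := by
  classical
  unfold thL
  rw [LinearMap.sum_apply, Polynomial.finsetSum_coeff]
  simp only [LinearMap.comp_apply, Polynomial.coeff_monomial]
  rw [Finset.sum_ite_eq']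
  split_ifs with h
  · rfl
  · rw [cf_not]
    intro h1
    rw [inSt_eK] at h1
    apply h
    rw [Finset.mem_range]
    omega

lemma coeff_shift (N : ℕ) (α : Fin M → ℕ) (γ : Fin 3 → ℕ) (b c : ℤ) (i j m : ℕ)
    (x : X k (st2 M)) (t : ℕ) : (Polynomial.X ^ m * thL k M N α γ b c i j x).coeff t =
      cf (st2 M) (eK α γ b c (N - 2) i j (t - m)) x := by
  rw [Polynomial.coeff_X_pow_mul']
  split_ifs with h
  · rw [thL_coeff, Nat.cast_sub h]
  · rw [cf_not]
    intro h1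
    rw [inSt_eK] at h1
    omega

lemma thL_mem_KS (N : ℕ) (α : Fin M → ℕ) (γ : Fin 3 → ℕ) (b c : ℕ) (x : X k (st2 M))
    (hx : Fpoly k M • x = 0) :
    (fun i j => thL k M N α γ b c i j x) ∈ KS k N b c := by
  classical
  rw [mem_KS]
  refine ⟨?_, ?_, ?_⟩
  · intro i j
    rw [Polynomial.mem_degreeLT, Polynomial.degree_lt_iff_coeff_zero]
    intro t ht
    rw [thL_coeff, cf_not]
    intro h1
    rw [inSt_eK] at h1
    omega
  · intro i j hij
    ext t
    rw [thL_coeff, cf_not, Polynomial.coeff_zero]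
    intro h1
    rw [inSt_eK] at h1
    omega
  · intro i j hi hj
    ext t
    simp only [Polynomial.coeff_add, Polynomial.coeff_zero]
    have e1 := coeff_shift N α γ b c (i + 1) (j + 2) 2 x t
    have e2 := coeff_shift N α γ b c (i + 1) (j + 1) 1 x t
    have e3 := thL_coeff N α γ b c (i + 1) j x t
    have e4 := coeff_shift N α γ b c i j 2 x t
    have e5 := thL_coeff N α γ b c i (j + 2) x t
    rw [pow_one] at e2
    rw [e1, e2, e3, e4, e5]
    push_cast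
    by_cases h : InSt (st2 M) (eK α γ ((b : ℤ) - 1) ((c : ℤ) - 2) ((N : ℤ) - 2 + 2) i j t)
    · have h1 := cf_F h x
      rw [hx, map_zero, eK_sub1, eK_sub2, eK_sub3, eK_sub4, eK_sub5] at h1
      exact h1.symm
    · have h2 : ¬ ((t : ℤ) ≤ N) := by
        intro h3
        apply h
        rw [inSt_eK]
        refine ⟨?_, ?_, ?_, ?_, ?_, ?_⟩ <;> omega
      rw [cf_not, cf_not, cf_not, cf_not, cf_not]
      · simp
      all_goals
        intro h1
        rw [inSt_eK] at h1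
        omega

lemma eq_eK (e : Vr M → ℤ) (h : InSt (st2 M) e) :
    e = eK (fun l => (-1 - e (.q l)).toNat) (fun l => (-1 - e (.p l)).toNat)
      (-2 - e (.y 0) - e (.y 1)) (-2 - e (.ze 0) - e (.ze 1)) (e (.xi 0) + e (.xi 1))
      (-1 - e (.y 0)) (-1 - e (.ze 0)) (e (.xi 0)) := by
  funext v
  cases v with
  | xi r => fin_cases r <;> simp [eK]
  | y r => fin_cases r <;> simp [eK] <;> ring
  | q l =>
    have := (h (.q l)).2 rfl
    simp only [eK]
    rw [Int.toNat_of_nonneg (by omega)]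
    ring
  | ze r => fin_cases r <;> simp [eK] <;> ring
  | p l =>
    have := (h (.p l)).2 rfl
    simp only [eK]
    rw [Int.toNat_of_nonneg (by omega)]
    ring

end

variable (k : Type u) [Field k] (M : ℕ)

theorem KN_conn_inj (hM : 1 ≤ M) (N : ℕ) :
    ∃ f : KN k M N →ₗ[k] ((α : Fin M → ℕ) → (γ : Fin 3 → ℕ) →
      KS k N (N + M - 1 + ∑ i, α i) (N + 3 + ∑ i, γ i)), Function.Injective f := by
  classical
  have hmem : ∀ (x : KN k M N) (α : Fin M → ℕ) (γ : Fin 3 → ℕ),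
      (fun i j => thL k M N α γ ((N + M - 1 + ∑ i, α i : ℕ) : ℤ) ((N + 3 + ∑ i, γ i : ℕ) : ℤ) i j
        (KNval k M N x)) ∈ KS k N (N + M - 1 + ∑ i, α i) (N + 3 + ∑ i, γ i) :=
    fun x α γ => thL_mem_KS N α γ _ _ _ ((mem_KN_iff k M x.1).mp x.2)
  refine ⟨
    { toFun := fun x α γ => ⟨_, hmem x α γ⟩
      map_add' := ?_
      map_smul' := ?_ }, ?_⟩
  · intro x y
    funext α γ
    apply Subtype.ext
    funext i j
    change thL k M N α γ _ _ i j (KNval k M N (x + y)) =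
      thL k M N α γ _ _ i j (KNval k M N x) + thL k M N α γ _ _ i j (KNval k M N y)
    rw [map_add, map_add]
  · intro a x
    funext α γ
    apply Subtype.ext
    funext i j
    change thL k M N α γ _ _ i j (KNval k M N (a • x)) = a • thL k M N α γ _ _ i j (KNval k M N x)
    rw [map_smul, map_smul]
  · rw [injective_iff_map_eq_zero]
    intro x hx
    have h0 : ∀ (α : Fin M → ℕ) (γ : Fin 3 → ℕ) (i j : ℕ),
        thL k M N α γ ((N + M - 1 + ∑ i, α i : ℕ) : ℤ) ((N + 3 + ∑ i, γ i : ℕ) : ℤ) i j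
          (KNval k M N x) = 0 := by
      intro α γ i j
      exact congrFun (congrFun (congrArg Subtype.val (congrFun (congrFun hx α) γ)) i) j
    have h1 : x.1.1 = 0 := by
      apply cf_ext
      intro e he
      by_contra hne
      have hne' : x.1.1 ⟨e, he⟩ ≠ 0 := by rwa [cf_of he] at hne
      have hdeg : deg3 e = d1 N := x.1.2 _ hne'
      have heq := eq_eK e he
      have hy0 := (he (.y 0)).2 rfl
      have hz0 := (he (.ze 0)).2 rfl
      have hx0 := (he (.xi 0)).1 rfl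
      have hc := thL_coeff N (fun l => (-1 - e (.q l)).toNat) (fun l => (-1 - e (.p l)).toNat)
        ((N + M - 1 + ∑ l, (-1 - e (.q l)).toNat : ℕ) : ℤ)
        ((N + 3 + ∑ l, (-1 - e (.p l)).toNat : ℕ) : ℤ)
        (-1 - e (.y 0)).toNat (-1 - e (.ze 0)).toNat x.1.1 (e (.xi 0)).toNat
      have hd2 := deg3_eK (fun l => (-1 - e (.q l)).toNat) (fun l => (-1 - e (.p l)).toNat)
        (-2 - e (.y 0) - e (.y 1)) (-2 - e (.ze 0) - e (.ze 1)) (e (.xi 0) + e (.xi 1))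
        (-1 - e (.y 0)) (-1 - e (.ze 0)) (e (.xi 0))
      rw [← heq, hdeg] at hd2
      simp only [d1, Prod.mk.injEq] at hd2
      obtain ⟨q1, q2, q3⟩ := hd2
      rw [Int.toNat_of_nonneg (by omega), Int.toNat_of_nonneg (by omega),
        Int.toNat_of_nonneg hx0] at hc
      have hb : ((N + M - 1 + ∑ l, (-1 - e (.q l)).toNat : ℕ) : ℤ) = -2 - e (.y 0) - e (.y 1) := by
        push_cast [Nat.cast_sub (show 1 ≤ N + M by omega)]
        linarith
      have hcc : ((N + 3 + ∑ l, (-1 - e (.p l)).toNat : ℕ) : ℤ) = -2 - e (.ze 0) - e (.ze 1) := by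
        push_cast
        linarith
      have := h0 (fun l => (-1 - e (.q l)).toNat) (fun l => (-1 - e (.p l)).toNat)
        (-1 - e (.y 0)).toNat (-1 - e (.ze 0)).toNat
      have h3 := congrArg (fun p => p.coeff (e (.xi 0)).toNat) this
      simp only [Polynomial.coeff_zero] at h3
      have h4 : (thL k M N (fun l => (-1 - e (.q l)).toNat) (fun l => (-1 - e (.p l)).toNat)
        ((N + M - 1 + ∑ l, (-1 - e (.q l)).toNat : ℕ) : ℤ)
        ((N + 3 + ∑ l, (-1 - e (.p l)).toNat : ℕ) : ℤ)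
        (-1 - e (.y 0)).toNat (-1 - e (.ze 0)).toNat x.1.1).coeff (e (.xi 0)).toNat = 0 := h3
      rw [hc, hb, hcc, show ((N : ℤ) - 2) = e (.xi 0) + e (.xi 1) by omega, ← heq] at h4
      exact hne h4
    exact Subtype.ext (Subtype.ext h1)

/-- the exponents of `q` of an exponent vector. -/
def exq {M : ℕ} (e : Vr M → ℤ) : Fin M → ℕ := fun l => (-1 - e (.q l)).toNat

lemma exq_eK {M : ℕ} (α : Fin M → ℕ) (γ : Fin 3 → ℕ) (b c n i j t : ℤ) :
    exq (eK α γ b c n i j t) = α := by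
  funext l
  simp [exq, eK]

/-- condition for an exponent vector to occur. -/
def Cd {M : ℕ} (s : Finset (Fin M → ℕ)) (d : ℤ × ℤ × ℤ) (e : Vr M → ℤ) : Prop :=
  exq e ∈ s ∧ (∀ l, e (.p l) = -1) ∧ deg3 e = d

open Classical in
/-- the coefficient function. -/
noncomputable def cfun {k : Type u} [Field k] {M : ℕ} (N : ℕ) (s : Finset (Fin M → ℕ))
    (Θ : s → ℕ → ℕ → Polynomial k) (e : Vr M → ℤ) : k :=
  if h : Cd s (d1 N) e then
    (Θ ⟨exq e, h.1⟩ (-1 - e (.y 0)).toNat (-1 - e (.ze 0)).toNat).coeff (e (.xi 0)).toNat else 0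

lemma cfun_add {k : Type u} [Field k] {M : ℕ} (N : ℕ) (s : Finset (Fin M → ℕ))
    (Θ Θ' : s → ℕ → ℕ → Polynomial k) (e : Vr M → ℤ) :
    cfun N s (Θ + Θ') e = cfun N s Θ e + cfun N s Θ' e := by
  unfold cfun
  split_ifs <;> simp

lemma cfun_smul {k : Type u} [Field k] {M : ℕ} (N : ℕ) (s : Finset (Fin M → ℕ)) (a : k)
    (Θ : s → ℕ → ℕ → Polynomial k) (e : Vr M → ℤ) :
    cfun N s (a • Θ) e = a * cfun N s Θ e := by
  unfold cfun
  split_ifs <;> simp

/-- the number `b`. -/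
def bN {M : ℕ} (N : ℕ) (α : Fin M → ℕ) : ℕ := N + M - 1 + ∑ i, α i

lemma Cd_eK {M : ℕ} (hM : 1 ≤ M) {N : ℕ} {s : Finset (Fin M → ℕ)} {α : Fin M → ℕ} (hα : α ∈ s)
    (i j t : ℤ) : Cd s (d1 N) (eK α 0 (bN N α) ((N + 3 : ℕ) : ℤ) (N - 2) i j t) := by
  refine ⟨by rw [exq_eK]; exact hα, fun l => by simp [eK], ?_⟩
  rw [deg3_eK]
  simp only [d1, bN, Prod.mk.injEq, Pi.zero_apply, Nat.cast_zero, Finset.sum_const_zero]
  refine ⟨trivial, ?_, ?_⟩
  · push_cast [Nat.cast_sub (show 1 ≤ N + M by omega)]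
    ring
  · push_cast
    ring

lemma cfun_eK {k : Type u} [Field k] {M : ℕ} (hM : 1 ≤ M) (N : ℕ) (s : Finset (Fin M → ℕ))
    (Θ : s → ℕ → ℕ → Polynomial k) (α : s) (i j t : ℕ) :
    cfun N s Θ (eK α.1 0 (bN N α.1) ((N + 3 : ℕ) : ℤ) (N - 2) i j t) = (Θ α i j).coeff t := by
  have hc : Cd s (d1 N) (eK α.1 0 (bN N α.1) ((N + 3 : ℕ) : ℤ) (N - 2) i j t) :=
    Cd_eK hM α.2 _ _ _
  unfold cfun
  rw [dif_pos hc]
  have h1 : (⟨exq (eK α.1 0 (bN N α.1) ((N + 3 : ℕ) : ℤ) (N - 2) i j t), hc.1⟩ : s) = α :=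
    Subtype.ext (exq_eK _ _ _ _ _ _ _ _)
  rw [h1]
  simp [eK]

lemma eq_of_Cd {M : ℕ} (hM : 1 ≤ M) {N : ℕ} {s : Finset (Fin M → ℕ)} {e : Vr M → ℤ}
    (he : InSt (st2 M) e) (hc : Cd s (d1 N) e) :
    e = eK (exq e) 0 (bN N (exq e)) ((N + 3 : ℕ) : ℤ) (N - 2) ((-1 - e (.y 0)).toNat : ℤ)
      ((-1 - e (.ze 0)).toNat : ℤ) ((e (.xi 0)).toNat : ℤ) := by
  obtain ⟨-, hp, hdeg⟩ := hc
  have heq := eq_eK e he
  have hy0 := (he (.y 0)).2 rfl
  have hz0 := (he (.ze 0)).2 rfl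
  have hx0 := (he (.xi 0)).1 rfl
  have hd2 := deg3_eK (fun l => (-1 - e (.q l)).toNat) (fun l => (-1 - e (.p l)).toNat)
    (-2 - e (.y 0) - e (.y 1)) (-2 - e (.ze 0) - e (.ze 1)) (e (.xi 0) + e (.xi 1))
    (-1 - e (.y 0)) (-1 - e (.ze 0)) (e (.xi 0))
  rw [← heq, hdeg] at hd2
  simp only [d1, Prod.mk.injEq] at hd2
  obtain ⟨q1, q2, q3⟩ := hd2
  have hp' : (fun l : Fin 3 => (-1 - e (.p l)).toNat) = 0 := by
    funext l
    rw [hp l]
    rfl
  have hb : ((bN N (exq e) : ℕ) : ℤ) = -2 - e (.y 0) - e (.y 1) := by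
    unfold bN exq
    push_cast [Nat.cast_sub (show 1 ≤ N + M by omega)]
    linarith
  have hcc : ((N + 3 : ℕ) : ℤ) = -2 - e (.ze 0) - e (.ze 1) := by
    simp only [hp] at q3
    push_cast
    simp at q3
    linarith
  rw [Int.toNat_of_nonneg (by omega), Int.toNat_of_nonneg (by omega), Int.toNat_of_nonneg hx0,
    hb, hcc, show ((N : ℤ) - 2) = e (.xi 0) + e (.xi 1) by omega]
  rw [hp'] at heq
  exact heq

lemma eq_of_CdN {M : ℕ} (hM : 1 ≤ M) {N : ℕ} {s : Finset (Fin M → ℕ)} {e : Vr M → ℤ}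
    (he : InSt (st2 M) e) (hc : Cd s (dN N) e) :
    e = eK (exq e) 0 ((bN N (exq e) : ℤ) - 1) (((N + 3 : ℕ) : ℤ) - 2) ((N : ℤ) - 2 + 2)
      ((-1 - e (.y 0)).toNat : ℤ) ((-1 - e (.ze 0)).toNat : ℤ) ((e (.xi 0)).toNat : ℤ) := by
  obtain ⟨-, hp, hdeg⟩ := hc
  have heq := eq_eK e he
  have hy0 := (he (.y 0)).2 rfl
  have hz0 := (he (.ze 0)).2 rfl
  have hx0 := (he (.xi 0)).1 rfl
  have hd2 := deg3_eK (fun l => (-1 - e (.q l)).toNat) (fun l => (-1 - e (.p l)).toNat)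
    (-2 - e (.y 0) - e (.y 1)) (-2 - e (.ze 0) - e (.ze 1)) (e (.xi 0) + e (.xi 1))
    (-1 - e (.y 0)) (-1 - e (.ze 0)) (e (.xi 0))
  rw [← heq, hdeg] at hd2
  simp only [dN, Prod.mk.injEq] at hd2
  obtain ⟨q1, q2, q3⟩ := hd2
  have hp' : (fun l : Fin 3 => (-1 - e (.p l)).toNat) = 0 := by
    funext l
    rw [hp l]
    rfl
  have hb : ((bN N (exq e) : ℕ) : ℤ) - 1 = -2 - e (.y 0) - e (.y 1) := by
    unfold bN exq
    push_cast [Nat.cast_sub (show 1 ≤ N + M by omega)]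
    linarith
  have hcc : ((N + 3 : ℕ) : ℤ) - 2 = -2 - e (.ze 0) - e (.ze 1) := by
    simp only [hp] at q3
    push_cast
    simp at q3
    linarith
  rw [Int.toNat_of_nonneg (by omega), Int.toNat_of_nonneg (by omega), Int.toNat_of_nonneg hx0,
    hb, hcc, show ((N : ℤ) - 2 + 2) = e (.xi 0) + e (.xi 1) by omega]
  rw [hp'] at heq
  exact heq

lemma Cd_finite {M : ℕ} (hM : 1 ≤ M) (N : ℕ) (s : Finset (Fin M → ℕ)) :
    {e : Ex (st2 M) | Cd s (d1 N) e.1}.Finite := by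
  classical
  have h1 : (Set.image (fun a : (Fin M → ℕ) × ℕ × ℕ × ℕ =>
      eK a.1 0 (bN N a.1) ((N + 3 : ℕ) : ℤ) (N - 2) (a.2.1 : ℤ) (a.2.2.1 : ℤ) (a.2.2.2 : ℤ))
      ((s ×ˢ (Finset.range (s.sup (bN N) + 1) ×ˢ (Finset.range (N + 4) ×ˢ
        Finset.range (N + 1))) : Finset _) : Set _)).Finite := Set.Finite.image _ (Finset.finite_toSet _)
  refine Set.Finite.subset (Set.Finite.preimage Subtype.val_injective.injOn h1) ?_
  intro e he
  have he' : Cd s (d1 N) e.1 := he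
  have h2 := eq_of_Cd hM e.2 he'
  have h3 := e.2
  rw [h2, inSt_eK] at h3
  refine ⟨(exq e.1, (-1 - e.1 (.y 0)).toNat, (-1 - e.1 (.ze 0)).toNat, (e.1 (.xi 0)).toNat),
    ?_, h2.symm⟩
  rw [Finset.mem_coe, Finset.mem_product, Finset.mem_product, Finset.mem_product, Finset.mem_range,
    Finset.mem_range, Finset.mem_range]
  refine ⟨he'.1, ?_, ?_, ?_⟩
  · have h4 : bN N (exq e.1) ≤ s.sup (bN N) := Finset.le_sup he'.1
    simp only
    omega
  · simp only
    omega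
  · simp only
    omega

/-- the element belonging to sequences of polynomials. -/
noncomputable def xf {k : Type u} [Field k] {M : ℕ} (hM : 1 ≤ M) (N : ℕ)
    (s : Finset (Fin M → ℕ)) (Θ : s → ℕ → ℕ → Polynomial k) : X k (st2 M) :=
  Finsupp.ofSupportFinite (fun e => cfun N s Θ e.1) ((Cd_finite hM N s).subset (by
    intro e he
    by_contra h
    apply he
    have h' : ¬ Cd s (d1 N) e.1 := h
    change cfun N s Θ e.1 = 0
    unfold cfun
    rw [dif_neg h']))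

lemma xf_apply {k : Type u} [Field k] {M : ℕ} (hM : 1 ≤ M) (N : ℕ)
    (s : Finset (Fin M → ℕ)) (Θ : s → ℕ → ℕ → Polynomial k) (e : Ex (st2 M)) :
    xf hM N s Θ e = cfun N s Θ e.1 := rfl

lemma xf_inDeg {k : Type u} [Field k] {M : ℕ} (hM : 1 ≤ M) (N : ℕ)
    (s : Finset (Fin M → ℕ)) (Θ : s → ℕ → ℕ → Polynomial k) : InDeg (d1 N) (xf hM N s Θ) := by
  intro e he
  rw [xf_apply] at he
  by_contra h
  apply he
  unfold cfun
  rw [dif_neg]
  intro h'
  exact h h'.2.2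

lemma cf_xf_zero {k : Type u} [Field k] {M : ℕ} (hM : 1 ≤ M) (N : ℕ)
    (s : Finset (Fin M → ℕ)) (Θ : s → ℕ → ℕ → Polynomial k) (e : Vr M → ℤ)
    (h : ¬ Cd s (d1 N) e) : cf (st2 M) e (xf hM N s Θ) = 0 := by
  by_cases he : InSt (st2 M) e
  · rw [cf_of he, xf_apply]
    unfold cfun
    rw [dif_neg h]
  · exact cf_not he _

lemma cf_xf {k : Type u} [Field k] {M : ℕ} (hM : 1 ≤ M) (N : ℕ)
    (s : Finset (Fin M → ℕ)) (Θ : s → ℕ → ℕ → Polynomial k)
    (hΘ : ∀ α : s, Θ α ∈ KS k N (bN N α.1) (N + 3)) (α : s) (i j m : ℕ) (t : ℕ) :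
    cf (st2 M) (eK α.1 0 (bN N α.1) ((N + 3 : ℕ) : ℤ) (N - 2) i j ((t : ℤ) - m)) (xf hM N s Θ) =
      (Polynomial.X ^ m * Θ α i j).coeff t := by
  obtain ⟨k1, k2, -⟩ := mem_KS.mp (hΘ α)
  rw [Polynomial.coeff_X_pow_mul']
  by_cases hm : m ≤ t
  · rw [if_pos hm, ← Nat.cast_sub hm]
    by_cases he : InSt (st2 M) (eK α.1 0 (bN N α.1) ((N + 3 : ℕ) : ℤ) (N - 2) i j ((t - m : ℕ) : ℤ))
    · rw [cf_of he, xf_apply]
      exact cfun_eK hM N s Θ α i j (t - m)
    · rw [cf_not he]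
      by_cases h1 : bN N α.1 < i ∨ N + 3 < j
      · rw [k2 i j h1, Polynomial.coeff_zero]
      · have h2 : N - 1 ≤ t - m := by
          by_contra h3
          apply he
          rw [inSt_eK]
          refine ⟨?_, ?_, ?_, ?_, ?_, ?_⟩ <;> omega
        have h4 := k1 i j
        rw [Polynomial.mem_degreeLT, Polynomial.degree_lt_iff_coeff_zero] at h4
        exact (h4 _ h2).symm
  · rw [if_neg hm, cf_not]
    intro h1
    rw [inSt_eK] at h1
    omega

lemma Cd_sub {M : ℕ} {N : ℕ} {s : Finset (Fin M → ℕ)} {e : Vr M → ℤ} {μ : Vr M →₀ ℕ}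
    (hq : ∀ l, μ (.q l) = 0) (hp : ∀ l, μ (.p l) = 0) (hd : deg3 (toZ μ) = (2, -1, -2))
    (h : Cd s (d1 N) (e - toZ μ)) : Cd s (dN N) e := by
  obtain ⟨h1, h2, h3⟩ := h
  refine ⟨?_, ?_, ?_⟩
  · have : exq (e - toZ μ) = exq e := by
      funext l
      simp [exq, toZ, hq]
    rwa [this] at h1
  · intro l
    have := h2 l
    simpa [toZ, hp] using this
  · have h4 := deg3_add (e - toZ μ) (toZ μ)
    rw [sub_add_cancel, h3, hd, d1_add] at h4
    exact h4

lemma xf_mem {k : Type u} [Field k] {M : ℕ} (hM : 1 ≤ M) (N : ℕ)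
    (s : Finset (Fin M → ℕ)) (Θ : s → ℕ → ℕ → Polynomial k)
    (hΘ : ∀ α : s, Θ α ∈ KS k N (bN N α.1) (N + 3)) : Fpoly k M • xf hM N s Θ = 0 := by
  classical
  apply cf_ext
  intro e he
  rw [cf_F he]
  by_cases hc : Cd s (dN N) e
  · have heq := eq_of_CdN hM he hc
    have hst := he
    rw [heq, inSt_eK] at hst
    obtain ⟨-, -, k3⟩ := mem_KS.mp (hΘ ⟨exq e, hc.1⟩)
    have hk := k3 (-1 - e (.y 0)).toNat (-1 - e (.ze 0)).toNat (by simp only; omega) (by omega)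
    have hk2 := congrArg (fun p => p.coeff (e (.xi 0)).toNat) hk
    simp only [Polynomial.coeff_add, Polynomial.coeff_zero] at hk2
    have c1 := cf_xf hM N s Θ hΘ ⟨exq e, hc.1⟩ ((-1 - e (.y 0)).toNat + 1)
      ((-1 - e (.ze 0)).toNat + 2) 2 (e (.xi 0)).toNat
    have c2 := cf_xf hM N s Θ hΘ ⟨exq e, hc.1⟩ ((-1 - e (.y 0)).toNat + 1)
      ((-1 - e (.ze 0)).toNat + 1) 1 (e (.xi 0)).toNat
    have c3 := cf_xf hM N s Θ hΘ ⟨exq e, hc.1⟩ ((-1 - e (.y 0)).toNat + 1)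
      (-1 - e (.ze 0)).toNat 0 (e (.xi 0)).toNat
    have c4 := cf_xf hM N s Θ hΘ ⟨exq e, hc.1⟩ (-1 - e (.y 0)).toNat
      (-1 - e (.ze 0)).toNat 2 (e (.xi 0)).toNat
    have c5 := cf_xf hM N s Θ hΘ ⟨exq e, hc.1⟩ (-1 - e (.y 0)).toNat
      ((-1 - e (.ze 0)).toNat + 2) 0 (e (.xi 0)).toNat
    rw [pow_one] at c2
    rw [pow_zero, one_mul] at c3 c5
    rw [← c1, ← c2, ← c3, ← c4, ← c5] at hk2
    push_cast at hk2
    rw [sub_zero] at hk2
    have e1 : e - toZ (mu1 M) = _ := (congrArg (fun f => f - toZ (mu1 M)) heq).trans (eK_sub1 _ _ _ _ _ _ _ _)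
    have e2 : e - toZ (mu2 M) = _ := (congrArg (fun f => f - toZ (mu2 M)) heq).trans (eK_sub2 _ _ _ _ _ _ _ _)
    have e3 : e - toZ (mu3 M) = _ := (congrArg (fun f => f - toZ (mu3 M)) heq).trans (eK_sub3 _ _ _ _ _ _ _ _)
    have e4 : e - toZ (mu4 M) = _ := (congrArg (fun f => f - toZ (mu4 M)) heq).trans (eK_sub4 _ _ _ _ _ _ _ _)
    have e5 : e - toZ (mu5 M) = _ := (congrArg (fun f => f - toZ (mu5 M)) heq).trans (eK_sub5 _ _ _ _ _ _ _ _)
    rw [e1, e2, e3, e4, e5]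
    push_cast
    exact hk2
  · rw [cf_xf_zero hM, cf_xf_zero hM, cf_xf_zero hM, cf_xf_zero hM, cf_xf_zero hM]
    · simp
    · intro h
      exact hc (Cd_sub (by intro l; simp [mu5]) (by intro l; simp [mu5])
        (by simp [deg3, toZ, mu5]) h)
    · intro h
      exact hc (Cd_sub (by intro l; simp [mu4]) (by intro l; simp [mu4])
        (by simp [deg3, toZ, mu4]) h)
    · intro h
      exact hc (Cd_sub (by intro l; simp [mu3]) (by intro l; simp [mu3])
        (by simp [deg3, toZ, mu3]) h)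
    · intro h
      exact hc (Cd_sub (by intro l; simp [mu2]) (by intro l; simp [mu2])
        (by simp [deg3, toZ, mu2]) h)
    · intro h
      exact hc (Cd_sub (by intro l; simp [mu1]) (by intro l; simp [mu1])
        (by simp [deg3, toZ, mu1]) h)

theorem KN_conn_surj (hM : 1 ≤ M) (N : ℕ) (s : Finset (Fin M → ℕ)) :
    ∃ f : ((α : s) → KS k N (N + M - 1 + ∑ i, α.1 i) (N + 3)) →ₗ[k] KN k M N,
      Function.Injective f := by
  classical
  let Θ : ((α : s) → KS k N (N + M - 1 + ∑ i, α.1 i) (N + 3)) → s → ℕ → ℕ → Polynomial k :=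
    fun θ α => (θ α).1
  have hΘ : ∀ θ, ∀ α : s, Θ θ α ∈ KS k N (bN N α.1) (N + 3) := fun θ α => (θ α).2
  let g : ((α : s) → KS k N (N + M - 1 + ∑ i, α.1 i) (N + 3)) → KN k M N := fun θ =>
    ⟨(⟨xf hM N s (Θ θ), xf_inDeg hM N s (Θ θ)⟩ : Pc k (d1 N) (st2 M)),
      (mem_KN_iff k M _).mpr (xf_mem hM N s (Θ θ) (hΘ θ))⟩
  refine ⟨{ toFun := g, map_add' := ?_, map_smul' := ?_ }, ?_⟩
  · intro θ θ'
    apply Subtype.ext
    apply Subtype.ext
    refine Finsupp.ext fun e => ?_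
    exact cfun_add N s (Θ θ) (Θ θ') e.1
  · intro a θ
    apply Subtype.ext
    apply Subtype.ext
    refine Finsupp.ext fun e => ?_
    exact cfun_smul N s a (Θ θ) e.1
  · rw [injective_iff_map_eq_zero]
    intro θ hθ
    have h0 : xf hM N s (Θ θ) = 0 := congrArg (fun x : KN k M N => x.1.1) hθ
    funext α
    apply Subtype.ext
    funext i j
    change Θ θ α i j = 0
    ext t
    have h1 := cf_xf hM N s (Θ θ) (hΘ θ) α i j 0 t
    rw [h0, map_zero, pow_zero, one_mul] at h1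
    rw [← h1, Polynomial.coeff_zero]

end CC5166
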