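import Pool.Agent.Lib.MP_cc5166_ag.Defs3

/-!
Coefficients of elements of the state modules and the exponents occurring in `K_N` (helper file of
the module Conn).
-/

universe u

set_option linter.unnecessarySeqFocus false

namespace CC5166

section cf

variable {k : Type u} [Field k] {V : Type}

open Classical in
/-- coefficient of the exponent `e`, zero if `e` is not in the state. -/
noncomputable def cf (σ : V → Fin 3) (e : V → ℤ) : X k σ →ₗ[k] k :=
  if h : InSt σ e then Finsupp.lapply (⟨e, h⟩ : Ex σ) else 0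

lemma cf_of {σ : V → Fin 3} {e : V → ℤ} (h : InSt σ e) (x : X k σ) : cf σ e x = x ⟨e, h⟩ := by
  unfold cf; rw [dif_pos h]; rfl

lemma cf_not {σ : V → Fin 3} {e : V → ℤ} (h : ¬ InSt σ e) (x : X k σ) : cf σ e x = 0 := by
  unfold cf; rw [dif_neg h]; rfl

open Classical in
lemma cf_bv {σ : V → Fin 3} {e e' : V → ℤ} (h' : InSt σ e') (c : k) :
    cf σ e (bv k σ e' c) = if e' = e then c else 0 := by
  by_cases h : InSt σ e
  · rw [cf_of h, bv_of h', Finsupp.single_apply]
    simp only [Subtype.mk.injEq]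
  · rw [cf_not h, if_neg]
    rintro rfl
    exact h h'

lemma cf_act {σ : V → Fin 3} {e : V → ℤ} (h : InSt σ e) (μ : V →₀ ℕ) (x : X k σ) :
    cf σ e (act k σ μ x) = cf σ (e - toZ μ) x := by
  classical
  refine LinearMap.congr_fun (f := (cf σ e).comp (act k σ μ)) (g := cf σ (e - toZ μ)) ?_ x
  refine X.hom_ext fun e' c he' => ?_
  rw [LinearMap.comp_apply, act_bv he', cf_bv he']
  by_cases h1 : e' = e - toZ μ
  · have h2 : e' + toZ μ = e := by rw [h1]; simp
    rw [if_pos h1, h2, cf_bv h, if_pos rfl]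
  · rw [if_neg h1]
    have h2 : e' + toZ μ ≠ e := by
      intro h3
      apply h1
      rw [← h3]; simp
    by_cases h4 : InSt σ (e' + toZ μ)
    · rw [cf_bv h4, if_neg h2]
    · rw [bv_not h4, map_zero]

lemma cf_ext {σ : V → Fin 3} {x : X k σ} (h : ∀ e, InSt σ e → cf σ e x = 0) : x = 0 := by
  refine Finsupp.ext fun e => ?_
  have := h e.1 e.2
  rwa [cf_of e.2] at this

end cf

section mon

variable (M : ℕ)

/-- the exponents of `F`. -/
noncomputable def mu1 : Vr M →₀ ℕ :=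
  Finsupp.single (.y 0) 1 + (Finsupp.single (.xi 0) 2 + Finsupp.single (.ze 0) 2)
/-- the exponents of `F`. -/
noncomputable def mu2 : Vr M →₀ ℕ :=
  Finsupp.single (.y 0) 1 + (Finsupp.single (.xi 0) 1 + Finsupp.single (.xi 1) 1 +
    Finsupp.single (.ze 0) 1 + Finsupp.single (.ze 1) 1)
/-- the exponents of `F`. -/
noncomputable def mu3 : Vr M →₀ ℕ :=
  Finsupp.single (.y 0) 1 + (Finsupp.single (.xi 1) 2 + Finsupp.single (.ze 1) 2)
/-- the exponents of `F`. -/
noncomputable def mu4 : Vr M →₀ ℕ :=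
  Finsupp.single (.y 1) 1 + (Finsupp.single (.xi 0) 2 + Finsupp.single (.ze 1) 2)
/-- the exponents of `F`. -/
noncomputable def mu5 : Vr M →₀ ℕ :=
  Finsupp.single (.y 1) 1 + (Finsupp.single (.xi 1) 2 + Finsupp.single (.ze 0) 2)

end mon

section mon2

variable (k : Type u) [Field k] (M : ℕ)

lemma Fpoly_eq : Fpoly k M = MvPolynomial.monomial (mu1 M) 1 + MvPolynomial.monomial (mu2 M) 1 +
    MvPolynomial.monomial (mu3 M) 1 + MvPolynomial.monomial (mu4 M) 1 +
    MvPolynomial.monomial (mu5 M) 1 := by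
  have h1 : ∀ v : Vr M, (vx v : PP k M) = MvPolynomial.monomial (Finsupp.single v 1) 1 :=
    fun v => rfl
  have h2 : ∀ v : Vr M, (vx v : PP k M) ^ 2 = MvPolynomial.monomial (Finsupp.single v 2) 1 :=
    fun v => MvPolynomial.X_pow_eq_monomial
  unfold Fpoly G0poly G1poly mu1 mu2 mu3 mu4 mu5
  rw [h2, h2, h2, h2]
  simp only [h1, mul_add, MvPolynomial.monomial_mul, mul_one]
  ring

variable {k M}

lemma cf_F {σ : Vr M → Fin 3} {e : Vr M → ℤ} (h : InSt σ e) (x : X k σ) :
    cf σ e (Fpoly k M • x) = cf σ (e - toZ (mu1 M)) x + cf σ (e - toZ (mu2 M)) x +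
      cf σ (e - toZ (mu3 M)) x + cf σ (e - toZ (mu4 M)) x + cf σ (e - toZ (mu5 M)) x := by
  rw [Fpoly_eq]
  simp only [add_smul, map_add, monomial_smul, one_smul, cf_act h]

end mon2

section eK

variable {M : ℕ}

/-- the exponents of the given degrees. -/
def eK (α : Fin M → ℕ) (γ : Fin 3 → ℕ) (b c n i j t : ℤ) : Vr M → ℤ
  | .xi r => if r = 0 then t else n - t
  | .y r => if r = 0 then -1 - i else -1 - (b - i)
  | .q l => -1 - α l
  | .ze r => if r = 0 then -1 - j else -1 - (c - j)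
  | .p l => -1 - γ l

lemma inSt_eK {α : Fin M → ℕ} {γ : Fin 3 → ℕ} {b c n i j t : ℤ} :
    InSt (st2 M) (eK α γ b c n i j t) ↔
      0 ≤ t ∧ t ≤ n ∧ 0 ≤ i ∧ i ≤ b ∧ 0 ≤ j ∧ j ≤ c := by
  constructor
  · intro h
    have h1 := (h (.xi 0)).1 rfl
    have h2 := (h (.xi 1)).1 rfl
    have h3 := (h (.y 0)).2 rfl
    have h4 := (h (.y 1)).2 rfl
    have h5 := (h (.ze 0)).2 rfl
    have h6 := (h (.ze 1)).2 rfl
    simp only [eK, if_true, one_ne_zero, if_false] at h1 h2 h3 h4 h5 h6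
    refine ⟨?_, ?_, ?_, ?_, ?_, ?_⟩ <;> omega
  · rintro ⟨h1, h2, h3, h4, h5, h6⟩ v
    cases v with
    | xi r =>
      refine ⟨fun _ => ?_, fun h => absurd h (by simp [st2])⟩
      simp only [eK]
      split_ifs <;> omega
    | y r =>
      refine ⟨fun h => absurd h (by simp [st2]), fun _ => ?_⟩
      simp only [eK]
      split_ifs <;> omega
    | q l =>
      refine ⟨fun h => absurd h (by simp [st2]), fun _ => ?_⟩
      simp only [eK]
      omega
    | ze r =>
      refine ⟨fun h => absurd h (by simp [st2]), fun _ => ?_⟩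
      simp only [eK]
      split_ifs <;> omega
    | p l =>
      refine ⟨fun h => absurd h (by simp [st2]), fun _ => ?_⟩
      simp only [eK]
      omega

lemma deg3_eK (α : Fin M → ℕ) (γ : Fin 3 → ℕ) (b c n i j t : ℤ) :
    deg3 (eK α γ b c n i j t) =
      (n, b + 2 - M - ∑ l, (α l : ℤ), c + 2 - 3 - ∑ l, (γ l : ℤ)) := by
  simp only [deg3, eK, if_true, one_ne_zero, if_false, Finset.sum_sub_distrib, Finset.sum_const,
    Finset.card_univ, Fintype.card_fin, Prod.mk.injEq]
  refine ⟨by ring, ?_, ?_⟩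
  · simp only [smul_neg, nsmul_eq_mul, mul_one]; ring
  · simp only [smul_neg, nsmul_eq_mul, mul_one]; push_cast; ring

lemma toZ_sing (v w : Vr M) (n : ℕ) : (Finsupp.single v n : Vr M →₀ ℕ) w = if v = w then n else 0 :=
  Finsupp.single_apply

lemma eK_sub1 (α : Fin M → ℕ) (γ : Fin 3 → ℕ) (b c n i j t : ℤ) :
    eK α γ (b - 1) (c - 2) (n + 2) i j t - toZ (mu1 M) = eK α γ b c n (i + 1) (j + 2) (t - 2) := by
  classical
  funext v
  cases v with
  | xi r => fin_cases r <;> simp [eK, toZ, mu1] <;> ring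
  | y r => fin_cases r <;> simp [eK, toZ, mu1] <;> ring
  | q l => simp [eK, toZ, mu1]
  | ze r => fin_cases r <;> simp [eK, toZ, mu1] <;> ring
  | p l => simp [eK, toZ, mu1]

lemma eK_sub2 (α : Fin M → ℕ) (γ : Fin 3 → ℕ) (b c n i j t : ℤ) :
    eK α γ (b - 1) (c - 2) (n + 2) i j t - toZ (mu2 M) = eK α γ b c n (i + 1) (j + 1) (t - 1) := by
  classical
  funext v
  cases v with
  | xi r => fin_cases r <;> simp [eK, toZ, mu2] <;> ring
  | y r => fin_cases r <;> simp [eK, toZ, mu2] <;> ring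
  | q l => simp [eK, toZ, mu2]
  | ze r => fin_cases r <;> simp [eK, toZ, mu2] <;> ring
  | p l => simp [eK, toZ, mu2]

lemma eK_sub3 (α : Fin M → ℕ) (γ : Fin 3 → ℕ) (b c n i j t : ℤ) :
    eK α γ (b - 1) (c - 2) (n + 2) i j t - toZ (mu3 M) = eK α γ b c n (i + 1) j t := by
  classical
  funext v
  cases v with
  | xi r => fin_cases r <;> simp [eK, toZ, mu3] <;> ring
  | y r => fin_cases r <;> simp [eK, toZ, mu3] <;> ring
  | q l => simp [eK, toZ, mu3]
  | ze r => fin_cases r <;> simp [eK, toZ, mu3] <;> ring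
  | p l => simp [eK, toZ, mu3]

lemma eK_sub4 (α : Fin M → ℕ) (γ : Fin 3 → ℕ) (b c n i j t : ℤ) :
    eK α γ (b - 1) (c - 2) (n + 2) i j t - toZ (mu4 M) = eK α γ b c n i j (t - 2) := by
  classical
  funext v
  cases v with
  | xi r => fin_cases r <;> simp [eK, toZ, mu4] <;> ring
  | y r => fin_cases r <;> simp [eK, toZ, mu4] <;> ring
  | q l => simp [eK, toZ, mu4]
  | ze r => fin_cases r <;> simp [eK, toZ, mu4] <;> ring
  | p l => simp [eK, toZ, mu4]

lemma eK_sub5 (α : Fin M → ℕ) (γ : Fin 3 → ℕ) (b c n i j t : ℤ) :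
    eK α γ (b - 1) (c - 2) (n + 2) i j t - toZ (mu5 M) = eK α γ b c n i (j + 2) t := by
  classical
  funext v
  cases v with
  | xi r => fin_cases r <;> simp [eK, toZ, mu5] <;> ring
  | y r => fin_cases r <;> simp [eK, toZ, mu5] <;> ring
  | q l => simp [eK, toZ, mu5]
  | ze r => fin_cases r <;> simp [eK, toZ, mu5] <;> ring
  | p l => simp [eK, toZ, mu5]

end eK

end CC5166
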