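import Pool.Agent.Lib.MP_cc5166_ag.LCApi

/-!
The module `H^0_J(A)` as the submodule of `J`-torsion elements of `A`.
-/

universe u

open CategoryTheory

namespace CC5166

section

variable {R : Type u} [CommRing R] (J : Ideal R)

/-- evaluation at `1` of a homomorphism `R/J^t → A`. -/
noncomputable def ev0 (t : ℕ) (A : Type u) [AddCommGroup A] [Module R A] :
    Abelian.Ext (Qt J t) (ModuleCat.of R A) 0 →ₗ[R] A where
  toFun x := (Abelian.Ext.linearEquiv₀ (R := R) x).hom (Submodule.Quotient.mk 1)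
  map_add' x y := by rw [_root_.map_add]; rfl
  map_smul' r x := by rw [_root_.map_smul]; rfl

lemma ev0_mk₀ (t : ℕ) (A : Type u) [AddCommGroup A] [Module R A]
    (f : Qt J t ⟶ ModuleCat.of R A) :
    ev0 J t A (Abelian.Ext.mk₀ f) = f.hom (Submodule.Quotient.mk 1) := by
  change (Abelian.Ext.linearEquiv₀ (R := R) (Abelian.Ext.mk₀ f)).hom _ = _
  have : Abelian.Ext.linearEquiv₀ (R := R) (Abelian.Ext.mk₀ f) = f := by
    apply (Abelian.Ext.linearEquiv₀ (R := R)).symm.injective
    rw [LinearEquiv.symm_apply_apply]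
    rfl
  rw [this]

lemma ext0_exists {t : ℕ} {A : Type u} [AddCommGroup A] [Module R A]
    (x : Abelian.Ext (Qt J t) (ModuleCat.of R A) 0) :
    ∃ f : Qt J t ⟶ ModuleCat.of R A, Abelian.Ext.mk₀ f = x :=
  ⟨_, Abelian.Ext.mk₀_linearEquiv₀_apply (R := R) x⟩

/-- the canonical map `H^0_J(A) → A`. -/
noncomputable def H.ev (A : Type u) [AddCommGroup A] [Module R A] : H J 0 A →ₗ[R] A :=
  Module.DirectLimit.lift R ℕ _ (tr J (ModuleCat.of R A) 0) (fun t => ev0 J t A) (by
    intro s t hst x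
    obtain ⟨f, rfl⟩ := ext0_exists J x
    rw [tr_apply, Abelian.Ext.mk₀_comp_mk₀, ev0_mk₀, ev0_mk₀]
    rfl)

lemma H.ev_of {A : Type u} [AddCommGroup A] [Module R A] (t : ℕ)
    (f : Qt J t ⟶ ModuleCat.of R A) :
    H.ev J A (H.of J 0 t A (Abelian.Ext.mk₀ f)) = f.hom (Submodule.Quotient.mk 1) := by
  have : H.ev J A (H.of J 0 t A (Abelian.Ext.mk₀ f)) = ev0 J t A (Abelian.Ext.mk₀ f) :=
    Module.DirectLimit.lift_of _ _ _
  rw [this, ev0_mk₀]

variable {A B : Type u} [AddCommGroup A] [Module R A] [AddCommGroup B] [Module R B]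

lemma H.exists_of₀ (z : H J 0 A) :
    ∃ (t : ℕ) (f : Qt J t ⟶ ModuleCat.of R A), H.of J 0 t A (Abelian.Ext.mk₀ f) = z := by
  obtain ⟨t, x, rfl⟩ := H.exists_of J z
  obtain ⟨f, rfl⟩ := ext0_exists J x
  exact ⟨t, f, rfl⟩

/-- naturality of the evaluation. -/
lemma H.ev_map (f : A →ₗ[R] B) (z : H J 0 A) : H.ev J B (H.map J 0 f z) = f (H.ev J A z) := by
  obtain ⟨t, g, rfl⟩ := H.exists_of₀ J z
  rw [H.map_of, Abelian.Ext.mk₀_comp_mk₀, H.ev_of, H.ev_of]
  rfl

/-- the evaluation is injective. -/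
lemma H.ev_injective : Function.Injective (H.ev J A) := by
  rw [injective_iff_map_eq_zero]
  intro z hz
  obtain ⟨t, g, rfl⟩ := H.exists_of₀ J z
  rw [H.ev_of] at hz
  have : g = 0 := by
    refine ModuleCat.hom_ext (LinearMap.ext fun y => ?_)
    obtain ⟨y, rfl⟩ := Submodule.Quotient.mk_surjective (J ^ t) y
    have h1 : (Submodule.Quotient.mk y : R ⧸ J ^ t) = y • Submodule.Quotient.mk 1 := by
      rw [← Submodule.Quotient.mk_smul, smul_eq_mul, mul_one]
    rw [h1, _root_.map_smul, hz, smul_zero]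
    rfl
  rw [this, Abelian.Ext.mk₀_zero, _root_.map_zero]

/-- the image of the evaluation consists of the `J`-torsion elements. -/
lemma H.mem_range_ev (x : A) :
    x ∈ LinearMap.range (H.ev J A) ↔ ∃ t : ℕ, ∀ a ∈ J ^ t, a • x = 0 := by
  constructor
  · rintro ⟨z, rfl⟩
    obtain ⟨t, ht⟩ := H.torsion J 0 z
    refine ⟨t, fun a ha => ?_⟩
    rw [← _root_.map_smul, ht a ha, _root_.map_zero]
  · rintro ⟨t, ht⟩
    have hl : J ^ t ≤ LinearMap.ker (LinearMap.toSpanSingleton R A x) := by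
      intro a ha
      rw [LinearMap.mem_ker, LinearMap.toSpanSingleton_apply]
      exact ht a ha
    let g : (R ⧸ J ^ t) →ₗ[R] A := Submodule.liftQ (J ^ t) (LinearMap.toSpanSingleton R A x) hl
    refine ⟨H.of J 0 t A (Abelian.Ext.mk₀ (ModuleCat.ofHom g)), ?_⟩
    rw [H.ev_of]
    change g (Submodule.Quotient.mk 1) = x
    change Submodule.liftQ (J ^ t) (LinearMap.toSpanSingleton R A x) hl (Submodule.Quotient.mk 1) = x
    rw [Submodule.liftQ_apply, LinearMap.toSpanSingleton_apply, one_smul]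

end

/-- every element is killed by a power of `J`. -/
def IsTor {R : Type u} [CommRing R] (J : Ideal R) (A : Type u) [AddCommGroup A] [Module R A] :
    Prop := ∀ x : A, ∃ t : ℕ, ∀ a ∈ J ^ t, a • x = 0

section

variable {R : Type u} [CommRing R] (J : Ideal R)
variable {A B : Type u} [AddCommGroup A] [Module R A] [AddCommGroup B] [Module R B]

lemma H.ev_bijective (h : IsTor J A) : Function.Bijective (H.ev J A) := by
  refine ⟨H.ev_injective J, fun x => ?_⟩
  exact (H.mem_range_ev J x).mpr (h x)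

/-- `H^i_J(A)` is `J`-torsion. -/
lemma H.isTor (i : ℕ) : IsTor J (H J i A) := fun z => H.torsion J i z

end

end CC5166
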