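import Pool.Agent.Lib.MP_cc5166_ag.SF
import Pool.Agent.Lib.MP_cc5166_ag.LCZero

/-!
The modules `S_N`, `K_N`, the states used in the computation, blocks of variables and the ideals
of the counterexample.
-/

universe u

namespace CC5166

/-- the state where all exponents are nonnegative. -/
def st0 (M : ℕ) : Vr M → Fin 3 := fun _ => 0

/-- the state where the exponents of `ξ` are nonnegative and all others negative. -/
def st2 (M : ℕ) : Vr M → Fin 3
  | .xi _ => 0
  | _ => 2

/-- the tridegree `(N, N, N)`. -/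
def dN (N : ℕ) : ℤ × ℤ × ℤ := (N, N, N)

/-- the tridegree `(N - 2, N + 1, N + 2)`. -/
def d1 (N : ℕ) : ℤ × ℤ × ℤ := (N - 2, N + 1, N + 2)

lemma d1_add (N : ℕ) : d1 N + (2, -1, -2) = dN N := by
  simp [d1, dN]

section

variable (k : Type u) [Field k] (M : ℕ)

/-- multiplication by `F` from tridegree `(N-2, N+1, N+2)` to `(N, N, N)`. -/
noncomputable def FN (N : ℕ) (σ : Vr M → Fin 3) :
    Pc k (d1 N) σ →ₗ[RR k M] Pc k (dN N) σ :=
  pmul k (Fpoly k M) (d1 N) (dN N) (2, -1, -2) homD_Fpoly (d1_add N) σ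

/-- the part of tridegree `(N, N, N)` of `P / F`. -/
abbrev Sfull (N : ℕ) : Type u := Pc k (dN N) (st0 M) ⧸ LinearMap.range (FN k M N (st0 M))

/-- the kernel of `F` on the part of tridegree `(N-2, N+1, N+2)` of the module of inverse
polynomials in `y, q, ζ, p`. -/
noncomputable def KN (N : ℕ) : Submodule (RR k M) (Pc k (d1 N) (st2 M)) :=
  LinearMap.ker (FN k M N (st2 M))

/-- the exponents occurring in the algebra generated by `Y, Z, T`. -/
def GoodE (hM : 3 ≤ M) (N : ℕ) (e : Vr M → ℤ) : Prop :=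
  (N : ℤ) ≤ e (.y 0) + e (.y 1) ∧ (N : ℤ) ≤ e (.ze 0) + e (.ze 1) ∧
    2 * (N : ℤ) ≤ e (.q (Fin.castLE hM 0)) + e (.q (Fin.castLE hM 1)) + e (.q (Fin.castLE hM 2))

end

section

variable {k : Type u} [Field k] {M : ℕ}

/-- predicates on exponents which are stable under multiplication by `y_i q_j` and `ζ_i p_j`. -/
structure UpClosed (Q : (Vr M → ℤ) → Prop) : Prop where
  yq : ∀ e i j, Q e → Q (e + toZ (Finsupp.single (.y i) 1 + Finsupp.single (.q j) 1))
  zp : ∀ e i j, Q e → Q (e + toZ (Finsupp.single (.ze i) 1 + Finsupp.single (.p j) 1))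

lemma upClosed_GoodE (hM : 3 ≤ M) (N : ℕ) : UpClosed (GoodE M hM N) := by
  classical
  constructor
  · intro e i j h
    have h2 : ∀ v, 0 ≤ toZ (Finsupp.single (.y i : Vr M) 1 + Finsupp.single (.q j) 1) v := by
      intro v; exact Int.natCast_nonneg _
    obtain ⟨ha, hb, hc⟩ := h
    refine ⟨?_, ?_, ?_⟩
    · have := h2 (.y 0); have := h2 (.y 1); simp only [Pi.add_apply]; omega
    · have := h2 (.ze 0); have := h2 (.ze 1); simp only [Pi.add_apply]; omega
    · have := h2 (.q (Fin.castLE hM 0)); have := h2 (.q (Fin.castLE hM 1))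
      have := h2 (.q (Fin.castLE hM 2)); simp only [Pi.add_apply]; omega
  · intro e i j h
    have h2 : ∀ v, 0 ≤ toZ (Finsupp.single (.ze i : Vr M) 1 + Finsupp.single (.p j) 1) v := by
      intro v; exact Int.natCast_nonneg _
    obtain ⟨ha, hb, hc⟩ := h
    refine ⟨?_, ?_, ?_⟩
    · have := h2 (.y 0); have := h2 (.y 1); simp only [Pi.add_apply]; omega
    · have := h2 (.ze 0); have := h2 (.ze 1); simp only [Pi.add_apply]; omega
    · have := h2 (.q (Fin.castLE hM 0)); have := h2 (.q (Fin.castLE hM 1))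
      have := h2 (.q (Fin.castLE hM 2)); simp only [Pi.add_apply]; omega

lemma act_apply_of_supp {σ : Vr M → Fin 3} {Q Q' : (Vr M → ℤ) → Prop} {x : X k σ}
    (hx : ∀ e : Ex σ, x e ≠ 0 → Q e.1) (μ : Vr M →₀ ℕ) (hQ : ∀ e, Q e → Q' (e + toZ μ)) :
    ∀ e : Ex σ, act k σ μ x e ≠ 0 → Q' e.1 := by
  classical
  have h1 : act k σ μ x = ∑ e ∈ x.support, bv k σ (e.1 + toZ μ) (x e) := by
    conv_lhs => rw [← Finsupp.sum_single x, Finsupp.sum, map_sum]
    refine Finset.sum_congr rfl fun e _ => ?_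
    have := act_bv (k := k) (μ := μ) e.2 (x e)
    rwa [bv_of e.2] at this
  intro e he
  rw [h1, Finsupp.finsetSum_apply] at he
  obtain ⟨e', he', h2⟩ := Finset.exists_ne_zero_of_sum_ne_zero he
  by_cases h : InSt σ (e'.1 + toZ μ)
  · rw [bv_of h] at h2
    have h3 : (⟨e'.1 + toZ μ, h⟩ : Ex σ) = e := by
      by_contra h4
      exact h2 (Finsupp.single_eq_of_ne (Ne.symm h4))
    rw [← h3]
    exact hQ _ (hx e' (Finsupp.mem_support_iff.mp he'))
  · rw [bv_not h] at h2
    exact absurd rfl h2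

/-- the elements of a piece supported on a predicate of exponents. -/
def SuppOn {σ : Vr M → Fin 3} (Q : (Vr M → ℤ) → Prop) (x : X k σ) : Prop :=
  ∀ e : Ex σ, x e ≠ 0 → Q e.1

lemma SuppOn.add {σ : Vr M → Fin 3} {Q : (Vr M → ℤ) → Prop} {x y : X k σ} (hx : SuppOn Q x)
    (hy : SuppOn Q y) : SuppOn Q (x + y) := by
  intro e he
  by_cases h1 : x e = 0
  · apply hy
    intro h2
    apply he
    rw [Finsupp.add_apply, h1, h2, add_zero]
  · exact hx e h1

lemma SuppOn.zero {σ : Vr M → Fin 3} {Q : (Vr M → ℤ) → Prop} : SuppOn Q (0 : X k σ) := by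
  intro e he
  exact absurd rfl he

lemma SuppOn.smul {σ : Vr M → Fin 3} {Q : (Vr M → ℤ) → Prop} {x : X k σ} (hx : SuppOn Q x)
    (c : k) : SuppOn Q (c • x) := by
  intro e he
  apply hx
  intro h
  apply he
  rw [Finsupp.smul_apply, h, smul_zero]

lemma vx_mul_smul {σ : Vr M → Fin 3} (v w : Vr M) (x : X k σ) :
    ((vx v * vx w : PP k M)) • x = act k σ (Finsupp.single v 1 + Finsupp.single w 1) x := by
  have : (vx v * vx w : PP k M) =
      MvPolynomial.monomial (Finsupp.single v 1 + Finsupp.single w 1) 1 := by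
    have h := MvPolynomial.monomial_mul (s := Finsupp.single v 1) (s' := Finsupp.single w 1)
      (a := (1 : k)) (b := 1)
    rw [one_mul] at h
    exact h
  rw [this, monomial_smul, one_smul]

lemma suppOn_Ypoly_smul {σ : Vr M → Fin 3} {Q Q' : (Vr M → ℤ) → Prop} {x : X k σ}
    (hx : SuppOn Q x) (j : Fin (M + 1))
    (hQ : ∀ e i (l : Fin M), (l.1 = j.1 ∨ l.1 + 1 = j.1) → Q e →
      Q' (e + toZ (Finsupp.single (.y i) 1 + Finsupp.single (.q l) 1))) :
    SuppOn Q' (Ypoly k M j • x) := by
  unfold Ypoly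
  rw [add_smul]
  refine SuppOn.add ?_ ?_
  · split_ifs with h
    · rw [vx_mul_smul]
      exact act_apply_of_supp hx _ fun e he => hQ e 0 _ (Or.inl rfl) he
    · rw [zero_smul]
      exact SuppOn.zero
  · split_ifs with h
    · rw [vx_mul_smul]
      exact act_apply_of_supp hx _ fun e he => hQ e 1 _ (Or.inr (by simp; omega)) he
    · rw [zero_smul]
      exact SuppOn.zero

lemma suppOn_Zpoly_smul {σ : Vr M → Fin 3} {Q Q' : (Vr M → ℤ) → Prop} {x : X k σ}
    (hx : SuppOn Q x) (j : Fin 4)
    (hQ : ∀ e i l, Q e → Q' (e + toZ (Finsupp.single (.ze i) 1 + Finsupp.single (.p l) 1))) :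
    SuppOn Q' (Zpoly k M j • x) := by
  unfold Zpoly
  rw [add_smul]
  refine SuppOn.add ?_ ?_
  · split_ifs with h
    · rw [vx_mul_smul]
      exact act_apply_of_supp hx _ fun e he => hQ e 0 _ he
    · rw [zero_smul]
      exact SuppOn.zero
  · split_ifs with h
    · rw [vx_mul_smul]
      exact act_apply_of_supp hx _ fun e he => hQ e 1 _ he
    · rw [zero_smul]
      exact SuppOn.zero

lemma suppOn_phi_smul {σ : Vr M → Fin 3} {Q : (Vr M → ℤ) → Prop} (hQ : UpClosed Q) {x : X k σ}
    (hx : SuppOn Q x) (r : RR k M) : SuppOn Q (phi k M r • x) := by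
  induction r using MvPolynomial.induction_on generalizing x with
  | C a =>
    rw [phi, MvPolynomial.aeval_C, algebraMap_smul]
    exact hx.smul a
  | add p q hp hq => rw [map_add, add_smul]; exact (hp hx).add (hq hx)
  | mul_X p i hp =>
    rw [map_mul, mul_smul]
    apply hp
    rw [phi, MvPolynomial.aeval_X]
    cases i with
    | Y j => exact suppOn_Ypoly_smul hx j fun e i l _ he => hQ.yq e i l he
    | Z j => exact suppOn_Zpoly_smul hx j fun e i l he => hQ.zp e i l he
    | T t => rw [zero_smul]; exact SuppOn.zero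
    | w i => rw [zero_smul]; exact SuppOn.zero

variable (k)

/-- the submodule of a piece of elements supported on an up-closed predicate. -/
noncomputable def Psub (d : ℤ × ℤ × ℤ) (σ : Vr M → Fin 3) {Q : (Vr M → ℤ) → Prop}
    (hQ : UpClosed Q) : Submodule (RR k M) (Pc k d σ) where
  carrier := {x | SuppOn Q x.1}
  add_mem' hx hy := SuppOn.add hx hy
  zero_mem' := SuppOn.zero
  smul_mem' r _ hx := suppOn_phi_smul hQ hx r

variable {k}

lemma mem_Psub {d : ℤ × ℤ × ℤ} {σ : Vr M → Fin 3} {Q : (Vr M → ℤ) → Prop} {hQ : UpClosed Q}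
    {x : Pc k d σ} : x ∈ Psub k d σ hQ ↔ SuppOn Q x.1 := Iff.rfl

end

variable (k : Type u) [Field k] (M : ℕ)

/-- the part of tridegree `(N, N, N)` of the subalgebra of `P/F` generated by `Y, Z, T`: the classes
of the elements supported on the exponents in `GoodE`. -/
noncomputable def SN (hM : 3 ≤ M) (N : ℕ) : Submodule (RR k M) (Sfull k M N) :=
  (Psub k (dN N) (st0 M) (upClosed_GoodE hM N)).map
    (LinearMap.range (FN k M N (st0 M))).mkQ

/-- the ideal generated by the variables `T`. -/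
noncomputable def TI : Ideal (RR k M) :=
  Ideal.span (Set.range fun t : Tx => (MvPolynomial.X (.T t) : RR k M))

/-- the ideal generated by the variables `w`. -/
noncomputable def WI : Ideal (RR k M) :=
  Ideal.span (Set.range fun i : Fin 2 => (MvPolynomial.X (.w i) : RR k M))

/-- the homomorphism `R → P`, `Y_j ↦ Σ y q`, `Z_j ↦ Σ ζ p`, `T ↦` monomials, `w ↦ 0`. -/
noncomputable def psi0 (hM : 3 ≤ M) : RR k M →ₐ[k] PP k M :=
  MvPolynomial.aeval (fun i => match i with
    | .Y j => Ypoly k M j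
    | .Z j => Zpoly k M j
    | .T t => Tpoly k M hM t
    | .w _ => 0)

/-- the relations: the preimage of `(F)`. -/
noncomputable def Qk (hM : 3 ≤ M) : Ideal (RR k M) :=
  Ideal.comap (psi0 k M hM) (Ideal.span {Fpoly k M})

/-- the ideal of the counterexample. -/
noncomputable def II (hM : 3 ≤ M) (δ : ℕ) : Ideal (RR k M) :=
  TI k M ^ δ * Ideal.span {(MvPolynomial.X (.w 0) : RR k M) ^ 2, (MvPolynomial.X (.w 1) : RR k M) ^ 2} ⊔
  ((Qk k M hM ⊓ TI k M ^ δ) ⊔ TI k M ^ (δ + 1)) *
    Ideal.span {(MvPolynomial.X (.w 0) : RR k M) * MvPolynomial.X (.w 1)}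

/-- the ideal `(T)^a (w)^b`. -/
noncomputable def Ln (a b : ℕ) : Ideal (RR k M) := TI k M ^ a * WI k M ^ b

end CC5166

namespace CC5166

/-- the variables of a block. -/
inductive Bl (n : ℕ) : Type
  | y (i : Fin 2)
  | q (j : Fin n)
  deriving DecidableEq

/-- the state of a block with `y₀` in state `a`, `y₁` in state `b` and all `q` in state `c`. -/
def bst {n : ℕ} (a b c : Fin 3) : Bl n → Fin 3
  | .y i => if i = 0 then a else b
  | .q _ => c

variable {R : Type u} [CommRing R]

/-- the conditions of the block lemma. -/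
structure Good (J : Ideal R) {n : ℕ} (c : ℕ) (G : SF R (Bl n)) : Prop where
  acy : ∀ (σ : Bl n → Fin 3) (i : Fin 2) (j : Fin n), σ (.y i) = 1 → σ (.q j) = 1 →
    ∀ l : ℕ, Subsingleton (H J l (G.obj σ))
  torq : ∀ σ : Bl n → Fin 3, (∀ j, σ (.q j) = 2) → ∀ l : ℕ, c < l →
    Subsingleton (H J l (G.obj σ))
  tory : ∀ σ : Bl n → Fin 3, (∀ i, σ (.y i) = 2) → ∀ l : ℕ, c < l →
    Subsingleton (H J l (G.obj σ))

lemma extend_mono {V W : Type} {ι : W → V} (hι : Function.Injective ι) (ρ : V → Fin 3)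
    {σ τ : W → Fin 3} (h : σ ≤ τ) : Function.extend ι σ ρ ≤ Function.extend ι τ ρ := by
  intro v
  by_cases hv : ∃ w, ι w = v
  · obtain ⟨w, rfl⟩ := hv
    rw [hι.extend_apply, hι.extend_apply]
    exact h w
  · rw [Function.extend_apply' _ _ _ hv, Function.extend_apply' _ _ _ hv]

lemma extend_tri {V W : Type} {ι : W → V} (hι : Function.Injective ι) (ρ : V → Fin 3)
    {w : W} {a b c : W → Fin 3} (h : Tri w a b c) :
    Tri (ι w) (Function.extend ι a ρ) (Function.extend ι b ρ) (Function.extend ι c ρ) where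
  ha := by rw [hι.extend_apply, h.ha]
  hb := by rw [hι.extend_apply, h.hb]
  hc := by rw [hι.extend_apply, h.hc]
  hab := by
    intro v hv
    by_cases hv' : ∃ w', ι w' = v
    · obtain ⟨w', rfl⟩ := hv'
      rw [hι.extend_apply, hι.extend_apply]
      exact h.hab w' fun h1 => hv (by rw [h1])
    · rw [Function.extend_apply' _ _ _ hv', Function.extend_apply' _ _ _ hv']
  hbc := by
    intro v hv
    by_cases hv' : ∃ w', ι w' = v
    · obtain ⟨w', rfl⟩ := hv'
      rw [hι.extend_apply, hι.extend_apply]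
      exact h.hbc w' fun h1 => hv (by rw [h1])
    · rw [Function.extend_apply' _ _ _ hv', Function.extend_apply' _ _ _ hv']

/-- restriction of a state functor to the states which agree with `ρ` outside the image of `ι`. -/
noncomputable def SF.pull {V W : Type} (G : SF R V) (ι : W → V) (hι : Function.Injective ι)
    (ρ : V → Fin 3) : SF R W where
  obj σ := G.obj (Function.extend ι σ ρ)
  acg _ := G.acg _
  mod _ := G.mod _
  res h := G.res (extend_mono hι ρ h)
  res_self _ x := G.res_self _ x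
  res_res _ _ x := G.res_res _ _ x
  inj h := G.inj (extend_tri hι ρ h)
  exact h := G.exact (extend_tri hι ρ h)
  surj h := G.surj (extend_tri hι ρ h)

/-- restriction of a natural transformation. -/
noncomputable def NT.pull {V W : Type} {G G' : SF R V} (α : NT G G') (ι : W → V)
    (hι : Function.Injective ι) (ρ : V → Fin 3) : NT (G.pull ι hι ρ) (G'.pull ι hι ρ) where
  app _ := α.app _
  nat _ x := α.nat _ x

/-- the block of the variables `y`, `q`. -/
def ιY (M : ℕ) : Bl M → Vr M
  | .y i => .y i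
  | .q j => .q j

/-- the block of the variables `ζ`, `p`. -/
def ιZ (M : ℕ) : Bl 3 → Vr M
  | .y i => .ze i
  | .q j => .p j

lemma ιY_injective (M : ℕ) : Function.Injective (ιY M) := by
  intro a b h
  cases a <;> cases b <;> simp_all [ιY]

lemma ιZ_injective (M : ℕ) : Function.Injective (ιZ M) := by
  intro a b h
  cases a <;> cases b <;> simp_all [ιZ]

/-- the state where the exponents of `y, q` are negative and all others nonnegative. -/
def stY (M : ℕ) : Vr M → Fin 3
  | .y _ => 2
  | .q _ => 2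
  | _ => 0

end CC5166
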