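import Pool.Agent.Lib.MP_cc5166_ag.Defs2

/-!
Sequence form of the kernel of `F`, the identification of `P` with the state module `st0`, and the
weights on `R`.
-/

universe u

open Polynomial in
/-- the kernel of `F` on `S_{N-2}(ξ) ⊗ D_b(y) ⊗ D_c(ζ)` in terms of sequences of polynomials:
`θ i j` is the coefficient of `y₀^{-1-i} y₁^{-1-(b-i)} ζ₀^{-1-j} ζ₁^{-1-(c-j)}`, a polynomial of
degree `≤ N - 2` in `ξ₀/ξ₁`. -/
noncomputable def CC5166.KS (k : Type u) [Field k] (N b c : ℕ) : Submodule k (ℕ → ℕ → k[X]) where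
  carrier := {θ | (∀ i j, θ i j ∈ degreeLT k (N - 1)) ∧ (∀ i j, b < i ∨ c < j → θ i j = 0) ∧
    ∀ i j, i < b → j + 2 ≤ c → Polynomial.X ^ 2 * θ (i + 1) (j + 2) +
      Polynomial.X * θ (i + 1) (j + 1) + θ (i + 1) j + Polynomial.X ^ 2 * θ i j + θ i (j + 2) = 0}
  add_mem' := by
    rintro θ θ' ⟨h1, h2, h3⟩ ⟨h1', h2', h3'⟩
    refine ⟨fun i j => Submodule.add_mem _ (h1 i j) (h1' i j), fun i j h => ?_, fun i j hi hj => ?_⟩
    · rw [Pi.add_apply, Pi.add_apply, h2 i j h, h2' i j h, add_zero]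
    · have e1 := h3 i j hi hj
      have e2 := h3' i j hi hj
      simp only [Pi.add_apply]
      linear_combination e1 + e2
  zero_mem' := by
    refine ⟨fun i j => Submodule.zero_mem _, fun i j _ => rfl, fun i j _ _ => ?_⟩
    simp only [Pi.zero_apply]
    ring
  smul_mem' := by
    rintro a θ ⟨h1, h2, h3⟩
    refine ⟨fun i j => Submodule.smul_mem _ _ (h1 i j), fun i j h => ?_, fun i j hi hj => ?_⟩
    · rw [Pi.smul_apply, Pi.smul_apply, h2 i j h, smul_zero]
    · have e1 := h3 i j hi hj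
      simp only [Pi.smul_apply, smul_eq_C_mul]
      linear_combination (C a) * e1

namespace CC5166

open Polynomial in
lemma mem_KS {k : Type u} [Field k] {N b c : ℕ} {θ : ℕ → ℕ → k[X]} : θ ∈ KS k N b c ↔
    (∀ i j, θ i j ∈ degreeLT k (N - 1)) ∧ (∀ i j, b < i ∨ c < j → θ i j = 0) ∧
    ∀ i j, i < b → j + 2 ≤ c → Polynomial.X ^ 2 * θ (i + 1) (j + 2) +
      Polynomial.X * θ (i + 1) (j + 1) + θ (i + 1) j + Polynomial.X ^ 2 * θ i j + θ i (j + 2) = 0 := Iff.rfl

/-- the number of variables `T` in a monomial of `R`. -/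
def Tdeg {M : ℕ} (μ : Ix M →₀ ℕ) : ℕ := ∑ t : Tx, μ (.T t)

/-- the number of variables `w` in a monomial of `R`. -/
def wdeg {M : ℕ} (μ : Ix M →₀ ℕ) : ℕ := μ (.w 0) + μ (.w 1)

lemma Tdeg_add {M : ℕ} (μ ν : Ix M →₀ ℕ) : Tdeg (μ + ν) = Tdeg μ + Tdeg ν := by
  simp [Tdeg, Finset.sum_add_distrib]

lemma wdeg_add {M : ℕ} (μ ν : Ix M →₀ ℕ) : wdeg (μ + ν) = wdeg μ + wdeg ν := by
  simp only [wdeg, Finsupp.add_apply]
  omega

section

variable (k : Type u) [Field k] (M : ℕ)

/-- the basis vector `1` of the state module `st0`. -/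
noncomputable def one0 : X k (st0 M) := bv k (st0 M) 0 1

end

section

variable {k : Type u} [Field k] {M : ℕ}

lemma inSt_st0 {e : Vr M → ℤ} : InSt (st0 M) e ↔ ∀ v, 0 ≤ e v := by
  constructor
  · intro h v
    exact (h v).1 rfl
  · intro h v
    exact ⟨fun _ => h v, fun h0 => absurd h0 (by simp [st0])⟩

lemma inSt_toZ (μ : Vr M →₀ ℕ) : InSt (st0 M) (toZ μ) :=
  inSt_st0.mpr fun _ => Int.natCast_nonneg _

lemma monomial_smul_one0 (μ : Vr M →₀ ℕ) (c : k) :
    (MvPolynomial.monomial μ c : PP k M) • one0 k M = bv k (st0 M) (toZ μ) c := by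
  have h0 : InSt (st0 M) (0 : Vr M → ℤ) := inSt_st0.mpr fun _ => le_refl _
  rw [one0, monomial_smul_bv k μ c h0, zero_add, mul_one]

lemma exists_toZ {e : Vr M → ℤ} (h : InSt (st0 M) e) : ∃ μ : Vr M →₀ ℕ, toZ μ = e := by
  refine ⟨Finsupp.equivFunOnFinite.symm fun v => (e v).toNat, ?_⟩
  funext v
  simp only [toZ, Finsupp.equivFunOnFinite_symm_apply_apply]
  exact Int.toNat_of_nonneg (inSt_st0.mp h v)

lemma toZ_injective : Function.Injective (toZ : (Vr M →₀ ℕ) → (Vr M → ℤ)) := by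
  intro μ ν h
  ext v
  have := congrFun h v
  simp only [toZ] at this
  exact_mod_cast this

/-- the coefficients of `f • 1` are the coefficients of `f`. -/
lemma smul_one0_apply (f : PP k M) (μ : Vr M →₀ ℕ) :
    (f • one0 k M : X k (st0 M)) ⟨toZ μ, inSt_toZ μ⟩ = f.coeff μ := by
  classical
  induction f using MvPolynomial.induction_on' with
  | monomial ν c =>
    rw [monomial_smul_one0, bv_of (inSt_toZ ν), MvPolynomial.coeff_monomial,
      Finsupp.single_apply]
    by_cases h : ν = μ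
    · subst h
      rw [if_pos rfl, if_pos rfl]
    · rw [if_neg h, if_neg]
      intro h1
      exact h (toZ_injective (congrArg Subtype.val h1))
  | add p q hp hq => rw [add_smul, Finsupp.add_apply, hp, hq, MvPolynomial.coeff_add]

lemma smul_one0_injective : Function.Injective fun f : PP k M => f • one0 k M := by
  intro f g h
  ext μ
  have h1 := DFunLike.congr_fun h (⟨toZ μ, inSt_toZ μ⟩ : Ex (st0 M))
  simp only at h1
  rwa [smul_one0_apply, smul_one0_apply] at h1

lemma smul_one0_surjective : Function.Surjective fun f : PP k M => f • one0 k M := by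
  intro x
  induction x using Finsupp.induction_linear with
  | zero => exact ⟨0, zero_smul _ _⟩
  | add x y hx hy =>
    obtain ⟨f, hf⟩ := hx
    obtain ⟨g, hg⟩ := hy
    refine ⟨f + g, ?_⟩
    simp only at hf hg ⊢
    rw [add_smul, hf, hg]
  | single e c =>
    obtain ⟨μ, hμ⟩ := exists_toZ e.2
    refine ⟨MvPolynomial.monomial μ c, ?_⟩
    simp only
    rw [monomial_smul_one0, bv_of (inSt_toZ μ)]
    congr 1
    exact Subtype.ext hμ

/-- multiplication by a nonzero polynomial is injective on the state module `st0`. -/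
lemma smul_injective_st0 {f : PP k M} (hf : f ≠ 0) :
    Function.Injective fun x : X k (st0 M) => f • x := by
  intro x y h
  obtain ⟨p, rfl⟩ := smul_one0_surjective x
  obtain ⟨q, rfl⟩ := smul_one0_surjective y
  simp only [smul_smul] at h
  have h1 : f * p = f * q := smul_one0_injective h
  rw [mul_left_cancel₀ hf h1]

lemma pmul_injective {f : PP k M} (hf0 : f ≠ 0) (d d' d'' : ℤ × ℤ × ℤ) (hf : HomD f d'')
    (hd : d + d'' = d') : Function.Injective (pmul k f d d' d'' hf hd (st0 M)) := by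
  intro x y h
  exact Subtype.ext (smul_injective_st0 hf0 (congrArg Subtype.val h))

lemma inDeg_smul_one0 {f : PP k M} {d : ℤ × ℤ × ℤ} (hf : HomD f d) :
    InDeg d (f • one0 k M) := by
  have h1 := inDeg_psmul (x := one0 k M) (d := 0) (d' := d) (f := f) (by
    have := inDeg_bv (k := k) (σ := st0 M) (0 : Vr M → ℤ) 1
    have h2 : deg3 (0 : Vr M → ℤ) = 0 := by simp [deg3]
    rwa [h2] at this) hf
  rwa [zero_add] at h1

end

end CC5166
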