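import Pool.Agent.Lib.MP_cc5166_ag.LCZero

universe u

open scoped Pointwise

namespace CC5166

section

variable {R : Type u} [CommRing R] (J : Ideal R)
variable {A B C : Type u} [AddCommGroup A] [Module R A] [AddCommGroup B] [Module R B]
  [AddCommGroup C] [Module R C]

/-- multiplication by an element of `J` which is injective on `H^i_J(A)` forces
`H^i_J(A) = 0`. -/
lemma H.subsingleton_of_injective (i : ℕ) (r : R) (hr : r ∈ J)
    (h : Function.Injective (fun z : H J i A => r • z)) : Subsingleton (H J i A) := by
  have key : ∀ z : H J i A, z = 0 := by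
    intro z
    obtain ⟨t, ht⟩ := H.torsion J i z
    have h1 : r ^ t • z = 0 := ht _ (Ideal.pow_mem_pow hr t)
    clear ht
    induction t with
    | zero => simpa using h1
    | succ n ih =>
      apply ih
      apply h
      change r • (r ^ n • z) = r • (0 : H J i A)
      rw [smul_smul, ← pow_succ', h1, smul_zero]
  exact ⟨fun a b => by rw [key a, key b]⟩

theorem H.subsingleton_of_isWeaklyRegular (rs : List R) (hrs : ∀ r ∈ rs, r ∈ J)
    (h : RingTheory.Sequence.IsWeaklyRegular A rs) (i : ℕ) (hi : i < rs.length) :
    Subsingleton (H J i A) := by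
  induction rs generalizing A i with
  | nil => simp at hi
  | cons r rs ih =>
    rw [RingTheory.Sequence.isWeaklyRegular_cons_iff] at h
    obtain ⟨hr, hrs'⟩ := h
    have hf : Function.Injective (LinearMap.lsmul R A r) := hr
    have hex : Function.Exact (LinearMap.lsmul R A r)
        (Submodule.mkQ (r • ⊤ : Submodule R A)) := by
      intro y
      rw [Submodule.mkQ_apply, Submodule.Quotient.mk_eq_zero,
        Submodule.mem_smul_pointwise_iff_exists]
      constructor
      · rintro ⟨a, -, ha⟩
        exact ⟨a, ha⟩
      · rintro ⟨a, ha⟩
        exact ⟨a, Submodule.mem_top, ha⟩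
    have hsurj : Function.Surjective (Submodule.mkQ (r • ⊤ : Submodule R A)) :=
      Submodule.mkQ_surjective _
    have hid : LinearMap.lsmul R A r = r • (LinearMap.id : A →ₗ[R] A) := by
      ext a
      rfl
    have hmap : ∀ (j : ℕ) (z : H J j A), H.map J j (LinearMap.lsmul R A r) z = r • z := by
      intro j z
      rw [hid, H.map_smul_apply, H.map_id_apply]
    apply H.subsingleton_of_injective J i r (hrs r (by simp))
    cases i with
    | zero =>
      intro x y hxy
      apply H.map_injective₀ J _ _ hf hex hsurj
      rw [hmap, hmap]
      exact hxy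
    | succ j =>
      have hsub : Subsingleton (H J j (A ⧸ (r • ⊤ : Submodule R A))) := by
        apply ih (A := A ⧸ (r • ⊤ : Submodule R A)) (fun s hs => hrs s (by simp [hs])) hrs' j
        simpa using hi
      have hinj : Function.Injective (H.map J (j + 1) (LinearMap.lsmul R A r)) := by
        rw [injective_iff_map_eq_zero]
        intro z hz
        obtain ⟨w, hw⟩ := (H.exact_δ_map J _ _ hf hex hsurj j z).mp hz
        rw [← hw, Subsingleton.elim w 0, map_zero]
      intro x y hxy
      apply hinj
      rw [hmap, hmap]
      exact hxy

end

end CC5166
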