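import Pool.Agent.Lib.MP_cc5166_ag.Mono
import Pool.Agent.Lib.MP_cc5166_ag.LCDepth

universe u

namespace CC5166

variable (k : Type u) [Field k] (M : ℕ)

/-- the variables `Y` and `Z`. -/
def DL_IsYZ {M : ℕ} : Ix M → Prop
  | .Y _ => True
  | .Z _ => True
  | .T _ => False
  | .w _ => False

lemma DL_Tdeg_single_add {M : ℕ} {v : Ix M} (hv : DL_IsYZ v) (μ : Ix M →₀ ℕ) :
    Tdeg (Finsupp.single v 1 + μ) = Tdeg μ := by
  rw [Tdeg_add]
  have h : Tdeg (Finsupp.single v 1) = 0 := by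
    unfold Tdeg
    refine Finset.sum_eq_zero fun t _ => Finsupp.single_eq_of_ne ?_
    rintro rfl
    exact hv
  rw [h, zero_add]

lemma DL_wdeg_single_add {M : ℕ} {v : Ix M} (hv : DL_IsYZ v) (μ : Ix M →₀ ℕ) :
    wdeg (Finsupp.single v 1 + μ) = wdeg μ := by
  rw [wdeg_add]
  have h : ∀ i, (Finsupp.single v 1 : Ix M →₀ ℕ) (.w i) = 0 := by
    intro i
    refine Finsupp.single_eq_of_ne ?_
    rintro rfl
    exact hv
  unfold wdeg
  rw [h, h]
  omega

lemma DL_mem_Ln_sup {a b : ℕ} {V : Set (Ix M)} {r : RR k M} :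
    r ∈ Ln k M a b ⊔ Ideal.span (MvPolynomial.X '' V) ↔
      ∀ μ ∈ r.support, (a ≤ Tdeg μ ∧ b ≤ wdeg μ) ∨ ∃ v ∈ V, μ v ≠ 0 := by
  classical
  constructor
  · intro h μ hμ
    obtain ⟨f, hf, g, hg, rfl⟩ := Submodule.mem_sup.1 h
    rcases Finset.mem_union.1 (MvPolynomial.support_add hμ) with h1 | h1
    · exact Or.inl (mem_Ln.1 hf μ h1)
    · exact Or.inr (MvPolynomial.mem_ideal_span_X_image.1 hg μ h1)
  · intro h
    rw [r.as_sum]
    refine Ideal.sum_mem _ fun μ hμ => ?_
    rcases h μ hμ with h1 | h1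
    · refine Ideal.mem_sup_left (mem_Ln.2 fun ν hν => ?_)
      have h2 := MvPolynomial.support_monomial_subset hν
      rw [Finset.mem_singleton] at h2
      rw [h2]
      exact h1
    · refine Ideal.mem_sup_right (MvPolynomial.mem_ideal_span_X_image.2 fun ν hν => ?_)
      have h2 := MvPolynomial.support_monomial_subset hν
      rw [Finset.mem_singleton] at h2
      rw [h2]
      exact h1

lemma DL_mem_Ln_sup_of_mul {a b : ℕ} {V : Set (Ix M)} {v : Ix M} (hv : DL_IsYZ v) (hvV : v ∉ V)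
    {r : RR k M}
    (h : MvPolynomial.X v * r ∈ Ln k M a b ⊔ Ideal.span (MvPolynomial.X '' V)) :
    r ∈ Ln k M a b ⊔ Ideal.span (MvPolynomial.X '' V) := by
  classical
  rw [DL_mem_Ln_sup] at h ⊢
  intro μ hμ
  have h1 : Finsupp.single v 1 + μ ∈ (MvPolynomial.X v * r).support := by
    rw [MvPolynomial.mem_support_iff, MvPolynomial.coeff_X_mul]
    exact MvPolynomial.mem_support_iff.1 hμ
  have h2 := h _ h1
  rw [DL_Tdeg_single_add hv, DL_wdeg_single_add hv] at h2
  refine h2.imp_right ?_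
  rintro ⟨w, hw, h3⟩
  refine ⟨w, hw, ?_⟩
  have hne : w ≠ v := fun e => hvV (e ▸ hw)
  rwa [Finsupp.add_apply, Finsupp.single_eq_of_ne hne, zero_add] at h3

lemma DL_mk_mem_smul_top {R : Type u} [CommRing R] (L I : Ideal R) (f : R) :
    Submodule.Quotient.mk f ∈ (I • ⊤ : Submodule R (R ⧸ L)) ↔ f ∈ L ⊔ I := by
  have h1 : (I • ⊤ : Submodule R (R ⧸ L)) = Submodule.map L.mkQ I := by
    have h2 : Submodule.map L.mkQ (I • (⊤ : Submodule R R)) = I • Submodule.map L.mkQ ⊤ :=
      Submodule.map_smul'' I ⊤ L.mkQ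
    rw [Submodule.map_top, Submodule.range_mkQ] at h2
    rw [← h2, smul_eq_mul, Ideal.mul_top]
  rw [h1, ← Submodule.comap_map_mkQ]
  rfl

/-- the list of the variables `Y` and `Z`. -/
def DL_yzList (M : ℕ) : List (Ix M) :=
  (List.finRange (M + 1)).map Ix.Y ++ (List.finRange 4).map Ix.Z

lemma DL_yzList_length : (DL_yzList M).length = M + 5 := by
  simp [DL_yzList]

lemma DL_yzList_isYZ {v : Ix M} (hv : v ∈ DL_yzList M) : DL_IsYZ v := by
  unfold DL_yzList at hv
  rw [List.mem_append, List.mem_map, List.mem_map] at hv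
  rcases hv with ⟨j, _, rfl⟩ | ⟨j, _, rfl⟩
  · trivial
  · trivial

lemma DL_yzList_nodup : (DL_yzList M).Nodup := by
  unfold DL_yzList
  rw [List.nodup_append]
  refine ⟨(List.nodup_finRange _).map ?_, (List.nodup_finRange _).map ?_, ?_⟩
  · intro i j h
    injection h
  · intro i j h
    injection h
  · intro v hv w hw h
    rw [List.mem_map] at hv hw
    obtain ⟨i, _, rfl⟩ := hv
    obtain ⟨j, _, rfl⟩ := hw
    cases h

lemma DL_weaklyRegular_Ln (a b : ℕ) :
    RingTheory.Sequence.IsWeaklyRegular (RR k M ⧸ Ln k M a b)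
      ((DL_yzList M).map (fun v => (MvPolynomial.X v : RR k M))) := by
  constructor
  intro i hi
  rw [isSMulRegular_quotient_iff_mem_of_smul_mem]
  intro x
  obtain ⟨f, rfl⟩ := Submodule.Quotient.mk_surjective _ x
  rw [← Submodule.Quotient.mk_smul, DL_mk_mem_smul_top, DL_mk_mem_smul_top]
  have hi' : i < (DL_yzList M).length := by
    rwa [List.length_map] at hi
  have h1 : (Ideal.ofList (((DL_yzList M).map (fun v => (MvPolynomial.X v : RR k M))).take i)) =
      Ideal.span (MvPolynomial.X '' {v | v ∈ (DL_yzList M).take i}) := by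
    unfold Ideal.ofList
    congr 1
    ext r
    rw [← List.map_take]
    simp only [List.mem_map, Set.mem_ofPred_eq, Set.mem_image]
  rw [h1, List.getElem_map, smul_eq_mul]
  refine DL_mem_Ln_sup_of_mul k M (DL_yzList_isYZ M (List.getElem_mem hi')) ?_
  intro h2
  rw [Set.mem_ofPred_eq, List.mem_take_iff_getElem] at h2
  obtain ⟨j, hj, h3⟩ := h2
  have h4 := ((DL_yzList_nodup M).getElem_inj_iff).1 h3
  omega

theorem lc_Ln (a b i : ℕ) (hi : i < M + 5) :
    Subsingleton (H (mm k M) i (RR k M ⧸ Ln k M a b)) := by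
  refine H.subsingleton_of_isWeaklyRegular (mm k M) _ ?_ (DL_weaklyRegular_Ln k M a b) i ?_
  · intro r hr
    rw [List.mem_map] at hr
    obtain ⟨v, _, rfl⟩ := hr
    exact Ideal.subset_span ⟨v, rfl⟩
  · rw [List.length_map, DL_yzList_length]
    exact hi

end CC5166
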