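import Pool.Agent.Lib.MP_cc5166_ag.Defs2
import Pool.Agent.Lib.MP_cc5166_ag.LCDim

universe u

namespace CC5166

section

variable {R : Type u} [CommRing R]

lemma harm_subsingleton_mid (J : Ideal R) {A : Type u} [AddCommGroup A] [Module R A]
    (B : Submodule R A) (j : ℕ) (h1 : Subsingleton (H J j B)) (h2 : Subsingleton (H J j (A ⧸ B))) :
    Subsingleton (H J j A) := by
  have hex : Function.Exact (H.map J j B.subtype) (H.map J j B.mkQ) :=
    H.exact_map_map J B.subtype B.mkQ B.injective_subtype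
      (LinearMap.exact_subtype_mkQ B) B.mkQ_surjective j
  refine subsingleton_of_forall_eq 0 fun z => ?_
  obtain ⟨w, hw⟩ := (hex z).mp (Subsingleton.elim _ _)
  rw [← hw, Subsingleton.elim w 0, map_zero]

lemma harm_equiv (J : Ideal R) {A : Type u} [AddCommGroup A] [Module R A]
    (B : Submodule R A) (j : ℕ) (h1 : Subsingleton (H J j (A ⧸ B)))
    (h2 : Subsingleton (H J (j + 1) (A ⧸ B))) :
    Nonempty (H J (j + 1) B ≃ₗ[R] H J (j + 1) A) := by
  have hex : Function.Exact (H.map J (j + 1) B.subtype) (H.map J (j + 1) B.mkQ) :=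
    H.exact_map_map J B.subtype B.mkQ B.injective_subtype
      (LinearMap.exact_subtype_mkQ B) B.mkQ_surjective (j + 1)
  have hex2 := H.exact_δ_map J B.subtype B.mkQ B.injective_subtype
      (LinearMap.exact_subtype_mkQ B) B.mkQ_surjective j
  refine ⟨LinearEquiv.ofBijective (H.map J (j + 1) B.subtype) ⟨?_, ?_⟩⟩
  · rw [injective_iff_map_eq_zero]
    intro z hz
    obtain ⟨w, hw⟩ := (hex2 z).mp hz
    rw [← hw, Subsingleton.elim w 0, map_zero]
  · intro z
    exact (hex z).mp (Subsingleton.elim _ _)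

lemma harm_iso [IsNoetherianRing R] (J : Ideal R) {P : Type u} [AddCommGroup P] [Module R P]
    (F U U1 : Submodule R P) (s1 s2 : Finset R) (N1 N2 : Set R)
    (h1 : J = Ideal.span (↑s1 ∪ N1)) (h2 : J = Ideal.span (↑s2 ∪ N2))
    (hn1 : ∀ a ∈ N1, ∀ x : P, ∃ n : ℕ, a ^ n • x ∈ U1)
    (hn2 : ∀ a ∈ N2, ∀ x ∈ U1, ∃ n : ℕ, a ^ n • x ∈ U)
    (i : ℕ) (hi1 : s1.card < i) (hi2 : s2.card < i) :
    Nonempty (H J (i + 1) (U.map F.mkQ) ≃ₗ[R] H J (i + 1) (P ⧸ F)) := by
  have key : ∀ j : ℕ, i ≤ j → Subsingleton (H J j ((P ⧸ F) ⧸ (U.map F.mkQ))) := by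
    intro j hj
    apply harm_subsingleton_mid J ((U1.map F.mkQ).map (U.map F.mkQ).mkQ) j
    · apply H.subsingleton_of_span J s2 N2 h2 _ j (lt_of_lt_of_le hi2 hj)
      intro a ha x
      obtain ⟨x, hx⟩ := x
      obtain ⟨y, hy, rfl⟩ := hx
      obtain ⟨p, hp, rfl⟩ := hy
      obtain ⟨n, hn⟩ := hn2 a ha p hp
      refine ⟨n, Subtype.ext ?_⟩
      change a ^ n • (U.map F.mkQ).mkQ (F.mkQ p) = 0
      rw [← map_smul, ← map_smul, Submodule.mkQ_apply, Submodule.Quotient.mk_eq_zero]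
      exact ⟨_, hn, rfl⟩
    · apply H.subsingleton_of_span J s1 N1 h1 _ j (lt_of_lt_of_le hi1 hj)
      intro a ha x
      obtain ⟨x, rfl⟩ := Submodule.mkQ_surjective _ x
      obtain ⟨x, rfl⟩ := Submodule.mkQ_surjective _ x
      obtain ⟨p, rfl⟩ := Submodule.mkQ_surjective _ x
      obtain ⟨n, hn⟩ := hn1 a ha p
      refine ⟨n, ?_⟩
      rw [← map_smul, ← map_smul, ← map_smul, Submodule.mkQ_apply, Submodule.Quotient.mk_eq_zero]
      exact ⟨_, ⟨_, hn, rfl⟩, rfl⟩
  exact harm_equiv J _ i (key i le_rfl) (key (i + 1) (Nat.le_succ i))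

end

section

variable {k : Type u} [Field k] {M : ℕ}

/-- exponents with large degree in `ζ`. -/
def harmQ (N : ℕ) (e : Vr M → ℤ) : Prop := (N : ℤ) ≤ e (.ze 0) + e (.ze 1)

lemma harm_toZ_nonneg (μ : Vr M →₀ ℕ) (v : Vr M) : 0 ≤ toZ μ v := Int.natCast_nonneg _

lemma upClosed_harmQ (N : ℕ) : UpClosed (harmQ (M := M) N) := by
  constructor
  · intro e i j h
    have h1 := harm_toZ_nonneg (Finsupp.single (.y i : Vr M) 1 + Finsupp.single (.q j) 1) (.ze 0)
    have h2 := harm_toZ_nonneg (Finsupp.single (.y i : Vr M) 1 + Finsupp.single (.q j) 1) (.ze 1)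
    simp only [harmQ, Pi.add_apply] at h ⊢
    omega
  · intro e i j h
    have h1 := harm_toZ_nonneg (Finsupp.single (.ze i : Vr M) 1 + Finsupp.single (.p j) 1) (.ze 0)
    have h2 := harm_toZ_nonneg (Finsupp.single (.ze i : Vr M) 1 + Finsupp.single (.p j) 1) (.ze 1)
    simp only [harmQ, Pi.add_apply] at h ⊢
    omega

lemma harm_phi_Y (j : Fin (M + 1)) : phi k M (MvPolynomial.X (.Y j)) = Ypoly k M j := by
  rw [phi, MvPolynomial.aeval_X]

lemma harm_phi_Z (j : Fin 4) : phi k M (MvPolynomial.X (.Z j)) = Zpoly k M j := by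
  rw [phi, MvPolynomial.aeval_X]

lemma harm_phi_T (t : Tx) : phi k M (MvPolynomial.X (.T t)) = 0 := by
  rw [phi, MvPolynomial.aeval_X]

lemma harm_phi_w (i : Fin 2) : phi k M (MvPolynomial.X (.w i)) = 0 := by
  rw [phi, MvPolynomial.aeval_X]

lemma harm_zero_mem {d : ℤ × ℤ × ℤ} {σ : Vr M → Fin 3} (a : RR k M) (ha : phi k M a = 0)
    (x : Pc k d σ) : a ^ 1 • x = 0 := by
  rw [pow_one]
  refine Subtype.ext ?_
  rw [Pc.smul_val, ha, zero_smul]
  rfl

lemma harm_ze_sum (i : Fin 2) (l : Fin 3) :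
    toZ (Finsupp.single (.ze i : Vr M) 1 + Finsupp.single (.p l) 1) (.ze 0) +
      toZ (Finsupp.single (.ze i : Vr M) 1 + Finsupp.single (.p l) 1) (.ze 1) = 1 := by
  fin_cases i <;> simp [toZ]

lemma harm_suppOn_Zpow {x : X k (st0 M)} (j : Fin 4) (n : ℕ) :
    SuppOn (harmQ (M := M) n) ((Zpoly k M j) ^ n • x) := by
  induction n with
  | zero =>
    intro e he
    have h1 := (e.2 (.ze 0)).1 rfl
    have h2 := (e.2 (.ze 1)).1 rfl
    simp only [harmQ, Nat.cast_zero]
    omega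
  | succ n ih =>
    rw [pow_succ', mul_smul]
    refine suppOn_Zpoly_smul ih j fun e i l he => ?_
    have h3 := harm_ze_sum (M := M) i l
    simp only [harmQ, Pi.add_apply, Nat.cast_add, Nat.cast_one] at he h3 ⊢
    omega

lemma harm_y_sum (i : Fin 2) (l : Fin M) :
    toZ (Finsupp.single (.y i : Vr M) 1 + Finsupp.single (.q l) 1) (.y 0) +
      toZ (Finsupp.single (.y i : Vr M) 1 + Finsupp.single (.q l) 1) (.y 1) = 1 := by
  fin_cases i <;> simp [toZ]

lemma harm_q_sum (hM : 3 ≤ M) (i : Fin 2) (l : Fin M) (hl : l.1 ≤ 2) :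
    toZ (Finsupp.single (.y i : Vr M) 1 + Finsupp.single (.q l) 1) (.q (Fin.castLE hM 0)) +
      toZ (Finsupp.single (.y i : Vr M) 1 + Finsupp.single (.q l) 1) (.q (Fin.castLE hM 1)) +
      toZ (Finsupp.single (.y i : Vr M) 1 + Finsupp.single (.q l) 1) (.q (Fin.castLE hM 2)) =
      1 := by
  obtain ⟨l, hl'⟩ := l
  simp only at hl
  have hl3 : l = 0 ∨ l = 1 ∨ l = 2 := by omega
  rcases hl3 with rfl | rfl | rfl <;>
    simp [toZ, Finsupp.single_apply, Fin.ext_iff]

/-- exponents with large degree in `ζ`, `y` and `q₀, q₁, q₂`. -/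
def harmQ2 (hM : 3 ≤ M) (N n : ℕ) (e : Vr M → ℤ) : Prop :=
  (n : ℤ) ≤ e (.y 0) + e (.y 1) ∧ (N : ℤ) ≤ e (.ze 0) + e (.ze 1) ∧
    (n : ℤ) ≤ e (.q (Fin.castLE hM 0)) + e (.q (Fin.castLE hM 1)) + e (.q (Fin.castLE hM 2))

lemma harm_suppOn_Ypow (hM : 3 ≤ M) (N : ℕ) {x : X k (st0 M)} (hx : SuppOn (harmQ N) x)
    (j : Fin (M + 1)) (hj : j.1 ≤ 2) (n : ℕ) :
    SuppOn (harmQ2 hM N n) ((Ypoly k M j) ^ n • x) := by
  induction n with
  | zero =>
    rw [pow_zero, one_smul]
    intro e he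
    have h0 := hx e he
    have h1 := (e.2 (.y 0)).1 rfl
    have h2 := (e.2 (.y 1)).1 rfl
    have h3 := (e.2 (.q (Fin.castLE hM 0))).1 rfl
    have h4 := (e.2 (.q (Fin.castLE hM 1))).1 rfl
    have h5 := (e.2 (.q (Fin.castLE hM 2))).1 rfl
    refine ⟨?_, h0, ?_⟩
    · rw [Nat.cast_zero]; omega
    · rw [Nat.cast_zero]; omega
  | succ n ih =>
    rw [pow_succ', mul_smul]
    refine suppOn_Ypoly_smul ih j fun e i l hl he => ?_
    have h3 := harm_y_sum (M := M) i l
    have h4 := harm_q_sum hM i l (by omega)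
    have h5 := harm_toZ_nonneg (Finsupp.single (.y i : Vr M) 1 + Finsupp.single (.q l) 1) (.ze 0)
    have h6 := harm_toZ_nonneg (Finsupp.single (.y i : Vr M) 1 + Finsupp.single (.q l) 1) (.ze 1)
    obtain ⟨ha, hb, hc⟩ := he
    refine ⟨?_, ?_, ?_⟩
    · simp only [Pi.add_apply, Nat.cast_add, Nat.cast_one]; omega
    · simp only [Pi.add_apply]; omega
    · simp only [Pi.add_apply, Nat.cast_add, Nat.cast_one]; omega

end

variable (k : Type u) [Field k] (M : ℕ)

theorem lc_SN (hM : 3 ≤ M) (N : ℕ) :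
    Nonempty (H (mm k M) (M + 4) (SN k M hM N) ≃ₗ[RR k M] H (mm k M) (M + 4) (Sfull k M N)) := by
  classical
  refine harm_iso (mm k M) (LinearMap.range (FN k M N (st0 M)))
    (Psub k (dN N) (st0 M) (upClosed_GoodE hM N)) (Psub k (dN N) (st0 M) (upClosed_harmQ N))
    (Finset.univ.image fun j : Fin (M + 1) => (MvPolynomial.X (.Y j) : RR k M))
    (((Finset.univ.filter fun j : Fin (M + 1) => 3 ≤ j.1).image
        fun j : Fin (M + 1) => (MvPolynomial.X (.Y j) : RR k M)) ∪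
      (Finset.univ.image fun j : Fin 4 => (MvPolynomial.X (.Z j) : RR k M)))
    ((Set.range fun j : Fin 4 => (MvPolynomial.X (.Z j) : RR k M)) ∪
      ((Set.range fun t : Tx => (MvPolynomial.X (.T t) : RR k M)) ∪
        (Set.range fun i : Fin 2 => (MvPolynomial.X (.w i) : RR k M))))
    (((fun j : Fin (M + 1) => (MvPolynomial.X (.Y j) : RR k M)) '' {j | j.1 ≤ 2}) ∪
      ((Set.range fun t : Tx => (MvPolynomial.X (.T t) : RR k M)) ∪
        (Set.range fun i : Fin 2 => (MvPolynomial.X (.w i) : RR k M))))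
    ?_ ?_ ?_ ?_ (M + 3) ?_ ?_
  · unfold mm
    congr 1
    ext a
    constructor
    · rintro ⟨i, rfl⟩
      cases i with
      | Y j => left; simp
      | Z j => right; left; exact ⟨j, rfl⟩
      | T t => right; right; left; exact ⟨t, rfl⟩
      | w i => right; right; right; exact ⟨i, rfl⟩
    · rintro (h | ⟨j, rfl⟩ | ⟨t, rfl⟩ | ⟨i, rfl⟩)
      · simp only [Finset.coe_image, Finset.coe_univ, Set.image_univ, Set.mem_range] at h
        obtain ⟨j, rfl⟩ := h
        exact ⟨_, rfl⟩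
      · exact ⟨_, rfl⟩
      · exact ⟨_, rfl⟩
      · exact ⟨_, rfl⟩
  · unfold mm
    congr 1
    ext a
    constructor
    · rintro ⟨i, rfl⟩
      cases i with
      | Y j =>
        by_cases hj : 3 ≤ j.1
        · left
          rw [Finset.mem_coe, Finset.mem_union]
          left
          exact Finset.mem_image.mpr ⟨j, Finset.mem_filter.mpr ⟨Finset.mem_univ _, hj⟩, rfl⟩
        · right; left
          refine ⟨j, ?_, rfl⟩
          change j.1 ≤ 2
          omega
      | Z j =>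
        left
        rw [Finset.mem_coe, Finset.mem_union]
        right
        exact Finset.mem_image.mpr ⟨j, Finset.mem_univ _, rfl⟩
      | T t => right; right; left; exact ⟨t, rfl⟩
      | w i => right; right; right; exact ⟨i, rfl⟩
    · rintro (h | ⟨j, _, rfl⟩ | ⟨t, rfl⟩ | ⟨i, rfl⟩)
      · rw [Finset.mem_coe, Finset.mem_union, Finset.mem_image, Finset.mem_image] at h
        rcases h with ⟨j, _, rfl⟩ | ⟨j, _, rfl⟩
        · exact ⟨_, rfl⟩
        · exact ⟨_, rfl⟩
      · exact ⟨_, rfl⟩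
      · exact ⟨_, rfl⟩
      · exact ⟨_, rfl⟩
  · rintro a (⟨j, rfl⟩ | ⟨t, rfl⟩ | ⟨i, rfl⟩) x
    · refine ⟨N, ?_⟩
      rw [mem_Psub, Pc.smul_val, map_pow, harm_phi_Z]
      exact harm_suppOn_Zpow j N
    · refine ⟨1, ?_⟩
      rw [harm_zero_mem _ (harm_phi_T t)]
      exact Submodule.zero_mem _
    · refine ⟨1, ?_⟩
      rw [harm_zero_mem _ (harm_phi_w i)]
      exact Submodule.zero_mem _
  · rintro a (⟨j, hj, rfl⟩ | ⟨t, rfl⟩ | ⟨i, rfl⟩) x hx
    · refine ⟨2 * N, ?_⟩
      rw [mem_Psub, Pc.smul_val, map_pow, harm_phi_Y]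
      intro e he
      obtain ⟨ha, hb, hc⟩ := harm_suppOn_Ypow hM N hx j hj (2 * N) e he
      push_cast at ha hc
      refine ⟨?_, hb, hc⟩
      omega
    · refine ⟨1, ?_⟩
      rw [harm_zero_mem _ (harm_phi_T t)]
      exact Submodule.zero_mem _
    · refine ⟨1, ?_⟩
      rw [harm_zero_mem _ (harm_phi_w i)]
      exact Submodule.zero_mem _
  · refine lt_of_le_of_lt Finset.card_image_le ?_
    rw [Finset.card_univ, Fintype.card_fin]
    omega
  · refine lt_of_le_of_lt (Finset.card_union_le _ _) ?_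
    have h1 : ((Finset.univ.filter fun j : Fin (M + 1) => 3 ≤ j.1).image
        fun j : Fin (M + 1) => (MvPolynomial.X (.Y j) : RR k M)).card ≤ M - 2 := by
      refine le_trans Finset.card_image_le ?_
      have h2 : (Finset.univ.filter fun j : Fin (M + 1) => 3 ≤ j.1).card ≤
          (Finset.Ico 3 (M + 1)).card := by
        refine Finset.card_le_card_of_injOn (fun j => j.1) ?_ ?_
        · intro j hj
          have := (Finset.mem_filter.mp hj).2
          rw [Finset.mem_coe, Finset.mem_Ico]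
          exact ⟨this, j.2⟩
        · intro a _ b _ hab
          exact Fin.ext hab
      rw [Nat.card_Ico] at h2
      omega
    have h3 : (Finset.univ.image fun j : Fin 4 => (MvPolynomial.X (.Z j) : RR k M)).card ≤ 4 := by
      refine le_trans Finset.card_image_le ?_
      rw [Finset.card_univ, Fintype.card_fin]
    omega

end CC5166
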