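import Pool.Agent.Lib.MP_cc5166_ag.Mono

universe u

namespace CC5166

variable (k : Type u) [Field k] (M : ℕ)

/-- the weights making the relations homogeneous. -/
def hwt : Vr M → ℤ
  | .xi _ => -1
  | .y _ => 1
  | .q _ => 0
  | .ze _ => 1
  | .p _ => 0

attribute [local instance] MvPolynomial.gradedAlgebra MvPolynomial.weightedGradedAlgebra

variable {k M}

lemma hwt_vx (v : Vr M) :
    MvPolynomial.IsWeightedHomogeneous (hwt M) (vx v : PP k M) (hwt M v) :=
  MvPolynomial.isWeightedHomogeneous_X k (hwt M) v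

lemma hwt_Ypoly (j : Fin (M + 1)) :
    MvPolynomial.IsWeightedHomogeneous (hwt M) (Ypoly k M j) 1 := by
  unfold Ypoly
  refine MvPolynomial.IsWeightedHomogeneous.add ?_ ?_
  · split_ifs with h
    · exact (hwt_vx _).mul (hwt_vx _)
    · exact MvPolynomial.isWeightedHomogeneous_zero _ _ _
  · split_ifs with h
    · exact (hwt_vx _).mul (hwt_vx _)
    · exact MvPolynomial.isWeightedHomogeneous_zero _ _ _

lemma hwt_Zpoly (j : Fin 4) :
    MvPolynomial.IsWeightedHomogeneous (hwt M) (Zpoly k M j) 1 := by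
  unfold Zpoly
  refine MvPolynomial.IsWeightedHomogeneous.add ?_ ?_
  · split_ifs with h
    · exact (hwt_vx _).mul (hwt_vx _)
    · exact MvPolynomial.isWeightedHomogeneous_zero _ _ _
  · split_ifs with h
    · exact (hwt_vx _).mul (hwt_vx _)
    · exact MvPolynomial.isWeightedHomogeneous_zero _ _ _

lemma hwt_Tpoly (hM : 3 ≤ M) (t : Tx) :
    MvPolynomial.IsWeightedHomogeneous (hwt M) (Tpoly k M hM t) 1 := by
  unfold Tpoly
  exact ((((((hwt_vx _).mul (hwt_vx _)).mul (hwt_vx _)).mul (hwt_vx _)).mul (hwt_vx _)).mul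
    (hwt_vx _)).mul (hwt_vx _)

lemma hwt_Fpoly : MvPolynomial.IsWeightedHomogeneous (hwt M) (Fpoly k M) 1 := by
  have h2 : ∀ v : Vr M, MvPolynomial.IsWeightedHomogeneous (hwt M) (vx v ^ 2 : PP k M)
      (hwt M v + hwt M v) := by
    intro v
    rw [pow_two]
    exact (hwt_vx v).mul (hwt_vx v)
  unfold Fpoly G0poly G1poly
  refine MvPolynomial.IsWeightedHomogeneous.add ?_ ?_
  · have h1 := (hwt_vx (k := k) (.y 0 : Vr M))
    have h3 : MvPolynomial.IsWeightedHomogeneous (hwt M) (vx (.xi 0) ^ 2 * vx (.ze 0) ^ 2 +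
        vx (.xi 0) * vx (.xi 1) * vx (.ze 0) * vx (.ze 1) +
        vx (.xi 1) ^ 2 * vx (.ze 1) ^ 2 : PP k M) 0 := by
      refine MvPolynomial.IsWeightedHomogeneous.add (MvPolynomial.IsWeightedHomogeneous.add ?_ ?_) ?_
      · exact (h2 _).mul (h2 _)
      · exact (((hwt_vx _).mul (hwt_vx _)).mul (hwt_vx _)).mul (hwt_vx _)
      · exact (h2 _).mul (h2 _)
    exact h1.mul h3
  · have h1 := (hwt_vx (k := k) (.y 1 : Vr M))
    have h3 : MvPolynomial.IsWeightedHomogeneous (hwt M)
        (vx (.xi 0) ^ 2 * vx (.ze 1) ^ 2 + vx (.xi 1) ^ 2 * vx (.ze 0) ^ 2 : PP k M) 0 := by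
      refine MvPolynomial.IsWeightedHomogeneous.add ?_ ?_
      · exact (h2 _).mul (h2 _)
      · exact (h2 _).mul (h2 _)
    exact h1.mul h3

lemma hwt_psi0_X (hM : 3 ≤ M) (i : Ix M) :
    MvPolynomial.IsWeightedHomogeneous (hwt M) (psi0 k M hM (MvPolynomial.X i)) 1 := by
  rw [psi0, MvPolynomial.aeval_X]
  cases i with
  | Y j => exact hwt_Ypoly j
  | Z j => exact hwt_Zpoly j
  | T t => exact hwt_Tpoly hM t
  | w i => exact MvPolynomial.isWeightedHomogeneous_zero _ _ _

lemma hwt_psi0_monomial (hM : 3 ≤ M) (μ : Ix M →₀ ℕ) (c : k) :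
    MvPolynomial.IsWeightedHomogeneous (hwt M) (psi0 k M hM (MvPolynomial.monomial μ c))
      ((Finsupp.degree μ : ℕ) : ℤ) := by
  induction μ using Finsupp.induction_linear generalizing c with
  | zero =>
    have h1 : psi0 k M hM (MvPolynomial.monomial 0 c) = MvPolynomial.C c := by
      have h2 : (MvPolynomial.monomial 0 c : RR k M) = MvPolynomial.C c := rfl
      rw [h2, psi0, MvPolynomial.aeval_C]
      rfl
    rw [h1, map_zero]
    exact MvPolynomial.isWeightedHomogeneous_C (hwt M) c
  | add f g hf hg =>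
    have h1 : (MvPolynomial.monomial (f + g) c : RR k M) =
        MvPolynomial.monomial f c * MvPolynomial.monomial g 1 := by
      rw [MvPolynomial.monomial_mul, mul_one]
    rw [h1, map_mul, map_add, Nat.cast_add]
    exact (hf c).mul (hg 1)
  | single v n =>
    have h1 : (MvPolynomial.monomial (Finsupp.single v n) c : RR k M) =
        MvPolynomial.C c * MvPolynomial.X v ^ n := by
      rw [MvPolynomial.C_mul_X_pow_eq_monomial]
    rw [h1, map_mul, map_pow]
    have h2 : psi0 k M hM (MvPolynomial.C c) = MvPolynomial.C c := by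
      rw [psi0, MvPolynomial.aeval_C]
      rfl
    rw [h2]
    have h3 := ((hwt_psi0_X (k := k) hM v).pow n).C_mul c
    have h4 : n • (1 : ℤ) = ((Finsupp.degree (Finsupp.single v n) : ℕ) : ℤ) := by
      rw [Finsupp.degree_single]
      simp
    rw [h4] at h3
    exact h3

lemma hwt_psi0 (hM : 3 ≤ M) {f : RR k M} {n : ℕ} (hf : f.IsHomogeneous n) :
    MvPolynomial.IsWeightedHomogeneous (hwt M) (psi0 k M hM f) (n : ℤ) := by
  rw [f.as_sum, map_sum]
  refine MvPolynomial.IsWeightedHomogeneous.sum _ _ _ fun μ hμ => ?_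
  have h1 : Finsupp.degree μ = n := by
    have h2 := hf (MvPolynomial.mem_support_iff.mp hμ)
    rwa [Finsupp.degree_eq_weight_one]
  have h3 := hwt_psi0_monomial (k := k) hM μ (MvPolynomial.coeff μ f)
  rw [h1] at h3
  exact h3

lemma psi0_component (hM : 3 ≤ M) (f : RR k M) (n : ℕ) :
    psi0 k M hM (MvPolynomial.homogeneousComponent n f) =
      MvPolynomial.weightedHomogeneousComponent (hwt M) (n : ℤ) (psi0 k M hM f) := by
  classical
  conv_rhs => rw [← MvPolynomial.sum_homogeneousComponent f, map_sum, map_sum]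
  have h1 : ∀ i : ℕ, MvPolynomial.weightedHomogeneousComponent (hwt M) (n : ℤ)
      (psi0 k M hM (MvPolynomial.homogeneousComponent i f)) =
      if i = n then psi0 k M hM (MvPolynomial.homogeneousComponent n f) else 0 := by
    intro i
    rw [MvPolynomial.weightedHomogeneousComponent_of_mem
      (hwt_psi0 hM (MvPolynomial.homogeneousComponent_isHomogeneous i f))]
    by_cases h : i = n
    · subst h
      simp
    · rw [if_neg h, if_neg]
      intro h2
      exact h (Nat.cast_injective h2).symm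
  rw [Finset.sum_congr rfl fun i _ => h1 i, Finset.sum_ite_eq' (Finset.range (f.totalDegree + 1)) n]
  split_ifs with h
  · rfl
  · rw [MvPolynomial.homogeneousComponent_eq_zero, map_zero]
    rw [Finset.mem_range] at h
    omega

/-- an ideal closed under taking homogeneous components. -/
lemma Qk_homog (hM : 3 ≤ M) :
    (Qk k M hM).IsHomogeneous (MvPolynomial.homogeneousSubmodule (Ix M) k) := by
  intro n f hf
  have h1 : (Ideal.span {Fpoly k M}).IsHomogeneous
      (MvPolynomial.weightedHomogeneousSubmodule k (hwt M)) := by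
    refine Ideal.homogeneous_span _ _ fun x hx => ⟨1, ?_⟩
    rw [Set.mem_singleton_iff] at hx
    rw [hx]
    exact hwt_Fpoly
  have h2 : psi0 k M hM f ∈ Ideal.span {Fpoly k M} := hf
  have h3 := MvPolynomial.weightedHomogeneousComponent_mem_of_mem k (hwt M) h1 h2 (n : ℤ)
  rw [← psi0_component] at h3
  have h4 : ((DirectSum.decompose (MvPolynomial.homogeneousSubmodule (Ix M) k) f n :
      MvPolynomial.homogeneousSubmodule (Ix M) k n) : RR k M) =
      MvPolynomial.homogeneousComponent n f :=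
    MvPolynomial.decomposition.decompose'_apply f n
  rw [h4]
  exact h3

lemma TI_homog : (TI k M).IsHomogeneous (MvPolynomial.homogeneousSubmodule (Ix M) k) := by
  refine Ideal.homogeneous_span _ _ fun x hx => ⟨1, ?_⟩
  obtain ⟨t, rfl⟩ := hx
  exact MvPolynomial.isHomogeneous_X k _

lemma TI_pow_homog (δ : ℕ) :
    (TI k M ^ δ).IsHomogeneous (MvPolynomial.homogeneousSubmodule (Ix M) k) := by
  induction δ with
  | zero =>
    rw [pow_zero, Ideal.one_eq_top]
    exact Ideal.IsHomogeneous.top _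
  | succ n ih =>
    rw [pow_succ]
    exact ih.mul TI_homog

variable (k M)

theorem II_homogeneous (hM : 3 ≤ M) (δ : ℕ) :
    ∃ S : Set (RR k M), (∀ f ∈ S, ∃ n : ℕ, f.IsHomogeneous n) ∧
      II k M hM δ = Ideal.span S := by
  have h1 : (Ideal.span {(MvPolynomial.X (.w 0) : RR k M) ^ 2,
      (MvPolynomial.X (.w 1) : RR k M) ^ 2}).IsHomogeneous
      (MvPolynomial.homogeneousSubmodule (Ix M) k) := by
    refine Ideal.homogeneous_span _ _ fun x hx => ⟨2, ?_⟩
    rcases hx with rfl | hx
    · exact (MvPolynomial.isHomogeneous_X k _).pow 2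
    · rw [Set.mem_singleton_iff] at hx
      rw [hx]
      exact (MvPolynomial.isHomogeneous_X k _).pow 2
  have h2 : (Ideal.span {(MvPolynomial.X (.w 0) : RR k M) * MvPolynomial.X (.w 1)}).IsHomogeneous
      (MvPolynomial.homogeneousSubmodule (Ix M) k) := by
    refine Ideal.homogeneous_span _ _ fun x hx => ⟨2, ?_⟩
    rw [Set.mem_singleton_iff] at hx
    rw [hx]
    exact (MvPolynomial.isHomogeneous_X k _).mul (MvPolynomial.isHomogeneous_X k _)
  have h3 : (II k M hM δ).IsHomogeneous (MvPolynomial.homogeneousSubmodule (Ix M) k) := by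
    unfold II
    exact ((TI_pow_homog δ).mul h1).sup
      ((((Qk_homog hM).inf (TI_pow_homog δ)).sup (TI_pow_homog (δ + 1))).mul h2)
  refine ⟨{f | f ∈ II k M hM δ ∧ ∃ n : ℕ, f.IsHomogeneous n}, fun f hf => hf.2, ?_⟩
  apply le_antisymm
  · intro f hf
    rw [← MvPolynomial.sum_homogeneousComponent f]
    refine Ideal.sum_mem _ fun n _ => Ideal.subset_span ⟨?_, n,
      MvPolynomial.homogeneousComponent_isHomogeneous n f⟩
    exact MvPolynomial.homogeneousComponent_mem_of_mem h3 hf n
  · rw [Ideal.span_le]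
    intro f hf
    exact hf.1

end CC5166
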