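import Pool.Agent.Lib.MP_cc5166_ag.Defs3

universe u

namespace CC5166

open Polynomial

namespace KSDim

section

variable (k : Type u) [Field k]

theorem finite_degreeLT (n : ℕ) : Module.Finite k (degreeLT k n) :=
  Module.Finite.equiv (degreeLTEquiv k n).symm

theorem finrank_degreeLT (n : ℕ) : Module.finrank k (degreeLT k n) = n := by
  rw [(degreeLTEquiv k n).finrank_eq, Module.finrank_fin_fun]

/-- restriction to the box. -/
noncomputable def res (N b c : ℕ) :
    KS k N b c →ₗ[k] (Fin (b + 1) → Fin (c + 1) → degreeLT k (N - 1)) where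
  toFun θ := fun i j => ⟨θ.1 i j, (mem_KS.mp θ.2).1 i j⟩
  map_add' _ _ := rfl
  map_smul' _ _ := rfl

theorem res_injective (N b c : ℕ) : Function.Injective (res k N b c) := by
  intro x y h
  apply Subtype.ext
  funext i j
  by_cases hi : i < b + 1 ∧ j < c + 1
  · exact congrArg Subtype.val (congrFun (congrFun h ⟨i, hi.1⟩) ⟨j, hi.2⟩)
  · rw [(mem_KS.mp x.2).2.1 i j (by omega), (mem_KS.mp y.2).2.1 i j (by omega)]

/-- extension by zero. -/
noncomputable def ext0 (N b c : ℕ) :
    (Fin (b + 1) → Fin (c + 1) → degreeLT k (N - 1)) →ₗ[k] (ℕ → ℕ → k[X]) where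
  toFun v := fun i j => if h : i < b + 1 ∧ j < c + 1 then (v ⟨i, h.1⟩ ⟨j, h.2⟩ : k[X]) else 0
  map_add' v w := by
    funext i j
    simp only [Pi.add_apply]
    split_ifs
    · rfl
    · rw [add_zero]
  map_smul' a v := by
    funext i j
    simp only [Pi.smul_apply, RingHom.id_apply]
    split_ifs
    · rfl
    · rw [smul_zero]

theorem ext0_mem (N b c : ℕ) (v : Fin (b + 1) → Fin (c + 1) → degreeLT k (N - 1)) (i j : ℕ) :
    ext0 k N b c v i j ∈ degreeLT k (N - 1) := by
  change (if h : i < b + 1 ∧ j < c + 1 then (v ⟨i, h.1⟩ ⟨j, h.2⟩ : k[X]) else 0) ∈ _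
  split_ifs
  · exact Subtype.property _
  · exact Submodule.zero_mem _

theorem ext0_injective (N b c : ℕ) : Function.Injective (ext0 k N b c) := by
  intro v w h
  funext i j
  apply Subtype.ext
  have h1 := congrFun (congrFun h i.1) j.1
  change (if h : i.1 < b + 1 ∧ j.1 < c + 1 then (v ⟨i, h.1⟩ ⟨j, h.2⟩ : k[X]) else 0) =
    (if h : i.1 < b + 1 ∧ j.1 < c + 1 then (w ⟨i, h.1⟩ ⟨j, h.2⟩ : k[X]) else 0) at h1
  rw [dif_pos ⟨i.2, j.2⟩, dif_pos ⟨i.2, j.2⟩] at h1
  exact h1

/-- the operator of the equations. -/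
noncomputable def opD : (ℕ → ℕ → k[X]) →ₗ[k] (ℕ → ℕ → k[X]) where
  toFun θ := fun i j => Polynomial.X ^ 2 * θ (i + 1) (j + 2) + Polynomial.X * θ (i + 1) (j + 1) +
    θ (i + 1) j + Polynomial.X ^ 2 * θ i j + θ i (j + 2)
  map_add' v w := by
    funext i j
    simp only [Pi.add_apply]
    ring
  map_smul' a v := by
    funext i j
    simp only [Pi.smul_apply, RingHom.id_apply, smul_eq_C_mul]
    ring

theorem mul_mem_degreeLT {f p : k[X]} {m n d : ℕ} (hf : f.degree ≤ d) (hp : p ∈ degreeLT k m)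
    (h : m + d ≤ n) : f * p ∈ degreeLT k n := by
  rw [mem_degreeLT] at hp ⊢
  by_cases hp0 : p = 0
  · rw [hp0, mul_zero, degree_zero]
    exact WithBot.bot_lt_coe _
  by_cases hf0 : f = 0
  · rw [hf0, zero_mul, degree_zero]
    exact WithBot.bot_lt_coe _
  have h1 : p.natDegree < m := (natDegree_lt_iff_degree_lt hp0).mpr hp
  have h2 : f.natDegree ≤ d := natDegree_le_iff_degree_le.mpr hf
  rw [← natDegree_lt_iff_degree_lt (mul_ne_zero hf0 hp0), natDegree_mul hf0 hp0]
  omega

theorem opD_mem {N : ℕ} (hN : 1 ≤ N) {θ : ℕ → ℕ → k[X]} (h : ∀ i j, θ i j ∈ degreeLT k (N - 1))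
    (i j : ℕ) : opD k θ i j ∈ degreeLT k (N + 1) := by
  have hX2 : ((Polynomial.X : k[X]) ^ 2).degree ≤ (2 : ℕ) := by
    rw [degree_X_pow]
  have hX1 : (Polynomial.X : k[X]).degree ≤ (2 : ℕ) := by
    rw [degree_X]
    exact_mod_cast (by norm_num : (1 : ℕ) ≤ 2)
  have h1 : (1 : k[X]).degree ≤ (2 : ℕ) := by
    rw [degree_one]
    exact_mod_cast (by norm_num : (0 : ℕ) ≤ 2)
  have e : N - 1 + 2 ≤ N + 1 := by omega
  have h3 : ∀ i j, θ i j ∈ degreeLT k (N + 1) := by
    intro i j
    have := mul_mem_degreeLT k h1 (h i j) e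
    rwa [one_mul] at this
  exact Submodule.add_mem _ (Submodule.add_mem _ (Submodule.add_mem _ (Submodule.add_mem _
    (mul_mem_degreeLT k hX2 (h _ _) e) (mul_mem_degreeLT k hX1 (h _ _) e)) (h3 _ _))
    (mul_mem_degreeLT k hX2 (h _ _) e)) (h3 _ _)

/-- the equations as a linear map between finite-dimensional spaces. -/
noncomputable def opL (N b : ℕ) (hN : 1 ≤ N) :
    (Fin (b + 1) → Fin (N + 3 + 1) → degreeLT k (N - 1)) →ₗ[k]
      (Fin b → Fin (N + 2) → degreeLT k (N + 1)) where
  toFun v := fun i j => ⟨opD k (ext0 k N b (N + 3) v) i j, opD_mem k hN (ext0_mem k N b (N + 3) v) _ _⟩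
  map_add' v w := by
    funext i j
    apply Subtype.ext
    change opD k (ext0 k N b (N + 3) (v + w)) i j = opD k (ext0 k N b (N + 3) v) i j +
      opD k (ext0 k N b (N + 3) w) i j
    rw [map_add, map_add]
    rfl
  map_smul' a v := by
    funext i j
    apply Subtype.ext
    change opD k (ext0 k N b (N + 3) (a • v)) i j = a • opD k (ext0 k N b (N + 3) v) i j
    rw [map_smul, map_smul]
    rfl

theorem ext0_mem_KS (N b : ℕ) (hN : 1 ≤ N)
    (v : Fin (b + 1) → Fin (N + 3 + 1) → degreeLT k (N - 1)) (hv : opL k N b hN v = 0) :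
    ext0 k N b (N + 3) v ∈ KS k N b (N + 3) := by
  refine mem_KS.mpr ⟨ext0_mem k N b (N + 3) v, fun i j hij => ?_, fun i j hi hj => ?_⟩
  · change (if h : i < b + 1 ∧ j < N + 3 + 1 then (v ⟨i, h.1⟩ ⟨j, h.2⟩ : k[X]) else 0) = 0
    rw [dif_neg (by omega)]
  · have h1 := congrArg Subtype.val (congrFun (congrFun hv ⟨i, hi⟩) ⟨j, by omega⟩)
    exact h1

/-- extension by zero maps the kernel into `KS`. -/
noncomputable def kerToKS (N b : ℕ) (hN : 1 ≤ N) :
    LinearMap.ker (opL k N b hN) →ₗ[k] KS k N b (N + 3) where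
  toFun v := ⟨ext0 k N b (N + 3) v.1, ext0_mem_KS k N b hN v.1 (LinearMap.mem_ker.mp v.2)⟩
  map_add' v w := by
    apply Subtype.ext
    change ext0 k N b (N + 3) (v.1 + w.1) = _
    rw [map_add]
    rfl
  map_smul' a v := by
    apply Subtype.ext
    change ext0 k N b (N + 3) (a • v.1) = _
    rw [map_smul]
    rfl

theorem kerToKS_injective (N b : ℕ) (hN : 1 ≤ N) : Function.Injective (kerToKS k N b hN) := by
  intro v w h
  apply Subtype.ext
  exact ext0_injective k N b (N + 3) (congrArg Subtype.val h)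

theorem finrank_box (m n d : ℕ) :
    Module.finrank k (Fin m → Fin n → degreeLT k d) = m * (n * d) := by
  have := finite_degreeLT k d
  rw [Module.finrank_pi_fintype]
  simp only [Module.finrank_pi_fintype, finrank_degreeLT, Finset.sum_const, Finset.card_univ,
    Fintype.card_fin, smul_eq_mul]

end

end KSDim

theorem KS_finite (k : Type u) [Field k] (N b c : ℕ) : Module.Finite k (KS k N b c) := by
  have := KSDim.finite_degreeLT k (N - 1)
  exact Module.Finite.of_injective (KSDim.res k N b c) (KSDim.res_injective k N b c)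

theorem KS_finrank (k : Type u) [Field k] (N b : ℕ) (hN : 1 ≤ N) :
    N ^ 2 + 3 * N ≤ Module.finrank k (KS k N b (N + 3)) + 6 * b + 4 := by
  have hf := KS_finite k N b (N + 3)
  have hf1 := KSDim.finite_degreeLT k (N - 1)
  have hf2 := KSDim.finite_degreeLT k (N + 1)
  have h1 : Module.finrank k (LinearMap.ker (KSDim.opL k N b hN)) ≤
      Module.finrank k (KS k N b (N + 3)) :=
    LinearMap.finrank_le_finrank_of_injective (KSDim.kerToKS_injective k N b hN)
  have h2 := LinearMap.finrank_range_add_finrank_ker (KSDim.opL k N b hN)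
  have h3 : Module.finrank k (LinearMap.range (KSDim.opL k N b hN)) ≤
      Module.finrank k (Fin b → Fin (N + 2) → degreeLT k (N + 1)) :=
    Submodule.finrank_le _
  rw [KSDim.finrank_box] at h2 h3
  generalize Module.finrank k (LinearMap.range (KSDim.opL k N b hN)) = p at h2 h3
  generalize Module.finrank k (LinearMap.ker (KSDim.opL k N b hN)) = q at h1 h2
  generalize Module.finrank k (KS k N b (N + 3)) = r at h1
  obtain ⟨n, rfl⟩ := Nat.exists_eq_add_of_le hN
  rw [Nat.add_sub_cancel_left] at h2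
  nlinarith [h1, h2, h3]

end CC5166
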