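import Pool.Agent.Lib.MP_cc5166_ag.KSField
import Pool.Agent.Lib.MP_cc5166_ag.KSDim
import Pool.Agent.Lib.MP_cc5166_ag.Conn

/-!
Finiteness and growth of `K_N` (module LAFin).
-/

universe u

namespace CC5166

variable (k : Type u) [Field k] (M : ℕ)

theorem KN_finite (hM : 1 ≤ M) (N : ℕ) : Module.Finite k (KN k M N) := by
  classical
  obtain ⟨f, hf⟩ := KN_conn_inj k M hM N
  obtain ⟨B, hB⟩ := KS_b' k N
  obtain ⟨C, hC⟩ := KS_c' k N (N + M - 1) (by omega)
  have hα : ∀ (α : Fin M → ℕ) (γ : Fin 3 → ℕ), (∃ i, B ≤ α i) →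
      KS k N (N + M - 1 + ∑ i, α i) (N + 3 + ∑ i, γ i) = ⊥ := by
    rintro α γ ⟨i, hi⟩
    have h1 : α i ≤ ∑ i, α i := Finset.single_le_sum (fun _ _ => Nat.zero_le _) (Finset.mem_univ i)
    exact KS_bot_mono k le_rfl (Nat.le_add_right _ _) (hB (N + M - 1 + ∑ i, α i) (by omega))
  have hγ : ∀ (α : Fin M → ℕ) (γ : Fin 3 → ℕ), (∃ i, C ≤ γ i) →
      KS k N (N + M - 1 + ∑ i, α i) (N + 3 + ∑ i, γ i) = ⊥ := by
    rintro α γ ⟨i, hi⟩
    have h1 : γ i ≤ ∑ i, γ i := Finset.single_le_sum (fun _ _ => Nat.zero_le _) (Finset.mem_univ i)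
    exact KS_bot_mono k (Nat.le_add_right _ _) le_rfl (hC (N + 3 + ∑ i, γ i) (by omega))
  have hfin : ∀ (α : Fin M → ℕ) (γ : Fin 3 → ℕ),
      Module.Finite k (KS k N (N + M - 1 + ∑ i, α i) (N + 3 + ∑ i, γ i)) :=
    fun α γ => KS_finite k N _ _
  let g : KN k M N →ₗ[k] ((α : Fin M → Fin B) → (γ : Fin 3 → Fin C) →
      KS k N (N + M - 1 + ∑ i, (α i : ℕ)) (N + 3 + ∑ i, (γ i : ℕ))) :=
    LinearMap.pi fun α => LinearMap.pi fun γ =>
      (LinearMap.proj (fun i => (γ i : ℕ))) ∘ₗ (LinearMap.proj (fun i => (α i : ℕ))) ∘ₗ f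
  have hg : Function.Injective g := by
    intro x y hxy
    apply hf
    funext α γ
    by_cases h1 : ∃ i, B ≤ α i
    · have h2 := hα α γ h1
      apply Subtype.ext
      rw [(Submodule.eq_bot_iff _).mp h2 _ (f x α γ).2, (Submodule.eq_bot_iff _).mp h2 _ (f y α γ).2]
    · by_cases h1' : ∃ i, C ≤ γ i
      · have h2 := hγ α γ h1'
        apply Subtype.ext
        rw [(Submodule.eq_bot_iff _).mp h2 _ (f x α γ).2,
          (Submodule.eq_bot_iff _).mp h2 _ (f y α γ).2]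
      · push Not at h1 h1'
        exact congrFun (congrFun hxy (fun i => ⟨α i, h1 i⟩)) (fun i => ⟨γ i, h1' i⟩)
  have : ∀ (α : Fin M → Fin B) (γ : Fin 3 → Fin C),
      Module.Finite k (KS k N (N + M - 1 + ∑ i, (α i : ℕ)) (N + 3 + ∑ i, (γ i : ℕ))) :=
    fun α γ => hfin _ _
  exact Module.Finite.of_injective g hg

theorem KN_growth (hM : 1 ≤ M) : ∃ C N0 : ℕ, ∀ N, N0 ≤ N →
    N ^ (2 * M + 2) ≤ C * Module.finrank k (KN k M N) := by
  classical
  refine ⟨2 * (24 * M) ^ M, 96 * M, fun N hN => ?_⟩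
  have hNpos : 1 ≤ N := by nlinarith
  set L : ℕ := N ^ 2 / (24 * M) with hL
  set s : Finset (Fin M → ℕ) := Fintype.piFinset (fun _ => Finset.range (L + 1)) with hs
  have hcard : s.card = (L + 1) ^ M := by
    rw [hs, Fintype.card_piFinset_const, Finset.card_range]
  obtain ⟨f, hf⟩ := KN_conn_surj k M hM N s
  have : Module.Finite k (KN k M N) := KN_finite k M hM N
  have hfin : ∀ α : s, Module.Finite k (KS k N (N + M - 1 + ∑ i, α.1 i) (N + 3)) :=
    fun α => KS_finite k N _ _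
  have h1 : Module.finrank k ((α : s) → KS k N (N + M - 1 + ∑ i, α.1 i) (N + 3)) ≤
      Module.finrank k (KN k M N) := LinearMap.finrank_le_finrank_of_injective hf
  rw [Module.finrank_pi_fintype] at h1
  have hML : M * L * 24 ≤ N ^ 2 := by
    have := Nat.div_mul_le_self (N ^ 2) (24 * M)
    rw [← hL] at this
    nlinarith
  have h2 : ∀ α : s, N ^ 2 ≤ 2 * Module.finrank k (KS k N (N + M - 1 + ∑ i, α.1 i) (N + 3)) := by
    intro α
    have h3 := KS_finrank k N (N + M - 1 + ∑ i, α.1 i) hNpos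
    have h4 : ∑ i, α.1 i ≤ M * L := by
      calc ∑ i, α.1 i ≤ ∑ _i : Fin M, L := by
            apply Finset.sum_le_sum
            intro i _
            have := Fintype.mem_piFinset.mp α.2 i
            rw [Finset.mem_range] at this
            omega
        _ = M * L := by simp
    have h5 : 96 * N ≤ N ^ 2 := by nlinarith
    have h6 : 96 * M ≤ N := hN
    generalize hf : Module.finrank k (KS k N (N + M - 1 + ∑ i, α.1 i) (N + 3)) = F at h3 ⊢
    generalize hS : ∑ i, α.1 i = S at h3 h4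
    generalize hP : M * L = P at h4 hML
    have h7 : N + M - 1 + S ≤ N + M + S := by omega
    generalize hQ : N ^ 2 = Q at h3 h5 hML ⊢
    omega
  have h3 : s.card * N ^ 2 ≤ 2 * Module.finrank k (KN k M N) := by
    calc s.card * N ^ 2 = ∑ _α : s, N ^ 2 := by simp
      _ ≤ ∑ α : s, 2 * Module.finrank k (KS k N (N + M - 1 + ∑ i, α.1 i) (N + 3)) :=
        Finset.sum_le_sum fun α _ => h2 α
      _ = 2 * ∑ α : s, Module.finrank k (KS k N (N + M - 1 + ∑ i, α.1 i) (N + 3)) := by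
        rw [Finset.mul_sum]
      _ ≤ 2 * Module.finrank k (KN k M N) := Nat.mul_le_mul_left 2 h1
  have h4 : N ^ 2 ≤ 24 * M * (L + 1) := by
    have := Nat.lt_mul_div_succ (N ^ 2) (show 0 < 24 * M by omega)
    rw [← hL] at this
    exact this.le
  calc N ^ (2 * M + 2) = (N ^ 2) ^ M * N ^ 2 := by ring
    _ ≤ (24 * M * (L + 1)) ^ M * N ^ 2 := Nat.mul_le_mul_right _ (Nat.pow_le_pow_left h4 M)
    _ = (24 * M) ^ M * (s.card * N ^ 2) := by rw [mul_pow, hcard]; ring
    _ ≤ (24 * M) ^ M * (2 * Module.finrank k (KN k M N)) := Nat.mul_le_mul_left _ h3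
    _ = 2 * (24 * M) ^ M * Module.finrank k (KN k M N) := by ring

end CC5166
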