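import Pool.Agent.Lib.MP_cc5166_ag.LCPiece
import Pool.Agent.Lib.MP_cc5166_ag.Defs3

universe u

namespace CC5166

variable (k : Type u) [Field k] (M : ℕ)

theorem Fpoly_ne_zero : Fpoly k M ≠ 0 := by
  intro h
  have h1 := congrArg (MvPolynomial.eval (fun v : Vr M => match v with
    | .y i => if i = 0 then (1 : k) else 0
    | .xi i => if i = 0 then (1 : k) else 0
    | .ze i => if i = 0 then (1 : k) else 0
    | _ => 0)) h
  simp [Fpoly, G0poly, G1poly] at h1

theorem lc_Sfull (hM : 3 ≤ M) (N : ℕ) :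
    Nonempty (H (mm k M) (M + 4) (Sfull k M N) ≃ₗ[RR k M] KN k M N) := by
  have hf : Function.Injective (FN k M N (st0 M)) :=
    pmul_injective (Fpoly_ne_zero k M) (d1 N) (dN N) (2, -1, -2) homD_Fpoly (d1_add N)
  have hfg : Function.Exact (FN k M N (st0 M)) (LinearMap.range (FN k M N (st0 M))).mkQ :=
    LinearMap.exact_map_mkQ_range _
  have hg : Function.Surjective (LinearMap.range (FN k M N (st0 M))).mkQ :=
    Submodule.mkQ_surjective _
  have hB : Subsingleton (H (mm k M) (M + 4) (Pc k (dN N) (st0 M))) :=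
    lc_piece_zero k M hM (dN N) (Int.natCast_nonneg N) (Int.natCast_nonneg N)
  obtain ⟨e, e', hee⟩ := lc_piece_iso k M hM (Fpoly k M) (d1 N) (dN N) (2, -1, -2) homD_Fpoly
    (d1_add N)
  have hex1 := H.exact_map_δ (mm k M) (FN k M N (st0 M))
    (LinearMap.range (FN k M N (st0 M))).mkQ hf hfg hg (M + 4)
  have hex2 := H.exact_δ_map (mm k M) (FN k M N (st0 M))
    (LinearMap.range (FN k M N (st0 M))).mkQ hf hfg hg (M + 4)
  let δ : H (mm k M) (M + 4) (Sfull k M N) →ₗ[RR k M] H (mm k M) (M + 5) (Pc k (d1 N) (st0 M)) :=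
    H.δ (mm k M) (M + 4) (FN k M N (st0 M)) (LinearMap.range (FN k M N (st0 M))).mkQ hf hfg hg
  have hδinj : Function.Injective δ := by
    rw [injective_iff_map_eq_zero]
    intro z hz
    obtain ⟨w, rfl⟩ := (hex1 z).1 hz
    rw [Subsingleton.elim w 0, map_zero]
  have hee' : ∀ z, FN k M N (st2 M) (e z) =
      e' (H.map (mm k M) (M + 5) (FN k M N (st0 M)) z) := hee
  have hmem : ∀ z, (e.toLinearMap ∘ₗ δ) z ∈ KN k M N := by
    intro z
    show FN k M N (st2 M) (e (δ z)) = 0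
    have h0 : H.map (mm k M) (M + 5) (FN k M N (st0 M)) (δ z) = 0 := (hex2 (δ z)).2 ⟨z, rfl⟩
    rw [hee', h0, map_zero]
  refine ⟨LinearEquiv.ofBijective (LinearMap.codRestrict (KN k M N) (e.toLinearMap ∘ₗ δ) hmem)
    ⟨?_, ?_⟩⟩
  · intro x y hxy
    have h1 : e (δ x) = e (δ y) := congrArg Subtype.val hxy
    exact hδinj (e.injective h1)
  · rintro ⟨x, hx⟩
    have hx' : FN k M N (st2 M) x = 0 := hx
    have h1 : e' (H.map (mm k M) (M + 5) (FN k M N (st0 M)) (e.symm x)) = 0 := by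
      rw [← hee', e.apply_symm_apply, hx']
    have h2 : H.map (mm k M) (M + 5) (FN k M N (st0 M)) (e.symm x) = 0 :=
      (map_eq_zero_iff e' e'.injective).1 h1
    obtain ⟨z, hz⟩ := (hex2 (e.symm x)).1 h2
    refine ⟨z, Subtype.ext ?_⟩
    show e (δ z) = x
    have hz' : δ z = e.symm x := hz
    rw [hz', e.apply_symm_apply]

end CC5166
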