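import Pool.Agent.Lib.MP_cc5166_ag.LCApi

universe u

namespace CC5166

theorem H.map_sum_apply {R : Type u} [CommRing R] (J : Ideal R) {A B : Type u} [AddCommGroup A]
    [Module R A] [AddCommGroup B] [Module R B] (i : ℕ) {ι : Type*} (s : Finset ι)
    (f : ι → A →ₗ[R] B) (z : H J i A) :
    H.map J i (∑ l ∈ s, f l) z = ∑ l ∈ s, H.map J i (f l) z := by
  classical
  induction s using Finset.induction_on with
  | empty => rw [Finset.sum_empty, Finset.sum_empty, H.map_zero_apply]
  | insert a s ha ih => rw [Finset.sum_insert ha, Finset.sum_insert ha, H.map_add_apply, ih]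

theorem H.pi_equiv {R : Type u} [CommRing R] (J : Ideal R) (A : Type u) [AddCommGroup A]
    [Module R A] (n i : ℕ) : Nonempty (H J i (Fin n → A) ≃ₗ[R] (Fin n → H J i A)) := by
  classical
  refine ⟨LinearEquiv.ofLinear
    (LinearMap.pi fun l => H.map J i (LinearMap.proj (R := R) (φ := fun _ : Fin n => A) l))
    (∑ l, H.map J i (LinearMap.single R (fun _ : Fin n => A) l) ∘ₗ
      LinearMap.proj (R := R) (φ := fun _ : Fin n => H J i A) l) ?_ ?_⟩
  · ext l z m
    rw [LinearMap.comp_apply, LinearMap.comp_apply, LinearMap.sum_apply]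
    simp only [LinearMap.comp_apply, LinearMap.proj_apply, LinearMap.id_apply]
    rw [Finset.sum_eq_single l]
    · rw [LinearMap.single_apply, Pi.single_eq_same, LinearMap.pi_apply, H.map_comp_apply]
      by_cases hlm : m = l
      · subst hlm
        rw [LinearMap.proj_comp_single_same, H.map_id_apply, Pi.single_eq_same]
      · rw [LinearMap.proj_comp_single_ne R (fun _ : Fin n => A) m l hlm,
          H.map_zero_apply, Pi.single_eq_of_ne hlm]
    · intro b _ hb
      rw [LinearMap.single_apply, Pi.single_eq_of_ne hb, map_zero]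
    · intro h
      exact absurd (Finset.mem_univ l) h
  · ext z
    rw [LinearMap.comp_apply, LinearMap.sum_apply]
    simp only [LinearMap.comp_apply, LinearMap.proj_apply, LinearMap.id_apply,
      LinearMap.pi_apply, H.map_comp_apply]
    rw [← H.map_sum_apply]
    have h1 : ∑ l, LinearMap.single R (fun _ : Fin n => A) l ∘ₗ
        LinearMap.proj (R := R) (φ := fun _ : Fin n => A) l = LinearMap.id := by
      ext x m
      simp
    rw [h1, H.map_id_apply]

end CC5166
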