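import Pool.Agent.Lib.MP_cc5166_ag.LCDefs

universe u

open CategoryTheory

namespace CC5166

/-! ### Unbundled API -/

section API

variable {R : Type u} [CommRing R] (J : Ideal R)
variable {A B C : Type u} [AddCommGroup A] [Module R A] [AddCommGroup B] [Module R B]
  [AddCommGroup C] [Module R C]

/-- the structure map `Ext^i(R/J^t, M) → H^i_J(M)`. -/
noncomputable def H.of (i t : ℕ) (A : Type u) [AddCommGroup A] [Module R A] :
    Abelian.Ext (Qt J t) (ModuleCat.of R A) i →ₗ[R] H J i A :=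
  Module.DirectLimit.of R ℕ _ (tr J (ModuleCat.of R A) i) t

lemma H.exists_of {i : ℕ} (z : H J i A) :
    ∃ (t : ℕ) (x : Abelian.Ext (Qt J t) (ModuleCat.of R A) i), H.of J i t A x = z :=
  HC.exists_of J z

/-- functoriality of `H^i_J`. -/
noncomputable def H.map (i : ℕ) (f : A →ₗ[R] B) : H J i A →ₗ[R] H J i B :=
  HC.post J (Abelian.Ext.mk₀ (ModuleCat.ofHom f)) i i (add_zero i)

lemma H.map_of (i : ℕ) (f : A →ₗ[R] B) (t : ℕ) (x : Abelian.Ext (Qt J t) (ModuleCat.of R A) i) :
    H.map J i f (H.of J i t A x) =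
      H.of J i t B (x.comp (Abelian.Ext.mk₀ (ModuleCat.ofHom f)) (add_zero i)) :=
  HC.post_of J _ i i _ t x

lemma H.map_id_apply (i : ℕ) (z : H J i A) : H.map J i (LinearMap.id : A →ₗ[R] A) z = z := by
  obtain ⟨t, x, rfl⟩ := H.exists_of J z
  rw [H.map_of, ModuleCat.ofHom_id, Abelian.Ext.comp_mk₀_id]

lemma H.map_comp_apply (i : ℕ) (g : B →ₗ[R] C) (f : A →ₗ[R] B) (z : H J i A) :
    H.map J i g (H.map J i f z) = H.map J i (g ∘ₗ f) z := by
  obtain ⟨t, x, rfl⟩ := H.exists_of J z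
  rw [H.map_of, H.map_of, H.map_of, ModuleCat.ofHom_comp,
    Abelian.Ext.comp_assoc_of_third_deg_zero, Abelian.Ext.mk₀_comp_mk₀]

lemma H.map_add_apply (i : ℕ) (f g : A →ₗ[R] B) (z : H J i A) :
    H.map J i (f + g) z = H.map J i f z + H.map J i g z := by
  obtain ⟨t, x, rfl⟩ := H.exists_of J z
  rw [H.map_of, H.map_of, H.map_of, ModuleCat.ofHom_add, Abelian.Ext.mk₀_add,
    Abelian.Ext.comp_add, _root_.map_add]

lemma H.map_zero_apply (i : ℕ) (z : H J i A) : H.map J i (0 : A →ₗ[R] B) z = 0 := by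
  have h := H.map_add_apply J i (0 : A →ₗ[R] B) 0 z
  rw [add_zero] at h
  exact left_eq_add.mp h

lemma H.map_smul_apply (i : ℕ) (r : R) (f : A →ₗ[R] B) (z : H J i A) :
    H.map J i (r • f) z = r • H.map J i f z := by
  obtain ⟨t, x, rfl⟩ := H.exists_of J z
  rw [H.map_of, H.map_of]
  have : ModuleCat.ofHom (r • f) = r • ModuleCat.ofHom f := rfl
  rw [this, Abelian.Ext.mk₀_smul, Abelian.Ext.comp_smul, _root_.map_smul]

/-- the short complex of modules attached to an exact sequence. -/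
noncomputable abbrev sc (f : A →ₗ[R] B) (g : B →ₗ[R] C) (hfg : Function.Exact f g) :
    ShortComplex (ModuleCat.{u} R) :=
  ShortComplex.mk (ModuleCat.ofHom f) (ModuleCat.ofHom g)
    (by
      rw [← ModuleCat.ofHom_comp, hfg.linearMap_comp_eq_zero]
      rfl)

lemma sc_shortExact (f : A →ₗ[R] B) (g : B →ₗ[R] C) (hf : Function.Injective f)
    (hfg : Function.Exact f g) (hg : Function.Surjective g) : (sc f g hfg).ShortExact where
  exact := (ShortComplex.ShortExact.moduleCat_exact_iff_function_exact _).mpr hfg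
  mono_f := (ModuleCat.mono_iff_injective _).mpr hf
  epi_g := (ModuleCat.epi_iff_surjective _).mpr hg

/-- the connecting homomorphism `H^i_J(C) → H^{i+1}_J(A)` of a short exact sequence
`0 → A → B → C → 0`. -/
noncomputable def H.δ (i : ℕ) (f : A →ₗ[R] B) (g : B →ₗ[R] C) (hf : Function.Injective f)
    (hfg : Function.Exact f g) (hg : Function.Surjective g) : H J i C →ₗ[R] H J (i + 1) A :=
  HC.post J (sc_shortExact f g hf hfg hg).extClass i (i + 1) rfl

variable (f : A →ₗ[R] B) (g : B →ₗ[R] C) (hf : Function.Injective f)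
    (hfg : Function.Exact f g) (hg : Function.Surjective g)

lemma H.δ_of (i t : ℕ) (x : Abelian.Ext (Qt J t) (ModuleCat.of R C) i) :
    H.δ J i f g hf hfg hg (H.of J i t C x) =
      H.of J (i + 1) t A (x.comp (sc_shortExact f g hf hfg hg).extClass rfl) :=
  HC.post_of J _ i (i + 1) rfl t x

include hf hfg hg in
/-- exactness of `H^i(A) → H^i(B) → H^i(C)`. -/
lemma H.exact_map_map (i : ℕ) : Function.Exact (H.map J i f) (H.map J i g) :=
  HC.exact₂ J (sc_shortExact f g hf hfg hg) i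

/-- exactness of `H^i(B) → H^i(C) → H^{i+1}(A)`. -/
lemma H.exact_map_δ (i : ℕ) : Function.Exact (H.map J i g) (H.δ J i f g hf hfg hg) :=
  HC.exact₃ J (sc_shortExact f g hf hfg hg) i (i + 1) rfl

/-- exactness of `H^i(C) → H^{i+1}(A) → H^{i+1}(B)`. -/
lemma H.exact_δ_map (i : ℕ) :
    Function.Exact (H.δ J i f g hf hfg hg) (H.map J (i + 1) f) :=
  HC.exact₁ J (sc_shortExact f g hf hfg hg) i (i + 1) rfl

include hf hfg hg in
/-- left exactness of `H^0`. -/
lemma H.map_injective₀ : Function.Injective (H.map J 0 f) := by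
  have h := HC.injective₀ J (sc_shortExact f g hf hfg hg)
  exact h

/-- every element of `H^i_J(M)` is killed by a power of `J`. -/
lemma H.torsion (i : ℕ) (z : H J i A) : ∃ t : ℕ, ∀ a ∈ J ^ t, a • z = 0 :=
  HC.torsion J z

variable {A' B' C' : Type u} [AddCommGroup A'] [Module R A'] [AddCommGroup B'] [Module R B']
  [AddCommGroup C'] [Module R C']

/-- naturality of the connecting homomorphism. -/
lemma H.δ_naturality (i : ℕ) (f' : A' →ₗ[R] B') (g' : B' →ₗ[R] C') (hf' : Function.Injective f')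
    (hfg' : Function.Exact f' g') (hg' : Function.Surjective g')
    (a : A →ₗ[R] A') (b : B →ₗ[R] B') (c : C →ₗ[R] C')
    (hab : b ∘ₗ f = f' ∘ₗ a) (hbc : c ∘ₗ g = g' ∘ₗ b) (z : H J i C) :
    H.δ J i f' g' hf' hfg' hg' (H.map J i c z) = H.map J (i + 1) a (H.δ J i f g hf hfg hg z) := by
  obtain ⟨t, x, rfl⟩ := H.exists_of J z
  rw [H.map_of, H.δ_of, H.δ_of, H.map_of]
  let φ : sc f g hfg ⟶ sc f' g' hfg' :=
    { τ₁ := ModuleCat.ofHom a
      τ₂ := ModuleCat.ofHom b
      τ₃ := ModuleCat.ofHom c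
      comm₁₂ := by
        change ModuleCat.ofHom a ≫ ModuleCat.ofHom f' = ModuleCat.ofHom f ≫ ModuleCat.ofHom b
        rw [← ModuleCat.ofHom_comp, ← ModuleCat.ofHom_comp, hab]
      comm₂₃ := by
        change ModuleCat.ofHom b ≫ ModuleCat.ofHom g' = ModuleCat.ofHom g ≫ ModuleCat.ofHom c
        rw [← ModuleCat.ofHom_comp, ← ModuleCat.ofHom_comp, hbc] }
  have h := ShortComplex.ShortExact.extClass_naturality (sc_shortExact f g hf hfg hg)
    (sc_shortExact f' g' hf' hfg' hg') φ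
  have h' : (sc_shortExact f g hf hfg hg).extClass.comp (Abelian.Ext.mk₀ (ModuleCat.ofHom a))
      (add_zero 1) = (Abelian.Ext.mk₀ (ModuleCat.ofHom c)).comp
        (sc_shortExact f' g' hf' hfg' hg').extClass (zero_add 1) := h
  congr 1
  rw [Abelian.Ext.comp_assoc_of_second_deg_zero, Abelian.Ext.comp_assoc_of_third_deg_zero, h']

end API

end CC5166
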