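import Pool.Agent.Lib.MP_cc5166_ag.States
import Pool.Agent.Lib.MP_cc5166_ag.LCApi

/-!
The rings, gradings and modules of the counterexample.
-/

universe u

namespace CC5166

/-- the variables of the auxiliary polynomial ring `P`. -/
inductive Vr (M : ℕ) : Type
  | xi (i : Fin 2)
  | y (i : Fin 2)
  | q (j : Fin M)
  | ze (i : Fin 2)
  | p (j : Fin 3)
  deriving DecidableEq, Fintype

/-- indices of the variables `T`. -/
abbrev Tx : Type := (Fin 2 × Fin 2 × Fin 2) × (Fin 3 × Fin 3 × Fin 3 × Fin 3)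

/-- the variables of the polynomial ring `R` of the counterexample. -/
inductive Ix (M : ℕ) : Type
  | Y (j : Fin (M + 1))
  | Z (j : Fin 4)
  | T (t : Tx)
  | w (i : Fin 2)
  deriving DecidableEq, Fintype

variable (k : Type u) [Field k] (M : ℕ)

/-- the auxiliary polynomial ring. -/
abbrev PP : Type u := MvPolynomial (Vr M) k

/-- the polynomial ring of the counterexample. -/
abbrev RR : Type u := MvPolynomial (Ix M) k

variable {k M} in
/-- a variable of `P`. -/
noncomputable abbrev vx (v : Vr M) : PP k M := MvPolynomial.X v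

/-- the coefficient of `s^j` in `(y₀ + y₁ s)(q₀ + q₁ s + ⋯)`. -/
noncomputable def Ypoly (j : Fin (M + 1)) : PP k M :=
  (if h : j.1 < M then (vx (.y 0) * vx (.q ⟨j.1, h⟩) : PP k M) else 0) +
  (if h : 1 ≤ j.1 then (vx (.y 1) * vx (.q ⟨j.1 - 1, by omega⟩) : PP k M) else 0)

/-- the coefficient of `s^j` in `(ζ₀ + ζ₁ s)(p₀ + p₁ s + p₂ s²)`. -/
noncomputable def Zpoly (j : Fin 4) : PP k M :=
  (if h : j.1 < 3 then (vx (.ze 0) * vx (.p ⟨j.1, h⟩) : PP k M) else 0) +
  (if h : 1 ≤ j.1 then (vx (.ze 1) * vx (.p ⟨j.1 - 1, by omega⟩) : PP k M) else 0)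

/-- the monomial `ξ_i y_j ζ_l q_a q_b p_c p_d`. -/
noncomputable def Tpoly (hM : 3 ≤ M) (t : Tx) : PP k M :=
  vx (.xi t.1.1) * vx (.y t.1.2.1) * vx (.ze t.1.2.2) *
  vx (.q (Fin.castLE hM t.2.1)) * vx (.q (Fin.castLE hM t.2.2.1)) *
  vx (.p t.2.2.2.1) * vx (.p t.2.2.2.2)

/-- the form `G₀ = ξ₀²ζ₀² + ξ₀ξ₁ζ₀ζ₁ + ξ₁²ζ₁²`. -/
noncomputable def G0poly : PP k M :=
  vx (.xi 0) ^ 2 * vx (.ze 0) ^ 2 + vx (.xi 0) * vx (.xi 1) * vx (.ze 0) * vx (.ze 1) +
    vx (.xi 1) ^ 2 * vx (.ze 1) ^ 2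

/-- the form `G₁ = ξ₀²ζ₁² + ξ₁²ζ₀²`. -/
noncomputable def G1poly : PP k M :=
  vx (.xi 0) ^ 2 * vx (.ze 1) ^ 2 + vx (.xi 1) ^ 2 * vx (.ze 0) ^ 2

/-- the form `F = y₀ G₀ + y₁ G₁`. -/
noncomputable def Fpoly : PP k M := vx (.y 0) * G0poly k M + vx (.y 1) * G1poly k M

/-- the homomorphism `R → P`, `Y_j ↦ Σ y q`, `Z_j ↦ Σ ζ p`, `T, w ↦ 0`. -/
noncomputable def phi : RR k M →ₐ[k] PP k M :=
  MvPolynomial.aeval (fun i => match i with
    | .Y j => Ypoly k M j
    | .Z j => Zpoly k M j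
    | .T _ => 0
    | .w _ => 0)

/-- the homomorphism `R → P`, `Y_j ↦ Σ y q`, `Z_j ↦ Σ ζ p`, `T ↦` monomials, `w ↦ 1`. -/
noncomputable def psi (hM : 3 ≤ M) : RR k M →ₐ[k] PP k M :=
  MvPolynomial.aeval (fun i => match i with
    | .Y j => Ypoly k M j
    | .Z j => Zpoly k M j
    | .T t => Tpoly k M hM t
    | .w _ => 1)

/-- the irrelevant ideal of `R`. -/
noncomputable def mm : Ideal (RR k M) := Ideal.span (Set.range MvPolynomial.X)

noncomputable instance instRX (σ : Vr M → Fin 3) : Module (RR k M) (X k σ) :=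
  Module.compHom (X k σ) (phi k M).toRingHom

variable {k M}

lemma RR_smul (σ : Vr M → Fin 3) (r : RR k M) (x : X k σ) : r • x = phi k M r • x := rfl

instance (σ : Vr M → Fin 3) : IsScalarTower k (RR k M) (X k σ) where
  smul_assoc := by
    intro c r x
    rw [RR_smul, RR_smul, map_smul, smul_assoc]

/-- the tri-degree of an exponent vector: `(deg_ξ, deg_q - deg_y, deg_p - deg_ζ)`. -/
def deg3 (e : Vr M → ℤ) : ℤ × ℤ × ℤ :=
  (e (.xi 0) + e (.xi 1), (∑ j, e (.q j)) - e (.y 0) - e (.y 1),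
    (∑ j, e (.p j)) - e (.ze 0) - e (.ze 1))

lemma deg3_add (e e' : Vr M → ℤ) : deg3 (e + e') = deg3 e + deg3 e' := by
  simp only [deg3, Pi.add_apply, Finset.sum_add_distrib, Prod.mk_add_mk, Prod.mk.injEq]
  refine ⟨by ring, by ring, by ring⟩

/-- the weights of the variables. -/
def wt : Vr M → ℤ × ℤ × ℤ
  | .xi _ => (1, 0, 0)
  | .y _ => (0, -1, 0)
  | .q _ => (0, 1, 0)
  | .ze _ => (0, 0, -1)
  | .p _ => (0, 0, 1)

lemma deg3_single (v : Vr M) : deg3 (toZ (Finsupp.single v 1)) = wt v := by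
  classical
  cases v with
  | xi i => fin_cases i <;> simp [deg3, toZ, wt, Finsupp.single_apply]
  | y i => fin_cases i <;> simp [deg3, toZ, wt, Finsupp.single_apply]
  | q i => simp [deg3, toZ, wt, Finsupp.single_apply]
  | ze i => fin_cases i <;> simp [deg3, toZ, wt, Finsupp.single_apply]
  | p i => simp [deg3, toZ, wt, Finsupp.single_apply]

lemma deg3_toZ (μ : Vr M →₀ ℕ) : deg3 (toZ μ) = Finsupp.weight wt μ := by
  induction μ using Finsupp.induction_linear with
  | zero => rw [toZ_zero, map_zero]; simp [deg3]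
  | add f g hf hg => rw [toZ_add, deg3_add, map_add, hf, hg]
  | single v n =>
    induction n with
    | zero => rw [Finsupp.single_zero, toZ_zero, map_zero]; simp [deg3]
    | succ n ih =>
      rw [Finsupp.single_add, toZ_add, deg3_add, map_add, ih, deg3_single]
      congr 1
      simp [Finsupp.weight_apply]

/-- weighted homogeneous elements of `P`. -/
abbrev HomD (f : PP k M) (d : ℤ × ℤ × ℤ) : Prop := MvPolynomial.IsWeightedHomogeneous wt f d

lemma homD_vx (v : Vr M) : HomD (vx v : PP k M) (wt v) :=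
  MvPolynomial.isWeightedHomogeneous_X k wt v

lemma homD_Ypoly (j : Fin (M + 1)) : HomD (Ypoly k M j) 0 := by
  unfold Ypoly
  refine MvPolynomial.IsWeightedHomogeneous.add ?_ ?_
  · split_ifs with h
    · exact (homD_vx _).mul (homD_vx _)
    · exact MvPolynomial.isWeightedHomogeneous_zero _ _ _
  · split_ifs with h
    · exact (homD_vx _).mul (homD_vx _)
    · exact MvPolynomial.isWeightedHomogeneous_zero _ _ _

lemma homD_Zpoly (j : Fin 4) : HomD (Zpoly k M j) 0 := by
  unfold Zpoly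
  refine MvPolynomial.IsWeightedHomogeneous.add ?_ ?_
  · split_ifs with h
    · exact (homD_vx _).mul (homD_vx _)
    · exact MvPolynomial.isWeightedHomogeneous_zero _ _ _
  · split_ifs with h
    · exact (homD_vx _).mul (homD_vx _)
    · exact MvPolynomial.isWeightedHomogeneous_zero _ _ _

lemma homD_phi (r : RR k M) : HomD (phi k M r) 0 := by
  induction r using MvPolynomial.induction_on with
  | C a =>
    rw [phi, MvPolynomial.aeval_C]
    exact MvPolynomial.isWeightedHomogeneous_C wt a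
  | add p q hp hq => rw [map_add]; exact hp.add hq
  | mul_X p i hp =>
    rw [map_mul]
    have : HomD (phi k M (MvPolynomial.X i)) 0 := by
      rw [phi, MvPolynomial.aeval_X]
      cases i with
      | Y j => exact homD_Ypoly j
      | Z j => exact homD_Zpoly j
      | T t => exact MvPolynomial.isWeightedHomogeneous_zero _ _ _
      | w i => exact MvPolynomial.isWeightedHomogeneous_zero _ _ _
    simpa using hp.mul this

lemma homD_Fpoly : HomD (Fpoly k M) (2, -1, -2) := by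
  have h2 : ∀ v : Vr M, HomD (vx v ^ 2 : PP k M) (wt v + wt v) := by
    intro v
    rw [pow_two]
    exact (homD_vx v).mul (homD_vx v)
  unfold Fpoly G0poly G1poly
  refine MvPolynomial.IsWeightedHomogeneous.add ?_ ?_
  · have h1 := (homD_vx (k := k) (.y 0 : Vr M))
    have h3 : HomD (vx (.xi 0) ^ 2 * vx (.ze 0) ^ 2 +
        vx (.xi 0) * vx (.xi 1) * vx (.ze 0) * vx (.ze 1) +
        vx (.xi 1) ^ 2 * vx (.ze 1) ^ 2 : PP k M) (2, 0, -2) := by
      refine MvPolynomial.IsWeightedHomogeneous.add (MvPolynomial.IsWeightedHomogeneous.add ?_ ?_) ?_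
      · exact (h2 _).mul (h2 _)
      · exact (((homD_vx _).mul (homD_vx _)).mul (homD_vx _)).mul (homD_vx _)
      · exact (h2 _).mul (h2 _)
    exact h1.mul h3
  · have h1 := (homD_vx (k := k) (.y 1 : Vr M))
    have h3 : HomD (vx (.xi 0) ^ 2 * vx (.ze 1) ^ 2 + vx (.xi 1) ^ 2 * vx (.ze 0) ^ 2 : PP k M)
        (2, 0, -2) := by
      refine MvPolynomial.IsWeightedHomogeneous.add ?_ ?_
      · exact (h2 _).mul (h2 _)
      · exact (h2 _).mul (h2 _)
    exact h1.mul h3

/-- the property of being supported in degree `d`. -/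
def InDeg (d : ℤ × ℤ × ℤ) {σ : Vr M → Fin 3} (x : X k σ) : Prop :=
  ∀ e : Ex σ, x e ≠ 0 → deg3 e.1 = d

lemma InDeg.add {d : ℤ × ℤ × ℤ} {σ : Vr M → Fin 3} {x y : X k σ} (hx : InDeg d x)
    (hy : InDeg d y) : InDeg d (x + y) := by
  intro e he
  by_cases h1 : x e = 0
  · apply hy
    intro h2
    apply he
    rw [Finsupp.add_apply, h1, h2, add_zero]
  · exact hx e h1

lemma InDeg.zero {d : ℤ × ℤ × ℤ} {σ : Vr M → Fin 3} : InDeg d (0 : X k σ) := by
  intro e he
  exact absurd rfl he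

lemma InDeg.smul {d : ℤ × ℤ × ℤ} {σ : Vr M → Fin 3} {x : X k σ} (hx : InDeg d x) (c : k) :
    InDeg d (c • x) := by
  intro e he
  apply hx
  intro h
  apply he
  rw [Finsupp.smul_apply, h, smul_zero]

lemma inDeg_bv {σ : Vr M → Fin 3} (e : Vr M → ℤ) (c : k) : InDeg (deg3 e) (bv k σ e c) := by
  intro e' he'
  by_cases h : InSt σ e
  · rw [bv_of h] at he'
    by_contra h2
    apply he'
    rw [Finsupp.single_apply, if_neg]
    intro h3
    apply h2
    rw [← h3]
  · rw [bv_not h] at he'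
    exact absurd rfl he'

lemma inDeg_act {d : ℤ × ℤ × ℤ} {σ : Vr M → Fin 3} {x : X k σ} (hx : InDeg d x)
    (μ : Vr M →₀ ℕ) : InDeg (d + deg3 (toZ μ)) (act k σ μ x) := by
  classical
  have h1 : act k σ μ x = ∑ e ∈ x.support, bv k σ (e.1 + toZ μ) (x e) := by
    conv_lhs => rw [← Finsupp.sum_single x, Finsupp.sum, map_sum]
    refine Finset.sum_congr rfl fun e _ => ?_
    have := act_bv (k := k) (μ := μ) e.2 (x e)
    rwa [bv_of e.2] at this
  rw [h1]
  refine Finset.sum_induction _ (fun y => InDeg (d + deg3 (toZ μ)) y) (fun _ _ h h' => h.add h')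
    InDeg.zero ?_
  intro e he
  have h2 : deg3 e.1 = d := hx e (Finsupp.mem_support_iff.mp he)
  rw [← h2, ← deg3_add]
  exact inDeg_bv _ _

lemma inDeg_psmul {d d' : ℤ × ℤ × ℤ} {σ : Vr M → Fin 3} {x : X k σ} (hx : InDeg d x)
    {f : PP k M} (hf : HomD f d') : InDeg (d + d') (f • x) := by
  rw [f.as_sum, Finset.sum_smul]
  refine Finset.sum_induction _ (fun y => InDeg (d + d') y) (fun _ _ h h' => h.add h')
    InDeg.zero ?_
  intro μ hμ
  rw [monomial_smul]
  refine InDeg.smul ?_ _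
  have h1 := hf (MvPolynomial.mem_support_iff.mp hμ)
  rw [← h1, ← deg3_toZ]
  exact inDeg_act hx μ

variable (k)

/-- the part of tridegree `d` of a state module. -/
noncomputable def piece (d : ℤ × ℤ × ℤ) (σ : Vr M → Fin 3) : Submodule (RR k M) (X k σ) where
  carrier := {x | InDeg d x}
  add_mem' := InDeg.add
  zero_mem' := InDeg.zero
  smul_mem' := by
    intro r x hx
    have := inDeg_psmul hx (homD_phi r)
    rw [add_zero] at this
    exact this

variable {k}

/-- multiplication by an element of `R` of tridegree zero elements. -/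
lemma mem_piece {d : ℤ × ℤ × ℤ} {σ : Vr M → Fin 3} {x : X k σ} : x ∈ piece k d σ ↔ InDeg d x :=
  Iff.rfl

variable (k)

/-- the part of tridegree `d` of a state module, as a type. -/
def Pc (d : ℤ × ℤ × ℤ) (σ : Vr M → Fin 3) : Type u := ↥(piece k d σ)

noncomputable instance instPcAddCommGroup (d : ℤ × ℤ × ℤ) (σ : Vr M → Fin 3) :
    AddCommGroup (Pc k d σ) :=
  inferInstanceAs (AddCommGroup ↥(piece k d σ))

noncomputable instance instPcModule (d : ℤ × ℤ × ℤ) (σ : Vr M → Fin 3) :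
    Module (RR k M) (Pc k d σ) :=
  inferInstanceAs (Module (RR k M) ↥(piece k d σ))

noncomputable instance instPcModuleK (d : ℤ × ℤ × ℤ) (σ : Vr M → Fin 3) :
    Module k (Pc k d σ) :=
  inferInstanceAs (Module k ↥(piece k d σ))

instance instPcTower (d : ℤ × ℤ × ℤ) (σ : Vr M → Fin 3) :
    IsScalarTower k (RR k M) (Pc k d σ) :=
  inferInstanceAs (IsScalarTower k (RR k M) ↥(piece k d σ))

variable {k}

lemma Pc.smul_val {d : ℤ × ℤ × ℤ} {σ : Vr M → Fin 3} (r : RR k M) (x : Pc k d σ) :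
    (r • x).1 = phi k M r • x.1 := rfl

lemma Pc.smulk_val {d : ℤ × ℤ × ℤ} {σ : Vr M → Fin 3} (c : k) (x : Pc k d σ) :
    (c • x).1 = c • x.1 := rfl

lemma Pc.add_val {d : ℤ × ℤ × ℤ} {σ : Vr M → Fin 3} (x y : Pc k d σ) :
    (x + y).1 = x.1 + y.1 := rfl

lemma Pc.zero_val {d : ℤ × ℤ × ℤ} {σ : Vr M → Fin 3} : (0 : Pc k d σ).1 = 0 := rfl

end CC5166
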