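import Pool.Agent.Lib.MP_cc5166_ag.LCZero
import Pool.Agent.Lib.MP_cc5166_ag.Setup

universe u

namespace CC5166

variable (k : Type u) [Field k] (M : ℕ)

lemma sub_C_constantCoeff_mem_mm (r : RR k M) :
    r - MvPolynomial.C (MvPolynomial.constantCoeff r) ∈ mm k M := by
  induction r using MvPolynomial.induction_on with
  | C a => simp
  | add p q hp hq =>
    have := Ideal.add_mem _ hp hq
    convert this using 1
    simp only [map_add]
    ring
  | mul_X p i _ =>
    simp only [map_mul, MvPolynomial.constantCoeff_X, mul_zero, map_zero, sub_zero]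
    exact Ideal.mul_mem_left _ _ (Ideal.subset_span ⟨i, rfl⟩)

theorem length_eq_finrank {A : Type u} [AddCommGroup A] [Module (RR k M) A] [Module k A]
    [IsScalarTower k (RR k M) A] [Module.Finite k A] (hT : IsTor (mm k M) A) :
    Module.length (RR k M) A = Module.finrank k A := by
  suffices key : ∀ n : ℕ, ∀ (A : Type u) [AddCommGroup A] [Module (RR k M) A] [Module k A]
      [IsScalarTower k (RR k M) A] [Module.Finite k A], IsTor (mm k M) A →
      Module.finrank k A = n → Module.length (RR k M) A = n from key _ A hT rfl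
  intro n
  induction n with
  | zero =>
    intro A _ _ _ _ _ hT h0
    have : Subsingleton A := Module.finrank_zero_iff.mp h0
    rw [Module.length_eq_zero]
    rfl
  | succ n ih =>
    intro A _ _ _ _ _ hT hn
    have hnt : Nontrivial A := Module.nontrivial_of_finrank_pos (R := k) (by omega)
    obtain ⟨x, hx⟩ := exists_ne (0 : A)
    obtain ⟨y, hy0, hy⟩ : ∃ y : A, y ≠ 0 ∧ ∀ a ∈ mm k M, a • y = 0 := by
      classical
      have ht := hT x
      have h1 : ∀ a ∈ mm k M ^ (Nat.find ht), a • x = 0 := Nat.find_spec ht
      have ht0 : Nat.find ht ≠ 0 := by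
        intro h
        rw [h] at h1
        exact hx (by simpa using h1 1 (by simp))
      obtain ⟨s, hs⟩ := Nat.exists_eq_succ_of_ne_zero ht0
      have h2 : ¬ ∀ a ∈ mm k M ^ s, a • x = 0 := Nat.find_min ht (by omega)
      push Not at h2
      obtain ⟨a, ha, hax⟩ := h2
      refine ⟨a • x, hax, fun b hb => ?_⟩
      rw [← mul_smul]
      apply h1
      rw [hs, pow_succ']
      exact Ideal.mul_mem_mul hb ha
    have hsm : ∀ r : RR k M, r • y = (MvPolynomial.constantCoeff r) • y := by
      intro r
      have h1 := hy _ (sub_C_constantCoeff_mem_mm k M r)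
      rw [sub_smul, sub_eq_zero] at h1
      rw [h1]
      have h2 : (MvPolynomial.C (MvPolynomial.constantCoeff r) : RR k M) =
          (MvPolynomial.constantCoeff r) • (1 : RR k M) := by
        rw [MvPolynomial.smul_eq_C_mul, mul_one]
      rw [h2, smul_assoc, one_smul]
    let P : Submodule (RR k M) A := Submodule.span (RR k M) {y}
    have hPmem : ∀ z : A, z ∈ P ↔ ∃ c : k, c • y = z := by
      intro z
      constructor
      · intro hz
        obtain ⟨r, hr⟩ := Submodule.mem_span_singleton.mp hz
        exact ⟨_, by rw [← hsm r]; exact hr⟩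
      · rintro ⟨c, rfl⟩
        refine Submodule.mem_span_singleton.mpr ⟨MvPolynomial.C c, ?_⟩
        rw [hsm, MvPolynomial.constantCoeff_C]
    have hsimple : IsSimpleModule (RR k M) P := by
      rw [isSimpleModule_iff]
      have : Nontrivial P := ⟨⟨0, ⟨y, Submodule.mem_span_singleton_self y⟩, fun h =>
        hy0 (congrArg Subtype.val h).symm⟩⟩
      refine { eq_bot_or_eq_top := fun Q => ?_ }
      by_cases hQ : Q = ⊥
      · exact Or.inl hQ
      right
      obtain ⟨z, hzQ, hz0⟩ := (Submodule.ne_bot_iff Q).mp hQ
      obtain ⟨c, hc⟩ := (hPmem z.1).mp z.2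
      have hc0 : c ≠ 0 := by
        rintro rfl
        apply hz0
        apply Subtype.ext
        rw [← hc, zero_smul]
        rfl
      rw [eq_top_iff]
      rintro w -
      obtain ⟨d, hd⟩ := (hPmem w.1).mp w.2
      have : w = (MvPolynomial.C (d * c⁻¹) : RR k M) • z := by
        apply Subtype.ext
        rw [Submodule.coe_smul, ← hc, ← hd]
        have h2 : (MvPolynomial.C (d * c⁻¹) : RR k M) = (d * c⁻¹) • (1 : RR k M) := by
          rw [MvPolynomial.smul_eq_C_mul, mul_one]
        rw [h2, smul_assoc, one_smul, ← mul_smul, mul_assoc, inv_mul_cancel₀ hc0, mul_one]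
      rw [this]
      exact Q.smul_mem _ hzQ
    have hlen := Module.length_eq_add_of_exact P.subtype P.mkQ (Submodule.subtype_injective _)
      (Submodule.mkQ_surjective _) (LinearMap.exact_subtype_mkQ P)
    rw [hlen, Module.length_eq_one]
    -- the quotient
    let P' : Submodule k A := P.restrictScalars k
    have hP' : P' = Submodule.span k {y} := by
      ext z
      rw [Submodule.restrictScalars_mem, hPmem, Submodule.mem_span_singleton]
    have hf1 : Module.finrank k P' = 1 := by
      rw [hP']; exact finrank_span_singleton hy0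
    have hf2 : Module.finrank k (A ⧸ P') = n := by
      have := Submodule.finrank_quotient_add_finrank P'
      omega
    have e : (A ⧸ P') ≃ₗ[k] (A ⧸ P) := by
      exact Submodule.Quotient.restrictScalarsEquiv k P
    have hf3 : Module.finrank k (A ⧸ P) = n := by rw [← e.finrank_eq]; exact hf2
    have : Module.Finite k (A ⧸ P) := Module.Finite.equiv e
    have hT' : IsTor (mm k M) (A ⧸ P) := by
      intro z
      obtain ⟨z, rfl⟩ := P.mkQ_surjective z
      obtain ⟨t, ht⟩ := hT z
      refine ⟨t, fun a ha => ?_⟩
      rw [← map_smul, ht a ha, map_zero]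
    rw [ih (A ⧸ P) hT' hf3]
    push_cast
    ring

end CC5166
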