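import Pool.Agent.Lib.MP_cc5166_ag.LCApi

universe u

open CategoryTheory

namespace CC5166

section dl

variable {R R' : Type u} [CommRing R] [CommRing R'] (e : R →+* R')
  {M : ℕ → Type u} [∀ t, AddCommGroup (M t)] [∀ t, Module R (M t)]
  (f : ∀ s t, s ≤ t → M s →ₗ[R] M t)

/-- semilinear maps out of a direct limit -/
theorem RingEq.dl_lift {N : Type u} [AddCommGroup N] [Module R' N] (G : ∀ t, M t →+ N)
    (hG : ∀ t (r : R) x, G t (r • x) = e r • G t x)
    (hc : ∀ s t h x, G t (f s t h x) = G s x) :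
    ∃ g : Module.DirectLimit M f →+ N,
      (∀ t x, g (Module.DirectLimit.of R ℕ M f t x) = G t x) ∧
        ∀ (r : R) z, g (r • z) = e r • g z := by
  let inst : Module R N := Module.compHom N e
  let G' : ∀ t, M t →ₗ[R] N :=
    fun t => { toFun := G t, map_add' := map_add (G t), map_smul' := fun r x => hG t r x }
  let g : Module.DirectLimit M f →ₗ[R] N := Module.DirectLimit.lift R ℕ M f G'
    (fun s t h x => hc s t h x)
  refine ⟨g.toAddMonoidHom, fun t x => ?_, fun r z => ?_⟩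
  · exact Module.DirectLimit.lift_of G' (fun s t h x => hc s t h x) x
  · exact g.map_smul r z

end dl

theorem RingEq.dl_equiv {R R' : Type u} [CommRing R] [CommRing R'] (e : R ≃+* R')
    {M : ℕ → Type u} [∀ t, AddCommGroup (M t)] [∀ t, Module R (M t)]
    (f : ∀ s t, s ≤ t → M s →ₗ[R] M t)
    {M' : ℕ → Type u} [∀ t, AddCommGroup (M' t)] [∀ t, Module R' (M' t)]
    (f' : ∀ s t, s ≤ t → M' s →ₗ[R'] M' t) (G : ∀ t, M t →+ M' t)
    (hb : ∀ t, Function.Bijective (G t))
    (hG : ∀ t (r : R) x, G t (r • x) = e r • G t x)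
    (hc : ∀ s t h x, G t (f s t h x) = f' s t h (G s x)) :
    ∃ g : Module.DirectLimit M f ≃+ Module.DirectLimit M' f',
      ∀ (r : R) z, g (r • z) = e r • g z := by
  obtain ⟨g1, h1, h1'⟩ := RingEq.dl_lift (e : R →+* R') f
    (N := Module.DirectLimit M' f')
    (fun t => (Module.DirectLimit.of R' ℕ M' f' t).toAddMonoidHom.comp (G t))
    (by
      intro t r x
      change Module.DirectLimit.of R' ℕ M' f' t (G t (r • x)) =
        e r • Module.DirectLimit.of R' ℕ M' f' t (G t x)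
      rw [hG, map_smul])
    (by
      intro s t h x
      change Module.DirectLimit.of R' ℕ M' f' t (G t (f s t h x)) =
        Module.DirectLimit.of R' ℕ M' f' s (G s x)
      rw [hc, Module.DirectLimit.of_f])
  set K : ∀ t, M' t →+ M t := fun t =>
    (AddEquiv.ofBijective (G t) (hb t)).symm.toAddMonoidHom with hK
  have hKG : ∀ t x, K t (G t x) = x := fun t x =>
    (AddEquiv.ofBijective (G t) (hb t)).symm_apply_apply x
  have hGK : ∀ t x, G t (K t x) = x := fun t x =>
    (AddEquiv.ofBijective (G t) (hb t)).apply_symm_apply x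
  obtain ⟨g2, h2, -⟩ := RingEq.dl_lift (e.symm : R' →+* R) f'
    (N := Module.DirectLimit M f)
    (fun t => (Module.DirectLimit.of R ℕ M f t).toAddMonoidHom.comp (K t))
    (by
      intro t r x
      change Module.DirectLimit.of R ℕ M f t (K t (r • x)) =
        e.symm r • Module.DirectLimit.of R ℕ M f t (K t x)
      rw [← map_smul]
      congr 1
      apply (hb t).1
      rw [hG, hGK, hGK, e.apply_symm_apply])
    (by
      intro s t h x
      change Module.DirectLimit.of R ℕ M f t (K t (f' s t h x)) =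
        Module.DirectLimit.of R ℕ M f s (K s x)
      rw [← Module.DirectLimit.of_f (hij := h) (x := K s x)]
      congr 1
      apply (hb t).1
      rw [hGK, hc, hGK])
  refine ⟨{ toFun := g1, invFun := g2, left_inv := ?_, right_inv := ?_,
            map_add' := map_add g1 }, fun r z => h1' r z⟩
  · intro z
    induction z using Module.DirectLimit.induction_on with
    | ih t x =>
      rw [h1]
      change g2 (Module.DirectLimit.of R' ℕ M' f' t (G t x)) = _
      rw [h2]
      change Module.DirectLimit.of R ℕ M f t (K t (G t x)) = _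
      rw [hKG]
  · intro z
    induction z using Module.DirectLimit.induction_on with
    | ih t x =>
      rw [h2]
      change g1 (Module.DirectLimit.of R ℕ M f t (K t x)) = _
      rw [h1]
      change Module.DirectLimit.of R' ℕ M' f' t (G t (K t x)) = _
      rw [hGK]

section ext

variable {R R' : Type u} [CommRing R] [CommRing R'] (e : R ≃+* R')

/-- the category equivalence -/
noncomputable abbrev RingEq.F : ModuleCat.{u} R ⥤ ModuleCat.{u} R' :=
  ModuleCat.restrictScalars e.symm.toRingHom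

instance : (RingEq.F e).IsEquivalence :=
  ModuleCat.restrictScalars_isEquivalence_of_ringEquiv e.symm

theorem RingEq.smul_map {X Y : ModuleCat.{u} R} {n : ℕ} (r : R) (x : Abelian.Ext X Y n) :
    (r • x).mapExactFunctor (RingEq.F e) = e r • x.mapExactFunctor (RingEq.F e) := by
  have h1 : r • x = (Abelian.Ext.mk₀ (r • 𝟙 X)).comp x (zero_add n) := by
    rw [Abelian.Ext.mk₀_smul, Abelian.Ext.smul_comp, Abelian.Ext.mk₀_id_comp]
  have h2 : (RingEq.F e).map (r • 𝟙 X) = e r • 𝟙 ((RingEq.F e).obj X) := by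
    refine ModuleCat.hom_ext (LinearMap.ext fun y => ?_)
    change r • (y : X) = e.symm (e r) • (y : X)
    rw [e.symm_apply_apply]
  rw [h1, Abelian.Ext.mapExactFunctor_comp, Abelian.Ext.mapExactFunctor_mk₀, h2,
    Abelian.Ext.mk₀_smul, Abelian.Ext.smul_comp, Abelian.Ext.mk₀_id_comp]

/-- the ring isomorphism `R/J^t ≃ R'/J'^t` -/
noncomputable def RingEq.q (J : Ideal R) (t : ℕ) :
    (R ⧸ J ^ t) ≃+* (R' ⧸ (J.map e.toRingHom) ^ t) :=
  Ideal.quotientEquiv (J ^ t) ((J.map e.toRingHom) ^ t) e (by rw [Ideal.map_pow]; rfl)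

theorem RingEq.q_symm_smul (J : Ideal R) (t : ℕ) (r : R') (y : R' ⧸ (J.map e.toRingHom) ^ t) :
    (RingEq.q e J t).symm (r • y) = e.symm r • (RingEq.q e J t).symm y := by
  obtain ⟨y, rfl⟩ := Ideal.Quotient.mk_surjective y
  have h1 : r • (Ideal.Quotient.mk ((J.map e.toRingHom) ^ t)) y =
    Ideal.Quotient.mk ((J.map e.toRingHom) ^ t) (r * y) := rfl
  have h2 : ∀ z : R', (RingEq.q e J t).symm (Ideal.Quotient.mk ((J.map e.toRingHom) ^ t) z) =
    Ideal.Quotient.mk (J ^ t) (e.symm z) := fun z => rfl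
  rw [h1, h2, h2, map_mul, map_mul]
  rfl

/-- the isomorphism `R'/J'^t ≃ F(R/J^t)` -/
noncomputable def RingEq.phiL (J : Ideal R) (t : ℕ) :
    (R' ⧸ (J.map e.toRingHom) ^ t) ≃ₗ[R'] ((RingEq.F e).obj (Qt J t) : Type u) where
  toFun y := (RingEq.q e J t).symm y
  invFun y := RingEq.q e J t y
  left_inv y := (RingEq.q e J t).apply_symm_apply y
  right_inv y := (RingEq.q e J t).symm_apply_apply y
  map_add' y z := (RingEq.q e J t).symm.map_add y z
  map_smul' r y := RingEq.q_symm_smul e J t r y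

/-- the isomorphism `R'/J'^t ≅ F(R/J^t)` -/
noncomputable def RingEq.phi (J : Ideal R) (t : ℕ) :
    Qt (J.map e.toRingHom) t ≅ (RingEq.F e).obj (Qt J t) :=
  (RingEq.phiL e J t).toModuleIso

theorem RingEq.phi_nat (J : Ideal R) {s t : ℕ} (h : s ≤ t) :
    (RingEq.phi e J t).hom ≫ (RingEq.F e).map (qmap J h) =
      qmap (J.map e.toRingHom) h ≫ (RingEq.phi e J s).hom := by
  refine ModuleCat.hom_ext (LinearMap.ext fun y => ?_)
  obtain ⟨y, rfl⟩ := Ideal.Quotient.mk_surjective y
  rfl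

/-- the isomorphism `F(A) ≃ A'` -/
noncomputable def RingEq.psiL (A A' : Type u) [AddCommGroup A] [Module R A] [AddCommGroup A']
    [Module R' A'] (f : A ≃+ A') (hf : ∀ (r : R) (x : A), f (r • x) = e r • f x) :
    ((RingEq.F e).obj (ModuleCat.of R A) : Type u) ≃ₗ[R'] A' where
  toFun y := f y
  invFun y := f.symm y
  left_inv y := f.symm_apply_apply y
  right_inv y := f.apply_symm_apply y
  map_add' y z := f.map_add y z
  map_smul' r y := by
    exact (hf (e.symm r) y).trans (by rw [e.apply_symm_apply]; rfl)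

/-- the isomorphism `F(A) ≅ A'` -/
noncomputable def RingEq.psi (A A' : Type u) [AddCommGroup A] [Module R A] [AddCommGroup A']
    [Module R' A'] (f : A ≃+ A') (hf : ∀ (r : R) (x : A), f (r • x) = e r • f x) :
    (RingEq.F e).obj (ModuleCat.of R A) ≅ ModuleCat.of R' A' :=
  (RingEq.psiL e A A' f hf).toModuleIso

/-- precomposition with an isomorphism -/
theorem RingEq.pre_bij {X Y Z : ModuleCat.{u} R} (φ : X ≅ Y) (n : ℕ) :
    Function.Bijective (fun x : Abelian.Ext Y Z n => (Abelian.Ext.mk₀ φ.hom).comp x (zero_add n)) := by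
  refine Function.bijective_iff_has_inverse.2
    ⟨fun x => (Abelian.Ext.mk₀ φ.inv).comp x (zero_add n), fun x => ?_, fun x => ?_⟩
  · change (Abelian.Ext.mk₀ φ.inv).comp ((Abelian.Ext.mk₀ φ.hom).comp x (zero_add n))
      (zero_add n) = x
    rw [Abelian.Ext.mk₀_comp_mk₀_assoc, φ.inv_hom_id, Abelian.Ext.mk₀_id_comp]
  · change (Abelian.Ext.mk₀ φ.hom).comp ((Abelian.Ext.mk₀ φ.inv).comp x (zero_add n))
      (zero_add n) = x
    rw [Abelian.Ext.mk₀_comp_mk₀_assoc, φ.hom_inv_id, Abelian.Ext.mk₀_id_comp]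

/-- postcomposition with an isomorphism -/
theorem RingEq.post_bij {X Y Z : ModuleCat.{u} R} (ψ : Y ≅ Z) (n : ℕ) :
    Function.Bijective (fun x : Abelian.Ext X Y n => x.comp (Abelian.Ext.mk₀ ψ.hom) (add_zero n)) := by
  refine Function.bijective_iff_has_inverse.2
    ⟨fun x => x.comp (Abelian.Ext.mk₀ ψ.inv) (add_zero n), fun x => ?_, fun x => ?_⟩
  · change (x.comp (Abelian.Ext.mk₀ ψ.hom) (add_zero n)).comp (Abelian.Ext.mk₀ ψ.inv)
      (add_zero n) = x
    rw [Abelian.Ext.comp_assoc_of_third_deg_zero, Abelian.Ext.mk₀_comp_mk₀, ψ.hom_inv_id,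
      Abelian.Ext.comp_mk₀_id]
  · change (x.comp (Abelian.Ext.mk₀ ψ.inv) (add_zero n)).comp (Abelian.Ext.mk₀ ψ.hom)
      (add_zero n) = x
    rw [Abelian.Ext.comp_assoc_of_third_deg_zero, Abelian.Ext.mk₀_comp_mk₀, ψ.inv_hom_id,
      Abelian.Ext.comp_mk₀_id]

/-- the map on `Ext` -/
noncomputable def RingEq.G (J : Ideal R) {A : ModuleCat.{u} R} {A' : ModuleCat.{u} R'}
    (ψ : (RingEq.F e).obj A ≅ A') (i t : ℕ) :
    Abelian.Ext (Qt J t) A i →+ Abelian.Ext (Qt (J.map e.toRingHom) t) A' i where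
  toFun x := (Abelian.Ext.mk₀ (RingEq.phi e J t).hom).comp
    ((x.mapExactFunctor (RingEq.F e)).comp (Abelian.Ext.mk₀ ψ.hom) (add_zero i)) (zero_add i)
  map_zero' := by
    rw [Abelian.Ext.mapExactFunctor_zero, Abelian.Ext.zero_comp, Abelian.Ext.comp_zero]
  map_add' x y := by
    rw [Abelian.Ext.mapExactFunctor_add, Abelian.Ext.add_comp, Abelian.Ext.comp_add]

theorem RingEq.G_bij (J : Ideal R) {A : ModuleCat.{u} R} {A' : ModuleCat.{u} R'}
    (ψ : (RingEq.F e).obj A ≅ A') (i t : ℕ) : Function.Bijective (RingEq.G e J ψ i t) := by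
  have h1 := (RingEq.F e).mapExt_bijective_of_preservesProjectiveObjects (Qt J t) A i
  have h2 := RingEq.post_bij (X := (RingEq.F e).obj (Qt J t)) ψ i
  have h3 := RingEq.pre_bij (Z := A') (RingEq.phi e J t) i
  exact h3.comp (h2.comp h1)

theorem RingEq.G_smul (J : Ideal R) {A : ModuleCat.{u} R} {A' : ModuleCat.{u} R'}
    (ψ : (RingEq.F e).obj A ≅ A') (i t : ℕ) (r : R) (x : Abelian.Ext (Qt J t) A i) :
    RingEq.G e J ψ i t (r • x) = e r • RingEq.G e J ψ i t x := by
  change (Abelian.Ext.mk₀ (RingEq.phi e J t).hom).comp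
    (((r • x).mapExactFunctor (RingEq.F e)).comp (Abelian.Ext.mk₀ ψ.hom) (add_zero i))
      (zero_add i) = e r • (Abelian.Ext.mk₀ (RingEq.phi e J t).hom).comp
    ((x.mapExactFunctor (RingEq.F e)).comp (Abelian.Ext.mk₀ ψ.hom) (add_zero i)) (zero_add i)
  rw [RingEq.smul_map, Abelian.Ext.smul_comp, Abelian.Ext.comp_smul]

theorem RingEq.G_tr (J : Ideal R) {A : ModuleCat.{u} R} {A' : ModuleCat.{u} R'}
    (ψ : (RingEq.F e).obj A ≅ A') (i s t : ℕ) (h : s ≤ t) (x : Abelian.Ext (Qt J s) A i) :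
    RingEq.G e J ψ i t (tr J A i s t h x) =
      tr (J.map e.toRingHom) A' i s t h (RingEq.G e J ψ i s x) := by
  rw [tr_apply, tr_apply]
  change (Abelian.Ext.mk₀ (RingEq.phi e J t).hom).comp
    ((((Abelian.Ext.mk₀ (qmap J h)).comp x (zero_add i)).mapExactFunctor (RingEq.F e)).comp
      (Abelian.Ext.mk₀ ψ.hom) (add_zero i)) (zero_add i) =
    (Abelian.Ext.mk₀ (qmap (J.map e.toRingHom) h)).comp
      ((Abelian.Ext.mk₀ (RingEq.phi e J s).hom).comp
        ((x.mapExactFunctor (RingEq.F e)).comp (Abelian.Ext.mk₀ ψ.hom) (add_zero i))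
        (zero_add i)) (zero_add i)
  rw [Abelian.Ext.mapExactFunctor_comp, Abelian.Ext.mapExactFunctor_mk₀,
    Abelian.Ext.comp_assoc_of_third_deg_zero, Abelian.Ext.mk₀_comp_mk₀_assoc,
    Abelian.Ext.mk₀_comp_mk₀_assoc, RingEq.phi_nat]

end ext

theorem RingEq.HC_equiv {R R' : Type u} [CommRing R] [CommRing R'] (e : R ≃+* R') (J : Ideal R)
    {A : ModuleCat.{u} R} {A' : ModuleCat.{u} R'} (ψ : (RingEq.F e).obj A ≅ A') (i : ℕ) :
    ∃ g : HC J i A ≃+ HC (J.map e.toRingHom) i A', ∀ (r : R) (z : HC J i A),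
      g (r • z) = e r • g z := by
  refine RingEq.dl_equiv e (tr J A i) (tr (J.map e.toRingHom) A' i)
    (fun t => RingEq.G e J ψ i t) (fun t => RingEq.G_bij e J ψ i t) ?_ ?_
  · intro t r x
    exact RingEq.G_smul e J ψ i t r x
  · intro s t h x
    exact RingEq.G_tr e J ψ i s t h x

theorem H.ringEquiv {R R' : Type u} [CommRing R] [CommRing R'] (e : R ≃+* R') (J : Ideal R)
    (A A' : Type u) [AddCommGroup A] [Module R A] [AddCommGroup A'] [Module R' A'] (f : A ≃+ A')
    (hf : ∀ (r : R) (x : A), f (r • x) = e r • f x) (i : ℕ) :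
    ∃ g : H J i A ≃+ H (J.map e.toRingHom) i A', ∀ (r : R) (z : H J i A),
      g (r • z) = e r • g z :=
  RingEq.HC_equiv e J (RingEq.psi e A A' f hf) i

end CC5166
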