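import Pool.Agent.Lib.MP_cc5166_ag.T1Exact
import Pool.Agent.Lib.MP_cc5166_ag.DepthL
import Pool.Agent.Lib.MP_cc5166_ag.Homog
import Pool.Agent.Lib.MP_cc5166_ag.AR
import Pool.Agent.Lib.MP_cc5166_ag.LCFull
import Pool.Agent.Lib.MP_cc5166_ag.Harm
import Pool.Agent.Lib.MP_cc5166_ag.LAFin
import Pool.Agent.Lib.MP_cc5166_ag.Len
import Pool.Agent.Lib.MP_cc5166_ag.LCPi
import Pool.Agent.Lib.MP_cc5166_ag.RingEq

universe u

namespace CC5166

/-- the variables of `R` as a sum type. -/
def ixEquiv (M : ℕ) : Ix M ≃ ((Fin (M + 1) ⊕ Fin 4) ⊕ (Tx ⊕ Fin 2)) where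
  toFun := fun i => match i with
    | .Y j => Sum.inl (Sum.inl j)
    | .Z j => Sum.inl (Sum.inr j)
    | .T t => Sum.inr (Sum.inl t)
    | .w i => Sum.inr (Sum.inr i)
  invFun := fun i => match i with
    | Sum.inl (Sum.inl j) => .Y j
    | Sum.inl (Sum.inr j) => .Z j
    | Sum.inr (Sum.inl t) => .T t
    | Sum.inr (Sum.inr i) => .w i
  left_inv := by intro i; cases i <;> rfl
  right_inv := by rintro ((i | i) | (i | i)) <;> rfl

lemma card_Ix (M : ℕ) : Fintype.card (Ix M) = M + 655 := by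
  rw [Fintype.card_congr (ixEquiv M)]
  simp only [Fintype.card_sum, Fintype.card_fin, Fintype.card_prod]

theorem lc_pow (k : Type u) [Field k] (M : ℕ) (hM : 3 ≤ M) (δ : ℕ) (hδ : M ≤ δ)
    (h : ∀ N, δ ≤ N →
      Qk k M hM ⊓ TI k M ^ N = TI k M ^ (N - δ) * (Qk k M hM ⊓ TI k M ^ δ))
    (n : ℕ) (hn : 1 ≤ n) :
    Nonempty (H (mm k M) (M + 4) (RR k M ⧸ II k M hM δ ^ n) ≃ₗ[RR k M]
      (Fin n → KN k M (δ * n))) := by
  obtain ⟨f, g, hf, hfg, hg⟩ := t1_exact k M hM δ hδ h n hn
  have hA : Subsingleton (H (mm k M) (M + 3) (RR k M ⧸ Ln k M (δ * n) (2 * n))) :=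
    lc_Ln k M _ _ _ (by omega)
  have hB : Subsingleton (H (mm k M) (M + 4) (RR k M ⧸ Ln k M (δ * n) (2 * n))) :=
    lc_Ln k M _ _ _ (by omega)
  have hinj : Function.Injective (H.map (mm k M) (M + 4) f) := by
    rw [injective_iff_map_eq_zero]
    intro z hz
    obtain ⟨w, rfl⟩ := (H.exact_δ_map (mm k M) f g hf hfg hg (M + 3) z).mp hz
    rw [Subsingleton.elim w 0, map_zero]
  have hsurj : Function.Surjective (H.map (mm k M) (M + 4) f) := by
    intro z
    exact (H.exact_map_map (mm k M) f g hf hfg hg (M + 4) z).mp (Subsingleton.elim _ _)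
  obtain ⟨e1⟩ := H.pi_equiv (mm k M) (SN k M hM (δ * n)) n (M + 4)
  obtain ⟨e2⟩ := lc_SN k M hM (δ * n)
  obtain ⟨e3⟩ := lc_Sfull k M hM (δ * n)
  exact ⟨(LinearEquiv.ofBijective _ ⟨hinj, hsurj⟩).symm.trans
    (e1.trans (LinearEquiv.piCongrRight fun _ => e2.trans e3))⟩

lemma isTor_KN (k : Type u) [Field k] (M N : ℕ) : IsTor (mm k M) (KN k M N) := by
  intro x
  have h1 := isTor_Pc k M (d1 N) (st2 M) (Or.inl fun _ => rfl) (Or.inl fun _ => rfl)
  obtain ⟨t, ht⟩ := h1 x.1
  exact ⟨t, fun a ha => Subtype.ext (ht a ha)⟩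

lemma isTor_pi {R : Type u} [CommRing R] {J : Ideal R} {A : Type u} [AddCommGroup A]
    [Module R A] (h : IsTor J A) (n : ℕ) : IsTor J (Fin n → A) := by
  intro x
  choose t ht using fun i => h (x i)
  refine ⟨∑ i, t i, fun a ha => funext fun i => ?_⟩
  rw [Pi.smul_apply]
  exact ht i a (Ideal.pow_le_pow_right (Finset.single_le_sum (fun _ _ => Nat.zero_le _)
    (Finset.mem_univ i)) ha)

theorem length_pow (k : Type u) [Field k] (M : ℕ) (hM : 3 ≤ M) (δ : ℕ)
    (hδ : M ≤ δ) (h : ∀ N, δ ≤ N →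
      Qk k M hM ⊓ TI k M ^ N = TI k M ^ (N - δ) * (Qk k M hM ⊓ TI k M ^ δ))
    (n : ℕ) (hn : 1 ≤ n) :
    Module.length (RR k M) (H (mm k M) (M + 4) (RR k M ⧸ II k M hM δ ^ n)) =
      ((n * Module.finrank k (KN k M (δ * n)) : ℕ) : ℕ∞) := by
  obtain ⟨e⟩ := lc_pow k M hM δ hδ h n hn
  rw [e.length_eq]
  have hF := KN_finite k M (by omega) (δ * n)
  have h2 := length_eq_finrank k M (isTor_pi (isTor_KN k M (δ * n)) n)
  rw [h2, Module.finrank_pi_fintype]
  simp

/-- the length is invariant under semilinear equivalences. -/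
lemma length_eq_of_ringEquiv {R R' : Type u} [CommRing R] [CommRing R'] (e : R ≃+* R')
    {A A' : Type u} [AddCommGroup A] [Module R A] [AddCommGroup A'] [Module R' A'] (g : A ≃+ A')
    (hg : ∀ (r : R) (z : A), g (r • z) = e r • g z) : Module.length R A = Module.length R' A' := by
  let f : A →ₛₗ[e.toRingHom] A' := { g with map_smul' := hg }
  have h : RingHomSurjective e.toRingHom := ⟨e.surjective⟩
  have h1 := Order.krullDim_eq_of_orderIso (Submodule.orderIsoMapComapOfBijective f g.bijective)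
  have h2 : (Module.length R A : WithBot ℕ∞) = Module.length R' A' := by
    rw [Module.coe_length, Module.coe_length, h1]
  exact WithBot.coe_injective h2

section

variable {σ τ : Type} {k : Type u} [Field k] (ε : σ ≃ τ)

lemma map_span_X :
    (Ideal.span (Set.range (MvPolynomial.X : σ → MvPolynomial σ k))).map
      (MvPolynomial.renameEquiv k ε).toRingEquiv.toRingHom =
      Ideal.span (Set.range (MvPolynomial.X : τ → MvPolynomial τ k)) := by
  rw [Ideal.map_span, ← Set.range_comp]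
  congr 1
  have h : ((MvPolynomial.renameEquiv k ε).toRingEquiv.toRingHom ∘
      (MvPolynomial.X : σ → MvPolynomial σ k)) = MvPolynomial.X ∘ ε := by
    funext i
    exact MvPolynomial.rename_X ε i
  rw [h, Set.range_comp, ε.surjective.range_eq, Set.image_univ]

/-- renaming the variables does not change the lengths of local cohomology. -/
lemma length_rename (I : Ideal (MvPolynomial σ k)) (i n : ℕ) :
    Module.length (MvPolynomial τ k)
      (H (Ideal.span (Set.range (MvPolynomial.X : τ → MvPolynomial τ k))) i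
        (MvPolynomial τ k ⧸
          (I.map (MvPolynomial.renameEquiv k ε).toRingEquiv.toRingHom) ^ n)) =
    Module.length (MvPolynomial σ k)
      (H (Ideal.span (Set.range (MvPolynomial.X : σ → MvPolynomial σ k))) i
        (MvPolynomial σ k ⧸ I ^ n)) := by
  have key : ∀ J' : Ideal (MvPolynomial τ k),
      J' = (Ideal.span (Set.range (MvPolynomial.X : σ → MvPolynomial σ k))).map
        (MvPolynomial.renameEquiv k ε).toRingEquiv.toRingHom →
      Module.length (MvPolynomial τ k)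
      (H J' i
        (MvPolynomial τ k ⧸
          (I.map (MvPolynomial.renameEquiv k ε).toRingEquiv.toRingHom) ^ n)) =
      Module.length (MvPolynomial σ k)
      (H (Ideal.span (Set.range (MvPolynomial.X : σ → MvPolynomial σ k))) i
        (MvPolynomial σ k ⧸ I ^ n)) := by
    rintro _ rfl
    have h1 : (I.map (MvPolynomial.renameEquiv k ε).toRingEquiv.toRingHom) ^ n =
        (I ^ n).map (MvPolynomial.renameEquiv k ε).toRingEquiv.toRingHom :=
      (Ideal.map_pow _ _ _).symm
    let f : (MvPolynomial σ k ⧸ I ^ n) ≃+* (MvPolynomial τ k ⧸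
        (I.map (MvPolynomial.renameEquiv k ε).toRingEquiv.toRingHom) ^ n) :=
      Ideal.quotientEquiv (I ^ n) _ (MvPolynomial.renameEquiv k ε).toRingEquiv h1
    have hf : ∀ x, f (Ideal.Quotient.mk _ x) =
        Ideal.Quotient.mk _ ((MvPolynomial.renameEquiv k ε).toRingEquiv x) := fun x =>
      Ideal.quotientEquiv_mk _ _ _ _ x
    obtain ⟨g, hg⟩ := H.ringEquiv (MvPolynomial.renameEquiv k ε).toRingEquiv
      (Ideal.span (Set.range (MvPolynomial.X : σ → MvPolynomial σ k))) (MvPolynomial σ k ⧸ I ^ n)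
      (MvPolynomial τ k ⧸ (I.map (MvPolynomial.renameEquiv k ε).toRingEquiv.toRingHom) ^ n)
      f.toAddEquiv
      (by
        intro r x
        obtain ⟨x, rfl⟩ := Ideal.Quotient.mk_surjective x
        have h2 : r • (Ideal.Quotient.mk (I ^ n)) x = Ideal.Quotient.mk (I ^ n) (r * x) := rfl
        change f (r • (Ideal.Quotient.mk (I ^ n)) x) =
          (MvPolynomial.renameEquiv k ε).toRingEquiv r • f ((Ideal.Quotient.mk (I ^ n)) x)
        rw [h2, hf, hf, map_mul]
        rfl) i
    exact (length_eq_of_ringEquiv _ g hg).symm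
  exact key _ (map_span_X ε).symm

end

end CC5166
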