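import Pool.Agent.Lib.MP_cc5166_ag.Defs3

/-!
The algebra generated by `Y, Z, T` in degree `N`.
-/

universe u

namespace CC5166

/-- Telescoping: a monomial of degree `n ≥ K` in `y₀, y₁` times `q_j` is a combination of
monomials of degree `n - 1` times the coefficients of `(y₀ + y₁ s)(q₀ + ⋯ + q_{K-1} s^{K-1})`. -/
theorem gen_tele {A : Type*} [CommRing A] (G : A → Prop) (hsub : ∀ a b, G a → G b → G (a - b))
    (y0 y1 : A) (q : ℕ → A) (m : A) (K n : ℕ) (hK : K ≤ n) (hqK : q K = 0)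
    (hY : ∀ j ≤ K, ∀ b0 b1, b0 + b1 + 1 = n →
      G ((y0 * q j + (if 1 ≤ j then y1 * q (j - 1) else 0)) * (y0 ^ b0 * y1 ^ b1 * m))) :
    ∀ j < K, ∀ b0 b1, b0 + b1 = n → G (y0 ^ b0 * y1 ^ b1 * q j * m) := by
  have hD : ∀ j < K, ∀ b0 b1, b0 + b1 = n → j + 1 ≤ b0 → G (y0 ^ b0 * y1 ^ b1 * q j * m) := by
    intro j
    induction j with
    | zero =>
      intro hj b0 b1 hb h1
      obtain ⟨c, rfl⟩ : ∃ c, b0 = c + 1 := ⟨b0 - 1, by omega⟩
      have := hY 0 (by omega) c b1 (by omega)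
      rw [if_neg (by omega)] at this
      have e : y0 ^ (c + 1) * y1 ^ b1 * q 0 * m = (y0 * q 0 + 0) * (y0 ^ c * y1 ^ b1 * m) := by ring
      rw [e]; exact this
    | succ j ih =>
      intro hj b0 b1 hb h1
      obtain ⟨c, rfl⟩ : ∃ c, b0 = c + 1 := ⟨b0 - 1, by omega⟩
      have h2 := hY (j + 1) (by omega) c b1 (by omega)
      rw [if_pos (by omega)] at h2
      have h3 := ih (by omega) c (b1 + 1) (by omega) (by omega)
      have e : y0 ^ (c + 1) * y1 ^ b1 * q (j + 1) * m =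
          (y0 * q (j + 1) + y1 * q (j + 1 - 1)) * (y0 ^ c * y1 ^ b1 * m) -
            y0 ^ c * y1 ^ (b1 + 1) * q j * m := by
        rw [Nat.add_sub_cancel]; ring
      rw [e]; exact hsub _ _ h2 h3
  have hU : ∀ i j, j + i + 1 = K → ∀ b0 b1, b0 + b1 = n → i + 1 ≤ b1 →
      G (y0 ^ b0 * y1 ^ b1 * q j * m) := by
    intro i
    induction i with
    | zero =>
      intro j hj b0 b1 hb h1
      obtain ⟨c, rfl⟩ : ∃ c, b1 = c + 1 := ⟨b1 - 1, by omega⟩
      have := hY K le_rfl b0 c (by omega)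
      rw [if_pos (by omega), hqK] at this
      have hj2 : K - 1 = j := by omega
      rw [hj2] at this
      have e : y0 ^ b0 * y1 ^ (c + 1) * q j * m =
          (y0 * 0 + y1 * q j) * (y0 ^ b0 * y1 ^ c * m) := by ring
      rw [e]; exact this
    | succ i ih =>
      intro j hj b0 b1 hb h1
      obtain ⟨c, rfl⟩ : ∃ c, b1 = c + 1 := ⟨b1 - 1, by omega⟩
      have h2 := hY (j + 1) (by omega) b0 c (by omega)
      rw [if_pos (by omega)] at h2
      have h3 := ih (j + 1) (by omega) (b0 + 1) c (by omega) (by omega)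
      have e : y0 ^ b0 * y1 ^ (c + 1) * q j * m =
          (y0 * q (j + 1) + y1 * q (j + 1 - 1)) * (y0 ^ b0 * y1 ^ c * m) -
            y0 ^ (b0 + 1) * y1 ^ c * q (j + 1) * m := by
        rw [Nat.add_sub_cancel]; ring
      rw [e]; exact hsub _ _ h2 h3
  intro j hj b0 b1 hb
  by_cases h : j + 1 ≤ b0
  · exact hD j hj b0 b1 hb h
  · exact hU (K - 1 - j) j (by omega) b0 b1 hb (by omega)

section

variable {M : ℕ}

/-! ### degrees of single variables -/

lemma gen_Tdeg_single_Y (j : Fin (M + 1)) (n : ℕ) : Tdeg (Finsupp.single (Ix.Y j) n) = 0 := by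
  simp [Tdeg]

lemma gen_Tdeg_single_Z (j : Fin 4) (n : ℕ) : Tdeg (Finsupp.single (Ix.Z j : Ix M) n) = 0 := by
  simp [Tdeg]

lemma gen_Tdeg_single_w (j : Fin 2) (n : ℕ) : Tdeg (Finsupp.single (Ix.w j : Ix M) n) = 0 := by
  simp [Tdeg]

lemma gen_Tdeg_single_T (t : Tx) (n : ℕ) : Tdeg (Finsupp.single (Ix.T t : Ix M) n) = n := by
  classical
  have h : ∀ t' : Tx, (Finsupp.single (Ix.T t : Ix M) n) (Ix.T t') = if t = t' then n else 0 := by
    intro t'
    rw [Finsupp.single_apply]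
    by_cases h1 : t = t'
    · rw [if_pos h1, if_pos (by rw [h1])]
    · rw [if_neg h1, if_neg (by intro h2; exact h1 (Ix.T.inj h2))]
  unfold Tdeg
  rw [Finset.sum_congr rfl fun t' _ => h t', Finset.sum_ite_eq]
  simp

lemma gen_wdeg_single_Y (j : Fin (M + 1)) (n : ℕ) : wdeg (Finsupp.single (Ix.Y j) n) = 0 := by
  simp [wdeg]

lemma gen_wdeg_single_Z (j : Fin 4) (n : ℕ) : wdeg (Finsupp.single (Ix.Z j : Ix M) n) = 0 := by
  simp [wdeg]

lemma gen_wdeg_single_T (t : Tx) (n : ℕ) : wdeg (Finsupp.single (Ix.T t : Ix M) n) = 0 := by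
  simp [wdeg]

/-- the exponent of `Tpoly t`. -/
noncomputable def gen_tauT (hM : 3 ≤ M) (t : Tx) : Vr M →₀ ℕ :=
  Finsupp.single (.xi t.1.1) 1 + Finsupp.single (.y t.1.2.1) 1 + Finsupp.single (.ze t.1.2.2) 1 +
  Finsupp.single (.q (Fin.castLE hM t.2.1)) 1 + Finsupp.single (.q (Fin.castLE hM t.2.2.1)) 1 +
  Finsupp.single (.p t.2.2.2.1) 1 + Finsupp.single (.p t.2.2.2.2) 1

end

section

variable (k : Type u) [Field k] (M : ℕ)

lemma gen_Tpoly_eq (hM : 3 ≤ M) (t : Tx) : Tpoly k M hM t = MvPolynomial.monomial (gen_tauT hM t) 1 := by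
  have h : ∀ (μ : Vr M →₀ ℕ) (v : Vr M), (MvPolynomial.monomial μ 1 : PP k M) * vx v =
      MvPolynomial.monomial (μ + Finsupp.single v 1) 1 := by
    intro μ v
    have := MvPolynomial.monomial_mul (s := μ) (s' := Finsupp.single v 1) (a := (1 : k)) (b := 1)
    rw [one_mul] at this
    exact this
  have h0 : ∀ v : Vr M, (vx v : PP k M) = MvPolynomial.monomial (Finsupp.single v 1) 1 :=
    fun v => rfl
  unfold Tpoly gen_tauT
  rw [h0 (.xi t.1.1), h, h, h, h, h, h]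

lemma gen_psi0_X_Y (hM : 3 ≤ M) (j : Fin (M + 1)) :
    psi0 k M hM (MvPolynomial.X (.Y j)) = Ypoly k M j := by
  rw [psi0, MvPolynomial.aeval_X]

lemma gen_psi0_X_Z (hM : 3 ≤ M) (j : Fin 4) :
    psi0 k M hM (MvPolynomial.X (.Z j)) = Zpoly k M j := by
  rw [psi0, MvPolynomial.aeval_X]

lemma gen_psi0_X_T (hM : 3 ≤ M) (t : Tx) :
    psi0 k M hM (MvPolynomial.X (.T t)) = Tpoly k M hM t := by
  rw [psi0, MvPolynomial.aeval_X]

lemma gen_psi0_X_w (hM : 3 ≤ M) (i : Fin 2) :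
    psi0 k M hM (MvPolynomial.X (.w i)) = 0 := by
  rw [psi0, MvPolynomial.aeval_X]

lemma gen_homD_Tpoly (hM : 3 ≤ M) (t : Tx) : HomD (Tpoly k M hM t) (dN 1) := by
  have h := ((((((homD_vx (k := k) (.xi t.1.1 : Vr M)).mul (homD_vx (.y t.1.2.1))).mul
    (homD_vx (.ze t.1.2.2))).mul (homD_vx (.q (Fin.castLE hM t.2.1)))).mul
    (homD_vx (.q (Fin.castLE hM t.2.2.1)))).mul (homD_vx (.p t.2.2.2.1))).mul
    (homD_vx (.p t.2.2.2.2))
  have e : (dN 1 : ℤ × ℤ × ℤ) = wt (.xi t.1.1 : Vr M) + wt (.y t.1.2.1 : Vr M) +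
      wt (.ze t.1.2.2 : Vr M) + wt (.q (Fin.castLE hM t.2.1) : Vr M) +
      wt (.q (Fin.castLE hM t.2.2.1) : Vr M) + wt (.p t.2.2.2.1 : Vr M) +
      wt (.p t.2.2.2.2 : Vr M) := by
    simp [dN, wt]
  rw [e]
  exact h

lemma gen_dN_add (a b : ℕ) : dN (a + b) = dN a + dN b := by
  simp [dN]

lemma gen_psi0_homD_X (hM : 3 ≤ M) (i : Ix M) :
    HomD (psi0 k M hM (MvPolynomial.X i)) (dN (Tdeg (Finsupp.single i 1))) := by
  cases i with
  | Y j =>
    rw [gen_psi0_X_Y, gen_Tdeg_single_Y]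
    exact homD_Ypoly j
  | Z j =>
    rw [gen_psi0_X_Z, gen_Tdeg_single_Z]
    exact homD_Zpoly j
  | T t =>
    rw [gen_psi0_X_T, gen_Tdeg_single_T]
    exact gen_homD_Tpoly k M hM t
  | w i =>
    rw [gen_psi0_X_w]
    exact MvPolynomial.isWeightedHomogeneous_zero _ _ _

lemma gen_mono_add (μ ν : Ix M →₀ ℕ) (c : k) : (MvPolynomial.monomial (μ + ν) c : RR k M) =
    MvPolynomial.monomial μ c * MvPolynomial.monomial ν 1 := by
  rw [MvPolynomial.monomial_mul, mul_one]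

theorem psi0_homD (hM : 3 ≤ M) (μ : Ix M →₀ ℕ) (c : k) :
    HomD (psi0 k M hM (MvPolynomial.monomial μ c)) (dN (Tdeg μ)) := by
  induction μ using Finsupp.induction_linear generalizing c with
  | zero =>
    have h1 : (MvPolynomial.monomial 0 c : RR k M) = MvPolynomial.C c := rfl
    have h2 : (dN (Tdeg (0 : Ix M →₀ ℕ))) = 0 := by simp [dN, Tdeg]
    rw [h1, h2, psi0, MvPolynomial.aeval_C]
    exact MvPolynomial.isWeightedHomogeneous_C wt c
  | add μ ν h1 h2 =>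
    rw [gen_mono_add, map_mul, Tdeg_add, gen_dN_add]
    exact (h1 c).mul (h2 1)
  | single i n =>
    induction n generalizing c with
    | zero =>
      have h1 : (MvPolynomial.monomial (Finsupp.single i 0) c : RR k M) = MvPolynomial.C c := by
        rw [Finsupp.single_zero]; rfl
      have h2 : (dN (Tdeg (Finsupp.single i 0 : Ix M →₀ ℕ))) = 0 := by
        rw [Finsupp.single_zero]; simp [dN, Tdeg]
      rw [h1, h2, psi0, MvPolynomial.aeval_C]
      exact MvPolynomial.isWeightedHomogeneous_C wt c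
    | succ n ih =>
      rw [Finsupp.single_add, gen_mono_add, map_mul, Tdeg_add, gen_dN_add]
      exact (ih c).mul (gen_psi0_homD_X k M hM i)

/-! ### supports -/

lemma gen_goodE_tauT (hM : 3 ≤ M) (t : Tx) (n : ℕ) (e : Vr M → ℤ) (h : GoodE M hM n e) :
    GoodE M hM (n + 1) (e + toZ (gen_tauT hM t)) := by
  classical
  obtain ⟨h1, h2, h3⟩ := h
  obtain ⟨⟨i, j, l⟩, a, b, c, d⟩ := t
  have key : ∀ v : Vr M, toZ (gen_tauT hM ((i, j, l), a, b, c, d)) v =
      (if Vr.xi i = v then 1 else 0) + (if Vr.y j = v then 1 else 0) +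
      (if Vr.ze l = v then 1 else 0) + (if Vr.q (Fin.castLE hM a) = v then 1 else 0) +
      (if Vr.q (Fin.castLE hM b) = v then 1 else 0) + (if Vr.p c = v then 1 else 0) +
      (if Vr.p d = v then 1 else 0) := by
    intro v
    simp only [toZ, gen_tauT, Finsupp.add_apply, Finsupp.single_apply, Nat.cast_add, Nat.cast_ite,
      Nat.cast_one, Nat.cast_zero]
  refine ⟨?_, ?_, ?_⟩
  · simp only [Pi.add_apply, key]
    fin_cases j <;> simp <;> omega
  · simp only [Pi.add_apply, key]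
    fin_cases l <;> simp <;> omega
  · simp only [Pi.add_apply, key]
    fin_cases a <;> fin_cases b <;> simp <;> omega

lemma gen_psi0_supp_X (hM : 3 ≤ M) (i : Ix M) (n : ℕ) (x : X k (st0 M)) (hx : SuppOn (GoodE M hM n) x) :
    SuppOn (GoodE M hM (n + Tdeg (Finsupp.single i 1))) (psi0 k M hM (MvPolynomial.X i) • x) := by
  cases i with
  | Y j =>
    rw [gen_psi0_X_Y, gen_Tdeg_single_Y, add_zero]
    exact suppOn_Ypoly_smul hx j fun e i l _ he => (upClosed_GoodE hM n).yq e i l he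
  | Z j =>
    rw [gen_psi0_X_Z, gen_Tdeg_single_Z, add_zero]
    exact suppOn_Zpoly_smul hx j fun e i l he => (upClosed_GoodE hM n).zp e i l he
  | T t =>
    rw [gen_psi0_X_T, gen_Tdeg_single_T, gen_Tpoly_eq, monomial_smul, one_smul]
    exact act_apply_of_supp hx _ fun e he => gen_goodE_tauT M hM t n e he
  | w i =>
    rw [gen_psi0_X_w, zero_smul]
    exact SuppOn.zero

lemma gen_psi0_supp_aux (hM : 3 ≤ M) (μ : Ix M →₀ ℕ) : ∀ (c : k) (n : ℕ) (x : X k (st0 M)),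
    SuppOn (GoodE M hM n) x →
    SuppOn (GoodE M hM (n + Tdeg μ)) (psi0 k M hM (MvPolynomial.monomial μ c) • x) := by
  have hC : ∀ (c : k) (n : ℕ) (x : X k (st0 M)), SuppOn (GoodE M hM n) x →
      SuppOn (GoodE M hM n) (psi0 k M hM (MvPolynomial.C c) • x) := by
    intro c n x hx
    rw [psi0, MvPolynomial.aeval_C, algebraMap_smul]
    exact hx.smul c
  induction μ using Finsupp.induction_linear with
  | zero =>
    intro c n x hx
    have h1 : (MvPolynomial.monomial 0 c : RR k M) = MvPolynomial.C c := rfl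
    have h2 : Tdeg (0 : Ix M →₀ ℕ) = 0 := by simp [Tdeg]
    rw [h1, h2]
    exact hC c n x hx
  | add μ ν h1 h2 =>
    intro c n x hx
    rw [gen_mono_add, map_mul, Tdeg_add, mul_smul, add_comm (Tdeg μ), ← add_assoc]
    exact h1 c _ _ (h2 1 _ _ hx)
  | single i m =>
    induction m with
    | zero =>
      intro c n x hx
      have h1 : (MvPolynomial.monomial (Finsupp.single i 0) c : RR k M) = MvPolynomial.C c := by
        rw [Finsupp.single_zero]; rfl
      have h2 : Tdeg (Finsupp.single i 0 : Ix M →₀ ℕ) = 0 := by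
        rw [Finsupp.single_zero]; simp [Tdeg]
      rw [h1, h2]
      exact hC c n x hx
    | succ m ih =>
      intro c n x hx
      rw [Finsupp.single_add, gen_mono_add, map_mul, Tdeg_add, mul_smul,
        add_comm (Tdeg (Finsupp.single i m)), ← add_assoc]
      exact ih c _ _ (gen_psi0_supp_X k M hM i n x hx)

theorem psi0_supp (hM : 3 ≤ M) (μ : Ix M →₀ ℕ) (c : k) :
    SuppOn (GoodE M hM (Tdeg μ)) (psi0 k M hM (MvPolynomial.monomial μ c) • one0 k M) := by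
  have h0 : SuppOn (GoodE M hM 0) (one0 k M) := by
    classical
    intro e he
    have h : InSt (st0 M) (0 : Vr M → ℤ) := inSt_st0.mpr fun _ => le_refl _
    rw [one0, bv_of h, Finsupp.single_apply] at he
    by_cases h1 : (⟨0, h⟩ : Ex (st0 M)) = e
    · rw [← h1]
      exact ⟨by simp, by simp, by simp⟩
    · rw [if_neg h1] at he
      exact absurd rfl he
  have := gen_psi0_supp_aux k M hM μ c 0 _ h0
  rwa [zero_add] at this

end

section

variable {M : ℕ}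

/-! ### counting exponents in `P` -/

/-- degree in `ξ`. -/
def gen_cx (μ : Vr M →₀ ℕ) : ℕ := μ (.xi 0) + μ (.xi 1)

/-- degree in `y`. -/
def gen_cy (μ : Vr M →₀ ℕ) : ℕ := μ (.y 0) + μ (.y 1)

/-- degree in `ζ`. -/
def gen_cz (μ : Vr M →₀ ℕ) : ℕ := μ (.ze 0) + μ (.ze 1)

/-- degree in `q`. -/
def gen_cq (μ : Vr M →₀ ℕ) : ℕ := ∑ j : Fin M, μ (.q j)

/-- degree in `p`. -/
def gen_cp (μ : Vr M →₀ ℕ) : ℕ := ∑ j : Fin 3, μ (.p j)

/-- degree in `q₀, q₁, q₂`. -/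
def gen_ct (hM : 3 ≤ M) (μ : Vr M →₀ ℕ) : ℕ :=
  μ (.q (Fin.castLE hM 0)) + μ (.q (Fin.castLE hM 1)) + μ (.q (Fin.castLE hM 2))

lemma gen_cx_add (μ ν : Vr M →₀ ℕ) : gen_cx (μ + ν) = gen_cx μ + gen_cx ν := by
  simp only [gen_cx, Finsupp.add_apply]; omega

lemma gen_cy_add (μ ν : Vr M →₀ ℕ) : gen_cy (μ + ν) = gen_cy μ + gen_cy ν := by
  simp only [gen_cy, Finsupp.add_apply]; omega

lemma gen_cz_add (μ ν : Vr M →₀ ℕ) : gen_cz (μ + ν) = gen_cz μ + gen_cz ν := by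
  simp only [gen_cz, Finsupp.add_apply]; omega

lemma gen_cq_add (μ ν : Vr M →₀ ℕ) : gen_cq (μ + ν) = gen_cq μ + gen_cq ν := by
  simp only [gen_cq, Finsupp.add_apply, Finset.sum_add_distrib]

lemma gen_cp_add (μ ν : Vr M →₀ ℕ) : gen_cp (μ + ν) = gen_cp μ + gen_cp ν := by
  simp only [gen_cp, Finsupp.add_apply, Finset.sum_add_distrib]

lemma gen_ct_add (hM : 3 ≤ M) (μ ν : Vr M →₀ ℕ) : gen_ct hM (μ + ν) = gen_ct hM μ + gen_ct hM ν := by
  simp only [gen_ct, Finsupp.add_apply]; omega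

/-- the counts of a single variable. -/
lemma gen_cnt_xi (hM : 3 ≤ M) (i : Fin 2) (n : ℕ) :
    gen_cx (Finsupp.single (.xi i : Vr M) n) = n ∧ gen_cy (Finsupp.single (.xi i : Vr M) n) = 0 ∧
    gen_cz (Finsupp.single (.xi i : Vr M) n) = 0 ∧ gen_cq (Finsupp.single (.xi i : Vr M) n) = 0 ∧
    gen_cp (Finsupp.single (.xi i : Vr M) n) = 0 ∧ gen_ct hM (Finsupp.single (.xi i : Vr M) n) = 0 := by
  classical
  refine ⟨?_, ?_, ?_, ?_, ?_, ?_⟩
  · fin_cases i <;> simp [gen_cx]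
  · simp [gen_cy]
  · simp [gen_cz]
  · simp [gen_cq]
  · simp [gen_cp]
  · simp [gen_ct]

lemma gen_cnt_y (hM : 3 ≤ M) (i : Fin 2) (n : ℕ) :
    gen_cx (Finsupp.single (.y i : Vr M) n) = 0 ∧ gen_cy (Finsupp.single (.y i : Vr M) n) = n ∧
    gen_cz (Finsupp.single (.y i : Vr M) n) = 0 ∧ gen_cq (Finsupp.single (.y i : Vr M) n) = 0 ∧
    gen_cp (Finsupp.single (.y i : Vr M) n) = 0 ∧ gen_ct hM (Finsupp.single (.y i : Vr M) n) = 0 := by
  classical
  refine ⟨?_, ?_, ?_, ?_, ?_, ?_⟩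
  · simp [gen_cx]
  · fin_cases i <;> simp [gen_cy]
  · simp [gen_cz]
  · simp [gen_cq]
  · simp [gen_cp]
  · simp [gen_ct]

lemma gen_cnt_z (hM : 3 ≤ M) (i : Fin 2) (n : ℕ) :
    gen_cx (Finsupp.single (.ze i : Vr M) n) = 0 ∧ gen_cy (Finsupp.single (.ze i : Vr M) n) = 0 ∧
    gen_cz (Finsupp.single (.ze i : Vr M) n) = n ∧ gen_cq (Finsupp.single (.ze i : Vr M) n) = 0 ∧
    gen_cp (Finsupp.single (.ze i : Vr M) n) = 0 ∧ gen_ct hM (Finsupp.single (.ze i : Vr M) n) = 0 := by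
  classical
  refine ⟨?_, ?_, ?_, ?_, ?_, ?_⟩
  · simp [gen_cx]
  · simp [gen_cy]
  · fin_cases i <;> simp [gen_cz]
  · simp [gen_cq]
  · simp [gen_cp]
  · simp [gen_ct]

lemma gen_cnt_q (hM : 3 ≤ M) (i : Fin M) (n : ℕ) :
    gen_cx (Finsupp.single (.q i : Vr M) n) = 0 ∧ gen_cy (Finsupp.single (.q i : Vr M) n) = 0 ∧
    gen_cz (Finsupp.single (.q i : Vr M) n) = 0 ∧ gen_cq (Finsupp.single (.q i : Vr M) n) = n ∧
    gen_cp (Finsupp.single (.q i : Vr M) n) = 0 := by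
  classical
  refine ⟨?_, ?_, ?_, ?_, ?_⟩
  · simp [gen_cx]
  · simp [gen_cy]
  · simp [gen_cz]
  · simp [gen_cq, Finsupp.single_apply]
  · simp [gen_cp]

lemma gen_cnt_p (hM : 3 ≤ M) (i : Fin 3) (n : ℕ) :
    gen_cx (Finsupp.single (.p i : Vr M) n) = 0 ∧ gen_cy (Finsupp.single (.p i : Vr M) n) = 0 ∧
    gen_cz (Finsupp.single (.p i : Vr M) n) = 0 ∧ gen_cq (Finsupp.single (.p i : Vr M) n) = 0 ∧
    gen_cp (Finsupp.single (.p i : Vr M) n) = n ∧ gen_ct hM (Finsupp.single (.p i : Vr M) n) = 0 := by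
  classical
  refine ⟨?_, ?_, ?_, ?_, ?_, ?_⟩
  · simp [gen_cx]
  · simp [gen_cy]
  · simp [gen_cz]
  · simp [gen_cq]
  · simp [gen_cp, Finsupp.single_apply]
  · simp [gen_ct]

lemma gen_ct_q3 (hM : 3 ≤ M) (a : Fin 3) (n : ℕ) :
    gen_ct hM (Finsupp.single (.q (Fin.castLE hM a) : Vr M) n) = n := by
  classical
  fin_cases a <;> simp [gen_ct]

lemma gen_ct_q_ge (hM : 3 ≤ M) (j : Fin M) (hj : 3 ≤ j.1) (n : ℕ) :
    gen_ct hM (Finsupp.single (.q j : Vr M) n) = 0 := by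
  classical
  have h : ∀ a : Fin 3, j ≠ Fin.castLE hM a := by
    intro a h
    have h1 : j.1 = a.1 := congrArg Fin.val h
    omega
  simp [gen_ct, h]

lemma gen_cq_eq (hM : 3 ≤ M) (μ : Vr M →₀ ℕ) :
    gen_cq μ = gen_ct hM μ + ∑ j ∈ Finset.univ.filter (fun j : Fin M => 3 ≤ j.1), μ (.q j) := by
  classical
  unfold gen_cq
  rw [← Finset.sum_filter_not_add_sum_filter _ (fun j : Fin M => 3 ≤ j.1)]
  congr 1
  have h : Finset.univ.filter (fun j : Fin M => ¬ 3 ≤ j.1) =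
      Finset.univ.map (Fin.castLEEmb hM) := by
    ext j
    simp only [Finset.mem_filter, Finset.mem_univ, true_and, Finset.mem_map]
    constructor
    · intro hj
      exact ⟨⟨j.1, by omega⟩, Fin.ext rfl⟩
    · rintro ⟨a, rfl⟩
      have := a.2
      simp only [Fin.castLEEmb_apply, Fin.val_castLE]
      omega
  rw [h, Finset.sum_map, Fin.sum_univ_three]
  rfl

/-- remove a variable. -/
lemma gen_rem_var (μ : Vr M →₀ ℕ) (v : Vr M) (h : μ v ≠ 0) :
    ∃ ν, μ = ν + Finsupp.single v 1 :=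
  ⟨μ - Finsupp.single v 1, (tsub_add_cancel_of_le (by
    rw [Finsupp.single_le_iff]; omega)).symm⟩

lemma gen_rem_xi (μ : Vr M →₀ ℕ) (h : gen_cx μ ≠ 0) : ∃ i ν, μ = ν + Finsupp.single (.xi i) 1 := by
  by_cases h0 : μ (.xi 0) = 0
  · have h1 : μ (.xi 1) ≠ 0 := by intro h1; exact h (by simp [gen_cx, h0, h1])
    exact ⟨1, gen_rem_var μ _ h1⟩
  · exact ⟨0, gen_rem_var μ _ h0⟩

lemma gen_rem_y (μ : Vr M →₀ ℕ) (h : gen_cy μ ≠ 0) : ∃ i ν, μ = ν + Finsupp.single (.y i) 1 := by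
  by_cases h0 : μ (.y 0) = 0
  · have h1 : μ (.y 1) ≠ 0 := by intro h1; exact h (by simp [gen_cy, h0, h1])
    exact ⟨1, gen_rem_var μ _ h1⟩
  · exact ⟨0, gen_rem_var μ _ h0⟩

lemma gen_rem_z (μ : Vr M →₀ ℕ) (h : gen_cz μ ≠ 0) : ∃ i ν, μ = ν + Finsupp.single (.ze i) 1 := by
  by_cases h0 : μ (.ze 0) = 0
  · have h1 : μ (.ze 1) ≠ 0 := by intro h1; exact h (by simp [gen_cz, h0, h1])
    exact ⟨1, gen_rem_var μ _ h1⟩
  · exact ⟨0, gen_rem_var μ _ h0⟩

lemma gen_rem_q3 (hM : 3 ≤ M) (μ : Vr M →₀ ℕ) (h : gen_ct hM μ ≠ 0) :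
    ∃ a ν, μ = ν + Finsupp.single (.q (Fin.castLE hM a)) 1 := by
  by_cases h0 : μ (.q (Fin.castLE hM 0)) = 0
  · by_cases h1 : μ (.q (Fin.castLE hM 1)) = 0
    · have h2 : μ (.q (Fin.castLE hM 2)) ≠ 0 := by
        intro h2
        apply h
        unfold gen_ct
        omega
      exact ⟨2, gen_rem_var μ _ h2⟩
    · exact ⟨1, gen_rem_var μ _ h1⟩
  · exact ⟨0, gen_rem_var μ _ h0⟩

lemma gen_rem_p (μ : Vr M →₀ ℕ) (h : gen_cp μ ≠ 0) : ∃ i ν, μ = ν + Finsupp.single (.p i) 1 := by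
  obtain ⟨i, -, hi⟩ := Finset.exists_ne_zero_of_sum_ne_zero h
  exact ⟨i, gen_rem_var μ _ hi⟩

end

section

variable (k : Type u) [Field k] (M : ℕ)

/-- the elements of the subalgebra of `P` generated by `Y, Z, T` of degree `N` in `T`. -/
def GenIn (hM : 3 ≤ M) (N : ℕ) (f : PP k M) : Prop :=
  ∃ a : RR k M, (∀ μ ∈ a.support, Tdeg μ = N ∧ wdeg μ = 0) ∧ psi0 k M hM a = f

variable {k M}
variable {hM : 3 ≤ M} {N : ℕ}

lemma GenIn.zero : GenIn k M hM N 0 := ⟨0, by simp, map_zero _⟩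

lemma GenIn.add {f g : PP k M} (hf : GenIn k M hM N f) (hg : GenIn k M hM N g) :
    GenIn k M hM N (f + g) := by
  classical
  obtain ⟨a, ha, rfl⟩ := hf
  obtain ⟨b, hb, rfl⟩ := hg
  refine ⟨a + b, fun μ hμ => ?_, map_add _ _ _⟩
  rcases Finset.mem_union.mp (MvPolynomial.support_add hμ) with h | h
  · exact ha μ h
  · exact hb μ h

lemma GenIn.smul {f : PP k M} (hf : GenIn k M hM N f) (c : k) : GenIn k M hM N (c • f) := by
  classical
  obtain ⟨a, ha, rfl⟩ := hf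
  refine ⟨c • a, fun μ hμ => ha μ ?_, map_smul _ _ _⟩
  rw [MvPolynomial.mem_support_iff] at hμ ⊢
  intro h
  apply hμ
  rw [MvPolynomial.coeff_smul, h, smul_zero]

lemma GenIn.sub {f g : PP k M} (hf : GenIn k M hM N f) (hg : GenIn k M hM N g) :
    GenIn k M hM N (f - g) := by
  have := hf.add (hg.smul (-1))
  rwa [neg_one_smul, ← sub_eq_add_neg] at this

lemma GenIn.mulX {f : PP k M} (hf : GenIn k M hM N f) (i : Ix M) (n : ℕ)
    (h1 : Tdeg (Finsupp.single i 1) = n) (h2 : wdeg (Finsupp.single i 1) = 0) :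
    GenIn k M hM (N + n) (psi0 k M hM (MvPolynomial.X i) * f) := by
  classical
  obtain ⟨a, ha, rfl⟩ := hf
  refine ⟨MvPolynomial.X i * a, fun μ hμ => ?_, map_mul _ _ _⟩
  rw [MvPolynomial.support_X_mul, Finset.mem_map] at hμ
  obtain ⟨ν, hν, rfl⟩ := hμ
  obtain ⟨h3, h4⟩ := ha ν hν
  simp only [addLeftEmbedding_apply, Tdeg_add, wdeg_add, h1, h2, h3, h4]
  exact ⟨add_comm _ _, trivial⟩

lemma GenIn.mulY {f : PP k M} (hf : GenIn k M hM N f) (j : Fin (M + 1)) :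
    GenIn k M hM N (Ypoly k M j * f) := by
  have := hf.mulX (.Y j) 0 (gen_Tdeg_single_Y j 1) (gen_wdeg_single_Y j 1)
  rwa [gen_psi0_X_Y, add_zero] at this

lemma GenIn.mulZ {f : PP k M} (hf : GenIn k M hM N f) (j : Fin 4) :
    GenIn k M hM N (Zpoly k M j * f) := by
  have := hf.mulX (.Z j) 0 (gen_Tdeg_single_Z j 1) (gen_wdeg_single_Z j 1)
  rwa [gen_psi0_X_Z, add_zero] at this

lemma GenIn.mulT {f : PP k M} (hf : GenIn k M hM N f) (t : Tx) :
    GenIn k M hM (N + 1) (MvPolynomial.monomial (gen_tauT hM t) 1 * f) := by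
  have := hf.mulX (.T t) 1 (gen_Tdeg_single_T t 1) (gen_wdeg_single_T t 1)
  rwa [gen_psi0_X_T, gen_Tpoly_eq] at this

/-- the base case: products of `Tpoly`. -/
lemma gen_base (n : ℕ) : ∀ μ : Vr M →₀ ℕ, gen_cx μ = n → gen_cy μ = n → gen_cz μ = n → gen_ct hM μ = 2 * n →
    gen_cq μ = 2 * n → gen_cp μ = 2 * n → GenIn k M hM n (MvPolynomial.monomial μ 1) := by
  induction n with
  | zero =>
    intro μ h1 h2 h3 h4 h5 h6
    have h0 : μ = 0 := by
      ext v
      rw [Finsupp.zero_apply]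
      cases v with
      | xi i => unfold gen_cx at h1; fin_cases i <;> simp <;> omega
      | y i => unfold gen_cy at h2; fin_cases i <;> simp <;> omega
      | q j =>
        have := Finset.sum_eq_zero_iff.mp (show gen_cq μ = 0 by omega) j (Finset.mem_univ _)
        exact this
      | ze i => unfold gen_cz at h3; fin_cases i <;> simp <;> omega
      | p j =>
        have := Finset.sum_eq_zero_iff.mp (show gen_cp μ = 0 by omega) j (Finset.mem_univ _)
        exact this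
    rw [h0]
    refine ⟨1, fun μ hμ => ?_, ?_⟩
    · have h7 : μ = 0 := by
        have := MvPolynomial.support_monomial_subset (s := (0 : Ix M →₀ ℕ)) (a := (1 : k)) hμ
        simpa using this
      rw [h7]
      simp [Tdeg, wdeg]
    · rw [map_one]; rfl
  | succ n ih =>
    intro μ h1 h2 h3 h4 h5 h6
    obtain ⟨i, μ1, rfl⟩ := gen_rem_xi μ (by omega)
    obtain ⟨a1, a2, a3, a4, a5, a6⟩ := gen_cnt_xi hM i 1
    rw [gen_cx_add, a1] at h1
    rw [gen_cy_add, a2] at h2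
    rw [gen_cz_add, a3] at h3
    rw [gen_cq_add, a4] at h5
    rw [gen_cp_add, a5] at h6
    rw [gen_ct_add, a6] at h4
    obtain ⟨j, μ2, rfl⟩ := gen_rem_y μ1 (by omega)
    obtain ⟨a1, a2, a3, a4, a5, a6⟩ := gen_cnt_y hM j 1
    rw [gen_cx_add, a1] at h1
    rw [gen_cy_add, a2] at h2
    rw [gen_cz_add, a3] at h3
    rw [gen_cq_add, a4] at h5
    rw [gen_cp_add, a5] at h6
    rw [gen_ct_add, a6] at h4
    obtain ⟨l, μ3, rfl⟩ := gen_rem_z μ2 (by omega)
    obtain ⟨a1, a2, a3, a4, a5, a6⟩ := gen_cnt_z hM l 1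
    rw [gen_cx_add, a1] at h1
    rw [gen_cy_add, a2] at h2
    rw [gen_cz_add, a3] at h3
    rw [gen_cq_add, a4] at h5
    rw [gen_cp_add, a5] at h6
    rw [gen_ct_add, a6] at h4
    obtain ⟨a, μ4, rfl⟩ := gen_rem_q3 hM μ3 (by omega)
    obtain ⟨a1, a2, a3, a4, a5⟩ := gen_cnt_q hM (Fin.castLE hM a) 1
    rw [gen_cx_add, a1] at h1
    rw [gen_cy_add, a2] at h2
    rw [gen_cz_add, a3] at h3
    rw [gen_cq_add, a4] at h5
    rw [gen_cp_add, a5] at h6
    rw [gen_ct_add, gen_ct_q3] at h4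
    obtain ⟨b, μ5, rfl⟩ := gen_rem_q3 hM μ4 (by omega)
    obtain ⟨a1, a2, a3, a4, a5⟩ := gen_cnt_q hM (Fin.castLE hM b) 1
    rw [gen_cx_add, a1] at h1
    rw [gen_cy_add, a2] at h2
    rw [gen_cz_add, a3] at h3
    rw [gen_cq_add, a4] at h5
    rw [gen_cp_add, a5] at h6
    rw [gen_ct_add, gen_ct_q3] at h4
    obtain ⟨c, μ6, rfl⟩ := gen_rem_p μ5 (by omega)
    obtain ⟨a1, a2, a3, a4, a5, a6⟩ := gen_cnt_p hM c 1
    rw [gen_cx_add, a1] at h1
    rw [gen_cy_add, a2] at h2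
    rw [gen_cz_add, a3] at h3
    rw [gen_cq_add, a4] at h5
    rw [gen_cp_add, a5] at h6
    rw [gen_ct_add, a6] at h4
    obtain ⟨d, μ7, rfl⟩ := gen_rem_p μ6 (by omega)
    obtain ⟨a1, a2, a3, a4, a5, a6⟩ := gen_cnt_p hM d 1
    rw [gen_cx_add, a1] at h1
    rw [gen_cy_add, a2] at h2
    rw [gen_cz_add, a3] at h3
    rw [gen_cq_add, a4] at h5
    rw [gen_cp_add, a5] at h6
    rw [gen_ct_add, a6] at h4
    have h7 := (ih μ7 (by omega) (by omega) (by omega) (by omega) (by omega) (by omega)).mulT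
      ((i, j, l), a, b, c, d)
    rw [MvPolynomial.monomial_mul, one_mul] at h7
    have e : μ7 + Finsupp.single (Vr.p d) 1 + Finsupp.single (Vr.p c) 1 +
        Finsupp.single (Vr.q (Fin.castLE hM b)) 1 + Finsupp.single (Vr.q (Fin.castLE hM a)) 1 +
        Finsupp.single (Vr.ze l) 1 + Finsupp.single (Vr.y j) 1 + Finsupp.single (Vr.xi i) 1 =
        gen_tauT hM ((i, j, l), a, b, c, d) + μ7 := by
      unfold gen_tauT
      abel
    rw [e]
    exact h7

lemma gen_mono_split2 (μ : Vr M →₀ ℕ) (v w : Vr M) (hvw : v ≠ w) :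
    ∃ ν : Vr M →₀ ℕ, ν v = 0 ∧ ν w = 0 ∧
      μ = ν + Finsupp.single v (μ v) + Finsupp.single w (μ w) := by
  classical
  refine ⟨(μ.erase v).erase w, ?_, ?_, ?_⟩
  · rw [Finsupp.erase_ne hvw, Finsupp.erase_same]
  · rw [Finsupp.erase_same]
  · ext u
    simp only [Finsupp.add_apply, Finsupp.single_apply]
    by_cases h1 : u = v
    · subst h1
      rw [Finsupp.erase_ne hvw, Finsupp.erase_same, if_pos rfl, if_neg (Ne.symm hvw)]
      omega
    · by_cases h2 : u = w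
      · subst h2
        rw [Finsupp.erase_same, if_neg hvw, if_pos rfl]
        omega
      · rw [Finsupp.erase_ne h2, Finsupp.erase_ne h1, if_neg (Ne.symm h1), if_neg (Ne.symm h2)]
        omega

lemma gen_mono_pow (v : Vr M) (n : ℕ) : (vx v ^ n : PP k M) =
    MvPolynomial.monomial (Finsupp.single v n) 1 := by
  rw [MvPolynomial.X_pow_eq_monomial]

lemma gen_mono_pow2 (v w : Vr M) (a b : ℕ) (ν : Vr M →₀ ℕ) :
    (vx v ^ a * vx w ^ b * MvPolynomial.monomial ν 1 : PP k M) =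
      MvPolynomial.monomial (ν + Finsupp.single v a + Finsupp.single w b) 1 := by
  rw [gen_mono_pow, gen_mono_pow, MvPolynomial.monomial_mul, MvPolynomial.monomial_mul, one_mul, one_mul]
  congr 1
  abel_nf

/-- one step in the block `y, q`. -/
lemma gen_stepY (hM : 3 ≤ M) (N : ℕ) (μ : Vr M →₀ ℕ) (j : Fin M) (hy : M ≤ gen_cy μ)
    (H : ∀ b0 b1 (ν : Vr M →₀ ℕ), b0 + b1 + 1 = gen_cy μ → ν (.y 0) = 0 → ν (.y 1) = 0 →
      μ = ν + Finsupp.single (.y 0) (μ (.y 0)) + Finsupp.single (.y 1) (μ (.y 1)) →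
      GenIn k M hM N (MvPolynomial.monomial
        (ν + Finsupp.single (.y 0) b0 + Finsupp.single (.y 1) b1) 1)) :
    GenIn k M hM N (MvPolynomial.monomial (μ + Finsupp.single (.q j) 1) 1) := by
  obtain ⟨ν, h0, h1, h2⟩ := gen_mono_split2 μ (.y 0) (.y 1) (by simp)
  have key := gen_tele (GenIn k M hM N) (fun a b ha hb => ha.sub hb) (vx (.y 0) : PP k M)
    (vx (.y 1)) (fun i => if h : i < M then vx (.q ⟨i, h⟩) else 0) (MvPolynomial.monomial ν 1)
    M (gen_cy μ) hy (by simp) ?_ j.1 j.2 (μ (.y 0)) (μ (.y 1)) rfl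
  · rw [dif_pos j.2] at key
    have e : (vx (.y 0) ^ μ (.y 0) * vx (.y 1) ^ μ (.y 1) * vx (.q ⟨j.1, j.2⟩) *
        MvPolynomial.monomial ν 1 : PP k M) =
        MvPolynomial.monomial (μ + Finsupp.single (.q j) 1) 1 := by
      have e1 : (vx (.y 0) ^ μ (.y 0) * vx (.y 1) ^ μ (.y 1) * vx (.q ⟨j.1, j.2⟩) *
        MvPolynomial.monomial ν 1 : PP k M) =
        (vx (.y 0) ^ μ (.y 0) * vx (.y 1) ^ μ (.y 1) * MvPolynomial.monomial ν 1) *
          MvPolynomial.monomial (Finsupp.single (.q j) 1) 1 := by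
        have : (vx (.q ⟨j.1, j.2⟩) : PP k M) = MvPolynomial.monomial (Finsupp.single (.q j) 1) 1 :=
          rfl
        rw [this]; ring
      rw [e1, gen_mono_pow2, ← h2, MvPolynomial.monomial_mul, one_mul]
    rw [← e]
    exact key
  · intro i hi b0 b1 hb
    rw [gen_mono_pow2]
    have h3 := (H b0 b1 ν hb h0 h1 h2).mulY ⟨i, by omega⟩
    have e : (vx (.y 0) * (if h : i < M then vx (.q ⟨i, h⟩) else 0) +
        if 1 ≤ i then vx (.y 1) * (if h : i - 1 < M then vx (.q ⟨i - 1, h⟩) else 0) else 0 :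
          PP k M) = Ypoly k M ⟨i, by omega⟩ := by
      unfold Ypoly
      congr 1
      · by_cases h : i < M
        · rw [dif_pos h, dif_pos h]
        · rw [dif_neg h, dif_neg h, mul_zero]
      · by_cases h : 1 ≤ i
        · rw [if_pos h, dif_pos h, dif_pos (show i - 1 < M by omega)]
        · rw [if_neg h, dif_neg h]
    rw [e]
    exact h3

/-- one step in the block `ζ, p`. -/
lemma gen_stepZ (hM : 3 ≤ M) (N : ℕ) (μ : Vr M →₀ ℕ) (j : Fin 3) (hy : 3 ≤ gen_cz μ)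
    (H : ∀ b0 b1 (ν : Vr M →₀ ℕ), b0 + b1 + 1 = gen_cz μ → ν (.ze 0) = 0 → ν (.ze 1) = 0 →
      μ = ν + Finsupp.single (.ze 0) (μ (.ze 0)) + Finsupp.single (.ze 1) (μ (.ze 1)) →
      GenIn k M hM N (MvPolynomial.monomial
        (ν + Finsupp.single (.ze 0) b0 + Finsupp.single (.ze 1) b1) 1)) :
    GenIn k M hM N (MvPolynomial.monomial (μ + Finsupp.single (.p j) 1) 1) := by
  obtain ⟨ν, h0, h1, h2⟩ := gen_mono_split2 μ (.ze 0) (.ze 1) (by simp)
  have key := gen_tele (GenIn k M hM N) (fun a b ha hb => ha.sub hb) (vx (.ze 0) : PP k M)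
    (vx (.ze 1)) (fun i => if h : i < 3 then vx (.p ⟨i, h⟩) else 0) (MvPolynomial.monomial ν 1)
    3 (gen_cz μ) hy (by simp) ?_ j.1 j.2 (μ (.ze 0)) (μ (.ze 1)) rfl
  · rw [dif_pos j.2] at key
    have e : (vx (.ze 0) ^ μ (.ze 0) * vx (.ze 1) ^ μ (.ze 1) * vx (.p ⟨j.1, j.2⟩) *
        MvPolynomial.monomial ν 1 : PP k M) =
        MvPolynomial.monomial (μ + Finsupp.single (.p j) 1) 1 := by
      have e1 : (vx (.ze 0) ^ μ (.ze 0) * vx (.ze 1) ^ μ (.ze 1) * vx (.p ⟨j.1, j.2⟩) *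
        MvPolynomial.monomial ν 1 : PP k M) =
        (vx (.ze 0) ^ μ (.ze 0) * vx (.ze 1) ^ μ (.ze 1) * MvPolynomial.monomial ν 1) *
          MvPolynomial.monomial (Finsupp.single (.p j) 1) 1 := by
        have : (vx (.p ⟨j.1, j.2⟩) : PP k M) = MvPolynomial.monomial (Finsupp.single (.p j) 1) 1 :=
          rfl
        rw [this]; ring
      rw [e1, gen_mono_pow2, ← h2, MvPolynomial.monomial_mul, one_mul]
    rw [← e]
    exact key
  · intro i hi b0 b1 hb
    rw [gen_mono_pow2]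
    have h3 := (H b0 b1 ν hb h0 h1 h2).mulZ ⟨i, by omega⟩
    have e : (vx (.ze 0) * (if h : i < 3 then vx (.p ⟨i, h⟩) else 0) +
        if 1 ≤ i then vx (.ze 1) * (if h : i - 1 < 3 then vx (.p ⟨i - 1, h⟩) else 0) else 0 :
          PP k M) = Zpoly k M ⟨i, by omega⟩ := by
      unfold Zpoly
      congr 1
      · by_cases h : i < 3
        · rw [dif_pos h, dif_pos h]
        · rw [dif_neg h, dif_neg h, mul_zero]
      · by_cases h : 1 ≤ i
        · rw [if_pos h, dif_pos h, dif_pos (show i - 1 < 3 by omega)]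
        · rw [if_neg h, dif_neg h]
    rw [e]
    exact h3

/-- the main claim for monomials. -/
lemma gen_mono (hM : 3 ≤ M) (N : ℕ) (hN : M ≤ N) (m : ℕ) : ∀ (r s : ℕ), r + s = m →
    ∀ μ : Vr M →₀ ℕ, gen_cx μ = N → gen_cy μ = N + r → gen_cz μ = N + s → 2 * N ≤ gen_ct hM μ →
    gen_cq μ = 2 * N + r → gen_cp μ = 2 * N + s → GenIn k M hM N (MvPolynomial.monomial μ 1) := by
  induction m with
  | zero =>
    intro r s hrs μ h1 h2 h3 h4 h5 h6
    obtain ⟨rfl, rfl⟩ : r = 0 ∧ s = 0 := by omega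
    have h7 := gen_cq_eq hM μ
    exact gen_base N μ h1 (by omega) (by omega) (by omega) (by omega) (by omega)
  | succ m ih =>
    intro r s hrs μ h1 h2 h3 h4 h5 h6
    by_cases hr : r = 0
    · -- `s ≥ 1`
      obtain ⟨j, μ', rfl⟩ := gen_rem_p μ (by omega)
      obtain ⟨a1, a2, a3, a4, a5, a6⟩ := gen_cnt_p hM j 1
      rw [gen_cx_add, a1] at h1
      rw [gen_cy_add, a2] at h2
      rw [gen_cz_add, a3] at h3
      rw [gen_cq_add, a4] at h5
      rw [gen_cp_add, a5] at h6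
      rw [gen_ct_add, a6] at h4
      refine gen_stepZ hM N μ' j (by omega) ?_
      intro b0 b1 ν hb _ _ hμ
      obtain ⟨c1, c2, c3, c4, c5, c6⟩ := gen_cnt_z hM 0 (μ' (.ze 0))
      obtain ⟨d1, d2, d3, d4, d5, d6⟩ := gen_cnt_z hM 1 (μ' (.ze 1))
      obtain ⟨e1, e2, e3, e4, e5, e6⟩ := gen_cnt_z hM 0 b0
      obtain ⟨f1, f2, f3, f4, f5, f6⟩ := gen_cnt_z hM 1 b1
      have g1 := congrArg gen_cx hμ
      have g2 := congrArg gen_cy hμ
      have g3 := congrArg gen_cz hμ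
      have g4 := congrArg gen_cq hμ
      have g5 := congrArg gen_cp hμ
      have g6 := congrArg (gen_ct hM) hμ
      rw [gen_cx_add, gen_cx_add, c1, d1] at g1
      rw [gen_cy_add, gen_cy_add, c2, d2] at g2
      rw [gen_cz_add, gen_cz_add, c3, d3] at g3
      rw [gen_cq_add, gen_cq_add, c4, d4] at g4
      rw [gen_cp_add, gen_cp_add, c5, d5] at g5
      rw [gen_ct_add, gen_ct_add, c6, d6] at g6
      have g7 : gen_cz μ' = μ' (.ze 0) + μ' (.ze 1) := rfl
      refine ih r (s - 1) (by omega) _ ?_ ?_ ?_ ?_ ?_ ?_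
      · rw [gen_cx_add, gen_cx_add, e1, f1]; omega
      · rw [gen_cy_add, gen_cy_add, e2, f2]; omega
      · rw [gen_cz_add, gen_cz_add, e3, f3]; omega
      · rw [gen_ct_add, gen_ct_add, e6, f6]; omega
      · rw [gen_cq_add, gen_cq_add, e4, f4]; omega
      · rw [gen_cp_add, gen_cp_add, e5, f5]; omega
    · -- `r ≥ 1`
      have hj : ∃ (j : Fin M) (μ' : Vr M →₀ ℕ), μ = μ' + Finsupp.single (.q j) 1 ∧
          2 * N ≤ gen_ct hM μ' := by
        by_cases h7 : 2 * N < gen_ct hM μ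
        · obtain ⟨a, μ', rfl⟩ := gen_rem_q3 hM μ (by omega)
          rw [gen_ct_add, gen_ct_q3] at h7
          exact ⟨_, μ', rfl, by omega⟩
        · have h8 := gen_cq_eq hM μ
          have h9 : ∑ j ∈ Finset.univ.filter (fun j : Fin M => 3 ≤ j.1), μ (.q j) ≠ 0 := by omega
          obtain ⟨j, hj, hj2⟩ := Finset.exists_ne_zero_of_sum_ne_zero h9
          obtain ⟨μ', rfl⟩ := gen_rem_var μ _ hj2
          rw [gen_ct_add, gen_ct_q_ge hM j (Finset.mem_filter.mp hj).2] at h4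
          exact ⟨j, μ', rfl, by omega⟩
      obtain ⟨j, μ', rfl, h7⟩ := hj
      obtain ⟨a1, a2, a3, a4, a5⟩ := gen_cnt_q hM j 1
      rw [gen_cx_add, a1] at h1
      rw [gen_cy_add, a2] at h2
      rw [gen_cz_add, a3] at h3
      rw [gen_cq_add, a4] at h5
      rw [gen_cp_add, a5] at h6
      refine gen_stepY hM N μ' j (by omega) ?_
      intro b0 b1 ν hb _ _ hμ
      obtain ⟨c1, c2, c3, c4, c5, c6⟩ := gen_cnt_y hM 0 (μ' (.y 0))
      obtain ⟨d1, d2, d3, d4, d5, d6⟩ := gen_cnt_y hM 1 (μ' (.y 1))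
      obtain ⟨e1, e2, e3, e4, e5, e6⟩ := gen_cnt_y hM 0 b0
      obtain ⟨f1, f2, f3, f4, f5, f6⟩ := gen_cnt_y hM 1 b1
      have g1 := congrArg gen_cx hμ
      have g2 := congrArg gen_cy hμ
      have g3 := congrArg gen_cz hμ
      have g4 := congrArg gen_cq hμ
      have g5 := congrArg gen_cp hμ
      have g6 := congrArg (gen_ct hM) hμ
      rw [gen_cx_add, gen_cx_add, c1, d1] at g1
      rw [gen_cy_add, gen_cy_add, c2, d2] at g2
      rw [gen_cz_add, gen_cz_add, c3, d3] at g3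
      rw [gen_cq_add, gen_cq_add, c4, d4] at g4
      rw [gen_cp_add, gen_cp_add, c5, d5] at g5
      rw [gen_ct_add, gen_ct_add, c6, d6] at g6
      have g8 : gen_cy μ' = μ' (.y 0) + μ' (.y 1) := rfl
      refine ih (r - 1) s (by omega) _ ?_ ?_ ?_ ?_ ?_ ?_
      · rw [gen_cx_add, gen_cx_add, e1, f1]; omega
      · rw [gen_cy_add, gen_cy_add, e2, f2]; omega
      · rw [gen_cz_add, gen_cz_add, e3, f3]; omega
      · rw [gen_ct_add, gen_ct_add, e6, f6]; omega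
      · rw [gen_cq_add, gen_cq_add, e4, f4]; omega
      · rw [gen_cp_add, gen_cp_add, e5, f5]; omega

end

variable (k : Type u) [Field k] (M : ℕ)

theorem gen (hM : 3 ≤ M) (N : ℕ) (hN : M ≤ N) (x : Pc k (dN N) (st0 M))
    (hx : SuppOn (GoodE M hM N) x.1) :
    ∃ a : RR k M, (∀ μ ∈ a.support, Tdeg μ = N ∧ wdeg μ = 0) ∧
      psi0 k M hM a • one0 k M = x.1 := by
  obtain ⟨f, hf⟩ := smul_one0_surjective x.1
  simp only at hf
  have key : GenIn k M hM N f := by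
    rw [f.as_sum]
    refine Finset.sum_induction _ (GenIn k M hM N) (fun _ _ h h' => h.add h') GenIn.zero ?_
    intro μ hμ
    have h1 : (x.1 : X k (st0 M)) ⟨toZ μ, inSt_toZ μ⟩ ≠ 0 := by
      rw [← hf, smul_one0_apply]
      exact MvPolynomial.mem_support_iff.mp hμ
    have h2 : deg3 (toZ μ) = dN N := x.2 _ h1
    obtain ⟨h3, h4, h5⟩ := hx _ h1
    simp only [deg3, dN, Prod.mk.injEq, toZ] at h2
    simp only [toZ] at h3 h4 h5
    obtain ⟨h6, h7, h8⟩ := h2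
    have e1 : ((gen_cx μ : ℕ) : ℤ) = N := by unfold gen_cx; push_cast; exact h6
    have e2 : ((gen_cq μ : ℕ) : ℤ) - gen_cy μ = N := by unfold gen_cq gen_cy; push_cast; linarith
    have e3 : ((gen_cp μ : ℕ) : ℤ) - gen_cz μ = N := by unfold gen_cp gen_cz; push_cast; linarith
    have e4 : (N : ℤ) ≤ gen_cy μ := by unfold gen_cy; push_cast; exact h3
    have e5 : (N : ℤ) ≤ gen_cz μ := by unfold gen_cz; push_cast; exact h4
    have e6 : 2 * (N : ℤ) ≤ gen_ct hM μ := by unfold gen_ct; push_cast; exact h5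
    have h9 := gen_mono (k := k) hM N hN (gen_cy μ - N + (gen_cz μ - N)) (gen_cy μ - N) (gen_cz μ - N) rfl μ
      (by omega) (by omega) (by omega) (by omega) (by omega) (by omega)
    have e : (MvPolynomial.monomial μ (MvPolynomial.coeff μ f) : PP k M) =
        MvPolynomial.coeff μ f • MvPolynomial.monomial μ 1 := by
      rw [MvPolynomial.smul_monomial, smul_eq_mul, mul_one]
    rw [e]
    exact h9.smul _
  obtain ⟨a, ha, ha2⟩ := key
  exact ⟨a, ha, by rw [ha2]; exact hf⟩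

end CC5166
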