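import Mathlib

universe u

open Polynomial

namespace CC5166

namespace GinjX

/-- powers: `h0 ^ i * θ i = (-h1) ^ i * θ 0`. -/
lemma pow_rel {k : Type u} [Field k] {b : ℕ} (h0 h1 : k[X]) (θ : ℕ → k[X])
    (h : ∀ i, i < b → h0 * θ (i + 1) + h1 * θ i = 0) :
    ∀ i, i ≤ b → h0 ^ i * θ i = (-h1) ^ i * θ 0 := by
  intro i
  induction i with
  | zero => intro _; simp
  | succ i ih =>
    intro hi
    have e := h i (by omega)
    have e2 := ih (by omega)
    have e3 : h0 * θ (i + 1) = -h1 * θ i := by linear_combination e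
    calc h0 ^ (i + 1) * θ (i + 1) = h0 ^ i * (h0 * θ (i + 1)) := by ring
      _ = -h1 * (h0 ^ i * θ i) := by rw [e3]; ring
      _ = (-h1) ^ (i + 1) * θ 0 := by rw [e2]; ring

lemma eq_zero_of_pow_dvd {k : Type u} [Field k] {N b : ℕ} (hb : N ≤ b + 1) {p f : k[X]}
    (hp : 0 < p.natDegree) (hf : f ∈ degreeLT k (N - 1)) (hd : p ^ b ∣ f) : f = 0 := by
  by_contra hne
  rw [mem_degreeLT] at hf
  have h1 : f.natDegree < N - 1 := (natDegree_lt_iff_degree_lt hne).2 hf
  have h2 := natDegree_le_of_dvd hd hne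
  rw [natDegree_pow] at h2
  have h3 : b * 1 ≤ b * p.natDegree := Nat.mul_le_mul_left b hp
  omega

lemma key {k : Type u} [Field k] {N b : ℕ} (hb : N ≤ b + 1) (h0 h1 : k[X])
    (hc : IsCoprime h0 h1) (n0 : h0 ≠ 0) (n1 : h1 ≠ 0) (hd : 0 < h0.natDegree ∨ 0 < h1.natDegree)
    (θ : ℕ → k[X]) (hθ : ∀ i, θ i ∈ degreeLT k (N - 1))
    (h : ∀ i, i < b → h0 * θ (i + 1) + h1 * θ i = 0) : ∀ i, i ≤ b → θ i = 0 := by
  have hp := pow_rel h0 h1 θ h b le_rfl
  rcases hd with hd | hd
  · have hz : θ 0 = 0 := by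
      refine eq_zero_of_pow_dvd hb hd (hθ 0) ?_
      refine IsCoprime.dvd_of_dvd_mul_left (hc.neg_right.pow (m := b) (n := b)) ?_
      exact ⟨θ b, hp.symm⟩
    intro i
    induction i with
    | zero => intro _; exact hz
    | succ i ih =>
      intro hi
      have e := h i (by omega)
      rw [ih (by omega), mul_zero, add_zero] at e
      exact (mul_eq_zero.1 e).resolve_left n0
  · have hz : θ b = 0 := by
      have hdd : 0 < (-h1).natDegree := by rwa [natDegree_neg]
      refine eq_zero_of_pow_dvd hb hdd (hθ b) ?_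
      refine IsCoprime.dvd_of_dvd_mul_left (hc.symm.neg_left.pow (m := b) (n := b)) ?_
      exact ⟨θ 0, hp⟩
    have down : ∀ j, j ≤ b → θ (b - j) = 0 := by
      intro j
      induction j with
      | zero => intro _; simpa using hz
      | succ j ih =>
        intro hj
        have e := h (b - (j + 1)) (by omega)
        have e2 : b - (j + 1) + 1 = b - j := by omega
        rw [e2, ih (by omega), mul_zero, zero_add] at e
        exact (mul_eq_zero.1 e).resolve_left n1
    intro i hi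
    have := down (b - i) (by omega)
    rwa [show b - (b - i) = i by omega] at this

lemma qcoeff {k : Type u} [Field k] (a b c : k) :
    (C a * X ^ 2 + C b * X + C c : k[X]).coeff 0 = c ∧
    (C a * X ^ 2 + C b * X + C c : k[X]).coeff 1 = b ∧
    (C a * X ^ 2 + C b * X + C c : k[X]).coeff 2 = a := by
  refine ⟨?_, ?_, ?_⟩ <;> simp [coeff_X, coeff_C]

end GinjX

theorem ginj {k : Type u} [Field k] {N b : ℕ} (hb : N ≤ b + 1) (z0 z1 : k)
    (hz : z0 ≠ 0 ∨ z1 ≠ 0) (θ : ℕ → k[X]) (hθ : ∀ i, θ i ∈ degreeLT k (N - 1))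
    (h : ∀ i, i < b → (C (z0 ^ 2) * X ^ 2 + C (z0 * z1) * X + C (z1 ^ 2)) * θ (i + 1) +
      (C (z1 ^ 2) * X ^ 2 + C (z0 ^ 2)) * θ i = 0) : ∀ i, i ≤ b → θ i = 0 := by
  classical
  set g0 : k[X] := C (z0 ^ 2) * X ^ 2 + C (z0 * z1) * X + C (z1 ^ 2) with hg0
  set g1 : k[X] := C (z1 ^ 2) * X ^ 2 + C (z0 ^ 2) with hg1
  obtain ⟨c00, c01, c02⟩ := GinjX.qcoeff (z0 ^ 2) (z0 * z1) (z1 ^ 2)
  obtain ⟨c10, c11, c12⟩ := GinjX.qcoeff (z1 ^ 2) 0 (z0 ^ 2)
  have hg1' : (C (z1 ^ 2) * X ^ 2 + C 0 * X + C (z0 ^ 2) : k[X]) = g1 := by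
    rw [hg1, C_0, zero_mul, add_zero]
  rw [hg1'] at c10 c11 c12
  rw [← hg0] at c00 c01 c02
  have n0 : g0 ≠ 0 := by
    intro e
    rw [e] at c00 c02
    rw [coeff_zero] at c00 c02
    rcases hz with hz | hz
    · exact hz (pow_eq_zero_iff (two_ne_zero) |>.1 c02.symm)
    · exact hz (pow_eq_zero_iff (two_ne_zero) |>.1 c00.symm)
  have n1 : g1 ≠ 0 := by
    intro e
    rw [e] at c10 c12
    rw [coeff_zero] at c10 c12
    rcases hz with hz | hz
    · exact hz (pow_eq_zero_iff (two_ne_zero) |>.1 c10.symm)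
    · exact hz (pow_eq_zero_iff (two_ne_zero) |>.1 c12.symm)
  obtain ⟨h0, h1, e0, e1, hu⟩ := extract_gcd g0 g1
  have hc : IsCoprime h0 h1 := (gcd_isUnit_iff h0 h1).1 hu
  set d := GCDMonoid.gcd g0 g1 with hd
  have nd : d ≠ 0 := by
    intro e
    rw [e, zero_mul] at e0
    exact n0 e0
  have nh0 : h0 ≠ 0 := by
    intro e
    rw [e, mul_zero] at e0
    exact n0 e0
  have nh1 : h1 ≠ 0 := by
    intro e
    rw [e, mul_zero] at e1
    exact n1 e1
  have hdeg : 0 < h0.natDegree ∨ 0 < h1.natDegree := by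
    by_contra hcon
    push Not at hcon
    obtain ⟨q0, q1⟩ := hcon
    have q0' := eq_C_of_natDegree_le_zero q0
    have q1' := eq_C_of_natDegree_le_zero q1
    set a := h0.coeff 0 with ha
    set c := h1.coeff 0 with hcdef
    have na : a ≠ 0 := by
      intro e
      rw [e, C_0] at q0'
      exact nh0 q0'
    have nc : c ≠ 0 := by
      intro e
      rw [e, C_0] at q1'
      exact nh1 q1'
    have e : C c * g0 = C a * g1 := by
      rw [e0, e1, q0', q1']
      ring
    have f0 : c * z1 ^ 2 = a * z0 ^ 2 := by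
      have := congrArg (fun p => coeff p 0) e
      simp only [coeff_C_mul, c00, c10] at this
      exact this
    have f1 : c * (z0 * z1) = 0 := by
      have := congrArg (fun p => coeff p 1) e
      simp only [coeff_C_mul, c01, c11, mul_zero] at this
      exact this
    rcases mul_eq_zero.1 f1 with f1 | f1
    · exact nc f1
    rcases mul_eq_zero.1 f1 with f1 | f1
    · rw [f1] at f0
      have : z1 = 0 := by
        have h3 : c * z1 ^ 2 = 0 := by rw [f0]; ring
        exact (pow_eq_zero_iff (two_ne_zero)).1 ((mul_eq_zero.1 h3).resolve_left nc)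
      rcases hz with hz | hz
      · exact hz f1
      · exact hz this
    · rw [f1] at f0
      have : z0 = 0 := by
        have h3 : a * z0 ^ 2 = 0 := by rw [← f0]; ring
        exact (pow_eq_zero_iff (two_ne_zero)).1 ((mul_eq_zero.1 h3).resolve_left na)
      rcases hz with hz | hz
      · exact hz this
      · exact hz f1
  refine GinjX.key hb h0 h1 hc nh0 nh1 hdeg θ hθ fun i hi => ?_
  have e := h i hi
  rw [e0, e1] at e
  have e' : d * (h0 * θ (i + 1) + h1 * θ i) = 0 := by
    linear_combination e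
  exact (mul_eq_zero.1 e').resolve_left nd

end CC5166
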