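import Mathlib

universe u

namespace CC5166

/-- In an idempotent situation: if `B ^ 2 ≤ A ^ 2` then `(A + B) ^ (n + 1) = A ^ (n + 1) + A ^ n B`. -/
theorem IdArith.sup_pow {R : Type u} [CommRing R] (A B : Ideal R) (h : B * B ≤ A * A) (n : ℕ) :
    (A ⊔ B) ^ (n + 1) = A ^ (n + 1) ⊔ A ^ n * B := by
  induction n with
  | zero => rw [zero_add, pow_one, pow_one, pow_zero, Ideal.one_eq_top, Ideal.top_mul]
  | succ n ih =>
    rw [pow_succ, ih, Ideal.sup_mul, Ideal.mul_sup, Ideal.mul_sup]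
    have h1 : A ^ n * B * A = A ^ (n + 1) * B := by rw [pow_succ]; ring
    have h2 : A ^ n * B * B ≤ A ^ (n + 1) * A := by
      have h3 : A ^ n * B * B = A ^ n * (B * B) := by ring
      have h4 : A ^ (n + 1) * A = A ^ n * (A * A) := by rw [pow_succ]; ring
      rw [h3, h4]
      exact Ideal.mul_mono_right h
    rw [h1, ← pow_succ]
    rw [← pow_succ] at h2
    refine le_antisymm ?_ ?_
    · refine sup_le le_rfl (sup_le le_sup_right (h2.trans le_sup_left))
    · exact le_sup_left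

theorem IdArith.sq_le {R : Type u} [CommRing R] (a b : R) :
    Ideal.span {a * b} * Ideal.span {a * b} ≤
      Ideal.span {a ^ 2, b ^ 2} * Ideal.span {a ^ 2, b ^ 2} := by
  rw [Ideal.span_singleton_mul_span_singleton, Ideal.span_singleton_le_iff_mem]
  have h : a * b * (a * b) = a ^ 2 * b ^ 2 := by ring
  rw [h]
  exact Ideal.mul_mem_mul (Ideal.subset_span (by simp)) (Ideal.subset_span (by simp))

theorem ideal_pow_formula {R : Type u} [CommRing R] (K Q : Ideal R) (hQK : Q ≤ K) (a b : R)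
    (n : ℕ) (hn : 1 ≤ n) :
    (K * Ideal.span {a ^ 2, b ^ 2} ⊔ Q * Ideal.span {a * b}) ^ n =
      K ^ n * Ideal.span {a ^ 2, b ^ 2} ^ n ⊔
        K ^ (n - 1) * Q * (Ideal.span {a * b} * Ideal.span {a ^ 2, b ^ 2} ^ (n - 1)) := by
  obtain ⟨m, rfl⟩ : ∃ m, n = m + 1 := ⟨n - 1, by omega⟩
  have h1 : Q * Ideal.span {a * b} * (Q * Ideal.span {a * b}) ≤
      K * Ideal.span {a ^ 2, b ^ 2} * (K * Ideal.span {a ^ 2, b ^ 2}) := by
    have e1 : Q * Ideal.span {a * b} * (Q * Ideal.span {a * b}) =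
        (Q * Q) * (Ideal.span {a * b} * Ideal.span {a * b}) := by ring
    have e2 : K * Ideal.span {a ^ 2, b ^ 2} * (K * Ideal.span {a ^ 2, b ^ 2}) =
        (K * K) * (Ideal.span {a ^ 2, b ^ 2} * Ideal.span {a ^ 2, b ^ 2}) := by ring
    rw [e1, e2]
    exact Ideal.mul_mono (Ideal.mul_mono hQK hQK) (IdArith.sq_le a b)
  rw [IdArith.sup_pow _ _ h1 m, mul_pow, Nat.add_sub_cancel]
  congr 1
  rw [mul_pow]
  ring

theorem span_pow_two_mul {R : Type u} [CommRing R] (a b : R) (n : ℕ) (hn : 1 ≤ n) :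
    Ideal.span {a, b} ^ (2 * n) =
      Ideal.span {a ^ 2, b ^ 2} ^ n ⊔
        Ideal.span {a * b} * Ideal.span {a ^ 2, b ^ 2} ^ (n - 1) := by
  obtain ⟨m, rfl⟩ : ∃ m, n = m + 1 := ⟨n - 1, by omega⟩
  have h1 : Ideal.span {a, b} ^ 2 = Ideal.span {a ^ 2, b ^ 2} ⊔ Ideal.span {a * b} := by
    rw [sq, Ideal.span_pair_mul_span_pair, ← Ideal.span_union]
    congr 1
    ext x
    simp only [Set.mem_insert_iff, Set.mem_singleton_iff, Set.mem_union, sq, mul_comm b a]
    tauto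
  rw [pow_mul, h1, IdArith.sup_pow _ _ (IdArith.sq_le a b) m, Nat.add_sub_cancel]
  congr 1
  ring

end CC5166
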