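import Pool.Agent.Lib.MP_cc5166_ag.KSZero

/-!
Vanishing of the kernels `KS` over arbitrary fields.
-/

universe u

open Polynomial

namespace CC5166

theorem KS_bot_of_algebra (k K : Type u) [Field k] [Field K] [Algebra k K] {N b c : ℕ}
    (h : KS K N b c = ⊥) : KS k N b c = ⊥ := by
  rw [Submodule.eq_bot_iff]
  intro θ hθ
  obtain ⟨h1, h2, h3⟩ := mem_KS.mp hθ
  have hm : (fun i j => (θ i j).map (algebraMap k K)) ∈ KS K N b c := by
    rw [mem_KS]
    refine ⟨fun i j => ?_, fun i j hij => ?_, fun i j hi hj => ?_⟩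
    · have h4 := h1 i j
      rw [mem_degreeLT] at h4 ⊢
      exact lt_of_le_of_lt degree_map_le h4
    · rw [h2 i j hij, Polynomial.map_zero]
    · have h4 := congrArg (Polynomial.map (algebraMap k K)) (h3 i j hi hj)
      simpa using h4
  rw [h, Submodule.mem_bot] at hm
  funext i j
  have h4 := congrFun (congrFun hm i) j
  simp only [Pi.zero_apply] at h4 ⊢
  exact (Polynomial.map_eq_zero (algebraMap k K)).mp h4

theorem KS_b' (k : Type u) [Field k] (N : ℕ) :
    ∃ B : ℕ, ∀ b, B ≤ b → KS k N b (N + 3) = ⊥ := by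
  obtain ⟨B, hB⟩ := KS_b (AlgebraicClosure k) N
  exact ⟨B, fun b hb => KS_bot_of_algebra k (AlgebraicClosure k) (hB b hb)⟩

theorem KS_c' (k : Type u) [Field k] (N b : ℕ) (hb : N ≤ b + 1) :
    ∃ C : ℕ, ∀ c, C ≤ c → KS k N b c = ⊥ := by
  obtain ⟨C, hC⟩ := KS_c (AlgebraicClosure k) N b hb
  exact ⟨C, fun c hc => KS_bot_of_algebra k (AlgebraicClosure k) (hC c hc)⟩

end CC5166
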