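import Mathlib

universe u

namespace CC5166

section

variable {k V W : Type*} [Field k] [IsAlgClosed k] [AddCommGroup V] [Module k V]
  [FiniteDimensional k V] [AddCommGroup W] [Module k W]

/-- The decreasing chain of subspaces reached by `B⁻¹ A`. -/
def pencilChain (A B : V →ₗ[k] W) : ℕ → Submodule k V
  | 0 => ⊤
  | j + 1 => ((pencilChain A B j).map B).comap A

omit [IsAlgClosed k] [FiniteDimensional k V] in
theorem pencilChain_le (A B : V →ₗ[k] W) (j : ℕ) : pencilChain A B (j + 1) ≤ pencilChain A B j := by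
  induction j with
  | zero => exact le_top
  | succ j ih => exact Submodule.comap_mono (Submodule.map_mono ih)

theorem pencil_fixed (A B : V →ₗ[k] W)
    (h : ∀ s t : k, (s ≠ 0 ∨ t ≠ 0) → Function.Injective (s • A + t • B)) (U : Submodule k V)
    (hU : (U.map B).comap A = U) : U = ⊥ := by
  by_contra hne
  have hB : Function.Injective B := by
    have h1 := h 0 1 (Or.inr one_ne_zero)
    rwa [zero_smul, zero_add, one_smul] at h1
  have hA : ∀ x ∈ U, A x ∈ U.map B := fun x hx => by
    rw [← hU] at hx
    exact hx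
  have hnt : Nontrivial U := Submodule.nontrivial_iff_ne_bot.2 hne
  let e := Submodule.equivMapOfInjective B hB U
  let T : Module.End k U := e.symm.toLinearMap ∘ₗ (A.restrict hA)
  have hT : ∀ x : U, B (T x : V) = A x := by
    intro x
    have h1 : e (T x) = A.restrict hA x := LinearEquiv.apply_symm_apply e _
    have h2 := congrArg Subtype.val h1
    exact h2
  obtain ⟨c, hc⟩ := Module.End.exists_eigenvalue T
  obtain ⟨x, hx⟩ := hc.exists_hasEigenvector
  have hx1 : T x = c • x := hx.apply_eq_smul
  have h3 : ((1 : k) • A + (-c) • B) (x : V) = ((1 : k) • A + (-c) • B) 0 := by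
    rw [map_zero, LinearMap.add_apply, LinearMap.smul_apply, LinearMap.smul_apply, ← hT x, hx1,
      Submodule.coe_smul, map_smul, one_smul, neg_smul, add_neg_cancel]
  have h4 := h 1 (-c) (Or.inl one_ne_zero) h3
  exact hx.2 (Subtype.ext h4)

theorem pencilChain_finrank (A B : V →ₗ[k] W)
    (h : ∀ s t : k, (s ≠ 0 ∨ t ≠ 0) → Function.Injective (s • A + t • B)) (j : ℕ) :
    pencilChain A B j = ⊥ ∨
      Module.finrank k (pencilChain A B j) + j ≤ Module.finrank k V := by
  induction j with
  | zero =>
    right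
    exact Submodule.finrank_le _
  | succ j ih =>
    rcases ih with ih | ih
    · left
      exact le_bot_iff.1 ((pencilChain_le A B j).trans_eq ih)
    · rcases (pencilChain_le A B j).lt_or_eq with hlt | heq
      · right
        have := Submodule.finrank_lt_finrank_of_lt hlt
        omega
      · left
        rw [heq]
        exact pencil_fixed A B h _ heq

theorem pencil (A B : V →ₗ[k] W)
    (h : ∀ s t : k, (s ≠ 0 ∨ t ≠ 0) → Function.Injective (s • A + t • B)) (n : ℕ)
    (hn : Module.finrank k V ≤ n) (v : ℕ → V) (hv : ∀ i, i < n → A (v (i + 1)) + B (v i) = 0) :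
    ∀ i, i ≤ n → v i = 0 := by
  have hmem : ∀ i, i ≤ n → v i ∈ pencilChain A B i := by
    intro i
    induction i with
    | zero => intro _; exact Submodule.mem_top
    | succ i ih =>
      intro hi
      refine Submodule.mem_comap.2 ⟨-(v i), Submodule.neg_mem _ (ih (by omega)), ?_⟩
      rw [map_neg, neg_eq_iff_add_eq_zero, add_comm]
      exact hv i (by omega)
  have hbot : pencilChain A B n = ⊥ := by
    rcases pencilChain_finrank A B h n with h1 | h1
    · exact h1
    · exact Submodule.finrank_eq_zero.1 (by omega)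
  have hB : Function.Injective B := by
    have h1 := h 0 1 (Or.inr one_ne_zero)
    rwa [zero_smul, zero_add, one_smul] at h1
  have hn0 : v n = 0 := by
    have := hmem n le_rfl
    rwa [hbot, Submodule.mem_bot] at this
  have key : ∀ m, m ≤ n → v (n - m) = 0 := by
    intro m
    induction m with
    | zero => intro _; exact hn0
    | succ m ih =>
      intro hm
      have h1 := hv (n - (m + 1)) (by omega)
      rw [show n - (m + 1) + 1 = n - m by omega, ih (by omega), map_zero, zero_add] at h1
      exact hB (h1.trans (map_zero B).symm)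
  intro i hi
  have := key (n - i) (by omega)
  rwa [show n - (n - i) = i by omega] at this

theorem quad_pencil (A B C : V →ₗ[k] W)
    (h : ∀ s t : k, (s ≠ 0 ∨ t ≠ 0) →
      Function.Injective (s ^ 2 • A + (s * t) • B + t ^ 2 • C)) (n : ℕ)
    (hn : 2 * Module.finrank k V + 1 ≤ n) (v : ℕ → V)
    (hv : ∀ j, j + 2 ≤ n → A (v (j + 2)) + B (v (j + 1)) + C (v j) = 0) :
    ∀ j, j ≤ n → v j = 0 := by
  let L0 : (V × V) →ₗ[k] (V × W) :=
    (LinearMap.snd k V V).prod (A ∘ₗ LinearMap.fst k V V + B ∘ₗ LinearMap.snd k V V)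
  let L1 : (V × V) →ₗ[k] (V × W) :=
    (-(LinearMap.fst k V V)).prod (C ∘ₗ LinearMap.snd k V V)
  have hL0 : ∀ u w : V, L0 (u, w) = (w, A u + B w) := fun u w => rfl
  have hL1 : ∀ u w : V, L1 (u, w) = (-u, C w) := fun u w => rfl
  have hinj : ∀ s t : k, (s ≠ 0 ∨ t ≠ 0) → Function.Injective (s • L0 + t • L1) := by
    intro s t hst
    rw [← LinearMap.ker_eq_bot, LinearMap.ker_eq_bot']
    rintro ⟨u, w⟩ huw
    rw [LinearMap.add_apply, LinearMap.smul_apply, LinearMap.smul_apply, hL0, hL1, Prod.smul_mk,
      Prod.smul_mk, Prod.mk_add_mk, Prod.mk_eq_zero] at huw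
    obtain ⟨h1, h2⟩ := huw
    have h1' : s • w = t • u := by
      rw [smul_neg, add_neg_eq_zero] at h1
      exact h1
    obtain ⟨r, hr1, hr2⟩ : ∃ r : V, u = s • r ∧ w = t • r := by
      by_cases hs : s = 0
      · have ht : t ≠ 0 := hst.resolve_left (fun hh => hh hs)
        refine ⟨t⁻¹ • w, ?_, ?_⟩
        · rw [hs, zero_smul] at h1'
          rw [hs, zero_smul]
          exact (smul_eq_zero.1 h1'.symm).resolve_left ht
        · rw [smul_inv_smul₀ ht]
      · refine ⟨s⁻¹ • u, ?_, ?_⟩
        · rw [smul_inv_smul₀ hs]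
        · rw [smul_comm, ← h1', inv_smul_smul₀ hs]
    have h3 : (s ^ 2 • A + (s * t) • B + t ^ 2 • C) r = (s ^ 2 • A + (s * t) • B + t ^ 2 • C) 0 := by
      rw [map_zero, ← h2, hr1, hr2]
      simp only [LinearMap.add_apply, LinearMap.smul_apply, map_smul, smul_add, smul_smul]
      ring_nf
    have h4 : r = 0 := h s t hst h3
    rw [hr1, hr2, h4, smul_zero, smul_zero]
    rfl
  have hfr : Module.finrank k (V × V) ≤ n - 1 := by
    rw [Module.finrank_prod]
    omega
  have hw := pencil L0 L1 hinj (n - 1) hfr (fun j => (v (j + 1), v j)) (by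
    intro i hi
    change L0 (v (i + 1 + 1), v (i + 1)) + L1 (v (i + 1), v i) = 0
    rw [hL0, hL1, Prod.mk_add_mk, add_neg_cancel, hv i (by omega)]
    rfl)
  intro j hj
  by_cases hj1 : j ≤ n - 1
  · exact congrArg Prod.snd (hw j hj1)
  · have h5 := congrArg Prod.fst (hw (n - 1) le_rfl)
    rw [show j = n - 1 + 1 by omega]
    exact h5

end

end CC5166
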