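import Pool.Agent.Lib.MP_cc5166_ag.Defs3
import Pool.Agent.Lib.MP_cc5166_ag.Pencil
import Pool.Agent.Lib.MP_cc5166_ag.Caso
import Pool.Agent.Lib.MP_cc5166_ag.Ginj

universe u

namespace CC5166

namespace KSZ

open Polynomial

/-- sequences of polynomials of degree `< n`, supported on `[0, c]`. -/
noncomputable def Sq (k : Type u) [Field k] (n c : ℕ) : Submodule k (ℕ → k[X]) where
  carrier := {v | (∀ j, v j ∈ degreeLT k n) ∧ ∀ j, c < j → v j = 0}
  add_mem' := by
    rintro v w ⟨h1, h2⟩ ⟨h1', h2'⟩
    refine ⟨fun j => Submodule.add_mem _ (h1 j) (h1' j), fun j hj => ?_⟩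
    rw [Pi.add_apply, h2 j hj, h2' j hj, add_zero]
  zero_mem' := ⟨fun j => Submodule.zero_mem _, fun j _ => rfl⟩
  smul_mem' := by
    rintro a v ⟨h1, h2⟩
    refine ⟨fun j => Submodule.smul_mem _ _ (h1 j), fun j hj => ?_⟩
    rw [Pi.smul_apply, h2 j hj, smul_zero]

lemma mem_Sq {k : Type u} [Field k] {n c : ℕ} {v : ℕ → k[X]} :
    v ∈ Sq k n c ↔ (∀ j, v j ∈ degreeLT k n) ∧ ∀ j, c < j → v j = 0 := Iff.rfl

/-- restriction to `[0, c]`. -/
noncomputable def res (k : Type u) [Field k] (n c : ℕ) :
    Sq k n c →ₗ[k] (Fin (c + 1) → degreeLT k n) where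
  toFun v := fun j => ⟨v.1 j, v.2.1 j⟩
  map_add' _ _ := rfl
  map_smul' _ _ := rfl

lemma res_injective (k : Type u) [Field k] (n c : ℕ) : Function.Injective (res k n c) := by
  intro v w h
  apply Subtype.ext
  funext j
  by_cases hj : j < c + 1
  · exact congrArg Subtype.val (congrFun h ⟨j, hj⟩)
  · rw [v.2.2 j (by omega), w.2.2 j (by omega)]

lemma finite_Sq (k : Type u) [Field k] (n c : ℕ) : FiniteDimensional k (Sq k n c) := by
  have h1 : Module.Finite k (degreeLT k n) := Module.Finite.equiv (degreeLTEquiv k n).symm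
  have h2 : Module.Finite k (Fin (c + 1) → degreeLT k n) := Module.Finite.pi
  exact Module.Finite.of_injective (res k n c) (res_injective k n c)

/-- the linear map `v ↦ (p v_{j+2} + q v_{j+1} + r v_j)_{j + 2 ≤ c}`. -/
noncomputable def op (k : Type u) [Field k] (n c m : ℕ) (p q r : k[X]) :
    Sq k n c →ₗ[k] (ℕ → k[X]) where
  toFun v := fun j => if j + m ≤ c then p * v.1 (j + 2) + q * v.1 (j + 1) + r * v.1 j else 0
  map_add' v w := by
    funext j
    simp only [Submodule.coe_add, Pi.add_apply]
    split_ifs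
    · ring
    · rw [add_zero]
  map_smul' a v := by
    funext j
    simp only [Submodule.coe_smul, Pi.smul_apply, RingHom.id_apply, smul_eq_C_mul]
    split_ifs
    · ring
    · rw [mul_zero]

lemma op_apply (k : Type u) [Field k] (n c m : ℕ) (p q r : k[X]) (v : Sq k n c) (j : ℕ) :
    op k n c m p q r v j =
      if j + m ≤ c then p * v.1 (j + 2) + q * v.1 (j + 1) + r * v.1 j else 0 := rfl

end KSZ

open Polynomial in
lemma KS_bot_succ_b (k : Type u) [Field k] {N b c : ℕ} (h : KS k N b c = ⊥) :
    KS k N (b + 1) c = ⊥ := by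
  rw [Submodule.eq_bot_iff] at h ⊢
  intro θ hθ
  obtain ⟨h1, h2, h3⟩ := mem_KS.mp hθ
  have e1 := h (fun i j => if i ≤ b then θ i j else 0) (by
    rw [mem_KS]
    refine ⟨fun i j => ?_, fun i j hij => ?_, fun i j hi hj => ?_⟩
    · split_ifs
      · exact h1 i j
      · exact Submodule.zero_mem _
    · split_ifs with hib
      · exact h2 i j (by omega)
      · rfl
    · have := h3 i j (by omega) hj
      rw [if_pos (by omega), if_pos (by omega), if_pos (by omega), if_pos (by omega),
        if_pos (by omega)]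
      exact this)
  have e2 := h (fun i j => θ (i + 1) j) (by
    rw [mem_KS]
    refine ⟨fun i j => h1 _ _, fun i j hij => ?_, fun i j hi hj => ?_⟩
    · exact h2 (i + 1) j (by omega)
    · exact h3 (i + 1) j (by omega) hj)
  funext i j
  rcases Nat.eq_zero_or_pos i with rfl | hi
  · have := congrFun (congrFun e1 0) j
    simpa using this
  · obtain ⟨i', rfl⟩ := Nat.exists_eq_succ_of_ne_zero (Nat.pos_iff_ne_zero.mp hi)
    exact congrFun (congrFun e2 i') j

open Polynomial in
lemma KS_bot_succ_c (k : Type u) [Field k] {N b c : ℕ} (h : KS k N b c = ⊥) :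
    KS k N b (c + 1) = ⊥ := by
  rw [Submodule.eq_bot_iff] at h ⊢
  intro θ hθ
  obtain ⟨h1, h2, h3⟩ := mem_KS.mp hθ
  have e1 := h (fun i j => if j ≤ c then θ i j else 0) (by
    rw [mem_KS]
    refine ⟨fun i j => ?_, fun i j hij => ?_, fun i j hi hj => ?_⟩
    · split_ifs
      · exact h1 i j
      · exact Submodule.zero_mem _
    · split_ifs with hib
      · exact h2 i j (by omega)
      · rfl
    · have := h3 i j hi (by omega)
      rw [if_pos (by omega), if_pos (by omega), if_pos (by omega), if_pos (by omega),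
        if_pos (by omega)]
      exact this)
  have e2 := h (fun i j => θ i (j + 1)) (by
    rw [mem_KS]
    refine ⟨fun i j => h1 _ _, fun i j hij => ?_, fun i j hi hj => ?_⟩
    · exact h2 i (j + 1) (by omega)
    · have := h3 i (j + 1) hi (by omega)
      rw [show j + 1 + 2 = j + 2 + 1 by ring] at this
      exact this)
  funext i j
  rcases Nat.eq_zero_or_pos j with rfl | hj
  · have := congrFun (congrFun e1 i) 0
    simpa using this
  · obtain ⟨j', rfl⟩ := Nat.exists_eq_succ_of_ne_zero (Nat.pos_iff_ne_zero.mp hj)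
    exact congrFun (congrFun e2 i) j'

theorem KS_bot_mono (k : Type u) [Field k] {N b c b' c' : ℕ} (hb : b ≤ b') (hc : c ≤ c')
    (h : KS k N b c = ⊥) : KS k N b' c' = ⊥ := by
  have h1 : KS k N b' c = ⊥ := by
    induction b', hb using Nat.le_induction with
    | base => exact h
    | succ n _ ih => exact KS_bot_succ_b k ih
  induction c', hc using Nat.le_induction with
  | base => exact h1
  | succ n _ ih => exact KS_bot_succ_c k ih

open Polynomial KSZ in
theorem KS_b (k : Type u) [Field k] [IsAlgClosed k] (N : ℕ) :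
    ∃ B : ℕ, ∀ b, B ≤ b → KS k N b (N + 3) = ⊥ := by
  have hfin := finite_Sq k (N - 1) (N + 3)
  refine ⟨Module.finrank k (Sq k (N - 1) (N + 3)), fun b hb => ?_⟩
  rw [Submodule.eq_bot_iff]
  intro θ hθ
  obtain ⟨h1, h2, h3⟩ := mem_KS.mp hθ
  have key := pencil (op k (N - 1) (N + 3) 2 (Polynomial.X ^ 2) Polynomial.X 1) (op k (N - 1) (N + 3) 2 1 0 (Polynomial.X ^ 2))
    (fun s t hst => by
      rw [injective_iff_map_eq_zero]
      intro v hv
      apply Subtype.ext
      funext j
      have hc := caso (N := N) (c := N + 3) (by omega) s t hst v.1 v.2.1 (fun j hj => by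
        have e := congrFun hv j
        simp only [LinearMap.add_apply, LinearMap.smul_apply, Pi.add_apply, Pi.smul_apply,
          op_apply, if_pos hj, smul_eq_C_mul, Pi.zero_apply] at e
        linear_combination e)
      by_cases hj : j ≤ N + 3
      · exact hc j hj
      · exact v.2.2 j (by omega)) b hb
    (fun i => ⟨θ i, fun j => h1 i j, fun j hj => h2 i j (Or.inr hj)⟩) (fun i hi => by
      funext j
      simp only [Pi.add_apply, op_apply, Pi.zero_apply]
      split_ifs with hj
      · have e := h3 i j hi hj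
        linear_combination e
      · rw [add_zero])
  funext i j
  by_cases hi : i ≤ b
  · exact congrFun (congrArg Subtype.val (key i hi)) j
  · exact h2 i j (Or.inl (by omega))

open Polynomial KSZ in
theorem KS_c (k : Type u) [Field k] [IsAlgClosed k] (N b : ℕ) (hb : N ≤ b + 1) :
    ∃ C : ℕ, ∀ c, C ≤ c → KS k N b c = ⊥ := by
  have hfin := finite_Sq k (N - 1) b
  refine ⟨2 * Module.finrank k (Sq k (N - 1) b) + 1, fun c hc => ?_⟩
  rw [Submodule.eq_bot_iff]
  intro θ hθ
  obtain ⟨h1, h2, h3⟩ := mem_KS.mp hθ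
  have key := quad_pencil (op k (N - 1) b 1 0 (Polynomial.X ^ 2) 1) (op k (N - 1) b 1 0 Polynomial.X 0)
    (op k (N - 1) b 1 0 1 (Polynomial.X ^ 2))
    (fun s t hst => by
      rw [injective_iff_map_eq_zero]
      intro v hv
      apply Subtype.ext
      funext j
      have hg := ginj (N := N) (b := b) hb s t hst v.1 v.2.1 (fun j hj => by
        have e := congrFun hv j
        have hj' : j + 1 ≤ b := hj
        simp only [LinearMap.add_apply, LinearMap.smul_apply, Pi.add_apply, Pi.smul_apply,
          op_apply, if_pos hj', smul_eq_C_mul, Pi.zero_apply] at e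
        linear_combination e)
      by_cases hj : j ≤ b
      · exact hg j hj
      · exact v.2.2 j (by omega)) c hc
    (fun j => ⟨fun i => θ i j, fun i => h1 i j, fun i hi => h2 i j (Or.inl hi)⟩) (fun j hj => by
      funext i
      simp only [Pi.add_apply, op_apply, Pi.zero_apply]
      split_ifs with hi
      · have e := h3 i j (by omega) hj
        linear_combination e
      · rw [add_zero, add_zero])
  funext i j
  by_cases hj : j ≤ c
  · exact congrFun (congrArg Subtype.val (key j hj)) i
  · exact h2 i j (Or.inr (by omega))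

end CC5166
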