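import Mathlib

/-!
Local cohomology modules `H^i_J(M)` of a module `M` over a commutative ring `R` with support in
an ideal `J`, defined as the direct limit over `t` of `Ext^i_R(R/J^t, M)`.
-/

universe u

open CategoryTheory

namespace CC5166

section Cat

variable {R : Type u} [CommRing R]

/-- `R/J^t` as an object of the category of `R`-modules. -/
noncomputable abbrev Qt (J : Ideal R) (t : ℕ) : ModuleCat.{u} R := ModuleCat.of R (R ⧸ J ^ t)

/-- the projection `R/J^t → R/J^s` for `s ≤ t`. -/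
noncomputable def qmap (J : Ideal R) {s t : ℕ} (h : s ≤ t) : Qt J t ⟶ Qt J s :=
  ModuleCat.ofHom (Submodule.factor (Ideal.pow_le_pow_right h))

lemma qmap_self (J : Ideal R) (t : ℕ) : qmap J (le_refl t) = 𝟙 _ := by
  ext
  rfl

lemma qmap_comp (J : Ideal R) {r s t : ℕ} (h : r ≤ s) (h' : s ≤ t) :
    qmap J h' ≫ qmap J h = qmap J (h.trans h') := by
  ext
  rfl

/-- the transition map `Ext^i(R/J^s, M) → Ext^i(R/J^t, M)` for `s ≤ t`. -/
noncomputable def tr (J : Ideal R) (M : ModuleCat.{u} R) (i : ℕ) (s t : ℕ) (h : s ≤ t) :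
    Abelian.Ext (Qt J s) M i →ₗ[R] Abelian.Ext (Qt J t) M i :=
  (Abelian.Ext.mk₀ (qmap J h)).precompOfLinear R M (zero_add i)

lemma tr_apply (J : Ideal R) (M : ModuleCat.{u} R) (i : ℕ) (s t : ℕ) (h : s ≤ t)
    (x : Abelian.Ext (Qt J s) M i) :
    tr J M i s t h x = (Abelian.Ext.mk₀ (qmap J h)).comp x (zero_add i) := rfl

instance (J : Ideal R) (M : ModuleCat.{u} R) (i : ℕ) :
    DirectedSystem (fun t : ℕ => Abelian.Ext (Qt J t) M i) (fun s t h => tr J M i s t h) where
  map_self := by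
    intro t x
    rw [tr_apply, qmap_self, Abelian.Ext.mk₀_id_comp]
  map_map := by
    intro r s t hrs hst x
    rw [tr_apply, tr_apply, tr_apply, Abelian.Ext.mk₀_comp_mk₀_assoc, qmap_comp]

/-- `H^i_J(M)`, bundled version. -/
noncomputable abbrev HC (J : Ideal R) (i : ℕ) (M : ModuleCat.{u} R) : Type u :=
  Module.DirectLimit (fun t : ℕ => Abelian.Ext (Qt J t) M i) (tr J M i)

/-- postcomposition with a class `β ∈ Ext^n(M, N)`, on the direct limits. -/
noncomputable def HC.post (J : Ideal R) {M N : ModuleCat.{u} R} {n : ℕ} (β : Abelian.Ext M N n)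
    (i j : ℕ) (h : i + n = j) : HC J i M →ₗ[R] HC J j N :=
  Module.DirectLimit.map (fun t => β.postcompOfLinear R (Qt J t) h) (by
    intro s t hst
    ext x
    change (tr J M i s t hst x).comp β h = tr J N j s t hst (x.comp β h)
    rw [tr_apply, tr_apply, Abelian.Ext.comp_assoc _ _ _ _ h (by omega)])

end Cat

/-- The `i`-th local cohomology module `H^i_J(M)` of the `R`-module `M` with support in the
ideal `J`, defined as the direct limit over `t` of `Ext^i_R(R/J^t, M)`. -/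
noncomputable def H {R : Type u} [CommRing R] (J : Ideal R) (i : ℕ) (M : Type u)
    [AddCommGroup M] [Module R M] : Type u :=
  HC J i (ModuleCat.of R M)

section

variable {R : Type u} [CommRing R] (J : Ideal R) (i : ℕ) (M : Type u) [AddCommGroup M] [Module R M]

noncomputable instance : AddCommGroup (H J i M) :=
  inferInstanceAs (AddCommGroup (HC J i (ModuleCat.of R M)))

noncomputable instance : Module R (H J i M) :=
  inferInstanceAs (Module R (HC J i (ModuleCat.of R M)))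

end

end CC5166

namespace CC5166

section Cat2

variable {R : Type u} [CommRing R] (J : Ideal R)

lemma HC.post_of {M N : ModuleCat.{u} R} {n : ℕ} (β : Abelian.Ext M N n)
    (i j : ℕ) (h : i + n = j) (t : ℕ) (x : Abelian.Ext (Qt J t) M i) :
    HC.post J β i j h (Module.DirectLimit.of R ℕ _ (tr J M i) t x) =
      Module.DirectLimit.of R ℕ _ (tr J N j) t (x.comp β h) := by
  unfold HC.post
  rw [Module.DirectLimit.map_apply_of]
  rfl

lemma HC.exists_of {M : ModuleCat.{u} R} {i : ℕ} (z : HC J i M) :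
    ∃ (t : ℕ) (x : Abelian.Ext (Qt J t) M i), Module.DirectLimit.of R ℕ _ (tr J M i) t x = z :=
  Module.DirectLimit.exists_of z

/-- if the class of `x` is zero in the limit then it is zero at a later stage. -/
lemma HC.of_eq_zero {M : ModuleCat.{u} R} {i t : ℕ} {x : Abelian.Ext (Qt J t) M i}
    (h : Module.DirectLimit.of R ℕ _ (tr J M i) t x = 0) :
    ∃ (s : ℕ) (hs : t ≤ s), tr J M i t s hs x = 0 :=
  Module.DirectLimit.of.zero_exact h

lemma HC.of_tr {M : ModuleCat.{u} R} {i t s : ℕ} (hs : t ≤ s) (x : Abelian.Ext (Qt J t) M i) :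
    Module.DirectLimit.of R ℕ _ (tr J M i) s (tr J M i t s hs x) =
      Module.DirectLimit.of R ℕ _ (tr J M i) t x :=
  Module.DirectLimit.of_f

lemma tr_comp {M N : ModuleCat.{u} R} {n : ℕ} (β : Abelian.Ext M N n)
    (i j : ℕ) (h : i + n = j) (s t : ℕ) (hst : s ≤ t) (x : Abelian.Ext (Qt J s) M i) :
    (tr J M i s t hst x).comp β h = tr J N j s t hst (x.comp β h) := by
  rw [tr_apply, tr_apply, Abelian.Ext.comp_assoc _ _ _ _ h (by omega)]

variable {S : ShortComplex (ModuleCat.{u} R)} (hS : S.ShortExact)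

include hS in
lemma HC.exact₂ (i : ℕ) :
    Function.Exact (HC.post J (Abelian.Ext.mk₀ S.f) i i (add_zero i))
      (HC.post J (Abelian.Ext.mk₀ S.g) i i (add_zero i)) := by
  intro z
  constructor
  · intro hz
    obtain ⟨t, x, rfl⟩ := HC.exists_of J z
    rw [HC.post_of] at hz
    obtain ⟨s, hs, hx⟩ := HC.of_eq_zero J hz
    rw [← tr_comp] at hx
    obtain ⟨y, hy⟩ := Abelian.Ext.covariant_sequence_exact₂ _ hS _ hx
    refine ⟨Module.DirectLimit.of R ℕ _ (tr J S.X₁ i) s y, ?_⟩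
    rw [HC.post_of, hy, HC.of_tr]
  · rintro ⟨w, rfl⟩
    obtain ⟨t, x, rfl⟩ := HC.exists_of J w
    rw [HC.post_of, HC.post_of, Abelian.Ext.comp_assoc_of_third_deg_zero,
      Abelian.Ext.mk₀_comp_mk₀, S.zero, Abelian.Ext.mk₀_zero, Abelian.Ext.comp_zero, map_zero]

lemma HC.exact₃ (i j : ℕ) (h : i + 1 = j) :
    Function.Exact (HC.post J (Abelian.Ext.mk₀ S.g) i i (add_zero i))
      (HC.post J hS.extClass i j h) := by
  intro z
  constructor
  · intro hz
    obtain ⟨t, x, rfl⟩ := HC.exists_of J z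
    rw [HC.post_of] at hz
    obtain ⟨s, hs, hx⟩ := HC.of_eq_zero J hz
    rw [← tr_comp] at hx
    obtain ⟨y, hy⟩ := Abelian.Ext.covariant_sequence_exact₃ _ hS _ h hx
    refine ⟨Module.DirectLimit.of R ℕ _ (tr J S.X₂ i) s y, ?_⟩
    rw [HC.post_of, hy, HC.of_tr]
  · rintro ⟨w, rfl⟩
    obtain ⟨t, x, rfl⟩ := HC.exists_of J w
    rw [HC.post_of, HC.post_of, Abelian.Ext.comp_assoc_of_second_deg_zero,
      hS.comp_extClass, Abelian.Ext.comp_zero, map_zero]

lemma HC.exact₁ (i j : ℕ) (h : i + 1 = j) :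
    Function.Exact (HC.post J hS.extClass i j h)
      (HC.post J (Abelian.Ext.mk₀ S.f) j j (add_zero j)) := by
  intro z
  constructor
  · intro hz
    obtain ⟨t, x, rfl⟩ := HC.exists_of J z
    rw [HC.post_of] at hz
    obtain ⟨s, hs, hx⟩ := HC.of_eq_zero J hz
    rw [← tr_comp] at hx
    obtain ⟨y, hy⟩ := Abelian.Ext.covariant_sequence_exact₁ _ hS _ hx h
    refine ⟨Module.DirectLimit.of R ℕ _ (tr J S.X₃ i) s y, ?_⟩
    rw [HC.post_of, hy, HC.of_tr]
  · rintro ⟨w, rfl⟩
    obtain ⟨t, x, rfl⟩ := HC.exists_of J w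
    rw [HC.post_of, HC.post_of, Abelian.Ext.comp_assoc_of_third_deg_zero,
      hS.extClass_comp, Abelian.Ext.comp_zero, map_zero]

include hS in
lemma HC.injective₀ :
    Function.Injective (HC.post J (Abelian.Ext.mk₀ S.f) 0 0 (add_zero 0)) := by
  have hm : Mono S.f := hS.mono_f
  rw [injective_iff_map_eq_zero]
  intro z hz
  obtain ⟨t, x, rfl⟩ := HC.exists_of J z
  rw [HC.post_of] at hz
  obtain ⟨s, hs, hx⟩ := HC.of_eq_zero J hz
  rw [← tr_comp] at hx
  have h1 := Abelian.Ext.postcomp_mk₀_injective_of_mono (Qt J s) S.f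
  have h2 : tr J S.X₁ 0 t s hs x = 0 := by
    apply h1
    rw [map_zero]
    exact hx
  rw [← HC.of_tr J hs, h2, map_zero]

lemma HC.torsion {M : ModuleCat.{u} R} {i : ℕ} (z : HC J i M) :
    ∃ t : ℕ, ∀ a ∈ J ^ t, a • z = 0 := by
  obtain ⟨t, x, rfl⟩ := HC.exists_of J z
  refine ⟨t, fun a ha => ?_⟩
  rw [← map_smul]
  have h1 : a • x = (a • Abelian.Ext.mk₀ (𝟙 (Qt J t))).comp x (zero_add i) := by
    rw [Abelian.Ext.smul_comp, Abelian.Ext.mk₀_id_comp]
  have h2 : a • 𝟙 (Qt J t) = 0 := by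
    refine ModuleCat.hom_ext (LinearMap.ext fun y => ?_)
    obtain ⟨y, rfl⟩ := Submodule.Quotient.mk_surjective (J ^ t) y
    change a • (Submodule.Quotient.mk y : R ⧸ J ^ t) = 0
    rw [← Submodule.Quotient.mk_smul, Submodule.Quotient.mk_eq_zero]
    exact Ideal.mul_mem_right _ _ ha
  rw [h1, ← Abelian.Ext.mk₀_smul, h2, Abelian.Ext.mk₀_zero, Abelian.Ext.zero_comp, map_zero]

end Cat2

end CC5166
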