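import Pool.Agent.Lib.MP_cc5166_ag.Block
import Pool.Agent.Lib.MP_cc5166_ag.ConcAcy
import Pool.Agent.Lib.MP_cc5166_ag.ConcTor

universe u

namespace CC5166

variable (k : Type u) [Field k] (M : ℕ)

lemma extY_y (ρ : Vr M → Fin 3) (σ : Bl M → Fin 3) (i : Fin 2) :
    Function.extend (ιY M) σ ρ (.y i) = σ (.y i) :=
  (ιY_injective M).extend_apply σ ρ (.y i)

lemma extY_q (ρ : Vr M → Fin 3) (σ : Bl M → Fin 3) (j : Fin M) :
    Function.extend (ιY M) σ ρ (.q j) = σ (.q j) :=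
  (ιY_injective M).extend_apply σ ρ (.q j)

lemma extY_xi (ρ : Vr M → Fin 3) (σ : Bl M → Fin 3) (i : Fin 2) :
    Function.extend (ιY M) σ ρ (.xi i) = ρ (.xi i) :=
  Function.extend_apply' _ _ _ (by rintro ⟨a, ha⟩; cases a <;> simp [ιY] at ha)

lemma extY_ze (ρ : Vr M → Fin 3) (σ : Bl M → Fin 3) (i : Fin 2) :
    Function.extend (ιY M) σ ρ (.ze i) = ρ (.ze i) :=
  Function.extend_apply' _ _ _ (by rintro ⟨a, ha⟩; cases a <;> simp [ιY] at ha)

lemma extY_p (ρ : Vr M → Fin 3) (σ : Bl M → Fin 3) (i : Fin 3) :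
    Function.extend (ιY M) σ ρ (.p i) = ρ (.p i) :=
  Function.extend_apply' _ _ _ (by rintro ⟨a, ha⟩; cases a <;> simp [ιY] at ha)

lemma extZ_ze (ρ : Vr M → Fin 3) (σ : Bl 3 → Fin 3) (i : Fin 2) :
    Function.extend (ιZ M) σ ρ (.ze i) = σ (.y i) :=
  (ιZ_injective M).extend_apply σ ρ (.y i)

lemma extZ_p (ρ : Vr M → Fin 3) (σ : Bl 3 → Fin 3) (j : Fin 3) :
    Function.extend (ιZ M) σ ρ (.p j) = σ (.q j) :=
  (ιZ_injective M).extend_apply σ ρ (.q j)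

lemma extZ_xi (ρ : Vr M → Fin 3) (σ : Bl 3 → Fin 3) (i : Fin 2) :
    Function.extend (ιZ M) σ ρ (.xi i) = ρ (.xi i) :=
  Function.extend_apply' _ _ _ (by rintro ⟨a, ha⟩; cases a <;> simp [ιZ] at ha)

lemma extZ_y (ρ : Vr M → Fin 3) (σ : Bl 3 → Fin 3) (i : Fin 2) :
    Function.extend (ιZ M) σ ρ (.y i) = ρ (.y i) :=
  Function.extend_apply' _ _ _ (by rintro ⟨a, ha⟩; cases a <;> simp [ιZ] at ha)

lemma extZ_q (ρ : Vr M → Fin 3) (σ : Bl 3 → Fin 3) (i : Fin M) :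
    Function.extend (ιZ M) σ ρ (.q i) = ρ (.q i) :=
  Function.extend_apply' _ _ _ (by rintro ⟨a, ha⟩; cases a <;> simp [ιZ] at ha)

lemma extY_0 : st0 M = Function.extend (ιY M) (fun _ => 0) (st0 M) := by
  funext v
  cases v with
  | xi i => rw [extY_xi]
  | y i => rw [extY_y]; rfl
  | q i => rw [extY_q]; rfl
  | ze i => rw [extY_ze]
  | p i => rw [extY_p]

lemma extY_2 : stY M = Function.extend (ιY M) (fun _ => 2) (st0 M) := by
  funext v
  cases v with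
  | xi i => rw [extY_xi]; rfl
  | y i => rw [extY_y]; rfl
  | q i => rw [extY_q]; rfl
  | ze i => rw [extY_ze]; rfl
  | p i => rw [extY_p]; rfl

lemma extZ_0 : stY M = Function.extend (ιZ M) (fun _ => 0) (stY M) := by
  funext v
  cases v with
  | xi i => rw [extZ_xi]
  | y i => rw [extZ_y]
  | q i => rw [extZ_q]
  | ze i => rw [extZ_ze]; rfl
  | p i => rw [extZ_p]; rfl

lemma extZ_2 : st2 M = Function.extend (ιZ M) (fun _ => 2) (stY M) := by
  funext v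
  cases v with
  | xi i => rw [extZ_xi]; rfl
  | y i => rw [extZ_y]; rfl
  | q i => rw [extZ_q]; rfl
  | ze i => rw [extZ_ze]; rfl
  | p i => rw [extZ_p]; rfl

lemma good_Y (d : ℤ × ℤ × ℤ) :
    Good (mm k M) 4 ((pSF k M d).pull (ιY M) (ιY_injective M) (st0 M)) where
  acy σ i j hi hj l := lc_acyY k M d _ i j (by rw [extY_y]; exact hi) (by rw [extY_q]; exact hj) l
  torq σ h l hl := lc_torY k M d _ (Or.inl fun j => by rw [extY_q]; exact h j) l hl
  tory σ h l hl := lc_torY k M d _ (Or.inr fun i => by rw [extY_y]; exact h i) l hl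

lemma good_Z (d : ℤ × ℤ × ℤ) :
    Good (mm k M) 0 ((pSF k M d).pull (ιZ M) (ιZ_injective M) (stY M)) where
  acy σ i j hi hj l := lc_acyZ k M d _ i j (by rw [extZ_ze]; exact hi) (by rw [extZ_p]; exact hj) l
  torq σ h l hl := by
    obtain ⟨l, rfl⟩ : ∃ i, l = i + 1 := ⟨l - 1, by omega⟩
    exact H.subsingleton_of_isTor (mm k M) (isTor_Pc k M d _
      (Or.inl fun j => by rw [extZ_q]; rfl) (Or.inl fun j => by rw [extZ_p]; exact h j)) l
  tory σ h l hl := by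
    obtain ⟨l, rfl⟩ : ∃ i, l = i + 1 := ⟨l - 1, by omega⟩
    exact H.subsingleton_of_isTor (mm k M) (isTor_Pc k M d _
      (Or.inl fun j => by rw [extZ_q]; rfl) (Or.inr fun j => by rw [extZ_ze]; exact h j)) l

variable {k M}

/-- a piece is zero if no exponent of the state has the right tridegree. -/
lemma Pc_subsingleton {d : ℤ × ℤ × ℤ} {σ : Vr M → Fin 3}
    (h : ∀ e : Vr M → ℤ, InSt σ e → deg3 e ≠ d) : Subsingleton (Pc k d σ) := by
  refine ⟨fun x y => ?_⟩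
  have key : ∀ x : Pc k d σ, x.1 = 0 := by
    intro x
    refine Finsupp.ext fun e => ?_
    by_contra h1
    exact h e.1 e.2 (x.2 e h1)
  exact Subtype.ext ((key x).trans (key y).symm)

variable (k M)

lemma blockY_zero_state (hM : 3 ≤ M) (d : ℤ × ℤ × ℤ) (hd1 : 0 ≤ d.2.1) :
    Subsingleton (Pc k d (Function.extend (ιY M) (bst 0 0 2) (st0 M))) := by
  apply Pc_subsingleton
  intro e he h
  have hy : ∀ i, 0 ≤ e (.y i) := by
    intro i
    refine (he (.y i)).1 ?_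
    rw [extY_y]
    simp [bst]
  have hq : ∀ j, e (.q j) < 0 := by
    intro j
    refine (he (.q j)).2 ?_
    rw [extY_q]
    rfl
  rw [← h] at hd1
  simp only [deg3] at hd1
  have h1 : ∑ j : Fin M, e (.q j) < 0 := by
    refine Finset.sum_neg (fun j _ => hq j) ⟨⟨0, by omega⟩, Finset.mem_univ _⟩
  have := hy 0
  have := hy 1
  omega

lemma blockZ_zero_state (d : ℤ × ℤ × ℤ) (hd2 : 0 ≤ d.2.2) :
    Subsingleton (Pc k d (Function.extend (ιZ M) (bst 0 0 2) (stY M))) := by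
  apply Pc_subsingleton
  intro e he h
  have hy : ∀ i, 0 ≤ e (.ze i) := by
    intro i
    refine (he (.ze i)).1 ?_
    rw [extZ_ze]
    simp [bst]
  have hq : ∀ j, e (.p j) < 0 := by
    intro j
    refine (he (.p j)).2 ?_
    rw [extZ_p]
    rfl
  rw [← h] at hd2
  simp only [deg3] at hd2
  have h1 : ∑ j : Fin 3, e (.p j) < 0 := by
    refine Finset.sum_neg (fun j _ => hq j) ⟨0, Finset.mem_univ _⟩
  have := hy 0
  have := hy 1
  omega

theorem lc_stY_zero (d : ℤ × ℤ × ℤ) (hd2 : 0 ≤ d.2.2) :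
    Subsingleton (H (mm k M) 3 (Pc k d (stY M))) := by
  have h := block_zero (mm k M) (le_refl 3) (good_Z k M d) (blockZ_zero_state k M d hd2)
    (Or.inl rfl)
  have key : ∀ σ : Vr M → Fin 3, σ = Function.extend (ιZ M) (fun _ => 0) (stY M) →
      Subsingleton (H (mm k M) 3 (Pc k d σ)) := by
    rintro _ rfl
    exact h
  exact key _ (extZ_0 M)

theorem lc_piece_zero (hM : 3 ≤ M) (d : ℤ × ℤ × ℤ) (hd1 : 0 ≤ d.2.1) (hd2 : 0 ≤ d.2.2) :
    Subsingleton (H (mm k M) (M + 4) (Pc k d (st0 M))) := by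
  have h1 : ∀ σ : Vr M → Fin 3, σ = stY M → Subsingleton (H (mm k M) 3 (Pc k d σ)) := by
    rintro _ rfl
    exact lc_stY_zero k M d hd2
  have h := block_zero (mm k M) hM (good_Y k M d) (blockY_zero_state k M hM d hd1)
    (Or.inr (h1 _ (extY_2 M).symm))
  have key : ∀ σ : Vr M → Fin 3, σ = Function.extend (ιY M) (fun _ => 0) (st0 M) →
      Subsingleton (H (mm k M) (M + 4) (Pc k d σ)) := by
    rintro _ rfl
    exact h
  exact key _ (extY_0 M)

theorem lc_isoY (hM : 3 ≤ M) (f : PP k M) (d d' d'' : ℤ × ℤ × ℤ) (hf : HomD f d'')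
    (hd : d + d'' = d') :
    ∃ (e : H (mm k M) (M + 5) (Pc k d (st0 M)) ≃ₗ[RR k M] H (mm k M) 4 (Pc k d (stY M)))
      (e' : H (mm k M) (M + 5) (Pc k d' (st0 M)) ≃ₗ[RR k M] H (mm k M) 4 (Pc k d' (stY M))),
      ∀ z, H.map (mm k M) 4 (pmul k f d d' d'' hf hd (stY M)) (e z) =
        e' (H.map (mm k M) (M + 5) (pmul k f d d' d'' hf hd (st0 M)) z) := by
  have h := block_iso (mm k M) (n := M) (c := 4) (by omega)
    ((pNT k f d d' d'' hf hd).pull (ιY M) (ιY_injective M) (st0 M)) (good_Y k M d) (good_Y k M d')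
  have key : ∀ σ0 σ2 : Vr M → Fin 3, σ0 = Function.extend (ιY M) (fun _ => 0) (st0 M) →
      σ2 = Function.extend (ιY M) (fun _ => 2) (st0 M) → ∀ m, m = M + 1 + 4 →
      ∃ (e : H (mm k M) m (Pc k d σ0) ≃ₗ[RR k M] H (mm k M) 4 (Pc k d σ2))
      (e' : H (mm k M) m (Pc k d' σ0) ≃ₗ[RR k M] H (mm k M) 4 (Pc k d' σ2)),
      ∀ z, H.map (mm k M) 4 (pmul k f d d' d'' hf hd σ2) (e z) =
        e' (H.map (mm k M) m (pmul k f d d' d'' hf hd σ0) z) := by
    rintro _ _ rfl rfl m rfl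
    exact h
  exact key _ _ (extY_0 M) (extY_2 M) _ (by omega)

theorem lc_isoZ (f : PP k M) (d d' d'' : ℤ × ℤ × ℤ) (hf : HomD f d'')
    (hd : d + d'' = d') :
    ∃ (e : H (mm k M) 4 (Pc k d (stY M)) ≃ₗ[RR k M] H (mm k M) 0 (Pc k d (st2 M)))
      (e' : H (mm k M) 4 (Pc k d' (stY M)) ≃ₗ[RR k M] H (mm k M) 0 (Pc k d' (st2 M))),
      ∀ z, H.map (mm k M) 0 (pmul k f d d' d'' hf hd (st2 M)) (e z) =
        e' (H.map (mm k M) 4 (pmul k f d d' d'' hf hd (stY M)) z) := by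
  have h := block_iso (mm k M) (n := 3) (c := 0) (by omega)
    ((pNT k f d d' d'' hf hd).pull (ιZ M) (ιZ_injective M) (stY M)) (good_Z k M d) (good_Z k M d')
  have key : ∀ σ0 σ2 : Vr M → Fin 3, σ0 = Function.extend (ιZ M) (fun _ => 0) (stY M) →
      σ2 = Function.extend (ιZ M) (fun _ => 2) (stY M) →
      ∃ (e : H (mm k M) 4 (Pc k d σ0) ≃ₗ[RR k M] H (mm k M) 0 (Pc k d σ2))
      (e' : H (mm k M) 4 (Pc k d' σ0) ≃ₗ[RR k M] H (mm k M) 0 (Pc k d' σ2)),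
      ∀ z, H.map (mm k M) 0 (pmul k f d d' d'' hf hd σ2) (e z) =
        e' (H.map (mm k M) 4 (pmul k f d d' d'' hf hd σ0) z) := by
    rintro _ _ rfl rfl
    exact h
  exact key _ _ (extZ_0 M) (extZ_2 M)

theorem lc_piece_iso (hM : 3 ≤ M) (f : PP k M) (d d' d'' : ℤ × ℤ × ℤ) (hf : HomD f d'')
    (hd : d + d'' = d') :
    ∃ (e : H (mm k M) (M + 5) (Pc k d (st0 M)) ≃ₗ[RR k M] Pc k d (st2 M))
      (e' : H (mm k M) (M + 5) (Pc k d' (st0 M)) ≃ₗ[RR k M] Pc k d' (st2 M)),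
      ∀ z, pmul k f d d' d'' hf hd (st2 M) (e z) =
        e' (H.map (mm k M) (M + 5) (pmul k f d d' d'' hf hd (st0 M)) z) := by
  obtain ⟨e1, e1', h1⟩ := lc_isoY k M hM f d d' d'' hf hd
  obtain ⟨e2, e2', h2⟩ := lc_isoZ k M f d d' d'' hf hd
  have hT : ∀ d, IsTor (mm k M) (Pc k d (st2 M)) := fun d =>
    isTor_Pc k M d (st2 M) (Or.inl fun _ => rfl) (Or.inl fun _ => rfl)
  refine ⟨(e1.trans e2).trans (LinearEquiv.ofBijective _ (H.ev_bijective (mm k M) (hT d))),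
    (e1'.trans e2').trans (LinearEquiv.ofBijective _ (H.ev_bijective (mm k M) (hT d'))), ?_⟩
  intro z
  change pmul k f d d' d'' hf hd (st2 M) (H.ev (mm k M) _ (e2 (e1 z))) =
    H.ev (mm k M) _ (e2' (e1' (H.map (mm k M) (M + 5) (pmul k f d d' d'' hf hd (st0 M)) z)))
  rw [← H.ev_map, h2, h1]

end CC5166
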