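import Pool.Agent.Lib.MP_cc5166_ag.LCZero

universe u

open CategoryTheory

namespace CC5166

section

variable {R : Type u} [CommRing R] (J : Ideal R)
variable {A B C : Type u} [AddCommGroup A] [Module R A] [AddCommGroup B] [Module R B]
  [AddCommGroup C] [Module R C]

/-- the submodule of elements killed by a power of `J`. -/
def gam (E : Type u) [AddCommGroup E] [Module R E] : Submodule R E where
  carrier := {x | ∃ t : ℕ, ∀ a ∈ J ^ t, a • x = 0}
  zero_mem' := ⟨0, fun a _ => smul_zero a⟩
  add_mem' := by
    rintro x y ⟨s, hs⟩ ⟨t, ht⟩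
    refine ⟨max s t, fun a ha => ?_⟩
    rw [smul_add, hs a (Ideal.pow_le_pow_right (le_max_left s t) ha),
      ht a (Ideal.pow_le_pow_right (le_max_right s t) ha), add_zero]
  smul_mem' := by
    rintro r x ⟨s, hs⟩
    refine ⟨s, fun a ha => ?_⟩
    rw [smul_comm, hs a ha, smul_zero]

lemma mem_gam {E : Type u} [AddCommGroup E] [Module R E] (x : E) :
    x ∈ gam J E ↔ ∃ t : ℕ, ∀ a ∈ J ^ t, a • x = 0 := Iff.rfl

lemma gam_isTor (E : Type u) [AddCommGroup E] [Module R E] : IsTor J (gam J E) := by
  rintro ⟨x, t, ht⟩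
  exact ⟨t, fun a ha => Subtype.ext (ht a ha)⟩

lemma isTor_of_surjective (g : A →ₗ[R] B) (hg : Function.Surjective g) (hA : IsTor J A) :
    IsTor J B := by
  intro y
  obtain ⟨x, rfl⟩ := hg y
  obtain ⟨t, ht⟩ := hA x
  exact ⟨t, fun a ha => by rw [← _root_.map_smul, ht a ha, _root_.map_zero]⟩

/-- a linear map from an ideal of a noetherian ring to a torsion module is killed by a power
of `J`. -/
lemma exists_pow_kill [IsNoetherianRing R] (hA : IsTor J A) (I : Ideal R) (f : I →ₗ[R] A) :
    ∃ t : ℕ, ∀ a ∈ J ^ t, ∀ y : I, a • f y = 0 := by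
  obtain ⟨s, hs⟩ := (IsNoetherian.noetherian (⊤ : Submodule R I))
  choose t ht using hA
  refine ⟨s.sup (fun y => t (f y)), fun a ha y => ?_⟩
  have hy : y ∈ Submodule.span R (s : Set I) := by rw [hs]; trivial
  induction hy using Submodule.span_induction with
  | mem x hx =>
    exact ht (f x) a (Ideal.pow_le_pow_right (Finset.le_sup (f := fun y => t (f y)) hx) ha)
  | zero => rw [_root_.map_zero, smul_zero]
  | add x y _ _ hx hy => rw [_root_.map_add, smul_add, hx, hy, add_zero]
  | smul r x _ hx => rw [_root_.map_smul, smul_comm, hx, smul_zero]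

/-- the torsion submodule of an injective module is injective. -/
lemma gam_injective [IsNoetherianRing R] (E : Type u) [AddCommGroup E] [Module R E]
    (hE : Module.Injective R E) : Module.Injective R (gam J E) := by
  apply Module.Baer.injective
  intro I g
  obtain ⟨t, ht⟩ := exists_pow_kill J (gam_isTor J E) I g
  obtain ⟨k, hk⟩ := Ideal.exists_pow_inf_eq_pow_smul J (M := R) I
  have h1 : ∀ x : I, (x : R) ∈ J ^ (t + k) → g x = 0 := by
    intro x hx
    have h2 : (x : R) ∈ J ^ (t + k) • (⊤ : Submodule R R) ⊓ I := by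
      refine ⟨?_, x.2⟩
      rw [← mul_one (x : R), ← smul_eq_mul]
      exact Submodule.smul_mem_smul hx trivial
    rw [hk (t + k) (Nat.le_add_left k t), Nat.add_sub_cancel] at h2
    have h3 : J ^ t • (J ^ k • (⊤ : Submodule R R) ⊓ I) ≤ J ^ t • I :=
      Submodule.smul_mono le_rfl inf_le_right
    have h4 := h3 h2
    have h5 : J ^ t • (I : Submodule R R) ≤ Submodule.map (Submodule.subtype I) (LinearMap.ker g) := by
      rw [Submodule.smul_le]
      intro r hr n hn
      refine ⟨r • ⟨n, hn⟩, ?_, rfl⟩
      rw [SetLike.mem_coe, LinearMap.mem_ker, _root_.map_smul]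
      exact ht r hr ⟨n, hn⟩
    obtain ⟨z, hz, hzx⟩ := h5 h4
    have : z = x := Subtype.ext hzx
    rw [← this]
    exact hz
  let K : Submodule R I := Submodule.comap (Submodule.subtype I) (J ^ (t + k))
  let f : (I ⧸ K) →ₗ[R] (R ⧸ J ^ (t + k)) :=
    Submodule.mapQ K (J ^ (t + k)) (Submodule.subtype I) le_rfl
  have hf : Function.Injective f := by
    rw [← LinearMap.ker_eq_bot]
    rw [Submodule.ker_mapQ, Submodule.mkQ_map_self]
  let g1 : (I ⧸ K) →ₗ[R] E := Submodule.liftQ K ((gam J E).subtype ∘ₗ g) (by
    intro x hx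
    rw [LinearMap.mem_ker, LinearMap.comp_apply, h1 x hx, _root_.map_zero])
  obtain ⟨h, hh⟩ := hE.out f hf g1
  have h2 : h (Submodule.Quotient.mk 1) ∈ gam J E := by
    refine ⟨t + k, fun a ha => ?_⟩
    rw [← _root_.map_smul, ← Submodule.Quotient.mk_smul, smul_eq_mul, mul_one,
      (Submodule.Quotient.mk_eq_zero _).mpr ha, _root_.map_zero]
  refine ⟨LinearMap.toSpanSingleton R (gam J E) ⟨h (Submodule.Quotient.mk 1), h2⟩, ?_⟩
  intro x hx
  apply Subtype.ext
  have h3 := hh (Submodule.Quotient.mk ⟨x, hx⟩)
  have h4 : f (Submodule.Quotient.mk ⟨x, hx⟩) = x • Submodule.Quotient.mk 1 := by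
    rw [← Submodule.Quotient.mk_smul, smul_eq_mul, mul_one]
    rfl
  rw [h4, _root_.map_smul] at h3
  rw [LinearMap.toSpanSingleton_apply]
  exact h3

lemma subsingleton_of_injective [hE : Module.Injective R A] (i : ℕ) :
    Subsingleton (H J (i + 1) A) := by
  refine ⟨fun z w => ?_⟩
  have key : ∀ z : H J (i + 1) A, z = 0 := by
    intro z
    obtain ⟨t, x, rfl⟩ := H.exists_of J z
    have : CategoryTheory.Injective (ModuleCat.of R A) :=
      Module.injective_object_of_injective_module R A
    rw [Abelian.Ext.eq_zero_of_injective x, _root_.map_zero]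
  rw [key z, key w]

/-- a torsion module embeds in a torsion injective module. -/
lemma exists_embedding [IsNoetherianRing R] (hA : IsTor J A) :
    ∃ (G : Type u) (_ : AddCommGroup G) (_ : Module R G) (f : A →ₗ[R] G),
      Function.Injective f ∧ IsTor J G ∧ Module.Injective R G := by
  let E : ModuleCat.{u} R := CategoryTheory.Injective.under (ModuleCat.of R A)
  have hE : Module.Injective R E := by
    have : CategoryTheory.Injective (ModuleCat.of R E) :=
      inferInstanceAs (CategoryTheory.Injective E)
    exact Module.injective_module_of_injective_object R E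
  let f : A →ₗ[R] E := (CategoryTheory.Injective.ι (ModuleCat.of R A)).hom
  have hf : Function.Injective f := (ModuleCat.mono_iff_injective _).mp inferInstance
  refine ⟨gam J E, inferInstance, inferInstance, LinearMap.codRestrict (gam J E) f ?_, ?_,
    gam_isTor J E, gam_injective J E hE⟩
  · intro x
    obtain ⟨t, ht⟩ := hA x
    exact ⟨t, fun a ha => by rw [← _root_.map_smul, ht a ha, _root_.map_zero]⟩
  · intro x y hxy
    exact hf (congrArg Subtype.val hxy)

/-- higher local cohomology of a `J`-torsion module vanishes (`R` noetherian). -/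
theorem H.subsingleton_of_isTor [IsNoetherianRing R] (hA : IsTor J A) (i : ℕ) :
    Subsingleton (H J (i + 1) A) := by
  induction i generalizing A with
  | zero =>
    obtain ⟨G, _, _, f, hf, hG, hGi⟩ := exists_embedding J hA
    have hfg : Function.Exact f (LinearMap.range f).mkQ := LinearMap.exact_map_mkQ_range f
    have hg : Function.Surjective (LinearMap.range f).mkQ := Submodule.mkQ_surjective _
    have hC : IsTor J (G ⧸ LinearMap.range f) := isTor_of_surjective J _ hg hG
    have h1 : Subsingleton (H J 1 G) := subsingleton_of_injective J 0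
    have key : ∀ z : H J 1 A, z = 0 := by
      intro z
      obtain ⟨w, rfl⟩ := (H.exact_δ_map J f (LinearMap.range f).mkQ hf hfg hg 0 z).mp
        (Subsingleton.elim _ _)
      obtain ⟨y, hy⟩ := hg (H.ev J _ w)
      obtain ⟨v, hv⟩ := (H.ev_bijective J hG).2 y
      have hw : H.map J 0 (LinearMap.range f).mkQ v = w := by
        apply H.ev_injective J
        rw [H.ev_map, hv, hy]
      rw [← hw]
      exact (H.exact_map_δ J f (LinearMap.range f).mkQ hf hfg hg 0 _).mpr ⟨v, rfl⟩
    exact ⟨fun z w => by rw [key z, key w]⟩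
  | succ i ih =>
    obtain ⟨G, _, _, f, hf, hG, hGi⟩ := exists_embedding J hA
    have hfg : Function.Exact f (LinearMap.range f).mkQ := LinearMap.exact_map_mkQ_range f
    have hg : Function.Surjective (LinearMap.range f).mkQ := Submodule.mkQ_surjective _
    have hC : IsTor J (G ⧸ LinearMap.range f) := isTor_of_surjective J _ hg hG
    have h1 : Subsingleton (H J (i + 1 + 1) G) := subsingleton_of_injective J (i + 1)
    have h2 := ih hC
    have key : ∀ z : H J (i + 1 + 1) A, z = 0 := by
      intro z
      obtain ⟨w, rfl⟩ := (H.exact_δ_map J f (LinearMap.range f).mkQ hf hfg hg (i + 1) z).mp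
        (Subsingleton.elim _ _)
      rw [Subsingleton.elim w 0, _root_.map_zero]
    exact ⟨fun z w => by rw [key z, key w]⟩

end

end CC5166
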