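import Pool.Agent.Lib.MP_cc5166_ag.Defs3



universe u

namespace CC5166

variable {k : Type u} [Field k] {M : ℕ}

namespace Mono

/-- the ideal of polynomials all of whose monomials have degree at least `a` for an additive
degree `f`. -/
def low (f : (Ix M →₀ ℕ) → ℕ) (hf : ∀ μ ν, f (μ + ν) = f μ + f ν) (a : ℕ) : Ideal (RR k M) where
  carrier := {r | ∀ μ ∈ r.support, a ≤ f μ}
  add_mem' := by
    classical
    intro r s hr hs μ hμ
    rcases Finset.mem_union.1 (MvPolynomial.support_add hμ) with h | h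
    · exact hr μ h
    · exact hs μ h
  zero_mem' := by
    intro μ hμ
    simp at hμ
  smul_mem' := by
    classical
    intro c r hr μ hμ
    rw [smul_eq_mul] at hμ
    obtain ⟨α, _, β, hβ, rfl⟩ := Finset.mem_add.1 (MvPolynomial.support_mul c r hμ)
    rw [hf]
    exact (hr β hβ).trans (Nat.le_add_left _ _)

lemma mem_low {f : (Ix M →₀ ℕ) → ℕ} {hf : ∀ μ ν, f (μ + ν) = f μ + f ν} {a : ℕ} {r : RR k M} :
    r ∈ low (k := k) f hf a ↔ ∀ μ ∈ r.support, a ≤ f μ := Iff.rfl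

lemma low_mul (f : (Ix M →₀ ℕ) → ℕ) (hf : ∀ μ ν, f (μ + ν) = f μ + f ν) (a b : ℕ) :
    low (k := k) f hf a * low f hf b ≤ low f hf (a + b) := by
  classical
  rw [Ideal.mul_le]
  intro r hr s hs μ hμ
  obtain ⟨α, hα, β, hβ, rfl⟩ := Finset.mem_add.1 (MvPolynomial.support_mul r s hμ)
  rw [hf]
  exact Nat.add_le_add (hr α hα) (hs β hβ)

lemma pow_le_low (f : (Ix M →₀ ℕ) → ℕ) (hf : ∀ μ ν, f (μ + ν) = f μ + f ν) (J : Ideal (RR k M))
    (hJ : J ≤ low f hf 1) (a : ℕ) : J ^ a ≤ low f hf a := by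
  induction a with
  | zero => exact fun r _ μ _ => Nat.zero_le _
  | succ a ih =>
    rw [pow_succ]
    exact (Ideal.mul_mono ih hJ).trans (low_mul f hf a 1)

lemma X_mem_low (f : (Ix M →₀ ℕ) → ℕ) (hf : ∀ μ ν, f (μ + ν) = f μ + f ν) (i : Ix M)
    (hi : f (Finsupp.single i 1) = 1) : (MvPolynomial.X i : RR k M) ∈ low f hf 1 := by
  classical
  intro μ hμ
  rw [MvPolynomial.mem_support_iff, MvPolynomial.coeff_X] at hμ
  by_cases h : Finsupp.single i 1 = μ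
  · rw [← h, hi]
  · rw [if_neg h] at hμ
    exact absurd rfl hμ

/-- a monomial of degree at least `a` is in the `a`-th power. -/
lemma monomial_mem_pow (f : (Ix M →₀ ℕ) → ℕ) (hf : ∀ μ ν, f (μ + ν) = f μ + f ν)
    (J : Ideal (RR k M)) (h : ∀ μ, 1 ≤ f μ → ∃ i, μ i ≠ 0 ∧ f (Finsupp.single i 1) = 1 ∧
      (MvPolynomial.X i : RR k M) ∈ J) (a : ℕ) (μ : Ix M →₀ ℕ) (hμ : a ≤ f μ) (c : k) :
    (MvPolynomial.monomial μ c : RR k M) ∈ J ^ a := by
  classical
  induction a generalizing μ with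
  | zero =>
    rw [pow_zero, Ideal.one_eq_top]
    exact Submodule.mem_top
  | succ a ih =>
    obtain ⟨i, h1, h2, h3⟩ := h μ (by omega)
    have h4 : μ = (μ - Finsupp.single i 1) + Finsupp.single i 1 :=
      (Finsupp.sub_add_single_one_cancel h1).symm
    have h5 : f μ = f (μ - Finsupp.single i 1) + 1 := by
      conv_lhs => rw [h4]
      rw [hf, h2]
    have h6 : (MvPolynomial.monomial μ c : RR k M) =
        MvPolynomial.monomial (μ - Finsupp.single i 1) c * MvPolynomial.X i := by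
      conv_lhs => rw [h4]
      rw [MvPolynomial.X, MvPolynomial.monomial_mul, mul_one]
    rw [h6, pow_succ]
    exact Ideal.mul_mem_mul (ih _ (by omega)) h3

lemma mem_of_monomials (J : Ideal (RR k M)) (r : RR k M)
    (h : ∀ μ ∈ r.support, ∀ c : k, (MvPolynomial.monomial μ c : RR k M) ∈ J) : r ∈ J := by
  rw [r.as_sum]
  exact Ideal.sum_mem _ fun μ hμ => h μ hμ _

lemma Tdeg_single_T (t : Tx) : Tdeg (Finsupp.single (.T t : Ix M) 1) = 1 := by
  classical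
  unfold Tdeg
  rw [Finset.sum_eq_single t]
  · simp
  · intro b _ hb
    rw [Finsupp.single_apply, if_neg]
    intro h
    exact hb (by injection h with h; exact h.symm)
  · intro h
    exact absurd (Finset.mem_univ t) h

lemma wdeg_single_w (i : Fin 2) : wdeg (Finsupp.single (.w i : Ix M) 1) = 1 := by
  classical
  unfold wdeg
  fin_cases i <;> simp

lemma T_ex (μ : Ix M →₀ ℕ) (h : 1 ≤ Tdeg μ) : ∃ i, μ i ≠ 0 ∧ Tdeg (Finsupp.single i 1) = 1 ∧
    (MvPolynomial.X i : RR k M) ∈ TI k M := by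
  obtain ⟨t, _, ht⟩ := Finset.exists_ne_zero_of_sum_ne_zero (Nat.one_le_iff_ne_zero.1 h)
  exact ⟨.T t, ht, Tdeg_single_T t, Ideal.subset_span ⟨t, rfl⟩⟩

lemma w_ex (μ : Ix M →₀ ℕ) (h : 1 ≤ wdeg μ) : ∃ i, μ i ≠ 0 ∧ wdeg (Finsupp.single i 1) = 1 ∧
    (MvPolynomial.X i : RR k M) ∈ WI k M := by
  unfold wdeg at h
  by_cases h0 : μ (.w 0) = 0
  · exact ⟨.w 1, by omega, wdeg_single_w 1, Ideal.subset_span ⟨1, rfl⟩⟩
  · exact ⟨.w 0, h0, wdeg_single_w 0, Ideal.subset_span ⟨0, rfl⟩⟩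

lemma TI_le : TI k M ≤ low Tdeg Tdeg_add 1 := by
  unfold TI
  rw [Ideal.span_le]
  rintro _ ⟨t, rfl⟩
  exact X_mem_low _ _ _ (Tdeg_single_T t)

lemma WI_le : WI k M ≤ low wdeg wdeg_add 1 := by
  unfold WI
  rw [Ideal.span_le]
  rintro _ ⟨t, rfl⟩
  exact X_mem_low _ _ _ (wdeg_single_w t)

lemma Ln_le_left (a b : ℕ) : Ln k M a b ≤ TI k M ^ a := by
  unfold Ln
  rw [Ideal.mul_le]
  intro r hr s _
  exact Ideal.mul_mem_right s _ hr

lemma Ln_le_right (a b : ℕ) : Ln k M a b ≤ WI k M ^ b := by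
  unfold Ln
  rw [Ideal.mul_le]
  intro r _ s hs
  exact Ideal.mul_mem_left _ r hs

lemma split (μ : Ix M →₀ ℕ) : ∃ α β : Ix M →₀ ℕ, α + β = μ ∧ Tdeg α = Tdeg μ ∧
    wdeg β = wdeg μ := by
  classical
  refine ⟨μ.filter fun i => ∃ t, i = .T t, μ.filter fun i => ¬ ∃ t, i = .T t,
    Finsupp.filter_add_filter_not μ _, ?_, ?_⟩
  · unfold Tdeg
    exact Finset.sum_congr rfl fun t _ => Finsupp.filter_apply_pos _ μ ⟨t, rfl⟩
  · unfold wdeg
    rw [Finsupp.filter_apply_pos _ μ (by rintro ⟨t, ht⟩; cases ht),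
      Finsupp.filter_apply_pos _ μ (by rintro ⟨t, ht⟩; cases ht)]

lemma monomial_mem_Ln (a b : ℕ) (μ : Ix M →₀ ℕ) (h1 : a ≤ Tdeg μ) (h2 : b ≤ wdeg μ) (c : k) :
    (MvPolynomial.monomial μ c : RR k M) ∈ Ln k M a b := by
  obtain ⟨α, β, h3, h4, h5⟩ := split μ
  have h6 : (MvPolynomial.monomial μ c : RR k M) =
      MvPolynomial.monomial α 1 * MvPolynomial.monomial β c := by
    rw [MvPolynomial.monomial_mul, one_mul, h3]
  rw [h6]
  unfold Ln
  refine Ideal.mul_mem_mul ?_ ?_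
  · exact monomial_mem_pow Tdeg Tdeg_add _ T_ex a _ (by rw [h4]; exact h1) 1
  · exact monomial_mem_pow wdeg wdeg_add _ w_ex b _ (by rw [h5]; exact h2) c

end Mono

open Mono

theorem mem_TI_pow {a : ℕ} {r : RR k M} : r ∈ TI k M ^ a ↔ ∀ μ ∈ r.support, a ≤ Tdeg μ := by
  constructor
  · intro h
    exact pow_le_low _ _ _ TI_le a h
  · intro h
    exact mem_of_monomials _ r fun μ hμ c =>
      monomial_mem_pow Tdeg Tdeg_add _ T_ex a μ (h μ hμ) c

theorem mem_WI_pow {b : ℕ} {r : RR k M} : r ∈ WI k M ^ b ↔ ∀ μ ∈ r.support, b ≤ wdeg μ := by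
  constructor
  · intro h
    exact pow_le_low _ _ _ WI_le b h
  · intro h
    exact mem_of_monomials _ r fun μ hμ c =>
      monomial_mem_pow wdeg wdeg_add _ w_ex b μ (h μ hμ) c

theorem mem_Ln {a b : ℕ} {r : RR k M} :
    r ∈ Ln k M a b ↔ ∀ μ ∈ r.support, a ≤ Tdeg μ ∧ b ≤ wdeg μ := by
  constructor
  · intro h μ hμ
    exact ⟨mem_TI_pow.1 (Ln_le_left a b h) μ hμ, mem_WI_pow.1 (Ln_le_right a b h) μ hμ⟩
  · intro h
    refine mem_of_monomials _ r fun μ hμ c => ?_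
    obtain ⟨h1, h2⟩ := h μ hμ
    exact monomial_mem_Ln a b μ h1 h2 c

end CC5166
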