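import Pool.Agent.Lib.MP_cc5166_ag.Setup

/-!
State functors: functors from the states to modules which are exact in each variable, and their
natural transformations; the pieces of the state modules as state functors.
-/

universe u

namespace CC5166

/-- a state functor: modules indexed by the states `V → Fin 3`, with transition maps, exact in
each variable. -/
structure SF (R : Type u) [CommRing R] (V : Type) where
  obj : (V → Fin 3) → Type u
  acg : ∀ σ, AddCommGroup (obj σ)
  mod : ∀ σ, Module R (obj σ)
  res : ∀ {σ τ : V → Fin 3}, σ ≤ τ → (obj σ →ₗ[R] obj τ)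
  res_self : ∀ {σ : V → Fin 3} (h : σ ≤ σ) (x : obj σ), res h x = x
  res_res : ∀ {σ τ ρ : V → Fin 3} (h : σ ≤ τ) (h' : τ ≤ ρ) (x : obj σ),
    res h' (res h x) = res (h.trans h') x
  inj : ∀ {v : V} {a b c : V → Fin 3} (h : Tri v a b c), Function.Injective (res h.le₁)
  exact : ∀ {v : V} {a b c : V → Fin 3} (h : Tri v a b c), Function.Exact (res h.le₁) (res h.le₂)
  surj : ∀ {v : V} {a b c : V → Fin 3} (h : Tri v a b c), Function.Surjective (res h.le₂)

attribute [instance] SF.acg SF.mod

/-- natural transformations of state functors. -/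
structure NT {R : Type u} [CommRing R] {V : Type} (G G' : SF R V) where
  app : ∀ σ, G.obj σ →ₗ[R] G'.obj σ
  nat : ∀ {σ τ : V → Fin 3} (h : σ ≤ τ) (x : G.obj σ), G'.res h (app σ x) = app τ (G.res h x)

variable (k : Type u) [Field k] {M : ℕ}

/-- the transition maps on the pieces. -/
noncomputable def pres (d : ℤ × ℤ × ℤ) {σ τ : Vr M → Fin 3} (h : σ ≤ τ) :
    Pc k d σ →ₗ[RR k M] Pc k d τ where
  toFun x := ⟨res k h x.1, by
    intro e he
    rw [res_apply] at he
    split_ifs at he with h1
    · exact x.2 _ he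
    · exact absurd rfl he⟩
  map_add' x y := Subtype.ext (map_add _ _ _)
  map_smul' r x := Subtype.ext (by
    change res k h (phi k M r • x.1) = phi k M r • res k h x.1
    rw [map_smul])

lemma pres_val (d : ℤ × ℤ × ℤ) {σ τ : Vr M → Fin 3} (h : σ ≤ τ) (x : Pc k d σ) :
    (pres k d h x).1 = res k h x.1 := rfl

/-- the pieces of tridegree `d` as a state functor. -/
noncomputable def pSF (M : ℕ) (d : ℤ × ℤ × ℤ) : SF (RR k M) (Vr M) where
  obj σ := Pc k d σ
  acg σ := inferInstance
  mod σ := inferInstance
  res h := pres k d h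
  res_self h x := Subtype.ext (res_self h x.1)
  res_res h h' x := Subtype.ext (res_res h h' x.1)
  inj h x y hxy := Subtype.ext (h.injective (congrArg Subtype.val hxy))
  exact {v a b c} h := by
    intro x
    constructor
    · intro hx
      obtain ⟨y, hy⟩ := (h.exact (k := k) x.1).mp (congrArg Subtype.val hx)
      refine ⟨⟨y, ?_⟩, Subtype.ext hy⟩
      intro e he
      have h1 := (h.inSt₁.mp e.2).1
      have h2 := DFunLike.congr_fun hy (⟨e.1, h1⟩ : Ex b)
      rw [res_apply, dif_pos e.2] at h2
      exact x.2 (⟨e.1, h1⟩ : Ex b) (by rw [← h2]; exact he)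
    · rintro ⟨y, rfl⟩
      exact Subtype.ext ((h.exact (k := k) (res k h.le₁ y.1)).mpr ⟨y.1, rfl⟩)
  surj {v a b c} h := by
    classical
    intro x
    obtain ⟨y, hy⟩ := h.surjective (k := k) x.1
    refine ⟨⟨Finsupp.filter (fun e => deg3 e.1 = d) y, ?_⟩, Subtype.ext ?_⟩
    · intro e he
      by_contra h1
      exact he (Finsupp.filter_apply_neg _ _ h1)
    · refine Finsupp.ext fun e => ?_
      rw [pres_val, res_apply, dif_pos (h.inSt₂.mp e.2).1]
      have h2 := DFunLike.congr_fun hy e
      rw [res_apply, dif_pos (h.inSt₂.mp e.2).1] at h2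
      change (Finsupp.filter (fun e : Ex b => deg3 e.1 = d) y) ⟨e.1, (h.inSt₂.mp e.2).1⟩ = _
      by_cases h3 : deg3 e.1 = d
      · have h6 := Finsupp.filter_apply_pos (fun e : Ex b => deg3 e.1 = d) y
          (a := ⟨e.1, (h.inSt₂.mp e.2).1⟩) h3
        exact h6.trans h2
      · have h6 := Finsupp.filter_apply_neg (fun e : Ex b => deg3 e.1 = d) y
          (a := ⟨e.1, (h.inSt₂.mp e.2).1⟩) h3
        refine h6.trans ?_
        by_contra h4
        exact h3 (x.2 e (fun h5 => h4 h5.symm))

/-- multiplication by a homogeneous element of `P` between the pieces. -/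
noncomputable def pmul (f : PP k M) (d d' d'' : ℤ × ℤ × ℤ) (hf : HomD f d'') (hd : d + d'' = d')
    (σ : Vr M → Fin 3) : Pc k d σ →ₗ[RR k M] Pc k d' σ where
  toFun x := ⟨f • x.1, hd ▸ inDeg_psmul x.2 hf⟩
  map_add' x y := Subtype.ext (smul_add _ _ _)
  map_smul' r x := Subtype.ext (by
    change f • (phi k M r • x.1) = phi k M r • (f • x.1)
    rw [smul_smul, smul_smul, mul_comm])

/-- multiplication by a homogeneous element of `P` as a natural transformation. -/
noncomputable def pNT (f : PP k M) (d d' d'' : ℤ × ℤ × ℤ) (hf : HomD f d'') (hd : d + d'' = d') :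
    NT (pSF k M d) (pSF k M d') where
  app σ := pmul k f d d' d'' hf hd σ
  nat h x := Subtype.ext (map_smul (res k h) f x.1)

end CC5166
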