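import Mathlib

/-!
State modules: for a state `σ : V → Fin 3` (0 : exponent `≥ 0`, 1 : arbitrary exponent,
2 : exponent `< 0`) the module `X k σ` with `k`-basis the exponents `e : V → ℤ` in the state `σ`,
on which the polynomial ring `MvPolynomial V k` acts by truncated multiplication of monomials.
-/

universe u v

namespace CC5166

/-- membership of an integer exponent in a one-variable state. -/
def mem3 (a : Fin 3) (z : ℤ) : Prop := (a = 0 → 0 ≤ z) ∧ (a = 2 → z < 0)

section

variable {V : Type}

/-- the exponent vector `e` is in the state `σ`. -/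
def InSt (σ : V → Fin 3) (e : V → ℤ) : Prop := ∀ v, mem3 (σ v) (e v)

/-- exponent vectors in the state `σ`. -/
abbrev Ex (σ : V → Fin 3) : Type := {e : V → ℤ // InSt σ e}

/-- the integer exponent vector of a monomial. -/
def toZ (μ : V →₀ ℕ) : V → ℤ := fun v => (μ v : ℤ)

lemma toZ_zero : toZ (0 : V →₀ ℕ) = 0 := by ext v; simp [toZ]
lemma toZ_add (μ ν : V →₀ ℕ) : toZ (μ + ν) = toZ μ + toZ ν := by ext v; simp [toZ]

lemma InSt.of_add {σ : V → Fin 3} {e : V → ℤ} {μ ν : V →₀ ℕ} (he : InSt σ e)
    (h : InSt σ (e + toZ (μ + ν))) : InSt σ (e + toZ ν) := by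
  intro v
  have h1 := he v
  have h2 := h v
  simp only [mem3, Pi.add_apply, toZ, Finsupp.coe_add, Nat.cast_add] at h1 h2 ⊢
  refine ⟨fun h0 => ?_, fun h0 => ?_⟩
  · have := h1.1 h0; positivity
  · have := h2.2 h0
    have h3 : (0 : ℤ) ≤ (μ v : ℤ) := by positivity
    omega

end

variable (k : Type u) [Field k] {V : Type}

/-- the state module. -/
abbrev X (σ : V → Fin 3) : Type u := Ex σ →₀ k

open Classical in
/-- truncated basis vector: `c • [e]` if `e` is in the state and `0` otherwise. -/
noncomputable def bv (σ : V → Fin 3) (e : V → ℤ) : k →ₗ[k] X k σ :=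
  if h : InSt σ e then Finsupp.lsingle (⟨e, h⟩ : Ex σ) else 0

variable {k}

lemma bv_of {σ : V → Fin 3} {e : V → ℤ} (h : InSt σ e) (c : k) :
    bv k σ e c = (Finsupp.single (⟨e, h⟩ : Ex σ) c : Ex σ →₀ k) := by
  unfold bv; rw [dif_pos h]; rfl

lemma bv_not {σ : V → Fin 3} {e : V → ℤ} (h : ¬ InSt σ e) (c : k) :
    bv k σ e c = 0 := by
  unfold bv; rw [dif_neg h]; rfl

/-- linear maps out of a state module are determined by the basis vectors. -/
lemma X.hom_ext {σ : V → Fin 3} {M : Type*} [AddCommMonoid M] [Module k M]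
    {f g : X k σ →ₗ[k] M} (h : ∀ (e : V → ℤ) (c : k), InSt σ e → f (bv k σ e c) = g (bv k σ e c)) :
    f = g := by
  refine Finsupp.lhom_ext fun e c => ?_
  have := h e.1 c e.2
  rwa [bv_of e.2] at this

variable (k)

/-- linear extension of a map of exponents into a state module. -/
noncomputable def tmap (σ τ : V → Fin 3) (φ : (V → ℤ) → (V → ℤ)) : X k σ →ₗ[k] X k τ :=
  Finsupp.lsum k (fun e : Ex σ => bv k τ (φ e.1))

variable {k}

lemma tmap_bv {σ τ : V → Fin 3} {φ : (V → ℤ) → (V → ℤ)} {e : V → ℤ} (he : InSt σ e) (c : k) :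
    tmap k σ τ φ (bv k σ e c) = bv k τ (φ e) c := by
  rw [bv_of he]
  unfold tmap
  exact Finsupp.lsum_single _ _ _ _

variable (k)

/-- action of a monomial. -/
noncomputable def act (σ : V → Fin 3) (μ : V →₀ ℕ) : X k σ →ₗ[k] X k σ :=
  tmap k σ σ (fun e => e + toZ μ)

variable {k}

lemma act_bv {σ : V → Fin 3} {μ : V →₀ ℕ} {e : V → ℤ} (he : InSt σ e) (c : k) :
    act k σ μ (bv k σ e c) = bv k σ (e + toZ μ) c := tmap_bv he c

variable (k)

/-- the action as a monoid homomorphism. -/
noncomputable def actHom (σ : V → Fin 3) : Multiplicative (V →₀ ℕ) →* Module.End k (X k σ) where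
  toFun μ := act k σ (Multiplicative.toAdd μ)
  map_one' := by
    refine X.hom_ext fun e c he => ?_
    rw [act_bv he]
    simp [toZ_zero]
  map_mul' := by
    intro μ ν
    refine X.hom_ext fun e c he => ?_
    rw [act_bv he, Module.End.mul_apply, act_bv he, toAdd_mul]
    by_cases h1 : InSt σ (e + toZ (Multiplicative.toAdd ν))
    · rw [act_bv h1, add_assoc, ← toZ_add, add_comm (Multiplicative.toAdd ν)]
    · rw [bv_not h1, map_zero, bv_not]
      exact fun h2 => h1 (he.of_add h2)

/-- the action of the polynomial ring. -/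
noncomputable def actAlg (σ : V → Fin 3) : MvPolynomial V k →ₐ[k] Module.End k (X k σ) :=
  AddMonoidAlgebra.lift k (Module.End k (X k σ)) (V →₀ ℕ) (actHom k σ)

noncomputable instance instModX (σ : V → Fin 3) : Module (MvPolynomial V k) (X k σ) :=
  Module.compHom (X k σ) (actAlg k σ).toRingHom

lemma smul_def' (σ : V → Fin 3) (p : MvPolynomial V k) (x : X k σ) : p • x = actAlg k σ p x := rfl

instance (σ : V → Fin 3) : IsScalarTower k (MvPolynomial V k) (X k σ) where
  smul_assoc := by
    intro c p x
    rw [smul_def', smul_def', map_smul]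
    rfl

lemma monomial_smul (σ : V → Fin 3) (μ : V →₀ ℕ) (c : k) (x : X k σ) :
    (MvPolynomial.monomial μ c : MvPolynomial V k) • x = c • act k σ μ x := by
  rw [smul_def']
  have : actAlg k σ (MvPolynomial.monomial μ c) = c • act k σ μ := by
    unfold actAlg
    exact AddMonoidAlgebra.lift_single (actHom k σ) μ c
  rw [this]
  rfl

lemma monomial_smul_bv {σ : V → Fin 3} (μ : V →₀ ℕ) (c : k) {e : V → ℤ} (he : InSt σ e) (b : k) :
    (MvPolynomial.monomial μ c : MvPolynomial V k) • bv k σ e b = bv k σ (e + toZ μ) (c * b) := by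
  rw [monomial_smul, act_bv he, ← map_smul, smul_eq_mul]

end CC5166

namespace CC5166

section Res

variable (k : Type u) [Field k] {V : Type}

/-- a `k`-linear map of state modules commuting with monomials is linear over the polynomial
ring. -/
lemma map_smul_of_act {σ τ : V → Fin 3} (f : X k σ →ₗ[k] X k τ)
    (h : ∀ (μ : V →₀ ℕ) (x : X k σ), f (act k σ μ x) = act k τ μ (f x))
    (p : MvPolynomial V k) (x : X k σ) : f (p • x) = p • f x := by
  induction p using MvPolynomial.induction_on' with
  | monomial μ c => rw [monomial_smul, monomial_smul, map_smul, h]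
  | add p q hp hq => rw [add_smul, add_smul, map_add, hp, hq]

/-- the transition maps of state modules, for `σ ≤ τ` (`0 ≤ 1 ≤ 2`): localisation and
projection. -/
noncomputable def res {σ τ : V → Fin 3} (h : σ ≤ τ) : X k σ →ₗ[MvPolynomial V k] X k τ where
  toFun := tmap k σ τ id
  map_add' := map_add _
  map_smul' := by
    intro p x
    refine map_smul_of_act k (tmap k σ τ id) ?_ p x
    intro μ x
    refine LinearMap.congr_fun (f := (tmap k σ τ id).comp (act k σ μ))
      (g := (act k τ μ).comp (tmap k σ τ id)) ?_ x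
    refine X.hom_ext fun e c he => ?_
    rw [LinearMap.comp_apply, LinearMap.comp_apply, act_bv he, tmap_bv he]
    by_cases h1 : InSt σ (e + toZ μ)
    · rw [tmap_bv h1]
      by_cases h2 : InSt τ e
      · rw [id, id, act_bv h2]
      · rw [id, id, bv_not h2, map_zero, bv_not]
        intro h3
        apply h2
        intro v
        have ha := he v
        have hb := h3 v
        have hc := h v
        simp only [mem3, Pi.add_apply, toZ] at ha hb ⊢
        refine ⟨fun h0 => ha.1 (by rw [h0] at hc; exact le_antisymm hc (Fin.zero_le _)), fun h0 => ?_⟩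
        have := hb.2 h0
        have h5 : (0 : ℤ) ≤ (μ v : ℤ) := by positivity
        omega
    · rw [bv_not h1, map_zero]
      by_cases h2 : InSt τ e
      · rw [id, act_bv h2, bv_not]
        intro h3
        apply h1
        intro v
        have ha := he v
        have hb := h3 v
        have hc := h v
        simp only [mem3, Pi.add_apply, toZ] at ha hb ⊢
        have h5 : (0 : ℤ) ≤ (μ v : ℤ) := by positivity
        refine ⟨fun h0 => by have := ha.1 h0; omega, fun h0 => ?_⟩
        have h6 : τ v = 2 := le_antisymm (Fin.le_last _) (by rw [h0] at hc; exact hc)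
        exact hb.2 h6
      · rw [id, bv_not h2, map_zero]

variable {k}

lemma res_bv {σ τ : V → Fin 3} (h : σ ≤ τ) {e : V → ℤ} (he : InSt σ e) (c : k) :
    res k h (bv k σ e c) = bv k τ e c := tmap_bv he c

end Res

end CC5166

namespace CC5166

/-- three states which agree except at the variable `v`, where they are `0`, `1`, `2`. -/
structure Tri {V : Type} (v : V) (a b c : V → Fin 3) : Prop where
  ha : a v = 0
  hb : b v = 1
  hc : c v = 2
  hab : ∀ w, w ≠ v → a w = b w
  hbc : ∀ w, w ≠ v → b w = c w

lemma Tri.le₁ {V : Type} {v : V} {a b c : V → Fin 3} (h : Tri v a b c) : a ≤ b := by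
  intro w
  by_cases hw : w = v
  · subst hw; rw [h.ha]; exact Fin.zero_le _
  · exact (h.hab w hw).le

lemma Tri.le₂ {V : Type} {v : V} {a b c : V → Fin 3} (h : Tri v a b c) : b ≤ c := by
  intro w
  by_cases hw : w = v
  · subst hw; rw [h.hb, h.hc]; exact Fin.le_last (n := 2) 1
  · exact (h.hbc w hw).le

section Exact

variable {k : Type u} [Field k] {V : Type}

lemma res_res {σ τ ρ : V → Fin 3} (h : σ ≤ τ) (h' : τ ≤ ρ) (x : X k σ) :
    res k h' (res k h x) = res k (h.trans h') x := by
  have : ((res k h').restrictScalars k ∘ₗ (res k h).restrictScalars k) =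
      (res k (h.trans h')).restrictScalars k := by
    refine X.hom_ext fun e c he => ?_
    simp only [LinearMap.comp_apply, LinearMap.restrictScalars_apply]
    rw [res_bv h he, res_bv (h.trans h') he]
    by_cases h1 : InSt τ e
    · rw [res_bv h' h1]
    · rw [bv_not h1, map_zero, bv_not]
      intro h3
      apply h1
      intro v
      have ha := he v
      have hb := h3 v
      have hc := h v
      have hd := h' v
      simp only [mem3] at ha hb ⊢
      refine ⟨fun h0 => ha.1 (by rw [h0] at hc; exact le_antisymm hc (Fin.zero_le _)), fun h0 => ?_⟩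
      exact hb.2 (le_antisymm (Fin.le_last _) (by rw [h0] at hd; exact hd))
  exact LinearMap.congr_fun this x

lemma res_self {σ : V → Fin 3} (h : σ ≤ σ) (x : X k σ) : res k h x = x := by
  have : ((res k h).restrictScalars k) = LinearMap.id := by
    refine X.hom_ext fun e c he => ?_
    simp only [LinearMap.restrictScalars_apply, LinearMap.id_apply]
    rw [res_bv h he]
  exact LinearMap.congr_fun this x

open Classical in
/-- coefficients of the transition maps. -/
lemma res_apply {σ τ : V → Fin 3} (h : σ ≤ τ) (x : X k σ) (e : Ex τ) :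
    (res k h x : Ex τ →₀ k) e = if h' : InSt σ e.1 then x ⟨e.1, h'⟩ else 0 := by
  classical
  have key : ∀ x : X k σ, (Finsupp.lapply e : (Ex τ →₀ k) →ₗ[k] k) ((res k h).restrictScalars k x) =
      (if h' : InSt σ e.1 then (Finsupp.lapply (⟨e.1, h'⟩ : Ex σ) : (Ex σ →₀ k) →ₗ[k] k)
        else 0) x := by
    intro x
    refine LinearMap.congr_fun (f := (Finsupp.lapply e : (Ex τ →₀ k) →ₗ[k] k) ∘ₗ
      (res k h).restrictScalars k) ?_ x
    refine X.hom_ext fun e' c he' => ?_
    simp only [LinearMap.comp_apply, LinearMap.restrictScalars_apply]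
    rw [res_bv h he']
    by_cases h1 : InSt τ e'
    · rw [bv_of h1, bv_of he']
      by_cases h2 : e' = e.1
      · subst h2
        rw [dif_pos he']
        simp
      · have h3 : (⟨e', h1⟩ : Ex τ) ≠ e := fun h => h2 (congrArg Subtype.val h)
        split_ifs with h4
        · have h5 : (⟨e', he'⟩ : Ex σ) ≠ ⟨e.1, h4⟩ := fun h => h2 (congrArg Subtype.val h)
          simp [h3, h5]
        · simp [h3]
    · rw [bv_not h1, bv_of he', map_zero]
      split_ifs with h4
      · have h5 : (⟨e', he'⟩ : Ex σ) ≠ ⟨e.1, h4⟩ := by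
          intro h
          have h6 : e' = e.1 := congrArg Subtype.val h
          exact h1 (h6.symm ▸ e.2)
        simp [h5]
      · rfl
  have := key x
  simp only [LinearMap.restrictScalars_apply, Finsupp.lapply_apply] at this
  rw [this]
  split_ifs <;> rfl

variable {v : V} {a b c : V → Fin 3} (h : Tri v a b c)

include h in
lemma Tri.inSt₁ {e : V → ℤ} : InSt a e ↔ InSt b e ∧ 0 ≤ e v := by
  constructor
  · intro he
    refine ⟨fun w => ?_, (he v).1 h.ha⟩
    by_cases hw : w = v
    · subst hw
      rw [h.hb]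
      exact ⟨fun h0 => absurd h0 (by decide), fun h0 => absurd h0 (by decide)⟩
    · rw [← h.hab w hw]; exact he w
  · rintro ⟨he, hv⟩ w
    by_cases hw : w = v
    · subst hw
      rw [h.ha]
      exact ⟨fun _ => hv, fun h0 => absurd h0 (by decide)⟩
    · rw [h.hab w hw]; exact he w

include h in
lemma Tri.inSt₂ {e : V → ℤ} : InSt c e ↔ InSt b e ∧ e v < 0 := by
  constructor
  · intro he
    refine ⟨fun w => ?_, (he v).2 h.hc⟩
    by_cases hw : w = v
    · subst hw
      rw [h.hb]
      exact ⟨fun h0 => absurd h0 (by decide), fun h0 => absurd h0 (by decide)⟩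
    · rw [h.hbc w hw]; exact he w
  · rintro ⟨he, hv⟩ w
    by_cases hw : w = v
    · subst hw
      rw [h.hc]
      exact ⟨fun h0 => absurd h0 (by decide), fun _ => hv⟩
    · rw [← h.hbc w hw]; exact he w

include h in
lemma Tri.injective : Function.Injective (res k h.le₁) := by
  intro x y hxy
  refine Finsupp.ext fun e => ?_
  have h1 := (h.inSt₁.mp e.2).1
  have h2 := DFunLike.congr_fun hxy (⟨e.1, h1⟩ : Ex b)
  rwa [res_apply, res_apply, dif_pos e.2, dif_pos e.2] at h2

include h in
lemma Tri.surjective : Function.Surjective (res k h.le₂) := by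
  classical
  intro x
  refine ⟨Finsupp.embDomain ⟨fun e : Ex c => (⟨e.1, (h.inSt₂.mp e.2).1⟩ : Ex b), ?_⟩ x, ?_⟩
  · intro e e' hee
    exact Subtype.ext (Subtype.mk.inj hee)
  · refine Finsupp.ext fun e => ?_
    rw [res_apply, dif_pos (h.inSt₂.mp e.2).1]
    exact Finsupp.embDomain_apply_self _ _ e

include h in
lemma Tri.exact : Function.Exact (res k h.le₁) (res k h.le₂) := by
  classical
  intro x
  constructor
  · intro hx
    refine ⟨Finsupp.comapDomain (fun e : Ex a => (⟨e.1, (h.inSt₁.mp e.2).1⟩ : Ex b)) x ?_, ?_⟩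
    · intro e _ e' _ hee
      exact Subtype.ext (Subtype.mk.inj hee)
    · refine Finsupp.ext fun e => ?_
      rw [res_apply]
      split_ifs with h1
      · rfl
      · have h2 : InSt c e.1 := by
          rw [h.inSt₂]
          refine ⟨e.2, ?_⟩
          by_contra h3
          exact h1 (h.inSt₁.mpr ⟨e.2, not_lt.mp h3⟩)
        have h4 := DFunLike.congr_fun hx (⟨e.1, h2⟩ : Ex c)
        rw [res_apply, dif_pos e.2] at h4
        exact h4.symm
  · rintro ⟨y, rfl⟩
    refine Finsupp.ext fun e => ?_
    rw [res_apply, dif_pos (h.inSt₂.mp e.2).1, res_apply, dif_neg]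
    · rfl
    · intro h1
      have h2 := (h.inSt₁.mp h1).2
      have h3 := (h.inSt₂.mp e.2).2
      exact absurd h2 (not_le.mpr h3)

end Exact

end CC5166
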