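import Pool.Agent.Lib.MP_cc5166_ag.Mono
import Pool.Agent.Lib.MP_cc5166_ag.IdArith
import Pool.Agent.Lib.MP_cc5166_ag.Gen

universe u

namespace CC5166

namespace T1

variable {k : Type u} [Field k] {M : ℕ}

lemma aeval_congr {g g' : Ix M → PP k M} (ν : Ix M →₀ ℕ) (b : k)
    (h : ∀ i, ν i ≠ 0 → g i = g' i) :
    MvPolynomial.aeval g (MvPolynomial.monomial ν b) =
      MvPolynomial.aeval g' (MvPolynomial.monomial ν b) := by
  rw [MvPolynomial.aeval_monomial, MvPolynomial.aeval_monomial]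
  refine congrArg (fun z => algebraMap k (PP k M) b * z) ?_
  exact Finsupp.prod_congr fun i hi => by rw [h i (Finsupp.mem_support_iff.mp hi)]

lemma aeval_zero {g : Ix M → PP k M} (ν : Ix M →₀ ℕ) (b : k) (i : Ix M) (hi : ν i ≠ 0)
    (h : g i = 0) : MvPolynomial.aeval g (MvPolynomial.monomial ν b) = 0 := by
  rw [MvPolynomial.aeval_monomial]
  refine mul_eq_zero_of_right _ ?_
  refine Finset.prod_eq_zero (Finsupp.mem_support_iff.mpr hi) ?_
  change g i ^ ν i = 0
  rw [h]
  exact zero_pow hi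

lemma wdeg_zero {ν : Ix M →₀ ℕ} (h : wdeg ν = 0) (j : Fin 2) : ν (.w j) = 0 := by
  unfold wdeg at h
  fin_cases j
  · exact Nat.eq_zero_of_add_eq_zero_right h
  · exact Nat.eq_zero_of_add_eq_zero_left h

lemma phi_monomial_zero (ν : Ix M →₀ ℕ) (b : k) (h : Tdeg ν ≠ 0 ∨ wdeg ν ≠ 0) :
    phi k M (MvPolynomial.monomial ν b) = 0 := by
  classical
  rcases h with h | h
  · obtain ⟨t, _, ht⟩ := Finset.exists_ne_zero_of_sum_ne_zero h
    exact aeval_zero ν b (.T t) ht rfl
  · by_cases h0 : ν (.w 0) = 0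
    · refine aeval_zero ν b (.w 1) ?_ rfl
      intro h1
      apply h
      unfold wdeg
      rw [h0, h1]
    · exact aeval_zero ν b (.w 0) h0 rfl

lemma phi_eq_psi (hM : 3 ≤ M) (ν : Ix M →₀ ℕ) (b : k) (h1 : Tdeg ν = 0) (h2 : wdeg ν = 0) :
    phi k M (MvPolynomial.monomial ν b) = psi k M hM (MvPolynomial.monomial ν b) := by
  refine aeval_congr ν b fun i hi => ?_
  cases i with
  | Y j => rfl
  | Z j => rfl
  | T t => exact absurd (Finset.sum_eq_zero_iff.mp h1 t (Finset.mem_univ _)) hi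
  | w j => exact absurd (wdeg_zero h2 j) hi

lemma psi_eq_psi0 (hM : 3 ≤ M) (ν : Ix M →₀ ℕ) (b : k) (h2 : wdeg ν = 0) :
    psi k M hM (MvPolynomial.monomial ν b) = psi0 k M hM (MvPolynomial.monomial ν b) := by
  refine aeval_congr ν b fun i hi => ?_
  cases i with
  | Y j => rfl
  | Z j => rfl
  | T t => rfl
  | w j => exact absurd (wdeg_zero h2 j) hi

/-- the monomial without the variables `w`. -/
noncomputable def nw (μ : Ix M →₀ ℕ) : Ix M →₀ ℕ := (μ.erase (.w 0)).erase (.w 1)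

lemma nw_add (μ : Ix M →₀ ℕ) :
    nw μ + Finsupp.single (.w 0) (μ (.w 0)) + Finsupp.single (.w 1) (μ (.w 1)) = μ := by
  classical
  ext i
  simp only [nw, Finsupp.add_apply, Finsupp.erase_apply, Finsupp.single_apply]
  cases i with
  | Y j => simp
  | Z j => simp
  | T t => simp
  | w j => fin_cases j <;> simp

lemma wdeg_nw (μ : Ix M →₀ ℕ) : wdeg (nw μ) = 0 := by
  classical
  simp [wdeg, nw]

lemma Tdeg_nw (μ : Ix M →₀ ℕ) : Tdeg (nw μ) = Tdeg μ := by
  classical
  simp [Tdeg, nw]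

lemma psi_monomial (hM : 3 ≤ M) (μ : Ix M →₀ ℕ) (c : k) :
    psi k M hM (MvPolynomial.monomial μ c) = psi0 k M hM (MvPolynomial.monomial (nw μ) c) := by
  classical
  rw [← psi_eq_psi0 hM (nw μ) c (wdeg_nw μ)]
  conv_lhs => rw [← nw_add μ]
  have h1 : (MvPolynomial.monomial (nw μ + Finsupp.single (.w 0) (μ (.w 0)) +
      Finsupp.single (.w 1) (μ (.w 1))) c : RR k M) = MvPolynomial.monomial (nw μ) c *
      MvPolynomial.X (.w 0) ^ (μ (.w 0)) * MvPolynomial.X (.w 1) ^ (μ (.w 1)) := by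
    rw [MvPolynomial.X_pow_eq_monomial, MvPolynomial.X_pow_eq_monomial,
      MvPolynomial.monomial_mul, MvPolynomial.monomial_mul, mul_one, mul_one]
  have hw : ∀ i, psi k M hM (MvPolynomial.X (.w i)) = 1 := by
    intro i
    rw [psi, MvPolynomial.aeval_X]
  rw [h1, map_mul, map_mul, map_pow, map_pow, hw, hw, one_pow, one_pow, mul_one, mul_one]

/-- the selected monomials. -/
def sel (a p q : ℕ) (μ : Ix M →₀ ℕ) : Prop := Tdeg μ = a ∧ μ (.w 0) = p ∧ μ (.w 1) = q

open Classical in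
/-- the linear map which sends the selected monomials to their image in `P`. -/
noncomputable def th (hM : 3 ≤ M) (a p q : ℕ) : RR k M →ₗ[k] X k (st0 M) :=
  (MvPolynomial.basisMonomials (Ix M) k).constr k
    (fun μ => if sel a p q μ then psi k M hM (MvPolynomial.monomial μ 1) • one0 k M else 0)

open Classical in
lemma th_monomial (hM : 3 ≤ M) (a p q : ℕ) (μ : Ix M →₀ ℕ) (c : k) :
    th hM a p q (MvPolynomial.monomial μ c) =
      if sel a p q μ then psi k M hM (MvPolynomial.monomial μ c) • one0 k M else 0 := by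
  have h1 : (MvPolynomial.monomial μ c : RR k M) = c • MvPolynomial.monomial μ 1 := by
    rw [MvPolynomial.smul_monomial, smul_eq_mul, mul_one]
  have h2 : th hM a p q (MvPolynomial.monomial μ (1 : k)) =
      if sel a p q μ then psi k M hM (MvPolynomial.monomial μ 1) • one0 k M else 0 := by
    have := (MvPolynomial.basisMonomials (Ix M) k).constr_basis k
      (fun μ => if sel a p q μ then psi k M hM (MvPolynomial.monomial μ 1) • one0 k M else 0) μ
    rwa [MvPolynomial.coe_basisMonomials] at this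
  rw [h1, map_smul, h2, map_smul]
  split_ifs
  · rw [smul_assoc]
  · rw [smul_zero]

lemma sel_add {a p q : ℕ} {ν μ : Ix M →₀ ℕ} (h1 : a ≤ Tdeg μ) (h2 : p + q ≤ wdeg μ) :
    sel a p q (ν + μ) ↔ (Tdeg ν = 0 ∧ wdeg ν = 0) ∧ sel a p q μ := by
  unfold sel
  rw [Tdeg_add]
  unfold wdeg at *
  simp only [Finsupp.add_apply]
  omega

lemma th_mul (hM : 3 ≤ M) {a p q : ℕ} (s : RR k M) {r : RR k M}
    (hr : ∀ μ ∈ r.support, a ≤ Tdeg μ ∧ p + q ≤ wdeg μ) :
    th hM a p q (s * r) = phi k M s • th hM a p q r := by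
  classical
  have key : ∀ (ν μ : Ix M →₀ ℕ) (b c : k), a ≤ Tdeg μ → p + q ≤ wdeg μ →
      th hM a p q (MvPolynomial.monomial ν b * MvPolynomial.monomial μ c) =
        phi k M (MvPolynomial.monomial ν b) • th hM a p q (MvPolynomial.monomial μ c) := by
    intro ν μ b c h1 h2
    have hmul : (MvPolynomial.monomial ν b * MvPolynomial.monomial μ c : RR k M) =
        MvPolynomial.monomial (ν + μ) (b * c) := MvPolynomial.monomial_mul
    by_cases h3 : Tdeg ν = 0 ∧ wdeg ν = 0
    · rw [phi_eq_psi hM ν b h3.1 h3.2]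
      rw [hmul, th_monomial, th_monomial]
      by_cases h4 : sel a p q μ
      · rw [if_pos ((sel_add h1 h2).mpr ⟨h3, h4⟩), if_pos h4, smul_smul, ← map_mul, hmul]
      · rw [if_neg (fun h => h4 ((sel_add h1 h2).mp h).2), if_neg h4, smul_zero]
    · rw [phi_monomial_zero ν b (by omega), zero_smul, hmul, th_monomial,
        if_neg (fun h => h3 ((sel_add h1 h2).mp h).1)]
  have key2 : ∀ (ν : Ix M →₀ ℕ) (b : k), th hM a p q (MvPolynomial.monomial ν b * r) =
        phi k M (MvPolynomial.monomial ν b) • th hM a p q r := by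
    intro ν b
    conv_lhs => rw [r.as_sum]
    conv_rhs => rw [r.as_sum]
    rw [Finset.mul_sum, map_sum, map_sum, Finset.smul_sum]
    exact Finset.sum_congr rfl fun μ hμ => key ν μ b _ (hr μ hμ).1 (hr μ hμ).2
  induction s using MvPolynomial.induction_on' with
  | monomial ν b => exact key2 ν b
  | add s s' hs hs' => rw [add_mul, map_add, hs, hs', map_add, add_smul]

lemma th_homD (hM : 3 ≤ M) (a p q : ℕ) (r : RR k M) : InDeg (dN a) (th hM a p q r) := by
  classical
  induction r using MvPolynomial.induction_on' with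
  | monomial μ c =>
    rw [th_monomial]
    split_ifs with h
    · rw [psi_monomial]
      have h1 := psi0_homD k M hM (nw μ) c
      rw [Tdeg_nw, h.1] at h1
      exact inDeg_smul_one0 h1
    · exact InDeg.zero
  | add s s' hs hs' => rw [map_add]; exact hs.add hs'

lemma th_supp (hM : 3 ≤ M) (a p q : ℕ) (r : RR k M) : SuppOn (GoodE M hM a) (th hM a p q r) := by
  classical
  induction r using MvPolynomial.induction_on' with
  | monomial μ c =>
    rw [th_monomial]
    split_ifs with h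
    · rw [psi_monomial]
      have h1 := psi0_supp k M hM (nw μ) c
      rw [Tdeg_nw, h.1] at h1
      exact h1
    · exact SuppOn.zero
  | add s s' hs hs' => rw [map_add]; exact hs.add hs'

/-- the monomial `w₀^p w₁^q`. -/
noncomputable def ww (k : Type u) [Field k] (M p q : ℕ) : RR k M :=
  MvPolynomial.X (.w 0) ^ p * MvPolynomial.X (.w 1) ^ q

/-- the exponent of `w₀^p w₁^q`. -/
noncomputable def we (M p q : ℕ) : Ix M →₀ ℕ :=
  Finsupp.single (.w 0) p + Finsupp.single (.w 1) q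

lemma monomial_mul_ww (μ : Ix M →₀ ℕ) (c : k) (p q : ℕ) :
    (MvPolynomial.monomial μ c * ww k M p q : RR k M) = MvPolynomial.monomial (μ + we M p q) c := by
  rw [ww, we, MvPolynomial.X_pow_eq_monomial, MvPolynomial.X_pow_eq_monomial,
    MvPolynomial.monomial_mul, MvPolynomial.monomial_mul, mul_one, mul_one]

lemma ww_mul (p q p' q' : ℕ) : ww k M p q * ww k M p' q' = ww k M (p + p') (q + q') := by
  unfold ww
  rw [pow_add, pow_add]
  ring

lemma we_w0 (p q : ℕ) : we M p q (.w 0) = p := by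
  classical
  simp [we]

lemma we_w1 (p q : ℕ) : we M p q (.w 1) = q := by
  classical
  simp [we]

lemma Tdeg_we (p q : ℕ) : Tdeg (we M p q) = 0 := by
  classical
  simp [we, Tdeg]

lemma nw_we (μ : Ix M →₀ ℕ) (p q : ℕ) (h : wdeg μ = 0) : nw (μ + we M p q) = μ := by
  classical
  have h0 := wdeg_zero h 0
  have h1 := wdeg_zero h 1
  ext i
  simp only [nw, we, Finsupp.add_apply, Finsupp.erase_apply, Finsupp.single_apply]
  cases i with
  | Y j => simp
  | Z j => simp
  | T t => simp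
  | w j => fin_cases j <;> simp [h0, h1]

/-- the product of `x` with another monomial in `w` of the same degree is killed. -/
lemma th_ww_ne (hM : 3 ≤ M) {a p q p' q' : ℕ} (h : p' + q' = p + q) (h' : p' ≠ p) (x : RR k M) :
    th hM a p q (x * ww k M p' q') = 0 := by
  classical
  induction x using MvPolynomial.induction_on' with
  | monomial μ c =>
    rw [monomial_mul_ww, th_monomial, if_neg]
    rintro ⟨_, h2, h3⟩
    rw [Finsupp.add_apply, we_w0] at h2
    rw [Finsupp.add_apply, we_w1] at h3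
    omega
  | add x y hx hy => rw [add_mul, map_add, hx, hy, add_zero]

lemma psi0_monomial_zero (hM : 3 ≤ M) (ν : Ix M →₀ ℕ) (b : k) (h : wdeg ν ≠ 0) :
    psi0 k M hM (MvPolynomial.monomial ν b) = 0 := by
  by_cases h0 : ν (.w 0) = 0
  · refine aeval_zero ν b (.w 1) ?_ rfl
    intro h1
    apply h
    unfold wdeg
    rw [h0, h1]
  · exact aeval_zero ν b (.w 0) h0 rfl

lemma dN_injective : Function.Injective dN := by
  intro a b h
  have := congrArg Prod.fst h
  simpa [dN] using this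

lemma th_ww (hM : 3 ≤ M) (a p q : ℕ) (x : RR k M) :
    th hM a p q (x * ww k M p q) =
      MvPolynomial.weightedHomogeneousComponent wt (dN a) (psi0 k M hM x) • one0 k M := by
  classical
  induction x using MvPolynomial.induction_on' with
  | monomial μ c =>
    rw [monomial_mul_ww, th_monomial]
    by_cases hw : wdeg μ = 0
    · by_cases hT : Tdeg μ = a
      · have h1 : sel a p q (μ + we M p q) := by
          refine ⟨?_, ?_, ?_⟩
          · rw [Tdeg_add, Tdeg_we, hT, add_zero]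
          · rw [Finsupp.add_apply, we_w0, wdeg_zero hw, zero_add]
          · rw [Finsupp.add_apply, we_w1, wdeg_zero hw, zero_add]
        rw [if_pos h1, psi_monomial, nw_we μ p q hw]
        have h2 := psi0_homD k M hM μ c
        rw [hT] at h2
        rw [h2.weightedHomogeneousComponent_same]
      · rw [if_neg]
        · have h2 := psi0_homD k M hM μ c
          rw [h2.weightedHomogeneousComponent_ne (dN a) (fun h => hT (dN_injective h).symm), zero_smul]
        · rintro ⟨h2, _, _⟩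
          rw [Tdeg_add, Tdeg_we, add_zero] at h2
          exact hT h2
    · rw [psi0_monomial_zero hM μ c hw, map_zero, zero_smul, if_neg]
      rintro ⟨_, h2, h3⟩
      rw [Finsupp.add_apply, we_w0] at h2
      rw [Finsupp.add_apply, we_w1] at h3
      apply hw
      unfold wdeg
      omega
  | add x y hx hy =>
    have h1 : psi0 k M hM (x + y) = psi0 k M hM x + psi0 k M hM y := map_add _ _ _
    have h2 : th hM a p q ((x + y) * ww k M p q) =
        th hM a p q (x * ww k M p q) + th hM a p q (y * ww k M p q) := by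
      rw [add_mul, map_add]
    rw [h2, h1, hx, hy, ← add_smul]
    refine congrArg (fun z : PP k M => z • one0 k M) ?_
    exact (map_add (MvPolynomial.weightedHomogeneousComponent wt (dN a)) _ _).symm

/-- homogeneous components of a product with a homogeneous factor. -/
lemma comp_mul {F : PP k M} {dF : ℤ × ℤ × ℤ} (hF : HomD F dF) (d : ℤ × ℤ × ℤ) (g : PP k M) :
    MvPolynomial.weightedHomogeneousComponent wt (d + dF) (F * g) =
      F * MvPolynomial.weightedHomogeneousComponent wt d g := by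
  classical
  induction g using MvPolynomial.induction_on' with
  | monomial ν c =>
    have h1 : HomD (MvPolynomial.monomial ν c : PP k M) (Finsupp.weight wt ν) :=
      MvPolynomial.isWeightedHomogeneous_monomial wt ν c rfl
    have h2 := hF.mul h1
    by_cases h : Finsupp.weight wt ν = d
    · subst h
      rw [h1.weightedHomogeneousComponent_same, add_comm, h2.weightedHomogeneousComponent_same]
    · rw [h1.weightedHomogeneousComponent_ne d (Ne.symm h), mul_zero,
        h2.weightedHomogeneousComponent_ne]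
      intro h3
      apply h
      rw [add_comm] at h3
      exact (add_left_cancel h3).symm
  | add g g' hg hg' => rw [mul_add, map_add, map_add, hg, hg', mul_add]

/-- the image of `F` in the degree `(N, N, N)`. -/
def VV (a : ℕ) (z : X k (st0 M)) : Prop :=
  ∃ y : X k (st0 M), InDeg (d1 a) y ∧ Fpoly k M • y = z

lemma VV.zero {a : ℕ} : VV a (0 : X k (st0 M)) := ⟨0, InDeg.zero, smul_zero _⟩

lemma VV.add {a : ℕ} {z z' : X k (st0 M)} (h : VV a z) (h' : VV a z') : VV a (z + z') := by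
  obtain ⟨y, hy, rfl⟩ := h
  obtain ⟨y', hy', rfl⟩ := h'
  exact ⟨y + y', hy.add hy', smul_add _ _ _⟩

lemma VV_of_Qk (hM : 3 ≤ M) (a : ℕ) {x : RR k M} (hx : x ∈ Qk k M hM) :
    VV a (MvPolynomial.weightedHomogeneousComponent wt (dN a) (psi0 k M hM x) • one0 k M) := by
  have h1 : psi0 k M hM x ∈ Ideal.span {Fpoly k M} := hx
  obtain ⟨g, hg⟩ := Ideal.mem_span_singleton'.mp h1
  rw [← hg, mul_comm g, ← d1_add a, comp_mul homD_Fpoly]
  refine ⟨MvPolynomial.weightedHomogeneousComponent wt (d1 a) g • one0 k M, ?_, ?_⟩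
  · exact inDeg_smul_one0 (MvPolynomial.weightedHomogeneousComponent_isWeightedHomogeneous _ _)
  · rw [smul_smul]

/-- the ideal generated by the squares of `w`. -/
noncomputable def cI (k : Type u) [Field k] (M : ℕ) : Ideal (RR k M) :=
  Ideal.span {(MvPolynomial.X (.w 0) : RR k M) ^ 2, (MvPolynomial.X (.w 1) : RR k M) ^ 2}

/-- the ideal generated by `w₀ w₁`. -/
noncomputable def mI (k : Type u) [Field k] (M : ℕ) : Ideal (RR k M) :=
  Ideal.span {(MvPolynomial.X (.w 0) : RR k M) * MvPolynomial.X (.w 1)}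

lemma cI_pow_le (n : ℕ) :
    cI k M ^ n ≤ Ideal.span {f | ∃ i j, i + j = n ∧ f = ww k M (2 * i) (2 * j)} := by
  induction n with
  | zero =>
    rw [pow_zero, Ideal.one_eq_top]
    refine le_of_eq (Eq.symm ?_)
    rw [Ideal.eq_top_iff_one]
    refine Ideal.subset_span ⟨0, 0, rfl, ?_⟩
    simp [ww]
  | succ n ih =>
    rw [pow_succ]
    refine (Ideal.mul_mono_left ih).trans ?_
    rw [cI, Ideal.span_mul_span', Ideal.span_le]
    rintro _ ⟨f, ⟨i, j, hij, rfl⟩, g, hg, rfl⟩
    rcases hg with rfl | hg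
    · refine Ideal.subset_span ⟨i + 1, j, by omega, ?_⟩
      simp only [ww]
      ring
    · rw [Set.mem_singleton_iff] at hg
      subst hg
      refine Ideal.subset_span ⟨i, j + 1, by omega, ?_⟩
      simp only [ww]
      ring

lemma mI_cI_pow_le (n : ℕ) :
    mI k M * cI k M ^ n ≤
      Ideal.span {f | ∃ i j, i + j = n ∧ f = ww k M (2 * i + 1) (2 * j + 1)} := by
  refine (Ideal.mul_mono_right (cI_pow_le n)).trans ?_
  rw [mI, Ideal.span_mul_span', Ideal.span_le]
  rintro _ ⟨g, hg, f, ⟨i, j, hij, rfl⟩, rfl⟩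
  rw [Set.mem_singleton_iff] at hg
  subst hg
  refine Ideal.subset_span ⟨i, j, by omega, ?_⟩
  simp only [ww]
  ring

lemma ww_even_mem (i j n : ℕ) (h : i + j = n) : ww k M (2 * i) (2 * j) ∈ cI k M ^ n := by
  subst h
  unfold ww
  rw [pow_mul, pow_mul, pow_add]
  exact Ideal.mul_mem_mul (Ideal.pow_mem_pow (Ideal.subset_span (by simp)) _)
    (Ideal.pow_mem_pow (Ideal.subset_span (by simp)) _)

lemma ww_odd_mem (i j n : ℕ) (h : i + j = n) :
    ww k M (2 * i + 1) (2 * j + 1) ∈ mI k M * cI k M ^ n := by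
  have h1 : ww k M (2 * i + 1) (2 * j + 1) =
      (MvPolynomial.X (.w 0) * MvPolynomial.X (.w 1)) * ww k M (2 * i) (2 * j) := by
    simp only [ww]
    ring
  rw [h1]
  exact Ideal.mul_mem_mul (Ideal.subset_span (by simp)) (ww_even_mem i j n h)

/-- induction for products of an ideal with a span. -/
lemma th_mul_span (hM : 3 ≤ M) (a p q : ℕ) (J : Ideal (RR k M)) (S : Set (RR k M))
    (Pr : X k (st0 M) → Prop) (h0 : Pr 0) (hadd : ∀ z z', Pr z → Pr z' → Pr (z + z'))
    (h : ∀ x ∈ J, ∀ s ∈ S, Pr (th hM a p q (x * s))) {r : RR k M} (hr : r ∈ J * Ideal.span S) :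
    Pr (th hM a p q r) := by
  refine Submodule.mul_induction_on hr ?_ ?_
  · intro x hx s hs
    refine Submodule.span_induction (p := fun s _ => ∀ x ∈ J, Pr (th hM a p q (x * s)))
      ?_ ?_ ?_ ?_ hs x hx
    · intro s hs x hx
      exact h x hx s hs
    · intro x _
      rw [mul_zero, map_zero]
      exact h0
    · intro s s' _ _ hs hs' x hx
      rw [mul_add, map_add]
      exact hadd _ _ (hs x hx) (hs' x hx)
    · intro g s _ hs x hx
      rw [smul_eq_mul, ← mul_assoc]
      exact hs _ (Ideal.mul_mem_right g J hx)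
  · intro x y hx hy
    rw [map_add]
    exact hadd _ _ hx hy

/-- `θ_l` vanishes on `(T)^a c^n`. -/
lemma th_even (hM : 3 ≤ M) (a n l : ℕ) (hl : l < n) {r : RR k M}
    (hr : r ∈ TI k M ^ a * cI k M ^ n) : th hM a (2 * n - 1 - 2 * l) (2 * l + 1) r = 0 := by
  refine th_mul_span hM a _ _ (TI k M ^ a) _ (fun z => z = 0) rfl
    (fun z z' h h' => by rw [h, h', add_zero]) ?_ (Ideal.mul_mono_right (cI_pow_le n) hr)
  rintro x _ s ⟨i, j, hij, rfl⟩
  exact th_ww_ne hM (by omega) (by omega) x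

/-- `θ_l` vanishes on `(T)^{a+1}`. -/
lemma th_high (hM : 3 ≤ M) (a p q : ℕ) {r : RR k M} (hr : r ∈ TI k M ^ (a + 1)) :
    th hM a p q r = 0 := by
  classical
  rw [mem_TI_pow] at hr
  rw [r.as_sum, map_sum]
  refine Finset.sum_eq_zero fun μ hμ => ?_
  rw [th_monomial, if_neg]
  intro h
  have := hr μ hμ
  have := h.1
  omega

lemma th_odd (hM : 3 ≤ M) (a n l : ℕ) (hl : l < n) {r : RR k M}
    (hr : r ∈ Qk k M hM * (mI k M * cI k M ^ (n - 1))) :
    VV a (th hM a (2 * n - 1 - 2 * l) (2 * l + 1) r) := by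
  refine th_mul_span hM a _ _ (Qk k M hM) _ (VV a) VV.zero
    (fun z z' h h' => h.add h') ?_ (Ideal.mul_mono_right (mI_cI_pow_le (n - 1)) hr)
  rintro x hx s ⟨i, j, hij, rfl⟩
  by_cases h : 2 * i + 1 = 2 * n - 1 - 2 * l
  · have h' : 2 * j + 1 = 2 * l + 1 := by omega
    rw [h, h', th_ww]
    exact VV_of_Qk hM a hx
  · rw [th_ww_ne hM (by omega) h x]
    exact VV.zero

lemma II_pow (hM : 3 ≤ M) (δ n : ℕ) (hn : 1 ≤ n)
    (h : Qk k M hM ⊓ TI k M ^ (δ * n) = TI k M ^ (δ * n - δ) * (Qk k M hM ⊓ TI k M ^ δ)) :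
    II k M hM δ ^ n = TI k M ^ (δ * n) * cI k M ^ n ⊔
      ((Qk k M hM ⊓ TI k M ^ (δ * n)) ⊔ TI k M ^ (δ * n + 1)) *
        (mI k M * cI k M ^ (n - 1)) := by
  have h1 : (Qk k M hM ⊓ TI k M ^ δ) ⊔ TI k M ^ (δ + 1) ≤ TI k M ^ δ :=
    sup_le inf_le_right (Ideal.pow_le_pow_right (Nat.le_succ δ))
  have h2 := ideal_pow_formula (TI k M ^ δ) ((Qk k M hM ⊓ TI k M ^ δ) ⊔ TI k M ^ (δ + 1)) h1
    (MvPolynomial.X (.w 0) : RR k M) (MvPolynomial.X (.w 1)) n hn
  have h3 : (TI k M ^ δ) ^ n = TI k M ^ (δ * n) := (pow_mul _ _ _).symm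
  have h4 : (TI k M ^ δ) ^ (n - 1) * ((Qk k M hM ⊓ TI k M ^ δ) ⊔ TI k M ^ (δ + 1)) =
      (Qk k M hM ⊓ TI k M ^ (δ * n)) ⊔ TI k M ^ (δ * n + 1) := by
    rw [h, ← pow_mul, Ideal.mul_sup, ← pow_add]
    obtain ⟨m, rfl⟩ : ∃ m, n = m + 1 := ⟨n - 1, by omega⟩
    have e1 : δ * (m + 1) - δ = δ * (m + 1 - 1) := by
      rw [Nat.mul_succ, Nat.add_sub_cancel, Nat.add_sub_cancel]
    have e2 : δ * (m + 1 - 1) + (δ + 1) = δ * (m + 1) + 1 := by
      rw [Nat.add_sub_cancel, Nat.mul_succ]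
      omega
    rw [e1, e2]
  rw [h3, h4] at h2
  exact h2

lemma monomial_nw_mem (μ : Ix M →₀ ℕ) (c : k) {b : ℕ} (h : b ≤ Tdeg μ) :
    (MvPolynomial.monomial (nw μ) c : RR k M) ∈ TI k M ^ b := by
  classical
  rw [mem_TI_pow]
  intro ν hν
  have := MvPolynomial.support_monomial_subset hν
  rw [Finset.mem_singleton] at this
  rw [this, Tdeg_nw]
  exact h

lemma monomial_eq (μ : Ix M →₀ ℕ) (c : k) : (MvPolynomial.monomial μ c : RR k M) =
    MvPolynomial.monomial (nw μ) c * ww k M (μ (.w 0)) (μ (.w 1)) := by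
  rw [monomial_mul_ww, we, ← add_assoc, nw_add]

/-- the ideal of the elements which are killed for trivial reasons. -/
noncomputable def EE (k : Type u) [Field k] (M a n : ℕ) : Ideal (RR k M) :=
  TI k M ^ a * cI k M ^ n ⊔ TI k M ^ (a + 1) * (mI k M * cI k M ^ (n - 1))

/-- decomposition of the elements of `L_n`. -/
lemma decomp {a n : ℕ} (r : RR k M)
    (hr : ∀ μ ∈ r.support, a ≤ Tdeg μ ∧ 2 * n ≤ wdeg μ) :
    ∃ ρ : Fin n → RR k M, (∀ l, ∀ ν ∈ (ρ l).support, Tdeg ν = a ∧ wdeg ν = 0) ∧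
      r - ∑ l, ρ l * ww k M (2 * n - 1 - 2 * l.1) (2 * l.1 + 1) ∈ EE k M a n := by
  classical
  have key : ∀ (s : Finset (Ix M →₀ ℕ)) (c : (Ix M →₀ ℕ) → k),
      (∀ μ ∈ s, a ≤ Tdeg μ ∧ 2 * n ≤ wdeg μ) →
      ∃ ρ : Fin n → RR k M, (∀ l, ∀ ν ∈ (ρ l).support, Tdeg ν = a ∧ wdeg ν = 0) ∧
      (∑ μ ∈ s, MvPolynomial.monomial μ (c μ) : RR k M) -
        ∑ l, ρ l * ww k M (2 * n - 1 - 2 * l.1) (2 * l.1 + 1) ∈ EE k M a n := by
    intro s c
    induction s using Finset.induction_on with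
    | empty =>
      intro _
      refine ⟨fun _ => 0, fun l ν hν => ?_, ?_⟩
      · simp at hν
      · simp
    | insert μ s hμs ih =>
      intro hs
      obtain ⟨ρ, hρ, hE⟩ := ih fun ν hν => hs ν (Finset.mem_insert_of_mem hν)
      obtain ⟨hT, hw⟩ := hs μ (Finset.mem_insert_self μ s)
      rw [Finset.sum_insert hμs]
      by_cases h1 : n ≤ μ (.w 0) / 2 + μ (.w 1) / 2
      · refine ⟨ρ, hρ, ?_⟩
        rw [add_sub_assoc]
        refine Ideal.add_mem _ ?_ hE
        refine Ideal.mem_sup_left ?_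
        have h2 : (MvPolynomial.monomial μ (c μ) : RR k M) =
            (MvPolynomial.monomial (nw μ) (c μ) * ww k M (μ (.w 0) - 2 * min (μ (.w 0) / 2) n)
              (μ (.w 1) - 2 * (n - min (μ (.w 0) / 2) n))) *
            ww k M (2 * min (μ (.w 0) / 2) n) (2 * (n - min (μ (.w 0) / 2) n)) := by
          rw [mul_assoc, ww_mul, monomial_eq]
          congr 2 <;> omega
        rw [h2]
        refine Ideal.mul_mem_mul ?_ ?_
        · exact Ideal.mul_mem_right _ _ (monomial_nw_mem μ (c μ) hT)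
        · exact ww_even_mem _ _ _ (by omega)
      · unfold wdeg at hw
        have h2 : μ (.w 0) = 2 * (μ (.w 0) / 2) + 1 := by omega
        have h3 : μ (.w 1) = 2 * (μ (.w 1) / 2) + 1 := by omega
        have h4 : μ (.w 0) / 2 + μ (.w 1) / 2 = n - 1 := by omega
        by_cases h5 : Tdeg μ = a
        · have hj : μ (.w 1) / 2 < n := by omega
          refine ⟨Function.update ρ ⟨μ (.w 1) / 2, hj⟩
            (ρ ⟨μ (.w 1) / 2, hj⟩ + MvPolynomial.monomial (nw μ) (c μ)), ?_, ?_⟩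
          · intro l ν hν
            by_cases hl : l = ⟨μ (.w 1) / 2, hj⟩
            · subst hl
              rw [Function.update_self] at hν
              rcases Finset.mem_union.mp (MvPolynomial.support_add hν) with h6 | h6
              · exact hρ _ ν h6
              · have := MvPolynomial.support_monomial_subset h6
                rw [Finset.mem_singleton] at this
                rw [this, Tdeg_nw, wdeg_nw]
                exact ⟨h5, rfl⟩
            · rw [Function.update_of_ne hl] at hν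
              exact hρ l ν hν
          · have h6 : ∑ l, Function.update ρ ⟨μ (.w 1) / 2, hj⟩
                (ρ ⟨μ (.w 1) / 2, hj⟩ + MvPolynomial.monomial (nw μ) (c μ)) l *
                ww k M (2 * n - 1 - 2 * l.1) (2 * l.1 + 1) =
                (∑ l, ρ l * ww k M (2 * n - 1 - 2 * l.1) (2 * l.1 + 1)) +
                MvPolynomial.monomial μ (c μ) := by
              have h7 : ∀ l : Fin n, Function.update ρ ⟨μ (.w 1) / 2, hj⟩
                (ρ ⟨μ (.w 1) / 2, hj⟩ + MvPolynomial.monomial (nw μ) (c μ)) l *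
                ww k M (2 * n - 1 - 2 * l.1) (2 * l.1 + 1) =
                ρ l * ww k M (2 * n - 1 - 2 * l.1) (2 * l.1 + 1) +
                (if l = ⟨μ (.w 1) / 2, hj⟩ then MvPolynomial.monomial μ (c μ) else 0) := by
                intro l
                by_cases hl : l = ⟨μ (.w 1) / 2, hj⟩
                · have e1 : 2 * n - 1 - 2 * l.1 = μ (.w 0) := by
                    rw [hl]
                    simp only
                    omega
                  have e2 : 2 * l.1 + 1 = μ (.w 1) := by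
                    rw [hl]
                    simp only
                    omega
                  have e3 : Function.update ρ ⟨μ (.w 1) / 2, hj⟩
                      (ρ ⟨μ (.w 1) / 2, hj⟩ + MvPolynomial.monomial (nw μ) (c μ)) l =
                      ρ l + MvPolynomial.monomial (nw μ) (c μ) := by
                    rw [hl, Function.update_self]
                  rw [e1, e2, if_pos hl, e3, add_mul, ← monomial_eq μ (c μ)]
                · rw [Function.update_of_ne hl, if_neg hl, add_zero]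
              rw [Finset.sum_congr rfl fun l _ => h7 l, Finset.sum_add_distrib,
                Finset.sum_ite_eq' Finset.univ, if_pos (Finset.mem_univ _)]
            rw [h6]
            have h8 : ∀ A B C : RR k M, A + B - (C + A) = B - C := by
              intro A B C
              ring
            rw [h8]
            exact hE
        · refine ⟨ρ, hρ, ?_⟩
          rw [add_sub_assoc]
          refine Ideal.add_mem _ ?_ hE
          refine Ideal.mem_sup_right ?_
          have h6 : (MvPolynomial.monomial μ (c μ) : RR k M) =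
              MvPolynomial.monomial (nw μ) (c μ) *
                ww k M (2 * (μ (.w 0) / 2) + 1) (2 * (μ (.w 1) / 2) + 1) := by
            rw [monomial_eq, ← h2, ← h3]
          rw [h6]
          exact Ideal.mul_mem_mul (monomial_nw_mem μ (c μ) (by omega)) (ww_odd_mem _ _ _ h4)
  obtain ⟨ρ, hρ, hE⟩ := key r.support (fun μ => MvPolynomial.coeff μ r) hr
  rw [← r.as_sum] at hE
  exact ⟨ρ, hρ, hE⟩

lemma th_EE (hM : 3 ≤ M) (a n l : ℕ) (hl : l < n) {r : RR k M} (hr : r ∈ EE k M a n) :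
    th hM a (2 * n - 1 - 2 * l) (2 * l + 1) r = 0 := by
  unfold EE at hr
  obtain ⟨x, hx, y, hy, rfl⟩ := Submodule.mem_sup.mp hr
  have hy' : y ∈ TI k M ^ (a + 1) := Ideal.mul_le_left hy
  rw [map_add, th_even hM a n l hl hx, zero_add]
  exact th_high hM a _ _ hy'

/-- `psi0` of an element with all monomials of `T`-degree `a`. -/
lemma comp_psi0 (hM : 3 ≤ M) {a : ℕ} {ρ : RR k M} (h : ∀ ν ∈ ρ.support, Tdeg ν = a ∧ wdeg ν = 0) :
    MvPolynomial.weightedHomogeneousComponent wt (dN a) (psi0 k M hM ρ) = psi0 k M hM ρ := by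
  have h1 : HomD (psi0 k M hM ρ) (dN a) := by
    rw [ρ.as_sum, map_sum]
    refine MvPolynomial.IsWeightedHomogeneous.sum _ _ _ fun ν hν => ?_
    have h2 := psi0_homD k M hM ν (MvPolynomial.coeff ν ρ)
    rw [(h ν hν).1] at h2
    exact h2
  exact h1.weightedHomogeneousComponent_same

lemma th_sum (hM : 3 ≤ M) {a n : ℕ} {ρ : Fin n → RR k M}
    (h : ∀ l, ∀ ν ∈ (ρ l).support, Tdeg ν = a ∧ wdeg ν = 0) (l : Fin n) :
    th hM a (2 * n - 1 - 2 * l.1) (2 * l.1 + 1)
      (∑ l, ρ l * ww k M (2 * n - 1 - 2 * l.1) (2 * l.1 + 1)) =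
      psi0 k M hM (ρ l) • one0 k M := by
  rw [map_sum, Finset.sum_eq_single l]
  · rw [th_ww, comp_psi0 hM (h l)]
  · intro l' _ hl'
    have h1 : l'.1 ≠ l.1 := fun h => hl' (Fin.ext h)
    have := l.2
    have := l'.2
    exact th_ww_ne hM (by omega) (by omega) _
  · intro h1
    exact absurd (Finset.mem_univ l) h1

lemma mem_Qk_of_VV (hM : 3 ≤ M) {a : ℕ} {ρ : RR k M} (h : VV a (psi0 k M hM ρ • one0 k M)) :
    ρ ∈ Qk k M hM := by
  obtain ⟨y, _, hy⟩ := h
  obtain ⟨g, rfl⟩ := smul_one0_surjective y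
  simp only [smul_smul] at hy
  have h1 : Fpoly k M * g = psi0 k M hM ρ := smul_one0_injective hy
  change psi0 k M hM ρ ∈ Ideal.span {Fpoly k M}
  rw [← h1]
  exact Ideal.mul_mem_right _ _ (Ideal.mem_span_singleton_self _)

/-- the kernel of all `θ_l` on `L_n` is `I^n`. -/
lemma mem_II_pow_iff (hM : 3 ≤ M) (δ n : ℕ) (hn : 1 ≤ n)
    (h : Qk k M hM ⊓ TI k M ^ (δ * n) = TI k M ^ (δ * n - δ) * (Qk k M hM ⊓ TI k M ^ δ))
    {r : RR k M} (hr : ∀ μ ∈ r.support, δ * n ≤ Tdeg μ ∧ 2 * n ≤ wdeg μ) :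
    r ∈ II k M hM δ ^ n ↔
      ∀ l : Fin n, VV (δ * n) (th hM (δ * n) (2 * n - 1 - 2 * l.1) (2 * l.1 + 1) r) := by
  rw [II_pow hM δ n hn h]
  constructor
  · intro h1 l
    obtain ⟨x, hx, y, hy, rfl⟩ := Submodule.mem_sup.mp h1
    rw [map_add]
    refine VV.add ?_ ?_
    · rw [th_even hM _ n l.1 l.2 hx]
      exact VV.zero
    · rw [Ideal.sup_mul] at hy
      obtain ⟨z, hz, z', hz', rfl⟩ := Submodule.mem_sup.mp hy
      rw [map_add]
      refine VV.add ?_ ?_
      · have hz2 : z ∈ Qk k M hM * (mI k M * cI k M ^ (n - 1)) :=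
          Ideal.mul_mono_left inf_le_left hz
        exact th_odd hM _ n l.1 l.2 hz2
      · have hz3 : z' ∈ TI k M ^ (δ * n + 1) := Ideal.mul_le_left hz'
        rw [th_high hM _ _ _ hz3]
        exact VV.zero
  · intro h1
    obtain ⟨ρ, hρ, hE⟩ := decomp r hr
    have h2 : ∀ l : Fin n, psi0 k M hM (ρ l) • one0 k M =
        th hM (δ * n) (2 * n - 1 - 2 * l.1) (2 * l.1 + 1) r := by
      intro l
      rw [← th_sum hM hρ l]
      have h3 := th_EE hM (δ * n) n l.1 l.2 hE
      rw [map_sub, sub_eq_zero] at h3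
      exact h3.symm
    have h3 : ∀ l : Fin n, ρ l ∈ Qk k M hM ⊓ TI k M ^ (δ * n) := by
      intro l
      refine ⟨mem_Qk_of_VV hM (a := δ * n) ?_, ?_⟩
      · rw [h2 l]
        exact h1 l
      · exact mem_TI_pow.mpr fun ν hν => (hρ l ν hν).1.ge
    have h4 : EE k M (δ * n) n ≤ TI k M ^ (δ * n) * cI k M ^ n ⊔
      ((Qk k M hM ⊓ TI k M ^ (δ * n)) ⊔ TI k M ^ (δ * n + 1)) *
        (mI k M * cI k M ^ (n - 1)) := by
      refine sup_le le_sup_left (le_sup_of_le_right (Ideal.mul_mono_left le_sup_right))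
    have h5 := h4 hE
    rw [← sub_add_cancel r (∑ l, ρ l * ww k M (2 * n - 1 - 2 * l.1) (2 * l.1 + 1))]
    refine Ideal.add_mem _ h5 (Ideal.sum_mem _ fun l _ => ?_)
    refine Ideal.mem_sup_right (Ideal.mul_mem_mul (Ideal.mem_sup_left (h3 l)) ?_)
    have h6 : 2 * n - 1 - 2 * l.1 = 2 * (n - 1 - l.1) + 1 := by
      have := l.2
      omega
    rw [h6]
    exact ww_odd_mem _ _ _ (by have := l.2; omega)

lemma cI_le : cI k M ≤ WI k M ^ 2 := by
  have h : ∀ i : Fin 2, (MvPolynomial.X (.w i) : RR k M) ∈ WI k M :=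
    fun i => Ideal.subset_span ⟨i, rfl⟩
  rw [cI, Ideal.span_le]
  rintro f (rfl | hf)
  · exact Ideal.pow_mem_pow (h 0) 2
  · rw [Set.mem_singleton_iff] at hf
    subst hf
    exact Ideal.pow_mem_pow (h 1) 2

lemma mI_le : mI k M ≤ WI k M ^ 2 := by
  have h : ∀ i : Fin 2, (MvPolynomial.X (.w i) : RR k M) ∈ WI k M :=
    fun i => Ideal.subset_span ⟨i, rfl⟩
  rw [mI, Ideal.span_singleton_le_iff_mem, sq]
  exact Ideal.mul_mem_mul (h 0) (h 1)

lemma cI_pow_le_WI (n : ℕ) : cI k M ^ n ≤ WI k M ^ (2 * n) := by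
  rw [pow_mul]
  exact Ideal.pow_right_mono cI_le n

lemma mI_cI_le_WI (n : ℕ) (hn : 1 ≤ n) : mI k M * cI k M ^ (n - 1) ≤ WI k M ^ (2 * n) := by
  have h : 2 * n = 2 + 2 * (n - 1) := by omega
  rw [h, pow_add]
  exact Ideal.mul_mono mI_le (cI_pow_le_WI (n - 1))

lemma ww_mem_WI (p q : ℕ) : ww k M p q ∈ WI k M ^ (p + q) := by
  have h : ∀ i : Fin 2, (MvPolynomial.X (.w i) : RR k M) ∈ WI k M :=
    fun i => Ideal.subset_span ⟨i, rfl⟩
  rw [pow_add]
  exact Ideal.mul_mem_mul (Ideal.pow_mem_pow (h 0) p) (Ideal.pow_mem_pow (h 1) q)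

lemma II_pow_le (hM : 3 ≤ M) (δ n : ℕ) (hn : 1 ≤ n)
    (h : Qk k M hM ⊓ TI k M ^ (δ * n) = TI k M ^ (δ * n - δ) * (Qk k M hM ⊓ TI k M ^ δ)) :
    II k M hM δ ^ n ≤ Ln k M (δ * n) (2 * n) := by
  rw [II_pow hM δ n hn h]
  refine sup_le ?_ ?_
  · exact Ideal.mul_mono_right (cI_pow_le_WI n)
  · refine Ideal.mul_mono (sup_le inf_le_right (Ideal.pow_le_pow_right (Nat.le_succ _))) ?_
    exact mI_cI_le_WI n hn

/-- the element `θ_l(r)` of the degree `(a, a, a)` part. -/
noncomputable def tP (hM : 3 ≤ M) (a p q : ℕ) (r : RR k M) : Pc k (dN a) (st0 M) :=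
  ⟨th hM a p q r, th_homD hM a p q r⟩

lemma mkQ_tP_eq_zero (hM : 3 ≤ M) (a p q : ℕ) (r : RR k M) :
    (LinearMap.range (FN k M a (st0 M))).mkQ (tP hM a p q r) = 0 ↔ VV a (th hM a p q r) := by
  rw [Submodule.mkQ_apply, Submodule.Quotient.mk_eq_zero]
  constructor
  · rintro ⟨y, hy⟩
    exact ⟨y.1, y.2, congrArg Subtype.val hy⟩
  · rintro ⟨y, hy, h⟩
    exact ⟨⟨y, hy⟩, Subtype.ext h⟩

/-- the map `L_n → (S_{δn})^n`. -/
noncomputable def Th (hM : 3 ≤ M) (a n : ℕ) :
    ↥(Ln k M a (2 * n)) →ₗ[RR k M] (Fin n → SN k M hM a) where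
  toFun r l := ⟨(LinearMap.range (FN k M a (st0 M))).mkQ
    (tP hM a (2 * n - 1 - 2 * l.1) (2 * l.1 + 1) r.1),
    ⟨tP hM a (2 * n - 1 - 2 * l.1) (2 * l.1 + 1) r.1, th_supp hM _ _ _ _, rfl⟩⟩
  map_add' r s := by
    funext l
    refine Subtype.ext ?_
    change (LinearMap.range (FN k M a (st0 M))).mkQ _ =
      (LinearMap.range (FN k M a (st0 M))).mkQ _ + (LinearMap.range (FN k M a (st0 M))).mkQ _
    rw [← map_add]
    congr 1
    exact Subtype.ext (map_add (th hM a (2 * n - 1 - 2 * l.1) (2 * l.1 + 1)) r.1 s.1)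
  map_smul' t r := by
    funext l
    refine Subtype.ext ?_
    change (LinearMap.range (FN k M a (st0 M))).mkQ _ =
      t • (LinearMap.range (FN k M a (st0 M))).mkQ _
    rw [← map_smul]
    congr 1
    refine Subtype.ext ?_
    refine th_mul hM t fun μ hμ => ?_
    have h1 := mem_Ln.mp r.2 μ hμ
    have := l.2
    exact ⟨h1.1, by omega⟩

lemma Th_eq_zero (hM : 3 ≤ M) (a n : ℕ) (r : ↥(Ln k M a (2 * n))) :
    Th hM a n r = 0 ↔
      ∀ l : Fin n, VV a (th hM a (2 * n - 1 - 2 * l.1) (2 * l.1 + 1) r.1) := by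
  constructor
  · intro h l
    have h1 := congrArg Subtype.val (congrFun h l)
    exact (mkQ_tP_eq_zero hM _ _ _ _).mp h1
  · intro h
    funext l
    exact Subtype.ext ((mkQ_tP_eq_zero hM _ _ _ _).mpr (h l))

lemma Th_surjective (hM : 3 ≤ M) (a n : ℕ) (ha : M ≤ a) :
    Function.Surjective (Th (k := k) hM a n) := by
  intro z
  have h1 : ∀ l : Fin n, ∃ x : Pc k (dN a) (st0 M), SuppOn (GoodE M hM a) x.1 ∧
      (LinearMap.range (FN k M a (st0 M))).mkQ x = (z l).1 := by
    intro l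
    obtain ⟨x, hx, hx2⟩ := (z l).2
    exact ⟨x, hx, hx2⟩
  choose x hx hxz using h1
  choose b hb hbx using fun l => gen k M hM a ha (x l) (hx l)
  have hmem : (∑ l : Fin n, b l * ww k M (2 * n - 1 - 2 * l.1) (2 * l.1 + 1)) ∈
      Ln k M a (2 * n) := by
    refine Ideal.sum_mem _ fun l _ => Ideal.mul_mem_mul ?_ ?_
    · exact mem_TI_pow.mpr fun ν hν => (hb l ν hν).1.ge
    · have h2 := ww_mem_WI (k := k) (M := M) (2 * n - 1 - 2 * l.1) (2 * l.1 + 1)
      have h3 : 2 * n - 1 - 2 * l.1 + (2 * l.1 + 1) = 2 * n := by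
        have := l.2
        omega
      rwa [h3] at h2
  refine ⟨⟨_, hmem⟩, ?_⟩
  funext l
  refine Subtype.ext ?_
  rw [← hxz l]
  change (LinearMap.range (FN k M a (st0 M))).mkQ _ = (LinearMap.range (FN k M a (st0 M))).mkQ _
  congr 1
  refine Subtype.ext ?_
  exact (th_sum hM hb l).trans (hbx l)

end T1

variable (k : Type u) [Field k] (M : ℕ)

theorem t1_exact (hM : 3 ≤ M) (δ : ℕ) (hδ : M ≤ δ) (h : ∀ N, δ ≤ N →
      Qk k M hM ⊓ TI k M ^ N = TI k M ^ (N - δ) * (Qk k M hM ⊓ TI k M ^ δ))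
    (n : ℕ) (hn : 1 ≤ n) :
    ∃ (f : (Fin n → SN k M hM (δ * n)) →ₗ[RR k M] (RR k M ⧸ II k M hM δ ^ n))
      (g : (RR k M ⧸ II k M hM δ ^ n) →ₗ[RR k M] (RR k M ⧸ Ln k M (δ * n) (2 * n))),
      Function.Injective f ∧ Function.Exact f g ∧ Function.Surjective g := by
  have hδn : δ ≤ δ * n := Nat.le_mul_of_pos_right δ (by omega)
  have hN := h (δ * n) hδn
  have hle := T1.II_pow_le hM δ n hn hN
  have hsurj := T1.Th_surjective (k := k) hM (δ * n) n (hδ.trans hδn)
  have hk : ∀ r : ↥(Ln k M (δ * n) (2 * n)),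
      T1.Th hM (δ * n) n r = 0 ↔ r.1 ∈ II k M hM δ ^ n := by
    intro r
    rw [T1.Th_eq_zero, T1.mem_II_pow_iff hM δ n hn hN (mem_Ln.mp r.2)]
  let ι : ↥(Ln k M (δ * n) (2 * n)) →ₗ[RR k M] (RR k M ⧸ II k M hM δ ^ n) :=
    (Submodule.mkQ (II k M hM δ ^ n)) ∘ₗ (Submodule.subtype (Ln k M (δ * n) (2 * n)))
  have hι : ∀ r : ↥(Ln k M (δ * n) (2 * n)), ι r = 0 ↔ r.1 ∈ II k M hM δ ^ n := by
    intro r
    exact Submodule.Quotient.mk_eq_zero _
  have hker : LinearMap.ker (T1.Th (k := k) hM (δ * n) n) ≤ LinearMap.ker ι := by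
    intro r hr
    rw [LinearMap.mem_ker] at hr ⊢
    rw [hι, ← hk]
    exact hr
  let f : (Fin n → SN k M hM (δ * n)) →ₗ[RR k M] (RR k M ⧸ II k M hM δ ^ n) :=
    (Submodule.liftQ (LinearMap.ker (T1.Th (k := k) hM (δ * n) n)) ι hker) ∘ₗ
      (LinearMap.quotKerEquivOfSurjective (T1.Th (k := k) hM (δ * n) n)
        hsurj).symm.toLinearMap
  have hf : ∀ r, f (T1.Th hM (δ * n) n r) = ι r := by
    intro r
    have h1 : (LinearMap.quotKerEquivOfSurjective (T1.Th (k := k) hM (δ * n) n) hsurj).symm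
        (T1.Th hM (δ * n) n r) = Submodule.Quotient.mk r := by
      rw [LinearEquiv.symm_apply_eq]
      rfl
    change Submodule.liftQ (LinearMap.ker (T1.Th (k := k) hM (δ * n) n)) ι hker
      ((LinearMap.quotKerEquivOfSurjective (T1.Th (k := k) hM (δ * n) n) hsurj).symm
        (T1.Th hM (δ * n) n r)) = ι r
    rw [h1, Submodule.liftQ_apply]
  let g : (RR k M ⧸ II k M hM δ ^ n) →ₗ[RR k M] (RR k M ⧸ Ln k M (δ * n) (2 * n)) :=
    Submodule.factor hle
  have hg : ∀ x : RR k M, g (Submodule.Quotient.mk x) = Submodule.Quotient.mk x := fun x => rfl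
  refine ⟨f, g, ?_, ?_, ?_⟩
  · rw [injective_iff_map_eq_zero]
    intro z hz
    obtain ⟨r, rfl⟩ := hsurj z
    rw [hf, hι, ← hk] at hz
    exact hz
  · intro y
    obtain ⟨x, rfl⟩ := Submodule.Quotient.mk_surjective _ y
    rw [hg, Submodule.Quotient.mk_eq_zero]
    constructor
    · intro hx
      exact ⟨T1.Th hM (δ * n) n ⟨x, hx⟩, hf ⟨x, hx⟩⟩
    · rintro ⟨z, hz⟩
      obtain ⟨r, rfl⟩ := hsurj z
      rw [hf] at hz
      have h1 : r.1 - x ∈ II k M hM δ ^ n := (Submodule.Quotient.eq _).mp hz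
      have h2 := Ideal.sub_mem _ r.2 (hle h1)
      rwa [sub_sub_cancel] at h2
  · intro y
    obtain ⟨x, rfl⟩ := Submodule.Quotient.mk_surjective _ y
    exact ⟨Submodule.Quotient.mk x, hg x⟩

end CC5166
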